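import Mathlib
set_option autoImplicit false

/-! Packing numbers of the unit ball with respect to finitely many functionals
(the dual Sudakov inequality, by shifts of the Gaussian measure). -/

namespace Pool.Agent.N248.RR

open MeasureTheory Set
open scoped ENNReal RealInnerProductSpace

variable {W : Type*} [NormedAddCommGroup W] [InnerProductSpace ℝ W] [FiniteDimensional ℝ W]
  [MeasurableSpace W] [BorelSpace W]

theorem lint_biUnion_le {α ι : Type*} [MeasurableSpace α] (μ : Measure α) (I : Finset ι)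
    (t : ι → Set α) (f : α → ℝ≥0∞) :
    ∫⁻ a in ⋃ i ∈ I, t i, f a ∂μ ≤ ∑ i ∈ I, ∫⁻ a in t i, f a ∂μ := by
  classical
  induction I using Finset.induction_on with
  | empty => simp
  | insert i I hi ih =>
    rw [Finset.set_biUnion_insert, Finset.sum_insert hi]
    exact (lintegral_union_le _ _ _).trans (add_le_add le_rfl ih)

/-- the Gaussian weight -/
noncomputable def gw (y : W) : ℝ≥0∞ := ENNReal.ofReal (Real.exp (-‖y‖ ^ 2 / 2))

omit [InnerProductSpace ℝ W] [FiniteDimensional ℝ W] in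
theorem gw_meas : Measurable (gw (W := W)) := by
  unfold gw
  fun_prop

theorem gw_ne_top : ∫⁻ y : W, gw y ≠ ∞ := by
  have h := (GaussianFourier.integrable_cexp_neg_mul_sq_norm_add (V := W) (b := 1 / 2)
    (by norm_num) 0 0).norm
  have h2 := h.lintegral_lt_top
  refine ne_of_lt (lt_of_le_of_lt (le_of_eq ?_) h2)
  refine lintegral_congr fun y => ?_
  unfold gw
  congr 1
  rw [Complex.norm_exp]
  congr 1
  have : ((-((1 : ℂ) / 2) * (‖y‖ : ℂ) ^ 2 + 0 * ((inner ℝ (0 : W) y : ℝ) : ℂ))) =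
      ((-‖y‖ ^ 2 / 2 : ℝ) : ℂ) := by
    push_cast
    ring
  rw [this, Complex.ofReal_re]

theorem gw_pos : 0 < ∫⁻ y : W, gw y := by
  rw [lintegral_pos_iff_support gw_meas]
  have : Function.support (gw (W := W)) = univ := by
    ext y
    simp only [Function.mem_support, mem_univ, iff_true]
    unfold gw
    rw [ne_eq, ENNReal.ofReal_eq_zero, not_le]
    positivity
  rw [this]
  exact Measure.measure_univ_pos.2 (NeZero.ne volume)

omit [FiniteDimensional ℝ W] [MeasurableSpace W] [BorelSpace W] in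
theorem gw_two (y v : W) :
    2 * (ENNReal.ofReal (Real.exp (-‖v‖ ^ 2 / 2)) * gw y) ≤ gw (y + v) + gw (-y + v) := by
  unfold gw
  rw [← ENNReal.ofReal_mul (by positivity), ← ENNReal.ofReal_add (by positivity) (by positivity),
    show (2 : ℝ≥0∞) = ENNReal.ofReal 2 by norm_num, ← ENNReal.ofReal_mul (by norm_num)]
  refine ENNReal.ofReal_le_ofReal ?_
  have h1 : ‖y + v‖ ^ 2 = ‖y‖ ^ 2 + 2 * ⟪y, v⟫ + ‖v‖ ^ 2 := norm_add_sq_real y v
  have h2 : ‖-y + v‖ ^ 2 = ‖y‖ ^ 2 - 2 * ⟪y, v⟫ + ‖v‖ ^ 2 := by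
    rw [norm_add_sq_real, norm_neg, inner_neg_left]
    ring
  have e1 : Real.exp (-‖y + v‖ ^ 2 / 2) = Real.exp (-‖v‖ ^ 2 / 2) * Real.exp (-‖y‖ ^ 2 / 2) *
      Real.exp (-⟪y, v⟫) := by
    rw [← Real.exp_add, ← Real.exp_add, h1]
    congr 1
    ring
  have e2 : Real.exp (-‖-y + v‖ ^ 2 / 2) = Real.exp (-‖v‖ ^ 2 / 2) * Real.exp (-‖y‖ ^ 2 / 2) *
      Real.exp ⟪y, v⟫ := by
    rw [← Real.exp_add, ← Real.exp_add, h2]
    congr 1
    ring
  rw [e1, e2]
  have h3 := Real.one_le_cosh ⟪y, v⟫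
  rw [Real.cosh_eq] at h3
  have h4 : 0 < Real.exp (-‖v‖ ^ 2 / 2) * Real.exp (-‖y‖ ^ 2 / 2) := by positivity
  nlinarith

theorem gw_shift (K : Set W) (hK : MeasurableSet K) (hs : ∀ y ∈ K, -y ∈ K) (v : W) :
    ENNReal.ofReal (Real.exp (-‖v‖ ^ 2 / 2)) * ∫⁻ y in K, gw y ≤
      ∫⁻ z in {z | z - v ∈ K}, gw z := by
  have hsK : -K = K := by
    ext y
    rw [mem_neg]
    exact ⟨fun h => by simpa using hs _ h, fun h => hs _ h⟩
  have h1 : ∫⁻ z in {z | z - v ∈ K}, gw z = ∫⁻ y in K, gw (y + v) := by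
    have hm : MeasurableSet {z : W | z - v ∈ K} := (measurable_id.sub_const v) hK
    rw [← lintegral_indicator hm, ← lintegral_indicator hK,
      ← lintegral_add_right_eq_self _ v]
    refine lintegral_congr fun y => ?_
    by_cases hy : y ∈ K
    · rw [indicator_of_mem hy, indicator_of_mem (by show y + v - v ∈ K; simpa using hy)]
    · rw [indicator_of_notMem hy, indicator_of_notMem (by
        show ¬ (y + v - v ∈ K); simpa using hy)]
  have h2 : ∫⁻ y in K, gw (-y + v) = ∫⁻ y in K, gw (y + v) := by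
    rw [← lintegral_indicator hK, ← lintegral_indicator hK, ← lintegral_neg_eq_self]
    refine lintegral_congr fun y => ?_
    by_cases hy : y ∈ K
    · rw [indicator_of_mem hy, indicator_of_mem (hs y hy), neg_neg]
    · rw [indicator_of_notMem hy, indicator_of_notMem (fun h => hy (by simpa using hs _ h))]
  have h3 : 2 * (ENNReal.ofReal (Real.exp (-‖v‖ ^ 2 / 2)) * ∫⁻ y in K, gw y) ≤
      2 * ∫⁻ y in K, gw (y + v) := by
    calc 2 * (ENNReal.ofReal (Real.exp (-‖v‖ ^ 2 / 2)) * ∫⁻ y in K, gw y)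
        = ∫⁻ y in K, 2 * (ENNReal.ofReal (Real.exp (-‖v‖ ^ 2 / 2)) * gw y) := by
          rw [lintegral_const_mul _ (gw_meas.const_mul _), lintegral_const_mul _ gw_meas]
      _ ≤ ∫⁻ y in K, (gw (y + v) + gw (-y + v)) := lintegral_mono fun y => gw_two y v
      _ = (∫⁻ y in K, gw (y + v)) + ∫⁻ y in K, gw (-y + v) :=
          lintegral_add_left (gw_meas.comp (measurable_id.add_const v)) _
      _ = 2 * ∫⁻ y in K, gw (y + v) := by rw [h2, two_mul]
  rw [h1]
  exact (ENNReal.mul_le_mul_iff_right (by norm_num) (by norm_num)).1 h3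

theorem gw_tail (ψ : W) (L u : ℝ) (hL : 0 < L) (hψ : ‖ψ‖ ≤ L) (hu : 0 ≤ u) :
    ∫⁻ y in {y | u < ⟪ψ, y⟫}, gw y ≤
      ENNReal.ofReal (Real.exp (-(u ^ 2 / (2 * L ^ 2)))) * ∫⁻ y : W, gw y := by
  set θ : ℝ := u / L ^ 2 with hθ
  have hθ0 : 0 ≤ θ := by positivity
  have hm : MeasurableSet {y : W | u < ⟪ψ, y⟫} :=
    measurableSet_lt measurable_const (measurable_const.inner measurable_id)
  have hpt : ∀ y : W, ({y : W | u < ⟪ψ, y⟫}.indicator gw y) ≤
      ENNReal.ofReal (Real.exp (-(u ^ 2 / (2 * L ^ 2)))) * gw (y + -(θ • ψ)) := by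
    intro y
    by_cases hy : u < ⟪ψ, y⟫
    · rw [indicator_of_mem (show y ∈ {y : W | u < ⟪ψ, y⟫} from hy)]
      unfold gw
      rw [← ENNReal.ofReal_mul (by positivity), ← Real.exp_add]
      refine ENNReal.ofReal_le_ofReal (Real.exp_le_exp.2 ?_)
      have h1 : ‖y + -(θ • ψ)‖ ^ 2 = ‖y‖ ^ 2 - 2 * θ * ⟪ψ, y⟫ + θ ^ 2 * ‖ψ‖ ^ 2 := by
        rw [norm_add_sq_real, norm_neg, inner_neg_right, inner_smul_right, norm_smul,
          Real.norm_eq_abs, mul_pow, sq_abs, real_inner_comm]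
        ring
      rw [h1]
      have h2 : ‖ψ‖ ^ 2 ≤ L ^ 2 := pow_le_pow_left₀ (norm_nonneg _) hψ 2
      have h3 : θ * u ≤ θ * ⟪ψ, y⟫ := mul_le_mul_of_nonneg_left hy.le hθ0
      have h4 : θ ^ 2 * ‖ψ‖ ^ 2 ≤ θ ^ 2 * L ^ 2 := mul_le_mul_of_nonneg_left h2 (by positivity)
      have h5 : θ * u = u ^ 2 / L ^ 2 := by rw [hθ]; ring
      have h6 : θ ^ 2 * L ^ 2 = u ^ 2 / L ^ 2 := by rw [hθ]; field_simp
      have h7 : u ^ 2 / (2 * L ^ 2) = u ^ 2 / L ^ 2 / 2 := by field_simp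
      rw [h7]
      linarith
    · rw [indicator_of_notMem (show y ∉ {y : W | u < ⟪ψ, y⟫} from hy)]
      exact zero_le
  calc ∫⁻ y in {y | u < ⟪ψ, y⟫}, gw y = ∫⁻ y, {y : W | u < ⟪ψ, y⟫}.indicator gw y :=
        (lintegral_indicator hm _).symm
    _ ≤ ∫⁻ y, ENNReal.ofReal (Real.exp (-(u ^ 2 / (2 * L ^ 2)))) * gw (y + -(θ • ψ)) :=
        lintegral_mono hpt
    _ = ENNReal.ofReal (Real.exp (-(u ^ 2 / (2 * L ^ 2)))) * ∫⁻ y : W, gw (y + -(θ • ψ)) :=
        lintegral_const_mul _ (gw_meas.comp (measurable_id.add_const _))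
    _ = _ := by rw [lintegral_add_right_eq_self (fun y : W => gw y) (-(θ • ψ))]

/-- **Packing numbers**, finite-dimensional real case. -/
theorem packing_real {ι : Type*} (I : Finset ι) (hI : I.Nonempty) (ψ : ι → W) (L t : ℝ)
    (hL : 0 < L) (ht : 0 < t) (hψ : ∀ i ∈ I, ‖ψ i‖ ≤ L) (T : Finset W) (hT : ∀ v ∈ T, ‖v‖ ≤ 1)
    (hsep : ∀ v ∈ T, ∀ w ∈ T, v ≠ w → ∃ i ∈ I, t < |⟪ψ i, v - w⟫|) :
    (T.card : ℝ) ≤ 2 * Real.exp (4 * L ^ 2 / t ^ 2 * Real.log (4 * I.card)) := by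
  classical
  have hI1 : (1 : ℝ) ≤ I.card := by exact_mod_cast hI.card_pos
  have hlog : 0 ≤ Real.log (4 * I.card) := Real.log_nonneg (by linarith)
  set s : ℝ := Real.sqrt (8 * L ^ 2 / t ^ 2 * Real.log (4 * I.card)) with hs
  have hs0 : 0 ≤ s := Real.sqrt_nonneg _
  have hs2 : s ^ 2 = 8 * L ^ 2 / t ^ 2 * Real.log (4 * I.card) :=
    Real.sq_sqrt (by positivity)
  set u : ℝ := s * t / 2 with hu
  have hu0 : 0 ≤ u := by positivity
  set Z : ℝ≥0∞ := ∫⁻ y : W, gw y with hZ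
  have hZt : Z ≠ ∞ := gw_ne_top
  have hZ0 : 0 < Z := gw_pos
  set K : Set W := {y | ∀ i ∈ I, |⟪ψ i, y⟫| ≤ u} with hK
  have hKm : MeasurableSet K := by
    have : K = ⋂ i ∈ I, {y : W | |⟪ψ i, y⟫| ≤ u} := by ext y; simp [hK]
    rw [this]
    refine Finset.measurableSet_biInter _ fun i _ => measurableSet_le ?_ measurable_const
    exact (measurable_const.inner measurable_id).abs
  have hKs : ∀ y ∈ K, -y ∈ K := by
    intro y hy i hi
    rw [inner_neg_right, abs_neg]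
    exact hy i hi
  -- the mass of K
  have hmass : Z ≤ 2 * ∫⁻ y in K, gw y := by
    have hc : Kᶜ ⊆ ⋃ i ∈ I, ({y : W | u < ⟪ψ i, y⟫} ∪ {y : W | u < ⟪-ψ i, y⟫}) := by
      intro y hy
      rw [mem_compl_iff, hK, mem_ofPred_eq] at hy
      push Not at hy
      obtain ⟨i, hi, hlt⟩ := hy
      rw [mem_iUnion₂]
      refine ⟨i, hi, ?_⟩
      rcases lt_abs.1 hlt with h | h
      · exact Or.inl h
      · right
        show u < ⟪-ψ i, y⟫
        rw [inner_neg_left]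
        exact h
    have h1 : ∫⁻ y in Kᶜ, gw y ≤ ∑ i ∈ I, ((∫⁻ y in {y : W | u < ⟪ψ i, y⟫}, gw y) +
        ∫⁻ y in {y : W | u < ⟪-ψ i, y⟫}, gw y) := by
      refine (lintegral_mono_set hc).trans ?_
      refine (lint_biUnion_le _ I _ _).trans (Finset.sum_le_sum fun i _ => ?_)
      exact lintegral_union_le _ _ _
    have h2 : ∫⁻ y in Kᶜ, gw y ≤ ENNReal.ofReal (1 / 2) * Z := by
      refine h1.trans ?_
      have h3 : ∀ i ∈ I, ((∫⁻ y in {y : W | u < ⟪ψ i, y⟫}, gw y) +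
          ∫⁻ y in {y : W | u < ⟪-ψ i, y⟫}, gw y) ≤
          ENNReal.ofReal (2 * Real.exp (-(u ^ 2 / (2 * L ^ 2)))) * Z := by
        intro i hi
        rw [ENNReal.ofReal_mul (by norm_num), ENNReal.ofReal_ofNat, mul_assoc, two_mul]
        exact add_le_add (gw_tail (ψ i) L u hL (hψ i hi) hu0)
          (gw_tail (-ψ i) L u hL (by rw [norm_neg]; exact hψ i hi) hu0)
      refine (Finset.sum_le_sum h3).trans ?_
      rw [Finset.sum_const, nsmul_eq_mul, ← mul_assoc]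
      refine mul_le_mul' ?_ le_rfl
      rw [show ((I.card : ℕ) : ℝ≥0∞) = ENNReal.ofReal (I.card : ℝ) by
        rw [ENNReal.ofReal_natCast], ← ENNReal.ofReal_mul (by positivity)]
      refine ENNReal.ofReal_le_ofReal ?_
      have h4 : u ^ 2 / (2 * L ^ 2) = Real.log (4 * I.card) := by
        rw [hu, div_pow, mul_pow, hs2]
        field_simp
        ring
      rw [h4, Real.exp_neg, Real.exp_log (by positivity)]
      field_simp
      norm_num
    have h5 : Z = (∫⁻ y in K, gw y) + ∫⁻ y in Kᶜ, gw y := (lintegral_add_compl _ hKm).symm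
    have h6 : ENNReal.ofReal (1 / 2) * Z + ENNReal.ofReal (1 / 2) * Z = Z := by
      rw [← add_mul, ← ENNReal.ofReal_add (by norm_num) (by norm_num)]
      norm_num
    have h7 : ENNReal.ofReal (1 / 2) * Z ≤ ∫⁻ y in K, gw y := by
      have h8 : ENNReal.ofReal (1 / 2) * Z + ENNReal.ofReal (1 / 2) * Z ≤
          (∫⁻ y in K, gw y) + ENNReal.ofReal (1 / 2) * Z := by
        rw [h6]
        conv_lhs => rw [h5]
        exact add_le_add le_rfl h2
      exact (ENNReal.add_le_add_iff_right (ENNReal.mul_ne_top ENNReal.ofReal_ne_top hZt)).1 h8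
    calc Z = 2 * (ENNReal.ofReal (1 / 2) * Z) := by rw [two_mul, h6]
      _ ≤ _ := mul_le_mul' le_rfl h7
  -- the disjoint sets
  have hdisj : Set.PairwiseDisjoint (T : Set W) fun v => {z : W | z - s • v ∈ K} := by
    intro v hv w hw hvw
    rw [Function.onFun, Set.disjoint_left]
    intro z hz1 hz2
    obtain ⟨i, hi, hlt⟩ := hsep v hv w hw hvw
    have a1 := hz1 i hi
    have a2 := hz2 i hi
    have a3 : s * ⟪ψ i, v - w⟫ = ⟪ψ i, z - s • w⟫ - ⟪ψ i, z - s • v⟫ := by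
      rw [inner_sub_right, inner_sub_right, inner_sub_right, inner_smul_right, inner_smul_right]
      ring
    have a4 : s * |⟪ψ i, v - w⟫| ≤ s * t := by
      rw [← abs_of_nonneg hs0, ← abs_mul, abs_of_nonneg hs0, a3]
      refine (abs_sub _ _).trans ?_
      rw [hu] at a1 a2
      linarith
    rcases hs0.lt_or_eq with hpos | hzero
    · exact absurd (le_of_mul_le_mul_left a4 hpos) (not_le.2 hlt)
    · -- s = 0 is impossible
      have : Real.log (4 * I.card) = 0 := by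
        have h9 := hs2
        rw [← hzero] at h9
        have h10 : 8 * L ^ 2 / t ^ 2 ≠ 0 := by positivity
        have h11 : 8 * L ^ 2 / t ^ 2 * Real.log (4 * I.card) = 0 := by rw [← h9]; norm_num
        exact (mul_eq_zero.1 h11).resolve_left h10
      have h12 : 0 < Real.log (4 * I.card) := Real.log_pos (by linarith)
      linarith
  have hsum : ∑ v ∈ T, ∫⁻ z in {z : W | z - s • v ∈ K}, gw z ≤ Z := by
    rw [← lintegral_biUnion_finset hdisj (fun v _ => (measurable_id.sub_const _) hKm)]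
    exact setLIntegral_le_lintegral _ _
  have hlow : ∀ v ∈ T, ENNReal.ofReal (Real.exp (-(s ^ 2 / 2))) * ∫⁻ y in K, gw y ≤
      ∫⁻ z in {z : W | z - s • v ∈ K}, gw z := by
    intro v hv
    refine le_trans (mul_le_mul' (ENNReal.ofReal_le_ofReal (Real.exp_le_exp.2 ?_)) le_rfl)
      (gw_shift K hKm hKs (s • v))
    rw [norm_smul, Real.norm_eq_abs, abs_of_nonneg hs0, mul_pow]
    have h1 : ‖v‖ ^ 2 ≤ 1 := by
      have := hT v hv
      have h0 := norm_nonneg v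
      nlinarith
    have h2 : s ^ 2 * ‖v‖ ^ 2 ≤ s ^ 2 * 1 := mul_le_mul_of_nonneg_left h1 (by positivity)
    linarith
  have hfin : (T.card : ℝ≥0∞) * (ENNReal.ofReal (Real.exp (-(s ^ 2 / 2))) * Z) ≤ 2 * Z := by
    calc (T.card : ℝ≥0∞) * (ENNReal.ofReal (Real.exp (-(s ^ 2 / 2))) * Z)
        ≤ (T.card : ℝ≥0∞) * (ENNReal.ofReal (Real.exp (-(s ^ 2 / 2))) *
          (2 * ∫⁻ y in K, gw y)) := mul_le_mul' le_rfl (mul_le_mul' le_rfl hmass)
      _ = 2 * ∑ v ∈ T, ENNReal.ofReal (Real.exp (-(s ^ 2 / 2))) * ∫⁻ y in K, gw y := by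
          rw [Finset.sum_const, nsmul_eq_mul]; ring
      _ ≤ 2 * ∑ v ∈ T, ∫⁻ z in {z : W | z - s • v ∈ K}, gw z :=
          mul_le_mul' le_rfl (Finset.sum_le_sum hlow)
      _ ≤ 2 * Z := mul_le_mul' le_rfl hsum
  have h1 : (T.card : ℝ≥0∞) * ENNReal.ofReal (Real.exp (-(s ^ 2 / 2))) ≤ 2 := by
    rw [← mul_assoc] at hfin
    exact (ENNReal.mul_le_mul_iff_left hZ0.ne' hZt).1 hfin
  have h2 : (T.card : ℝ) * Real.exp (-(s ^ 2 / 2)) ≤ 2 := by
    have := ENNReal.toReal_mono (by norm_num) h1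
    rwa [ENNReal.toReal_mul, ENNReal.toReal_natCast, ENNReal.toReal_ofReal (by positivity),
      ENNReal.toReal_ofNat] at this
  have h3 : 4 * L ^ 2 / t ^ 2 * Real.log (4 * I.card) = s ^ 2 / 2 := by rw [hs2]; ring
  rw [h3]
  calc (T.card : ℝ) = (T.card : ℝ) * Real.exp (-(s ^ 2 / 2)) * Real.exp (s ^ 2 / 2) := by
        rw [mul_assoc, ← Real.exp_add]; simp
    _ ≤ 2 * Real.exp (s ^ 2 / 2) := mul_le_mul_of_nonneg_right h2 (by positivity)

end Pool.Agent.N248.RR
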