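import Mathlib
import Pool.Agent.N248.RR.A
set_option autoImplicit false

/-! Nets of the unit ball of a complex Hilbert space with respect to finitely many functionals. -/

namespace Pool.Agent.N248.RR

open MeasureTheory Set
open scoped ENNReal

variable {H : Type*} [NormedAddCommGroup H] [InnerProductSpace ℂ H]

/-- **Packing numbers.** -/
theorem packing {ι : Type*} (I : Finset ι) (hI : I.Nonempty) (φ : ι → H) (L t : ℝ)
    (hL : 0 < L) (ht : 0 < t) (hφ : ∀ i ∈ I, ‖φ i‖ ≤ L) (T : Finset H) (hT : ∀ v ∈ T, ‖v‖ ≤ 1)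
    (hsep : ∀ v ∈ T, ∀ w ∈ T, v ≠ w → ∃ i ∈ I, t < ‖inner ℂ (φ i) (v - w)‖) :
    (T.card : ℝ) ≤ 2 * Real.exp (16 * L ^ 2 / t ^ 2 * Real.log (8 * I.card)) := by
  classical
  let _ : InnerProductSpace ℝ H := InnerProductSpace.complexToReal
  have hre : ∀ x y : H, inner ℝ x y = (inner ℂ x y).re := fun x y => rfl
  set W : Submodule ℝ H := Submodule.span ℝ (T : Set H) with hW
  have : FiniteDimensional ℝ W := FiniteDimensional.span_finset ℝ T
  have : CompleteSpace W := FiniteDimensional.complete ℝ W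
  let _ : MeasurableSpace W := borel W
  have : BorelSpace W := ⟨rfl⟩
  -- representing vectors in W
  set rep : H → W := fun x => (InnerProductSpace.toDual ℝ W).symm
    ((innerSL ℝ x).comp W.subtypeL) with hrep
  have hrep1 : ∀ (x : H) (w : W), inner ℝ (rep x) w = inner ℝ x (w : H) := by
    intro x w
    simp only [hrep]
    rw [InnerProductSpace.toDual_symm_apply]
    rfl
  have hrep2 : ∀ x : H, ‖rep x‖ ≤ ‖x‖ := by
    intro x
    simp only [hrep]
    rw [LinearIsometryEquiv.norm_map]
    refine ContinuousLinearMap.opNorm_le_bound _ (norm_nonneg _) fun w => ?_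
    show ‖inner ℝ x (w : H)‖ ≤ ‖x‖ * ‖w‖
    exact norm_inner_le_norm x (w : H)
  set ψ : ι ⊕ ι → W := Sum.elim (fun i => rep (φ i)) (fun i => rep (Complex.I • φ i)) with hψ
  set T' : Finset W := T.attach.image fun v => (⟨v.1, Submodule.subset_span v.2⟩ : W) with hT'
  have hcard : T'.card = T.card := by
    rw [hT', Finset.card_image_of_injective, Finset.card_attach]
    intro v w h
    simp only [Subtype.mk.injEq] at h
    exact Subtype.ext h
  have hmem : ∀ w ∈ T', (w : H) ∈ T := by
    intro w hw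
    rw [hT', Finset.mem_image] at hw
    obtain ⟨v, -, rfl⟩ := hw
    exact v.2
  have h := packing_real (W := W) (I.disjSum I) (by
    obtain ⟨i, hi⟩ := hI
    exact ⟨Sum.inl i, Finset.inl_mem_disjSum.2 hi⟩) ψ L (t / 2) hL (by positivity) (by
      intro i hi
      rcases i with i | i
      · exact (hrep2 _).trans (hφ i (Finset.inl_mem_disjSum.1 hi))
      · refine (hrep2 _).trans ?_
        rw [norm_smul, Complex.norm_I, one_mul]
        exact hφ i (Finset.inr_mem_disjSum.1 hi)) T' (by
      intro v hv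
      exact hT _ (hmem v hv)) (by
      intro v hv w hw hvw
      obtain ⟨i, hi, hlt⟩ := hsep _ (hmem v hv) _ (hmem w hw) (fun h => hvw (Subtype.ext h))
      have h1 := Complex.norm_le_abs_re_add_abs_im (inner ℂ (φ i) ((v : H) - w))
      rcases le_or_gt (t / 2) |(inner ℂ (φ i) ((v : H) - w)).re| with h2 | h2
      · rcases h2.lt_or_eq with h3 | h3
        · refine ⟨Sum.inl i, Finset.inl_mem_disjSum.2 hi, ?_⟩
          simp only [hψ, Sum.elim_inl]
          rw [hrep1, hre]
          exact h3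
        · refine ⟨Sum.inr i, Finset.inr_mem_disjSum.2 hi, ?_⟩
          simp only [hψ, Sum.elim_inr]
          rw [hrep1, hre, inner_smul_left]
          simp only [Complex.conj_I, Submodule.coe_sub]
          have : (-Complex.I * inner ℂ (φ i) ((v : H) - w)).re =
            (inner ℂ (φ i) ((v : H) - w)).im := by simp
          rw [this]
          linarith
      · refine ⟨Sum.inr i, Finset.inr_mem_disjSum.2 hi, ?_⟩
        simp only [hψ, Sum.elim_inr]
        rw [hrep1, hre, inner_smul_left]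
        simp only [Complex.conj_I, Submodule.coe_sub]
        have : (-Complex.I * inner ℂ (φ i) ((v : H) - w)).re =
          (inner ℂ (φ i) ((v : H) - w)).im := by simp
        rw [this]
        linarith)
  rw [hcard, Finset.card_disjSum] at h
  refine h.trans (le_of_eq ?_)
  congr 2
  have : (4 * ((I.card + I.card : ℕ) : ℝ)) = 8 * I.card := by push_cast; ring
  rw [this]
  field_simp
  ring

/-- **Nets.** -/
theorem net {ι : Type*} (I : Finset ι) (hI : I.Nonempty) (φ : ι → H) (L t : ℝ)
    (hL : 0 < L) (ht : 0 < t) (hφ : ∀ i ∈ I, ‖φ i‖ ≤ L) :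
    ∃ N : Finset H, (∀ g ∈ N, ‖g‖ ≤ 1) ∧
      (N.card : ℝ) ≤ 2 * Real.exp (16 * L ^ 2 / t ^ 2 * Real.log (8 * I.card)) ∧
      ∀ f : H, ‖f‖ ≤ 1 → ∃ g ∈ N, ∀ i ∈ I, ‖inner ℂ (φ i) (f - g)‖ ≤ t := by
  classical
  set P : Finset H → Prop := fun T => (∀ v ∈ T, ‖v‖ ≤ 1) ∧
    ∀ v ∈ T, ∀ w ∈ T, v ≠ w → ∃ i ∈ I, t < ‖inner ℂ (φ i) (v - w)‖ with hP
  have hbd : ∀ T, P T → (T.card : ℝ) ≤ 2 * Real.exp (16 * L ^ 2 / t ^ 2 * Real.log (8 * I.card)) :=
    fun T hT => packing I hI φ L t hL ht hφ T hT.1 hT.2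
  by_contra hcon
  push Not at hcon
  have hext : ∀ T, P T → ∃ T', P T' ∧ T'.card = T.card + 1 := by
    intro T hT
    obtain ⟨f, hf, hsep⟩ := hcon T hT.1 (hbd T hT)
    have hfT : f ∉ T := by
      intro h
      obtain ⟨i, hi, hlt⟩ := hsep f h
      rw [sub_self, inner_zero_right, norm_zero] at hlt
      linarith
    refine ⟨insert f T, ⟨?_, ?_⟩, Finset.card_insert_of_notMem hfT⟩
    · intro v hv
      rcases Finset.mem_insert.1 hv with rfl | hv
      · exact hf
      · exact hT.1 v hv
    · intro v hv w hw hvw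
      rcases Finset.mem_insert.1 hv with hv1 | hv1
      · rcases Finset.mem_insert.1 hw with hw1 | hw1
        · exact absurd (hv1.trans hw1.symm) hvw
        · rw [hv1]
          exact hsep w hw1
      · rcases Finset.mem_insert.1 hw with hw1 | hw1
        · obtain ⟨i, hi, hlt⟩ := hsep v hv1
          refine ⟨i, hi, ?_⟩
          rw [hw1, ← neg_sub, inner_neg_right, norm_neg]
          exact hlt
        · exact hT.2 v hv1 w hw1 hvw
  have hall : ∀ n : ℕ, ∃ T, P T ∧ T.card = n := by
    intro n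
    induction n with
    | zero => exact ⟨∅, ⟨by simp, by simp⟩, rfl⟩
    | succ n ih =>
      obtain ⟨T, hT, hc⟩ := ih
      obtain ⟨T', hT', hc'⟩ := hext T hT
      exact ⟨T', hT', by rw [hc', hc]⟩
  obtain ⟨n, hn⟩ := exists_nat_gt (2 * Real.exp (16 * L ^ 2 / t ^ 2 * Real.log (8 * I.card)))
  obtain ⟨T, hT, hc⟩ := hall n
  have := hbd T hT
  rw [hc] at this
  linarith

end Pool.Agent.N248.RR
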