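import Mathlib
import Pool.Agent.N248.RR.B
set_option autoImplicit false

/-! Random unions of cubes: the setting, the union bound for few cubes, and the nets. -/

namespace Pool.Agent.N248.RR

open MeasureTheory Set ProbabilityTheory
open scoped ENNReal

/-- the unit cube -/
def uq {d : ℕ} (j : Fin d → ℤ) : Set (EuclideanSpace ℝ (Fin d)) :=
  {x | ∀ i, (j i : ℝ) ≤ x i ∧ x i < j i + 1}

variable {d : ℕ} {H : Type*} [NormedAddCommGroup H] [InnerProductSpace ℂ H]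

/-- the cube `j` is hit by `f` at the level `lam` -/
def hit (φ : EuclideanSpace ℝ (Fin d) → H) (lam : ℝ) (f : H) (j : Fin d → ℤ) : Prop :=
  ∃ x ∈ uq j, lam ≤ ‖inner ℂ (φ x) f‖

/-- the annulus -/
def Ann (d k : ℕ) : Set (Fin d → ℤ) := {j | (2 : ℝ) ^ k ≤ 1 + ‖j‖ ∧ 1 + ‖j‖ < 2 ^ (k + 1)}

theorem abs_coord (j : Fin d → ℤ) (i : Fin d) : |(j i : ℝ)| ≤ ‖j‖ := by
  have := norm_le_pi_norm j i
  rwa [Int.norm_eq_abs] at this

theorem ball_subset (c : Fin d → ℤ) (r : ℕ) :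
    {j : Fin d → ℤ | ‖j - c‖ ≤ r} ⊆
      (Fintype.piFinset fun i => Finset.Icc (c i - r) (c i + r) : Finset (Fin d → ℤ)) := by
  intro j hj
  rw [Finset.mem_coe, Fintype.mem_piFinset]
  intro i
  have h := (norm_le_pi_norm (j - c) i).trans hj
  rw [Pi.sub_apply, Int.norm_eq_abs] at h
  have h2 : |((j i - c i : ℤ) : ℝ)| = ((|j i - c i| : ℤ) : ℝ) := by push_cast; rfl
  rw [h2] at h
  have h3 : |j i - c i| ≤ (r : ℤ) := by exact_mod_cast h
  rw [Finset.mem_Icc]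
  have := abs_le.1 h3
  exact ⟨by linarith [this.1], by linarith [this.2]⟩

theorem ball_card (c : Fin d → ℤ) (r : ℕ) :
    (Fintype.piFinset fun i => Finset.Icc (c i - r) (c i + r) : Finset (Fin d → ℤ)).card =
      (2 * r + 1) ^ d := by
  rw [Fintype.card_piFinset]
  have : ∀ i : Fin d, (Finset.Icc (c i - (r : ℤ)) (c i + r)).card = 2 * r + 1 := by
    intro i
    rw [Int.card_Icc]
    omega
  simp_rw [this]
  rw [Finset.prod_const, Finset.card_univ, Fintype.card_fin]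

theorem Ann_subset (k : ℕ) : Ann d k ⊆
    (Fintype.piFinset fun i => Finset.Icc ((0 : Fin d → ℤ) i - (2 ^ (k + 1) : ℕ))
      ((0 : Fin d → ℤ) i + (2 ^ (k + 1) : ℕ)) : Finset (Fin d → ℤ)) := by
  refine Subset.trans ?_ (ball_subset (0 : Fin d → ℤ) (2 ^ (k + 1)))
  intro j hj
  show ‖j - 0‖ ≤ _
  rw [sub_zero]
  push_cast
  linarith [hj.2]

theorem Ann_finite (k : ℕ) : (Ann d k).Finite := (Finset.finite_toSet _).subset (Ann_subset k)

theorem Ann_ncard (k : ℕ) : (Ann d k).ncard ≤ (2 ^ (k + 3)) ^ d := by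
  have h := Set.ncard_le_ncard (Ann_subset (d := d) k) (Finset.finite_toSet _)
  rw [Set.ncard_coe_finset, ball_card] at h
  refine h.trans (Nat.pow_le_pow_left ?_ d)
  have : 1 ≤ 2 ^ (k + 1) := Nat.one_le_two_pow
  have h2 : 2 ^ (k + 3) = 4 * 2 ^ (k + 1) := by ring
  omega

theorem exists_ann (j : Fin d → ℤ) : ∃ k, j ∈ Ann d k := by
  obtain ⟨k, h1, h2⟩ := exists_nat_pow_near (x := 1 + ‖j‖) (y := (2 : ℝ))
    (by linarith [norm_nonneg j]) (by norm_num)
  exact ⟨k, h1, h2⟩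

/-- few random elements in a finite set -/
theorem few {α Ω : Type*} [DecidableEq α] [MeasurableSpace Ω] (P : Measure Ω) (A : α → Set Ω)
    (hA : ∀ T : Finset α, P (⋂ j ∈ T, A j) ≤ ∏ j ∈ T, P (A j)) (G : Finset α) (rho N : ℝ)
    (hr : 0 ≤ rho) (hN : (G.card : ℝ) ≤ N) (hp : ∀ j ∈ G, P (A j) ≤ ENNReal.ofReal rho) (u : ℕ) :
    P {ω | ∃ T ⊆ G, T.card = u ∧ ∀ j ∈ T, ω ∈ A j} ≤
      ENNReal.ofReal ((N * rho) ^ u / u.factorial) := by
  have hsub : {ω | ∃ T ⊆ G, T.card = u ∧ ∀ j ∈ T, ω ∈ A j} ⊆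
      ⋃ T ∈ Finset.powersetCard u G, ⋂ j ∈ T, A j := by
    rintro ω ⟨T, hT, hc, hω⟩
    rw [mem_iUnion₂]
    exact ⟨T, Finset.mem_powersetCard.2 ⟨hT, hc⟩, mem_iInter₂.2 hω⟩
  refine (measure_mono hsub).trans ((measure_biUnion_finset_le _ _).trans ?_)
  have h1 : ∀ T ∈ Finset.powersetCard u G, P (⋂ j ∈ T, A j) ≤ ENNReal.ofReal (rho ^ u) := by
    intro T hT
    rw [Finset.mem_powersetCard] at hT
    refine (hA T).trans ?_
    rw [ENNReal.ofReal_pow hr, ← hT.2, ← Finset.prod_const]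
    exact Finset.prod_le_prod' fun j hj => hp j (hT.1 hj)
  refine (Finset.sum_le_sum h1).trans ?_
  rw [Finset.sum_const, Finset.card_powersetCard, nsmul_eq_mul,
    show (((G.card.choose u : ℕ)) : ℝ≥0∞) = ENNReal.ofReal ((G.card.choose u : ℕ) : ℝ) by
      rw [ENNReal.ofReal_natCast], ← ENNReal.ofReal_mul (by positivity)]
  refine ENNReal.ofReal_le_ofReal ?_
  have h2 : ((G.card.choose u : ℕ) : ℝ) ≤ (G.card : ℝ) ^ u / u.factorial :=
    Nat.choose_le_pow_div u G.card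
  have h3 : (G.card : ℝ) ^ u / u.factorial ≤ N ^ u / u.factorial := by
    gcongr
  calc ((G.card.choose u : ℕ) : ℝ) * rho ^ u ≤ N ^ u / u.factorial * rho ^ u :=
        mul_le_mul_of_nonneg_right (h2.trans h3) (by positivity)
    _ = (N * rho) ^ u / u.factorial := by rw [mul_pow]; ring

theorem fact_bound (x : ℝ) (u : ℕ) (hx : 0 ≤ x) (hu : Real.exp 2 * x ≤ u) :
    x ^ u / u.factorial ≤ Real.exp (-u) := by
  have h1 : x ≤ u * Real.exp (-2) := by
    rw [Real.exp_neg, ← div_eq_mul_inv, le_div_iff₀ (Real.exp_pos 2)]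
    linarith
  have h2 : (u : ℝ) ^ u / u.factorial ≤ Real.exp u :=
    Real.pow_div_factorial_le_exp (u : ℝ) (Nat.cast_nonneg u) u
  calc x ^ u / u.factorial ≤ (u * Real.exp (-2)) ^ u / u.factorial := by gcongr
    _ = (u : ℝ) ^ u / u.factorial * Real.exp (-2) ^ u := by rw [mul_pow]; ring
    _ ≤ Real.exp u * Real.exp (-2) ^ u := mul_le_mul_of_nonneg_right h2 (by positivity)
    _ = Real.exp (-u) := by
        rw [← Real.exp_nat_mul, ← Real.exp_add]
        congr 1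
        ring

/-- the hypotheses on the surface and on the class `S` of functions -/
structure Surf (S : Set H) (φ : EuclideanSpace ℝ (Fin d) → H) (p L γ : ℝ) : Prop where
  L1 : 1 ≤ L
  p2 : 2 ≤ p
  g0 : 0 < γ
  bd : ∀ x, ‖φ x‖ ≤ L
  lip : ∀ x y, ‖φ x - φ y‖ ≤ L * ‖x - y‖
  sub : ∀ f ∈ S, ‖f‖ ≤ 1
  c1 : ∀ f ∈ S, ∀ lam : ℝ, 0 < lam → lam ≤ 1 → ∀ J : Finset (Fin d → ℤ),
    (∀ j ∈ J, hit φ lam f j) → (J.card : ℝ) ≤ L * lam ^ (-p)
  c2 : ∀ f : H, ‖f‖ ≤ 1 → ∀ lam : ℝ, 0 < lam → lam ≤ 1 → ∀ (k : ℕ) (J : Finset (Fin d → ℤ)),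
    (∀ j ∈ J, hit φ lam f j ∧ 1 + ‖j‖ < 2 ^ (k + 1)) → (J.card : ℝ) ≤ L * 2 ^ k * lam ^ (-2 : ℝ)
  dec : ∀ x y, x ≠ y → ‖inner ℂ (φ x) (φ y)‖ ≤ L * ‖x - y‖ ^ (-γ)

/-- grid points -/
noncomputable def gp (s : ℕ) (z : Fin d → ℤ) : EuclideanSpace ℝ (Fin d) :=
  WithLp.toLp 2 fun i => (z i : ℝ) / 2 ^ s

theorem grid_near (k s : ℕ) (x : EuclideanSpace ℝ (Fin d)) (hx : ∀ i, |x i| ≤ 2 ^ (k + 2)) :
    ∃ z ∈ (Fintype.piFinset fun i => Finset.Icc ((0 : Fin d → ℤ) i - (2 ^ (k + 2 + s) : ℕ))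
      ((0 : Fin d → ℤ) i + (2 ^ (k + 2 + s) : ℕ)) : Finset (Fin d → ℤ)),
      ‖x - gp s z‖ ≤ d / 2 ^ s := by
  have h2s : (0 : ℝ) < 2 ^ s := by positivity
  refine ⟨fun i => ⌊x i * 2 ^ s⌋, ?_, ?_⟩
  · rw [Fintype.mem_piFinset]
    intro i
    rw [Finset.mem_Icc, Pi.zero_apply, zero_sub, zero_add]
    have h1 := abs_le.1 (hx i)
    constructor
    · rw [Int.le_floor]
      push_cast
      rw [pow_add]
      nlinarith
    · have h3 : (⌊x i * 2 ^ s⌋ : ℝ) ≤ 2 ^ (k + 2 + s) := by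
        refine (Int.floor_le _).trans ?_
        rw [pow_add _ (k + 2)]
        nlinarith
      exact_mod_cast h3
  · have hpt : ∀ i, |(x - gp s fun i => ⌊x i * 2 ^ s⌋) i| ≤ 1 / 2 ^ s := by
      intro i
      show |x i - (⌊x i * 2 ^ s⌋ : ℝ) / 2 ^ s| ≤ _
      have h1 := Int.floor_le (x i * 2 ^ s)
      have h2 := Int.lt_floor_add_one (x i * 2 ^ s)
      have h3 : x i - (⌊x i * 2 ^ s⌋ : ℝ) / 2 ^ s = (x i * 2 ^ s - ⌊x i * 2 ^ s⌋) / 2 ^ s := by
        field_simp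
      rw [h3, abs_div, abs_of_pos h2s]
      refine div_le_div_of_nonneg_right ?_ h2s.le
      rw [abs_le]
      constructor <;> linarith
    rw [EuclideanSpace.norm_eq]
    have h4 : ∑ i : Fin d, ‖(x - gp s fun i => ⌊x i * 2 ^ s⌋) i‖ ^ 2 ≤ (d / 2 ^ s) ^ 2 := by
      calc ∑ i : Fin d, ‖(x - gp s fun i => ⌊x i * 2 ^ s⌋) i‖ ^ 2
          ≤ ∑ i : Fin d, (1 / 2 ^ s : ℝ) ^ 2 := Finset.sum_le_sum fun i _ => by
            rw [Real.norm_eq_abs]
            exact pow_le_pow_left₀ (abs_nonneg _) (hpt i) 2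
        _ = d * (1 / 2 ^ s : ℝ) ^ 2 := by
            rw [Finset.sum_const, Finset.card_univ, Fintype.card_fin, nsmul_eq_mul]
        _ ≤ (d : ℝ) ^ 2 * (1 / 2 ^ s : ℝ) ^ 2 := by
            refine mul_le_mul_of_nonneg_right ?_ (by positivity)
            rcases Nat.eq_zero_or_pos d with h | h
            · simp [h]
            · have : (1 : ℝ) ≤ d := by exact_mod_cast h
              nlinarith
        _ = _ := by ring
    exact (Real.sqrt_le_sqrt h4).trans (by rw [Real.sqrt_sq (by positivity)])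

/-- **The nets** -/
theorem grid_net {S : Set H} {φ : EuclideanSpace ℝ (Fin d) → H} {p L γ : ℝ}
    (hS : Surf S φ p L γ) :
    ∃ C : ℝ, 0 ≤ C ∧ ∀ k l : ℕ, ∃ N : Finset H, (∀ g ∈ N, ‖g‖ ≤ 1) ∧
      (N.card : ℝ) ≤ Real.exp (C * (k + l + 1) * 4 ^ l) ∧
      ∀ f : H, ‖f‖ ≤ 1 → ∃ g ∈ N, ∀ x : EuclideanSpace ℝ (Fin d), (∀ i, |x i| ≤ 2 ^ (k + 2)) →
        ‖inner ℂ (φ x) (f - g)‖ ≤ (1 / 2) * (1 / 2) ^ l := by
  have hL := hS.L1
  obtain ⟨c, hc⟩ := exists_nat_gt (8 * L * (d + 1))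
  have hc2 : (8 * L * (d + 1) : ℝ) ≤ 2 ^ c := by
    have h1 : c < 2 ^ c := Nat.lt_two_pow_self
    have h2 : (c : ℝ) < 2 ^ c := by exact_mod_cast h1
    linarith
  set C : ℝ := 1 + 256 * L ^ 2 * (3 + (c + 5) * d) with hC
  refine ⟨C, by positivity, ?_⟩
  intro k l
  set s : ℕ := l + c with hs
  set X : Finset (Fin d → ℤ) := Fintype.piFinset fun i =>
    Finset.Icc ((0 : Fin d → ℤ) i - (2 ^ (k + 2 + s) : ℕ))
      ((0 : Fin d → ℤ) i + (2 ^ (k + 2 + s) : ℕ)) with hX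
  have hXc : X.card = (2 * 2 ^ (k + 2 + s) + 1) ^ d := ball_card (0 : Fin d → ℤ) (2 ^ (k + 2 + s))
  have hXn : X.Nonempty := by
    rw [← Finset.card_pos, hXc]
    positivity
  have ht : (0 : ℝ) < (1 / 4) * (1 / 2) ^ l := by positivity
  obtain ⟨N, hN1, hN2, hN3⟩ := net X hXn (fun z => φ (gp s z)) L ((1 / 4) * (1 / 2) ^ l)
    (by linarith) ht (fun z _ => hS.bd _)
  refine ⟨N, hN1, hN2.trans ?_, ?_⟩
  · -- the cardinality
    have hlogX : Real.log (8 * X.card) ≤ (3 + (c + 5) * d) * (k + l + 1) := by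
      have h1 : (X.card : ℝ) ≤ 2 ^ ((k + 4 + s) * d) := by
        rw [hXc, pow_mul]
        push_cast
        refine pow_le_pow_left₀ (by positivity) ?_ d
        have h2 : (2 : ℝ) ^ (k + 4 + s) = 4 * 2 ^ (k + 2 + s) := by
          rw [show k + 4 + s = (k + 2 + s) + 2 by ring, pow_add]; ring
        have h3 : (1 : ℝ) ≤ 2 ^ (k + 2 + s) := one_le_pow₀ (by norm_num)
        rw [h2]
        linarith
      have hX0 : (0 : ℝ) < X.card := by exact_mod_cast hXn.card_pos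
      have h4 : Real.log (8 * X.card) ≤ Real.log (2 ^ (3 + (k + 4 + s) * d)) := by
        refine Real.log_le_log (by positivity) ?_
        rw [pow_add]
        have : (2 : ℝ) ^ 3 = 8 := by norm_num
        rw [this]
        linarith
      rw [Real.log_pow] at h4
      have hl2 : Real.log 2 ≤ 1 := by
        have := Real.log_two_lt_d9
        linarith
      have hl0 : 0 ≤ Real.log 2 := Real.log_nonneg (by norm_num)
      have h5 : ((3 + (k + 4 + s) * d : ℕ) : ℝ) * Real.log 2 ≤ ((3 + (k + 4 + s) * d : ℕ) : ℝ) * 1 :=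
        mul_le_mul_of_nonneg_left hl2 (Nat.cast_nonneg _)
      refine h4.trans (h5.trans ?_)
      rw [mul_one, hs]
      push_cast
      have hk : (0 : ℝ) ≤ k := Nat.cast_nonneg k
      have hl : (0 : ℝ) ≤ l := Nat.cast_nonneg l
      have hd : (0 : ℝ) ≤ d := Nat.cast_nonneg d
      have hcc : (0 : ℝ) ≤ c := Nat.cast_nonneg c
      have a1 : (0 : ℝ) ≤ k * d := by positivity
      have a2 : (0 : ℝ) ≤ l * d := by positivity
      have a3 : (0 : ℝ) ≤ c * d * k := by positivity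
      have a4 : (0 : ℝ) ≤ c * d * l := by positivity
      nlinarith
    have h4l : (1 : ℝ) ≤ 4 ^ l := one_le_pow₀ (by norm_num)
    have hkl : (1 : ℝ) ≤ (k : ℝ) + l + 1 := by
      have hk : (0 : ℝ) ≤ k := Nat.cast_nonneg k
      have hl : (0 : ℝ) ≤ l := Nat.cast_nonneg l
      linarith
    have hlog0 : 0 ≤ Real.log (8 * X.card) := by
      refine Real.log_nonneg ?_
      have : (1 : ℝ) ≤ X.card := by exact_mod_cast hXn.card_pos
      linarith
    have h2e : (2 : ℝ) ≤ Real.exp 1 := by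
      have := Real.add_one_le_exp (1 : ℝ)
      linarith
    calc 2 * Real.exp (16 * L ^ 2 / ((1 / 4) * (1 / 2) ^ l) ^ 2 * Real.log (8 * X.card))
        ≤ Real.exp 1 * Real.exp (16 * L ^ 2 / ((1 / 4) * (1 / 2) ^ l) ^ 2 *
          Real.log (8 * X.card)) := mul_le_mul_of_nonneg_right h2e (by positivity)
      _ = Real.exp (1 + 256 * L ^ 2 * 4 ^ l * Real.log (8 * X.card)) := by
          rw [← Real.exp_add]
          congr 2
          have h6 : (16 * L ^ 2 / ((1 / 4) * (1 / 2 : ℝ) ^ l) ^ 2) = 256 * L ^ 2 * 4 ^ l := by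
            have h7 : ((1 / 4) * (1 / 2 : ℝ) ^ l) ^ 2 = 1 / (16 * 4 ^ l) := by
              rw [mul_pow, ← pow_mul, mul_comm l 2, pow_mul]
              have : ((1 / 2 : ℝ) ^ 2) = 1 / 4 := by norm_num
              rw [this, one_div_pow (4 : ℝ) l]
              field_simp
              norm_num
            rw [h7]
            field_simp
            ring
          rw [h6]
      _ ≤ Real.exp (C * (k + l + 1) * 4 ^ l) := by
          refine Real.exp_le_exp.2 ?_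
          rw [hC]
          have b1 : 256 * L ^ 2 * 4 ^ l * Real.log (8 * X.card) ≤
              256 * L ^ 2 * 4 ^ l * ((3 + (c + 5) * d) * (k + l + 1)) :=
            mul_le_mul_of_nonneg_left hlogX (by positivity)
          have b2 : (1 : ℝ) ≤ (k + l + 1) * 4 ^ l := by nlinarith
          nlinarith
  · intro f hf
    obtain ⟨g, hg, hfg⟩ := hN3 f hf
    refine ⟨g, hg, fun x hx => ?_⟩
    obtain ⟨z, hz, hxz⟩ := grid_near k s x hx
    have h1 := hfg z hz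
    have h2 : inner ℂ (φ x) (f - g) = inner ℂ (φ (gp s z)) (f - g) +
        inner ℂ (φ x - φ (gp s z)) (f - g) := by
      rw [inner_sub_left]; ring
    rw [h2]
    refine (norm_add_le _ _).trans ?_
    have h3 : ‖inner ℂ (φ x - φ (gp s z)) (f - g)‖ ≤ (1 / 4) * (1 / 2) ^ l := by
      refine (norm_inner_le_norm _ _).trans ?_
      have h4 : ‖f - g‖ ≤ 2 := by
        have := norm_sub_le f g
        have := hN1 g hg
        linarith
      have h5 : ‖φ x - φ (gp s z)‖ ≤ L * (d / 2 ^ s) :=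
        (hS.lip _ _).trans (mul_le_mul_of_nonneg_left hxz (by linarith))
      have h6 : L * (d / 2 ^ s) * 2 ≤ (1 / 4) * (1 / 2) ^ l := by
        have h7 : (1 / 4 : ℝ) * (1 / 2) ^ l = (2 ^ c / 4) / 2 ^ s := by
          rw [hs, pow_add, one_div_pow]
          field_simp
        rw [h7, mul_div_assoc', div_mul_eq_mul_div]
        refine div_le_div_of_nonneg_right ?_ (by positivity)
        have hd : (0 : ℝ) ≤ d := Nat.cast_nonneg d
        nlinarith
      refine le_trans (mul_le_mul h5 h4 (norm_nonneg _) (by positivity)) h6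
    have h8 : (1 / 2 : ℝ) * (1 / 2) ^ l = (1 / 4) * (1 / 2) ^ l + (1 / 4) * (1 / 2) ^ l := by ring
    rw [h8]
    exact add_le_add h1 h3

/-- the nets inside of the class -/
theorem class_net {S : Set H} {φ : EuclideanSpace ℝ (Fin d) → H} {p L γ : ℝ}
    (hS : Surf S φ p L γ) :
    ∃ C : ℝ, 0 ≤ C ∧ ∀ k l : ℕ, ∃ N : Finset H, (∀ g ∈ N, g ∈ S) ∧
      (N.card : ℝ) ≤ Real.exp (C * (k + l + 1) * 4 ^ l) ∧
      ∀ f ∈ S, ∃ g ∈ N, ∀ x : EuclideanSpace ℝ (Fin d), (∀ i, |x i| ≤ 2 ^ (k + 2)) →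
        ‖inner ℂ (φ x) (f - g)‖ ≤ (1 / 2) * (1 / 2) ^ l := by
  classical
  obtain ⟨C, hC0, hC⟩ := grid_net hS
  refine ⟨8 * C, by positivity, ?_⟩
  intro k l
  obtain ⟨N, hN1, hN2, hN3⟩ := hC k (l + 1)
  rcases S.eq_empty_or_nonempty with hSe | ⟨f₀, hf₀⟩
  · refine ⟨∅, by simp, by simp [Real.exp_nonneg], ?_⟩
    intro f hf
    rw [hSe] at hf
    exact absurd hf (Set.notMem_empty f)
  set Q : H → H → Prop := fun g f => f ∈ S ∧ ∀ x : EuclideanSpace ℝ (Fin d),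
    (∀ i, |x i| ≤ 2 ^ (k + 2)) → ‖inner ℂ (φ x) (f - g)‖ ≤ (1 / 2) * (1 / 2) ^ (l + 1) with hQ
  set ch : H → H := fun g => if h : ∃ f, Q g f then h.choose else f₀ with hch
  have hchS : ∀ g, ch g ∈ S := by
    intro g
    simp only [hch]
    split_ifs with h
    · exact h.choose_spec.1
    · exact hf₀
  refine ⟨N.image ch, ?_, ?_, ?_⟩
  · intro g hg
    obtain ⟨g', -, rfl⟩ := Finset.mem_image.1 hg
    exact hchS g'
  · refine le_trans (by exact_mod_cast Finset.card_image_le) (hN2.trans (Real.exp_le_exp.2 ?_))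
    have hk : (0 : ℝ) ≤ k := Nat.cast_nonneg k
    have hl : (0 : ℝ) ≤ l := Nat.cast_nonneg l
    push_cast
    rw [pow_succ]
    have h1 : (k : ℝ) + (l + 1) + 1 ≤ 2 * (k + l + 1) := by linarith
    calc C * ((k : ℝ) + (l + 1) + 1) * (4 ^ l * 4) ≤ C * (2 * (k + l + 1)) * (4 ^ l * 4) := by
          gcongr
      _ = _ := by ring
  · intro f hf
    obtain ⟨g, hg, hfg⟩ := hN3 f (hS.sub f hf)
    refine ⟨ch g, Finset.mem_image_of_mem ch hg, fun x hx => ?_⟩
    have hex : ∃ f, Q g f := ⟨f, hf, hfg⟩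
    have h1 : Q g (ch g) := by
      simp only [hch]
      rw [dif_pos hex]
      exact hex.choose_spec
    have h2 : inner ℂ (φ x) (f - ch g) =
        inner ℂ (φ x) (f - g) - inner ℂ (φ x) (ch g - g) := by
      rw [← inner_sub_right]
      congr 1
      abel
    rw [h2]
    refine (norm_sub_le _ _).trans ((add_le_add (hfg x hx) (h1.2 x hx)).trans (le_of_eq ?_))
    rw [pow_succ]
    ring

end Pool.Agent.N248.RR
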