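import Mathlib
import Pool.Agent.N248.RR.C
set_option autoImplicit false

/-! Random unions of cubes: the exceptional events. -/

namespace Pool.Agent.N248.RR

open MeasureTheory Set ProbabilityTheory
open scoped ENNReal

variable {d : ℕ} {H : Type*} [NormedAddCommGroup H] [InnerProductSpace ℂ H]

theorem interp (N L K b a p : ℝ) (hN : 0 ≤ N) (hL : 0 < L) (hK : 0 < K) (hb : 0 < b) (ha : 0 ≤ a)
    (ha1 : a ≤ 1) (h1 : N ≤ L * b ^ p) (h2 : N ≤ L * K * b ^ (2 : ℝ)) :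
    N * K ^ (-a) ≤ L * b ^ (p - a * (p - 2)) := by
  rcases hN.eq_or_lt with h0 | h0
  · rw [← h0, zero_mul]; positivity
  have hKa : 0 < K ^ a := Real.rpow_pos_of_pos hK a
  have h3 : N ≤ (L * K * b ^ (2 : ℝ)) ^ a * (L * b ^ p) ^ (1 - a) := by
    calc N = N ^ a * N ^ (1 - a) := by
          rw [← Real.rpow_add h0]
          norm_num
      _ ≤ _ := mul_le_mul (Real.rpow_le_rpow h0.le h2 ha) (Real.rpow_le_rpow h0.le h1 (by linarith))
          (by positivity) (by positivity)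
  have h4 : (L * K * b ^ (2 : ℝ)) ^ a * (L * b ^ p) ^ (1 - a) = K ^ a * (L * b ^ (p - a * (p - 2))) := by
    rw [Real.mul_rpow (by positivity) (by positivity), Real.mul_rpow hL.le hK.le,
      Real.mul_rpow hL.le (by positivity), ← Real.rpow_mul hb.le, ← Real.rpow_mul hb.le]
    have e1 : L ^ a * K ^ a * b ^ (2 * a) * (L ^ (1 - a) * b ^ (p * (1 - a))) =
        K ^ a * ((L ^ a * L ^ (1 - a)) * (b ^ (2 * a) * b ^ (p * (1 - a)))) := by ring
    rw [e1, ← Real.rpow_add hL, ← Real.rpow_add hb]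
    congr 2
    · norm_num
    · congr 1
      ring
  rw [h4] at h3
  rw [Real.rpow_neg hK.le, ← div_eq_mul_inv, div_le_iff₀ hKa]
  linarith

variable {Ω : Type*} [MeasurableSpace Ω] (P : Measure Ω) (A : (Fin d → ℤ) → Set Ω)

/-- the first exceptional event -/
def Bad (S : Set H) (φ : EuclideanSpace ℝ (Fin d) → H) (k l u : ℕ) : Set Ω :=
  {ω | ∃ f ∈ S, ∃ T : Finset (Fin d → ℤ), T.card = u ∧
    ∀ j ∈ T, j ∈ Ann d k ∧ ω ∈ A j ∧ hit φ ((1 / 2) ^ l) f j}

/-- the second exceptional event -/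
def Crowd (k r u : ℕ) : Set Ω :=
  {ω | ∃ j ∈ Ann d k, ∃ T : Finset (Fin d → ℤ), T.card = u ∧ ∀ i ∈ T, ‖i - j‖ ≤ r ∧ ω ∈ A i}

theorem bad_prob {S : Set H} {φ : EuclideanSpace ℝ (Fin d) → H} {p L γ : ℝ}
    (hS : Surf S φ p L γ) (a c : ℝ) (ha : 0 < a) (ha1 : a ≤ 1) (hc : 1 ≤ c)
    (hA : ∀ T : Finset (Fin d → ℤ), P (⋂ j ∈ T, A j) ≤ ∏ j ∈ T, P (A j))
    (hp : ∀ j, P (A j) ≤ ENNReal.ofReal (c * (1 + ‖j‖) ^ (-a))) :
    ∃ D : ℝ, 1 ≤ D ∧ ∀ k l : ℕ,
      P (Bad A S φ k l ⌈D * (k + l + 1) * ((2 : ℝ) ^ l) ^ (p - a * (p - 2))⌉₊) ≤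
        ENNReal.ofReal (Real.exp (-(k + l + 1))) := by
  classical
  obtain ⟨C, hC0, hC⟩ := class_net hS
  have hL := hS.L1
  set q : ℝ := p - a * (p - 2) with hq
  have hq2 : 2 ≤ q := by
    have := hS.p2
    have : a * (p - 2) ≤ 1 * (p - 2) := mul_le_mul_of_nonneg_right ha1 (by linarith)
    rw [hq]; linarith
  set D : ℝ := C + 1 + Real.exp 2 * (c * L * 2 ^ q) with hD
  have hD1 : 1 ≤ D := by
    have : 0 ≤ Real.exp 2 * (c * L * 2 ^ q) := by positivity
    rw [hD]; linarith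
  refine ⟨D, hD1, ?_⟩
  intro k l
  obtain ⟨N, hN1, hN2, hN3⟩ := hC k l
  set u : ℕ := ⌈D * (k + l + 1) * ((2 : ℝ) ^ l) ^ q⌉₊ with hu
  have hule : D * (k + l + 1) * ((2 : ℝ) ^ l) ^ q ≤ u := Nat.le_ceil _
  have hk0 : (0 : ℝ) ≤ k := Nat.cast_nonneg k
  have hl0 : (0 : ℝ) ≤ l := Nat.cast_nonneg l
  have h2l : (1 : ℝ) ≤ 2 ^ l := one_le_pow₀ (by norm_num)
  have hB1 : (1 : ℝ) ≤ ((2 : ℝ) ^ l) ^ q := Real.one_le_rpow h2l (by linarith)
  have hB4 : (4 : ℝ) ^ l ≤ ((2 : ℝ) ^ l) ^ q := by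
    have h1 : (4 : ℝ) ^ l = ((2 : ℝ) ^ l) ^ (2 : ℝ) := by
      rw [Real.rpow_two, ← pow_mul, mul_comm l 2, pow_mul]
      norm_num
    rw [h1]
    exact Real.rpow_le_rpow_of_exponent_le h2l hq2
  set G : H → Finset (Fin d → ℤ) := fun g =>
    (Ann_finite (d := d) k).toFinset.filter fun j => hit φ ((1 / 2) ^ (l + 1)) g j with hG
  set rho : ℝ := c * ((2 : ℝ) ^ k) ^ (-a) with hrho
  have hrho0 : 0 ≤ rho := by positivity
  -- the event is contained in a union over the net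
  have hsub : Bad A S φ k l u ⊆ ⋃ g ∈ N, {ω | ∃ T ⊆ G g, T.card = u ∧ ∀ j ∈ T, ω ∈ A j} := by
    rintro ω ⟨f, hf, T, hTc, hT⟩
    obtain ⟨g, hg, hfg⟩ := hN3 f hf
    rw [mem_iUnion₂]
    refine ⟨g, hg, T, ?_, hTc, fun j hj => (hT j hj).2.1⟩
    intro j hj
    obtain ⟨h1, h2, x, hx, hxl⟩ := hT j hj
    rw [hG, Finset.mem_filter, Set.Finite.mem_toFinset]
    refine ⟨h1, x, hx, ?_⟩
    have hxi : ∀ i, |x i| ≤ 2 ^ (k + 2) := by
      intro i
      have b1 := hx i
      have b2 := abs_coord j i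
      have b3 := h1.2
      have b4 := abs_le.1 b2
      have b5 : (2 : ℝ) ^ (k + 2) = 2 * 2 ^ (k + 1) := by ring
      have b6 : (0 : ℝ) < 2 ^ (k + 1) := by positivity
      rw [abs_le]
      constructor <;> linarith
    have h3 := hfg x hxi
    have h4 : ‖inner ℂ (φ x) f‖ ≤ ‖inner ℂ (φ x) g‖ + ‖inner ℂ (φ x) (f - g)‖ := by
      have : inner ℂ (φ x) f = inner ℂ (φ x) g + inner ℂ (φ x) (f - g) := by
        rw [inner_sub_right]; ring
      rw [this]
      exact norm_add_le _ _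
    rw [pow_succ]
    linarith
  -- the cardinality
  have hcard : ∀ g ∈ N, Real.exp 2 * ((G g).card * rho) ≤ u := by
    intro g hg
    have h1 : ((G g).card : ℝ) ≤ L * ((2 : ℝ) ^ (l + 1)) ^ p := by
      have h := hS.c1 g (hN1 g hg) ((1 / 2) ^ (l + 1)) (by positivity)
        (pow_le_one₀ (by norm_num) (by norm_num)) (G g) (fun j hj => (Finset.mem_filter.1 hj).2)
      refine h.trans (le_of_eq ?_)
      rw [one_div_pow, one_div, Real.rpow_neg (by positivity), Real.inv_rpow (by positivity),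
        inv_inv]
    have h2 : ((G g).card : ℝ) ≤ L * (2 : ℝ) ^ k * ((2 : ℝ) ^ (l + 1)) ^ (2 : ℝ) := by
      have h := hS.c2 g (hS.sub g (hN1 g hg)) ((1 / 2) ^ (l + 1)) (by positivity)
        (pow_le_one₀ (by norm_num) (by norm_num)) k (G g) (fun j hj => by
          have := Finset.mem_filter.1 hj
          rw [Set.Finite.mem_toFinset] at this
          exact ⟨this.2, this.1.2⟩)
      refine h.trans (le_of_eq ?_)
      rw [one_div_pow, one_div, Real.rpow_neg (by positivity), Real.inv_rpow (by positivity),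
        inv_inv]
    have h3 := interp (G g).card L ((2 : ℝ) ^ k) ((2 : ℝ) ^ (l + 1)) a p (Nat.cast_nonneg _)
      (by linarith) (by positivity) (by positivity) ha.le ha1 h1 h2
    have h4 : ((2 : ℝ) ^ (l + 1)) ^ q = 2 ^ q * ((2 : ℝ) ^ l) ^ q := by
      rw [pow_succ, mul_comm, Real.mul_rpow (by norm_num) (by positivity)]
    calc Real.exp 2 * ((G g).card * rho)
        = Real.exp 2 * c * ((G g).card * ((2 : ℝ) ^ k) ^ (-a)) := by rw [hrho]; ring
      _ ≤ Real.exp 2 * c * (L * ((2 : ℝ) ^ (l + 1)) ^ q) :=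
          mul_le_mul_of_nonneg_left h3 (by positivity)
      _ = (Real.exp 2 * (c * L * 2 ^ q)) * 1 * ((2 : ℝ) ^ l) ^ q := by rw [h4]; ring
      _ ≤ D * (k + l + 1) * ((2 : ℝ) ^ l) ^ q := by
          refine mul_le_mul_of_nonneg_right ?_ (by linarith)
          refine mul_le_mul ?_ (by linarith) zero_le_one (by linarith)
          rw [hD]; linarith
      _ ≤ u := hule
  refine (measure_mono hsub).trans ((measure_biUnion_finset_le _ _).trans ?_)
  have h5 : ∀ g ∈ N, P {ω | ∃ T ⊆ G g, T.card = u ∧ ∀ j ∈ T, ω ∈ A j} ≤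
      ENNReal.ofReal (Real.exp (-u)) := by
    intro g hg
    refine (few P A hA (G g) rho (G g).card hrho0 le_rfl ?_ u).trans (ENNReal.ofReal_le_ofReal
      (fact_bound _ u (by positivity) (hcard g hg)))
    intro j hj
    have h6 := Finset.mem_filter.1 hj
    rw [Set.Finite.mem_toFinset] at h6
    refine (hp j).trans (ENNReal.ofReal_le_ofReal ?_)
    rw [hrho]
    refine mul_le_mul_of_nonneg_left ?_ (by linarith)
    exact Real.rpow_le_rpow_of_nonpos (by positivity) h6.1.1 (by linarith)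
  refine (Finset.sum_le_sum h5).trans ?_
  rw [Finset.sum_const, nsmul_eq_mul,
    show ((N.card : ℕ) : ℝ≥0∞) = ENNReal.ofReal (N.card : ℝ) by rw [ENNReal.ofReal_natCast],
    ← ENNReal.ofReal_mul (by positivity)]
  refine ENNReal.ofReal_le_ofReal ?_
  calc (N.card : ℝ) * Real.exp (-u) ≤ Real.exp (C * (k + l + 1) * 4 ^ l) *
        Real.exp (-(D * (k + l + 1) * ((2 : ℝ) ^ l) ^ q)) := by
        refine mul_le_mul hN2 (Real.exp_le_exp.2 ?_) (by positivity) (by positivity)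
        linarith
    _ = Real.exp (C * (k + l + 1) * 4 ^ l + -(D * (k + l + 1) * ((2 : ℝ) ^ l) ^ q)) := by
        rw [Real.exp_add]
    _ ≤ Real.exp (-(k + l + 1)) := by
        refine Real.exp_le_exp.2 ?_
        have h7 : C * (k + l + 1) * 4 ^ l ≤ C * (k + l + 1) * ((2 : ℝ) ^ l) ^ q :=
          mul_le_mul_of_nonneg_left hB4 (by positivity)
        have h8 : (k + l + 1 : ℝ) * 1 ≤ (k + l + 1) * ((2 : ℝ) ^ l) ^ q :=
          mul_le_mul_of_nonneg_left hB1 (by positivity)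
        have h9 : (C + 1) * (((k : ℝ) + l + 1) * ((2 : ℝ) ^ l) ^ q) ≤
            D * ((k + l + 1) * ((2 : ℝ) ^ l) ^ q) := by
          refine mul_le_mul_of_nonneg_right ?_ (by positivity)
          have : 0 ≤ Real.exp 2 * (c * L * 2 ^ q) := by positivity
          rw [hD]; linarith
        nlinarith

theorem crowd_prob (a c : ℝ) (ha : 0 < a) (ha1 : a ≤ 1) (hc : 1 ≤ c)
    (hA : ∀ T : Finset (Fin d → ℤ), P (⋂ j ∈ T, A j) ≤ ∏ j ∈ T, P (A j))
    (hp : ∀ j, P (A j) ≤ ENNReal.ofReal (c * (1 + ‖j‖) ^ (-a))) (κ : ℕ) :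
    ∃ K u : ℕ, ∀ k l : ℕ, K * (l + 1) ≤ k →
      P (Crowd A k (2 ^ (κ * (l + 1))) u) ≤ ENNReal.ofReal ((1 / 2) ^ (k + l)) := by
  classical
  obtain ⟨m, hm⟩ : ∃ m : ℕ, c ≤ 2 ^ m := by
    obtain ⟨m, hm⟩ := exists_nat_gt c
    have h1 : m < 2 ^ m := Nat.lt_two_pow_self
    have h2 : (m : ℝ) < 2 ^ m := by exact_mod_cast h1
    exact ⟨m, by linarith⟩
  obtain ⟨K₁, hK₁⟩ := exists_nat_gt (2 * ((κ : ℝ) * d + 2 * d + m + 1) / a)
  obtain ⟨u, hu⟩ := exists_nat_gt (2 * (4 * (d : ℝ) + 2) / a)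
  set K : ℕ := K₁ + κ + 1 with hK
  refine ⟨K, u, ?_⟩
  intro k l hkl
  have hl1 : (1 : ℝ) ≤ (l : ℝ) + 1 := by
    have : (0 : ℝ) ≤ l := Nat.cast_nonneg l
    linarith
  have hkR : ((K : ℝ)) * (l + 1) ≤ k := by exact_mod_cast hkl
  have hKR : (K : ℝ) = K₁ + κ + 1 := by rw [hK]; push_cast; ring
  have hk1 : 1 ≤ k := by
    refine le_trans ?_ hkl
    have : 1 * 1 ≤ K * (l + 1) := Nat.mul_le_mul (by omega) (by omega)
    omega
  have hlk : l ≤ k := by
    refine le_trans ?_ hkl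
    have : 1 * (l + 1) ≤ K * (l + 1) := Nat.mul_le_mul (by omega) le_rfl
    omega
  have hκk : κ * (l + 1) + 1 ≤ k := by
    refine le_trans ?_ hkl
    have : (κ + 1) * (l + 1) ≤ K * (l + 1) := Nat.mul_le_mul (by omega) le_rfl
    have h2 : (κ + 1) * (l + 1) = κ * (l + 1) + (l + 1) := by ring
    omega
  set r : ℕ := 2 ^ (κ * (l + 1)) with hr
  have hrk : (2 : ℝ) * r ≤ 2 ^ k := by
    rw [hr]
    push_cast
    calc (2 : ℝ) * 2 ^ (κ * (l + 1)) = 2 ^ (κ * (l + 1) + 1) := by ring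
      _ ≤ 2 ^ k := pow_le_pow_right₀ (by norm_num) hκk
  set rho : ℝ := c * ((2 : ℝ) ^ k / 2) ^ (-a) with hrho
  have hrho0 : 0 ≤ rho := by positivity
  set G : (Fin d → ℤ) → Finset (Fin d → ℤ) := fun j =>
    Fintype.piFinset fun i => Finset.Icc (j i - r) (j i + r) with hG
  have hsub : Crowd A k r u ⊆ ⋃ j ∈ (Ann_finite (d := d) k).toFinset,
      {ω | ∃ T ⊆ G j, T.card = u ∧ ∀ i ∈ T, ω ∈ A i} := by
    rintro ω ⟨j, hj, T, hTc, hT⟩
    rw [mem_iUnion₂]
    refine ⟨j, (Set.Finite.mem_toFinset _).2 hj, T, fun i hi => ?_, hTc, fun i hi => (hT i hi).2⟩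
    have := ball_subset j r (show i ∈ {i : Fin d → ℤ | ‖i - j‖ ≤ r} from (hT i hi).1)
    exact this
  refine (measure_mono hsub).trans ((measure_biUnion_finset_le _ _).trans ?_)
  -- the main quantity
  have hx : ((2 * r + 1 : ℕ) : ℝ) ^ d * rho ≤ (2 : ℝ) ^ (-(a * k / 2)) := by
    have h1 : ((2 * r + 1 : ℕ) : ℝ) ^ d ≤ (2 : ℝ) ^ ((κ * (l + 1) + 2) * d : ℝ) := by
      have h2 : ((2 * r + 1 : ℕ) : ℝ) ≤ 2 ^ (κ * (l + 1) + 2) := by
        push_cast
        rw [hr]
        push_cast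
        have : (1 : ℝ) ≤ 2 ^ (κ * (l + 1)) := one_le_pow₀ (by norm_num)
        rw [pow_add]
        linarith
      calc ((2 * r + 1 : ℕ) : ℝ) ^ d ≤ (2 ^ (κ * (l + 1) + 2)) ^ d :=
            pow_le_pow_left₀ (by positivity) h2 d
        _ = _ := by
            rw [← pow_mul, ← Real.rpow_natCast]
            push_cast
            ring_nf
    have h3 : rho ≤ (2 : ℝ) ^ ((m : ℝ) + 1 - a * k) := by
      rw [hrho, Real.div_rpow (by positivity) (by norm_num), ← Real.rpow_natCast 2 k,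
        ← Real.rpow_mul (by norm_num), ← Real.rpow_sub (by norm_num)]
      calc c * (2 : ℝ) ^ ((k : ℝ) * -a - -a) ≤ 2 ^ (m : ℝ) * (2 : ℝ) ^ ((k : ℝ) * -a - -a) := by
            refine mul_le_mul_of_nonneg_right ?_ (by positivity)
            rw [Real.rpow_natCast]; exact hm
        _ = (2 : ℝ) ^ ((m : ℝ) + ((k : ℝ) * -a - -a)) := by rw [Real.rpow_add (by norm_num)]
        _ ≤ _ := Real.rpow_le_rpow_of_exponent_le (by norm_num) (by linarith)
    calc ((2 * r + 1 : ℕ) : ℝ) ^ d * rho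
        ≤ (2 : ℝ) ^ ((κ * (l + 1) + 2) * d : ℝ) * (2 : ℝ) ^ ((m : ℝ) + 1 - a * k) :=
          mul_le_mul h1 h3 hrho0 (by positivity)
      _ = (2 : ℝ) ^ (((κ * (l + 1) + 2) * d : ℝ) + ((m : ℝ) + 1 - a * k)) := by
          rw [Real.rpow_add (by norm_num)]
      _ ≤ _ := by
          refine Real.rpow_le_rpow_of_exponent_le (by norm_num) ?_
          have hd0 : (0 : ℝ) ≤ d := Nat.cast_nonneg d
          have hm0 : (0 : ℝ) ≤ m := Nat.cast_nonneg m
          have hl0 : (0 : ℝ) ≤ l := Nat.cast_nonneg l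
          have hκ0 : (0 : ℝ) ≤ κ := Nat.cast_nonneg κ
          have h4 : ((κ * (l + 1) + 2) * d : ℝ) + ((m : ℝ) + 1) ≤
              ((κ : ℝ) * d + 2 * d + m + 1) * (l + 1) := by
            have e1 : (0 : ℝ) ≤ d * l := by positivity
            have e2 : (0 : ℝ) ≤ m * l := by positivity
            nlinarith
          have h5 : ((κ : ℝ) * d + 2 * d + m + 1) ≤ a * K / 2 := by
            rw [div_lt_iff₀ ha] at hK₁
            have : a * (K₁ : ℝ) ≤ a * K := by
              refine mul_le_mul_of_nonneg_left ?_ ha.le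
              rw [hKR]; linarith
            linarith
          have h6 : ((κ : ℝ) * d + 2 * d + m + 1) * (l + 1) ≤ a * K / 2 * (l + 1) :=
            mul_le_mul_of_nonneg_right h5 (by linarith)
          have h7 : a * K / 2 * (l + 1) ≤ a * k / 2 := by
            have : a * ((K : ℝ) * (l + 1)) ≤ a * k := mul_le_mul_of_nonneg_left hkR ha.le
            linarith
          linarith
  have h8 : ∀ j ∈ (Ann_finite (d := d) k).toFinset,
      P {ω | ∃ T ⊆ G j, T.card = u ∧ ∀ i ∈ T, ω ∈ A i} ≤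
        ENNReal.ofReal ((2 : ℝ) ^ (-((4 * d + 2) * k : ℝ))) := by
    intro j hj
    rw [Set.Finite.mem_toFinset] at hj
    refine (few P A hA (G j) rho (((2 * r + 1 : ℕ) : ℝ) ^ d) hrho0 ?_ ?_ u).trans
      (ENNReal.ofReal_le_ofReal ?_)
    · rw [hG]
      simp only
      rw [ball_card]
      push_cast
      exact le_rfl
    · intro i hi
      refine (hp i).trans (ENNReal.ofReal_le_ofReal ?_)
      rw [hrho]
      refine mul_le_mul_of_nonneg_left ?_ (by linarith)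
      refine Real.rpow_le_rpow_of_nonpos (by positivity) ?_ (by linarith)
      have h9 : ‖i - j‖ ≤ r := by
        rw [pi_norm_le_iff_of_nonneg (Nat.cast_nonneg r)]
        intro t
        rw [hG, Fintype.mem_piFinset] at hi
        have := Finset.mem_Icc.1 (hi t)
        rw [Pi.sub_apply, Int.norm_eq_abs, abs_le]
        push_cast
        constructor
        · have h : ((j t - r : ℤ) : ℝ) ≤ i t := by exact_mod_cast this.1
          push_cast at h
          linarith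
        · have h : (i t : ℝ) ≤ ((j t + r : ℤ) : ℝ) := by exact_mod_cast this.2
          push_cast at h
          linarith
      have h10 : ‖j‖ ≤ ‖i‖ + ‖i - j‖ := by
        have : j = i - (i - j) := by abel
        calc ‖j‖ = ‖i - (i - j)‖ := by rw [← this]
          _ ≤ _ := norm_sub_le _ _
      have h11 := hj.1
      linarith
    · have h12 : (0 : ℝ) ≤ ((2 * r + 1 : ℕ) : ℝ) ^ d * rho := by positivity
      calc (((2 * r + 1 : ℕ) : ℝ) ^ d * rho) ^ u / u.factorial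
          ≤ (((2 * r + 1 : ℕ) : ℝ) ^ d * rho) ^ u := by
            refine div_le_self (by positivity) ?_
            exact_mod_cast Nat.one_le_iff_ne_zero.2 (Nat.factorial_ne_zero u)
        _ ≤ ((2 : ℝ) ^ (-(a * k / 2))) ^ u := pow_le_pow_left₀ h12 hx u
        _ = (2 : ℝ) ^ (-(a * k / 2) * u) := by
            rw [← Real.rpow_natCast, ← Real.rpow_mul (by norm_num)]
        _ ≤ _ := by
            refine Real.rpow_le_rpow_of_exponent_le (by norm_num) ?_
            rw [div_lt_iff₀ ha] at hu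
            have hk0 : (0 : ℝ) ≤ k := Nat.cast_nonneg k
            nlinarith
  refine (Finset.sum_le_sum h8).trans ?_
  rw [Finset.sum_const, nsmul_eq_mul]
  have h13 : (((Ann_finite (d := d) k).toFinset.card : ℕ) : ℝ≥0∞) ≤
      ENNReal.ofReal ((2 : ℝ) ^ (4 * d * k : ℝ)) := by
    rw [show (((Ann_finite (d := d) k).toFinset.card : ℕ) : ℝ≥0∞) =
      ENNReal.ofReal (((Ann_finite (d := d) k).toFinset.card : ℕ) : ℝ) by
        rw [ENNReal.ofReal_natCast]]
    refine ENNReal.ofReal_le_ofReal ?_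
    have h14 := Ann_ncard (d := d) k
    rw [Set.ncard_eq_toFinset_card _ (Ann_finite k)] at h14
    have h15 : (((Ann_finite (d := d) k).toFinset.card : ℕ) : ℝ) ≤ ((2 : ℝ) ^ (k + 3)) ^ d := by
      exact_mod_cast h14
    refine h15.trans ?_
    rw [← pow_mul, ← Real.rpow_natCast]
    refine Real.rpow_le_rpow_of_exponent_le (by norm_num) ?_
    push_cast
    have hd0 : (0 : ℝ) ≤ d := Nat.cast_nonneg d
    have hk1' : (1 : ℝ) ≤ k := by exact_mod_cast hk1
    nlinarith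
  refine (mul_le_mul' h13 le_rfl).trans ?_
  rw [← ENNReal.ofReal_mul (by positivity), ← Real.rpow_add (by norm_num)]
  refine ENNReal.ofReal_le_ofReal ?_
  have h16 : ((1 / 2 : ℝ)) ^ (k + l) = (2 : ℝ) ^ (-((k : ℝ) + l)) := by
    rw [one_div_pow, Real.rpow_neg (by norm_num), one_div, ← Real.rpow_natCast]
    push_cast
    rfl
  rw [h16]
  refine Real.rpow_le_rpow_of_exponent_le (by norm_num) ?_
  have hlk' : (l : ℝ) ≤ k := by exact_mod_cast hlk
  nlinarith

end Pool.Agent.N248.RR
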