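import Mathlib
import Pool.Agent.N248.RR.D
set_option autoImplicit false

/-! Random unions of cubes: the deterministic part. -/

namespace Pool.Agent.N248.RR

open MeasureTheory Set ProbabilityTheory
open scoped ENNReal

variable {d : ℕ} {H : Type*} [NormedAddCommGroup H] [InnerProductSpace ℂ H]

/-- almost orthogonality -/
theorem almost_orth {ι : Type*} (F : Finset ι) (v : ι → H) (f : H) (hf : ‖f‖ ≤ 1)
    (L ε : ℝ) (hε : 0 ≤ ε) (hv : ∀ i ∈ F, ‖v i‖ ≤ L)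
    (hij : ∀ i ∈ F, ∀ j ∈ F, i ≠ j → ‖inner ℂ (v i) (v j)‖ ≤ ε) :
    ∑ i ∈ F, ‖inner ℂ (v i) f‖ ^ 2 ≤ L ^ 2 + ε * F.card := by
  classical
  set a : ι → ℂ := fun i => inner ℂ (v i) f with ha
  set S : ℝ := ∑ i ∈ F, ‖a i‖ ^ 2 with hS
  have hS0 : 0 ≤ S := Finset.sum_nonneg fun i _ => by positivity
  set w : H := ∑ i ∈ F, a i • v i with hw
  have h1 : inner ℂ w f = ((S : ℝ) : ℂ) := by
    rw [hw, sum_inner, hS]
    push_cast
    refine Finset.sum_congr rfl fun i _ => ?_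
    rw [inner_smul_left]
    exact Complex.conj_mul' (a i)
  have h2 : S ≤ ‖w‖ := by
    have h3 := norm_inner_le_norm (𝕜 := ℂ) w f
    rw [h1, Complex.norm_real, Real.norm_eq_abs, abs_of_nonneg hS0] at h3
    have h4 : ‖w‖ * ‖f‖ ≤ ‖w‖ * 1 := mul_le_mul_of_nonneg_left hf (norm_nonneg _)
    linarith
  have h5 : ‖w‖ ^ 2 ≤ (L ^ 2 + ε * F.card) * S := by
    have h6 : ‖w‖ ^ 2 = ‖inner ℂ w w‖ := by
      rw [inner_self_eq_norm_sq_to_K]
      simp
    have h7 : inner ℂ w w = ∑ i ∈ F, ∑ j ∈ F, (starRingEnd ℂ) (a i) * a j * inner ℂ (v i) (v j) := by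
      rw [hw, sum_inner]
      refine Finset.sum_congr rfl fun i _ => ?_
      rw [inner_sum]
      refine Finset.sum_congr rfl fun j _ => ?_
      rw [inner_smul_left, inner_smul_right]
      ring
    have h8 : ‖inner ℂ w w‖ ≤ ∑ i ∈ F, ∑ j ∈ F, ‖a i‖ * ‖a j‖ * (if i = j then L ^ 2 else ε) := by
      rw [h7]
      refine (norm_sum_le _ _).trans (Finset.sum_le_sum fun i hi => ?_)
      refine (norm_sum_le _ _).trans (Finset.sum_le_sum fun j hj => ?_)
      rw [norm_mul, norm_mul, RCLike.norm_conj]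
      refine mul_le_mul_of_nonneg_left ?_ (by positivity)
      by_cases hij' : i = j
      · rw [if_pos hij', hij', inner_self_eq_norm_sq_to_K]
        simp only [norm_pow, RCLike.norm_ofReal, abs_norm]
        exact pow_le_pow_left₀ (norm_nonneg _) (hv j hj) 2
      · rw [if_neg hij']
        exact hij i hi j hj hij'
    have h9 : ∑ i ∈ F, ∑ j ∈ F, ‖a i‖ * ‖a j‖ * (if i = j then L ^ 2 else ε) ≤
        L ^ 2 * S + ε * (∑ i ∈ F, ‖a i‖) ^ 2 := by
      have h10 : ∀ i ∈ F, ∑ j ∈ F, ‖a i‖ * ‖a j‖ * (if i = j then L ^ 2 else ε) ≤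
          L ^ 2 * ‖a i‖ ^ 2 + ε * ‖a i‖ * ∑ j ∈ F, ‖a j‖ := by
        intro i hi
        rw [Finset.mul_sum]
        have h11 : L ^ 2 * ‖a i‖ ^ 2 = ∑ j ∈ F, if i = j then L ^ 2 * ‖a i‖ ^ 2 else 0 := by
          rw [Finset.sum_ite_eq, if_pos hi]
        rw [h11, ← Finset.sum_add_distrib]
        refine Finset.sum_le_sum fun j _ => ?_
        by_cases hij' : i = j
        · rw [if_pos hij', if_pos hij', ← hij']
          have : 0 ≤ ε * ‖a i‖ * ‖a i‖ := by positivity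
          linarith [sq ‖a i‖]
        · rw [if_neg hij', if_neg hij']
          linarith
      refine (Finset.sum_le_sum h10).trans (le_of_eq ?_)
      rw [Finset.sum_add_distrib, ← Finset.mul_sum, ← Finset.sum_mul, ← Finset.mul_sum]
      ring
    have h12 : (∑ i ∈ F, ‖a i‖) ^ 2 ≤ F.card * S := sq_sum_le_card_mul_sum_sq
    have h13 : ε * (∑ i ∈ F, ‖a i‖) ^ 2 ≤ ε * (F.card * S) := mul_le_mul_of_nonneg_left h12 hε
    calc ‖w‖ ^ 2 = ‖inner ℂ w w‖ := h6
      _ ≤ L ^ 2 * S + ε * (∑ i ∈ F, ‖a i‖) ^ 2 := h8.trans h9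
      _ ≤ L ^ 2 * S + ε * (F.card * S) := by linarith
      _ = _ := by ring
  rcases hS0.eq_or_lt with h0 | h0
  · rw [← h0]; positivity
  · have h14 : S * S ≤ (L ^ 2 + ε * F.card) * S := by
      have := pow_le_pow_left₀ hS0 h2 2
      nlinarith
    exact le_of_mul_le_mul_right h14 h0

theorem sep_bound {S : Set H} {φ : EuclideanSpace ℝ (Fin d) → H} {p L γ : ℝ}
    (hS : Surf S φ p L γ) :
    ∃ κ : ℕ, ∀ (l : ℕ) (f : H), ‖f‖ ≤ 1 → ∀ F : Finset (Fin d → ℤ),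
      (∀ i ∈ F, ∀ j ∈ F, i ≠ j → ((2 ^ (κ * (l + 1)) : ℕ) : ℝ) < ‖i - j‖) →
      (∀ j ∈ F, hit φ ((1 / 2) ^ l) f j) → (F.card : ℝ) ≤ 2 * L ^ 2 * 4 ^ l := by
  classical
  have hL := hS.L1
  have hγ := hS.g0
  obtain ⟨m, hm⟩ : ∃ m : ℕ, L ≤ 2 ^ m := by
    obtain ⟨m, hm⟩ := exists_nat_gt L
    have h1 : m < 2 ^ m := Nat.lt_two_pow_self
    have h2 : (m : ℝ) < 2 ^ m := by exact_mod_cast h1
    exact ⟨m, by linarith⟩
  obtain ⟨κ₁, hκ₁⟩ := exists_nat_gt ((3 + (m : ℝ)) / γ)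
  rw [div_lt_iff₀ hγ] at hκ₁
  refine ⟨κ₁ + 1, ?_⟩
  intro l f hf F hsep hhit
  set r : ℕ := 2 ^ ((κ₁ + 1) * (l + 1)) with hr
  have hr2 : (2 : ℝ) ≤ r := by
    have h1 : 1 ≤ (κ₁ + 1) * (l + 1) := Nat.mul_pos (by omega) (by omega)
    have : 2 ^ 1 ≤ r := Nat.pow_le_pow_right (by norm_num) h1
    exact_mod_cast this
  choose! x hx1 hx2 using hhit
  set ε : ℝ := (1 / 2) * (1 / 4) ^ l with hε
  have hε0 : 0 < ε := by positivity
  have hdist : ∀ i ∈ F, ∀ j ∈ F, i ≠ j → (r : ℝ) / 2 ≤ ‖x i - x j‖ := by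
    intro i hi j hj hij
    have h1 := hsep i hi j hj hij
    obtain ⟨t, ht⟩ : ∃ t, (r : ℝ) < ‖(i - j) t‖ := by
      by_contra hcon
      push Not at hcon
      have := (pi_norm_le_iff_of_nonneg (Nat.cast_nonneg r)).2 hcon
      linarith
    rw [Pi.sub_apply, Int.norm_eq_abs] at ht
    push_cast at ht
    have h2 : |x i t - x j t| ≤ ‖x i - x j‖ := by
      have := PiLp.norm_apply_le (x i - x j) t
      simpa using this
    have a1 := hx1 i hi t
    have a2 := hx1 j hj t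
    have h3 : |(i t : ℝ) - j t| - 1 ≤ |x i t - x j t| := by
      have h4 : |(i t : ℝ) - j t| ≤ |x i t - x j t| + 1 := by
        rw [abs_le]
        have b1 := neg_abs_le (x i t - x j t)
        have b2 := le_abs_self (x i t - x j t)
        constructor <;> linarith
      linarith
    linarith
  have hsmall : L * ((r : ℝ) / 2) ^ (-γ) ≤ ε := by
    have h1 : (2 : ℝ) ^ ((κ₁ : ℝ) * (l + 1)) ≤ (r : ℝ) / 2 := by
      rw [hr]
      push_cast
      have h2 : (2 : ℝ) ^ ((κ₁ + 1) * (l + 1)) = 2 ^ (κ₁ * (l + 1)) * 2 ^ l * 2 := by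
        rw [← pow_add, ← pow_succ]
        congr 1
        ring
      rw [h2]
      have h3 : (1 : ℝ) ≤ 2 ^ l := one_le_pow₀ (by norm_num)
      have h4 : (2 : ℝ) ^ ((κ₁ : ℝ) * (l + 1)) = 2 ^ (κ₁ * (l + 1)) := by
        rw [← Real.rpow_natCast]
        push_cast
        rfl
      rw [h4]
      have h5 : (0 : ℝ) < 2 ^ (κ₁ * (l + 1)) := by positivity
      nlinarith
    have h6 : ((r : ℝ) / 2) ^ (-γ) ≤ ((2 : ℝ) ^ ((κ₁ : ℝ) * (l + 1))) ^ (-γ) :=
      Real.rpow_le_rpow_of_nonpos (by positivity) h1 (by linarith)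
    rw [← Real.rpow_mul (by norm_num)] at h6
    have h7 : (2 : ℝ) ^ ((κ₁ : ℝ) * (l + 1) * -γ) ≤ (2 : ℝ) ^ (-((m : ℝ) + 3 * (l + 1))) := by
      refine Real.rpow_le_rpow_of_exponent_le (by norm_num) ?_
      have hl0 : (0 : ℝ) ≤ l := Nat.cast_nonneg l
      have hm0 : (0 : ℝ) ≤ m := Nat.cast_nonneg m
      have h8 : (3 + (m : ℝ)) * (l + 1) ≤ κ₁ * γ * (l + 1) :=
        mul_le_mul_of_nonneg_right hκ₁.le (by linarith)
      have : 0 ≤ (m : ℝ) * l := by positivity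
      nlinarith
    have h9 : (2 : ℝ) ^ (-((m : ℝ) + 3 * (l + 1))) ≤ (2 ^ m)⁻¹ * ε := by
      rw [Real.rpow_neg (by norm_num), Real.rpow_add (by norm_num), mul_inv, Real.rpow_natCast]
      refine mul_le_mul_of_nonneg_left ?_ (by positivity)
      have h10 : (2 : ℝ) ^ (3 * ((l : ℝ) + 1)) = 8 * 8 ^ l := by
        have : (3 : ℝ) * ((l : ℝ) + 1) = ((3 * (l + 1) : ℕ) : ℝ) := by push_cast; ring
        rw [this, Real.rpow_natCast, pow_mul, pow_succ]
        norm_num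
        ring
      rw [h10, hε, one_div_pow, inv_le_comm₀ (by positivity) (by positivity)]
      have h11 : (4 : ℝ) ^ l ≤ 8 ^ l := pow_le_pow_left₀ (by norm_num) (by norm_num) l
      have h12 : (0 : ℝ) < 4 ^ l := by positivity
      calc (1 / 2 * (1 / (4 : ℝ) ^ l))⁻¹ = 2 * 4 ^ l := by field_simp
        _ ≤ 8 * 8 ^ l := by linarith
    calc L * ((r : ℝ) / 2) ^ (-γ) ≤ 2 ^ m * ((2 ^ m)⁻¹ * ε) :=
          mul_le_mul hm (h6.trans (h7.trans h9)) (by positivity) (by positivity)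
      _ = ε := by field_simp
  have h := almost_orth F (fun i => φ (x i)) f hf L ε hε0.le (fun i _ => hS.bd _) (by
    intro i hi j hj hij
    have h1 := hdist i hi j hj hij
    have h2 : x i ≠ x j := by
      intro h
      rw [h, sub_self, norm_zero] at h1
      linarith
    refine (hS.dec _ _ h2).trans (le_trans ?_ hsmall)
    refine mul_le_mul_of_nonneg_left ?_ (by linarith)
    exact Real.rpow_le_rpow_of_nonpos (by linarith) h1 (by linarith))
  have h3 : (F.card : ℝ) * (1 / 4) ^ l ≤ ∑ i ∈ F, ‖inner ℂ (φ (x i)) f‖ ^ 2 := by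
    rw [← nsmul_eq_mul, ← Finset.sum_const]
    refine Finset.sum_le_sum fun i hi => ?_
    have h4 := hx2 i hi
    calc ((1 / 4 : ℝ)) ^ l = ((1 / 2) ^ l) ^ 2 := by
          rw [← pow_mul, mul_comm l 2, pow_mul]; norm_num
      _ ≤ _ := pow_le_pow_left₀ (by positivity) h4 2
  have h5 : (F.card : ℝ) * (1 / 4) ^ l ≤ 2 * L ^ 2 := by
    rw [hε] at h
    linarith
  have h6 : ((1 / 4 : ℝ)) ^ l * 4 ^ l = 1 := by rw [← mul_pow]; norm_num
  calc (F.card : ℝ) = (F.card : ℝ) * (1 / 4) ^ l * 4 ^ l := by rw [mul_assoc, h6, mul_one]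
    _ ≤ 2 * L ^ 2 * 4 ^ l := mul_le_mul_of_nonneg_right h5 (by positivity)

variable {Ω : Type*} (A : (Fin d → ℤ) → Set Ω)

theorem det_count {S : Set H} (hSub : ∀ f ∈ S, ‖f‖ ≤ 1)
    {φ : EuclideanSpace ℝ (Fin d) → H} {L : ℝ}
    (κ K u₀ l : ℕ) (u : ℕ → ℕ)
    (hκ : ∀ (f : H), ‖f‖ ≤ 1 → ∀ F : Finset (Fin d → ℤ),
      (∀ i ∈ F, ∀ j ∈ F, i ≠ j → ((2 ^ (κ * (l + 1)) : ℕ) : ℝ) < ‖i - j‖) →
      (∀ j ∈ F, hit φ ((1 / 2) ^ l) f j) → (F.card : ℝ) ≤ 2 * L ^ 2 * 4 ^ l)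
    (ω : Ω) (hbad : ∀ k, ω ∉ Bad A S φ k l (u k))
    (hcrowd : ∀ k, K * (l + 1) ≤ k → ω ∉ Crowd A k (2 ^ (κ * (l + 1))) u₀)
    (f : H) (hf : f ∈ S) (T : Finset (Fin d → ℤ))
    (hT : ∀ j ∈ T, ω ∈ A j ∧ hit φ ((1 / 2) ^ l) f j) :
    (T.card : ℝ) ≤ (∑ k ∈ Finset.range (K * (l + 1)), (u k : ℝ)) + 2 * L ^ 2 * 4 ^ l * u₀ := by
  classical
  set r : ℕ := 2 ^ (κ * (l + 1)) with hr
  set N : ℕ → Finset (Fin d → ℤ) := fun k => T.filter fun j => j ∈ Ann d k with hN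
  set R : Finset (Fin d → ℤ) := T.filter fun j => ∃ k, K * (l + 1) ≤ k ∧ j ∈ Ann d k with hR
  have hcover : T ⊆ (Finset.range (K * (l + 1))).biUnion N ∪ R := by
    intro j hj
    obtain ⟨k, hk⟩ := exists_ann j
    rw [Finset.mem_union, Finset.mem_biUnion]
    rcases lt_or_ge k (K * (l + 1)) with h | h
    · exact Or.inl ⟨k, Finset.mem_range.2 h, Finset.mem_filter.2 ⟨hj, hk⟩⟩
    · exact Or.inr (Finset.mem_filter.2 ⟨hj, k, h, hk⟩)
  have hnear : ∀ k, (N k).card ≤ u k := by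
    intro k
    by_contra hcon
    push Not at hcon
    obtain ⟨T', hT', hc⟩ := Finset.exists_subset_card_eq hcon.le
    refine hbad k ⟨f, hf, T', hc, fun j hj => ?_⟩
    have h1 := Finset.mem_filter.1 (hT' hj)
    exact ⟨h1.2, hT j h1.1⟩
  -- the maximal separated subset
  set Sep : Finset (Finset (Fin d → ℤ)) := R.powerset.filter fun F =>
    ∀ i ∈ F, ∀ j ∈ F, i ≠ j → (r : ℝ) < ‖i - j‖ with hSep
  have hne : Sep.Nonempty := ⟨∅, by
    rw [hSep, Finset.mem_filter]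
    exact ⟨Finset.empty_mem_powerset _, by simp⟩⟩
  obtain ⟨F, hF, hmax⟩ := Finset.exists_max_image Sep Finset.card hne
  rw [hSep, Finset.mem_filter, Finset.mem_powerset] at hF
  have hFc : (F.card : ℝ) ≤ 2 * L ^ 2 * 4 ^ l := hκ f (hSub f hf) F hF.2 fun j hj =>
    (hT j (Finset.mem_filter.1 (hF.1 hj)).1).2
  have hnearF : ∀ j ∈ R, ∃ i ∈ F, ‖j - i‖ ≤ r := by
    intro j hj
    by_contra hcon
    push Not at hcon
    have hjF : j ∉ F := by
      intro h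
      have := hcon j h
      rw [sub_self, norm_zero] at this
      have h0 : (0 : ℝ) ≤ r := Nat.cast_nonneg r
      linarith
    have h1 : insert j F ∈ Sep := by
      rw [hSep, Finset.mem_filter, Finset.mem_powerset]
      refine ⟨Finset.insert_subset hj hF.1, ?_⟩
      intro a ha b hb hab
      rcases Finset.mem_insert.1 ha with ha1 | ha1
      · rcases Finset.mem_insert.1 hb with hb1 | hb1
        · exact absurd (ha1.trans hb1.symm) hab
        · rw [ha1]; exact hcon b hb1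
      · rcases Finset.mem_insert.1 hb with hb1 | hb1
        · rw [hb1, norm_sub_rev]; exact hcon a ha1
        · exact hF.2 a ha1 b hb1 hab
    have h2 := hmax _ h1
    rw [Finset.card_insert_of_notMem hjF] at h2
    omega
  have hRc : (R.card : ℝ) ≤ 2 * L ^ 2 * 4 ^ l * u₀ := by
    have h1 : R ⊆ F.biUnion fun i => R.filter fun j => ‖j - i‖ ≤ r := by
      intro j hj
      obtain ⟨i, hi, hij⟩ := hnearF j hj
      rw [Finset.mem_biUnion]
      exact ⟨i, hi, Finset.mem_filter.2 ⟨hj, hij⟩⟩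
    have h2 : ∀ i ∈ F, (R.filter fun j => ‖j - i‖ ≤ r).card ≤ u₀ := by
      intro i hi
      by_contra hcon
      push Not at hcon
      obtain ⟨T', hT', hc⟩ := Finset.exists_subset_card_eq hcon.le
      obtain ⟨k, hk, hik⟩ := (Finset.mem_filter.1 (hF.1 hi)).2
      refine hcrowd k hk ⟨i, hik, T', hc, fun j hj => ?_⟩
      have h3 := Finset.mem_filter.1 (hT' hj)
      exact ⟨h3.2, (hT j (Finset.mem_filter.1 h3.1).1).1⟩
    have h4 : R.card ≤ F.card * u₀ :=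
      (Finset.card_le_card h1).trans (Finset.card_biUnion_le_card_mul _ _ _ h2)
    have h5 : (R.card : ℝ) ≤ F.card * u₀ := by exact_mod_cast h4
    exact h5.trans (mul_le_mul_of_nonneg_right hFc (Nat.cast_nonneg _))
  have h6 : T.card ≤ (∑ k ∈ Finset.range (K * (l + 1)), u k) + R.card := by
    refine (Finset.card_le_card hcover).trans ((Finset.card_union_le _ _).trans ?_)
    refine Nat.add_le_add_right ?_ _
    exact Finset.card_biUnion_le.trans (Finset.sum_le_sum fun k _ => hnear k)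
  have h7 : (T.card : ℝ) ≤ (∑ k ∈ Finset.range (K * (l + 1)), (u k : ℝ)) + R.card := by
    exact_mod_cast h6
  linarith

end Pool.Agent.N248.RR
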