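import Mathlib
import Pool.Agent.N248.RR.E
set_option autoImplicit false

/-! Random unions of cubes: the theorem. -/

namespace Pool.Agent.N248.RR

open MeasureTheory Set ProbabilityTheory Filter
open scoped ENNReal NNReal

variable {d : ℕ} {H : Type*} [NormedAddCommGroup H] [InnerProductSpace ℂ H]

theorem uq_meas (j : Fin d → ℤ) : MeasurableSet (uq j) := by
  have : uq j = ⋂ i, {x : EuclideanSpace ℝ (Fin d) | (j i : ℝ) ≤ x i} ∩
      {x | x i < j i + 1} := by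
    ext x
    simp only [uq, mem_ofPred_eq, mem_iInter, mem_inter_iff]
  rw [this]
  exact MeasurableSet.iInter fun i => (measurableSet_le measurable_const (by fun_prop)).inter
    (measurableSet_lt (by fun_prop) measurable_const)

theorem uq_vol (j : Fin d → ℤ) : volume (uq j) = 1 := by
  have h := (PiLp.volume_preserving_ofLp (Fin d)).measure_preimage
    (s := Set.univ.pi fun i => Ico (j i : ℝ) (j i + 1))
    (MeasurableSet.univ_pi fun i => measurableSet_Ico).nullMeasurableSet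
  have h2 : WithLp.ofLp ⁻¹' (Set.univ.pi fun i => Ico (j i : ℝ) (j i + 1)) = uq j := by
    ext x
    simp only [uq, mem_preimage, Set.mem_pi, mem_univ, true_implies, mem_Ico, mem_ofPred_eq]
  rw [h2] at h
  rw [h, volume_pi_pi]
  simp

theorem half_pow (n : ℕ) : ENNReal.ofReal ((1 / 2) ^ n) = (2⁻¹ : ℝ≥0∞) ^ n := by
  rw [ENNReal.ofReal_pow (by norm_num)]
  congr 1
  rw [one_div, ENNReal.ofReal_inv_of_pos (by norm_num)]
  norm_num

theorem summ (q r C : ℝ) (hqr : q < r) :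
    Summable fun n : ℕ => ((1 / 2 : ℝ) ^ n) ^ r * (C * ((n : ℝ) + 1 + 1) ^ 2 *
      ((2 : ℝ) ^ (n + 1)) ^ q) := by
  set ρ : ℝ := 2 ^ (q - r) with hρ
  have hρ0 : 0 < ρ := by positivity
  have hρ1 : ρ < 1 := Real.rpow_lt_one_of_one_lt_of_neg (by norm_num) (by linarith)
  have h1 : Summable fun n : ℕ => (((n : ℝ)) ^ 2 * ρ ^ n : ℝ) :=
    summable_pow_mul_geometric_of_norm_lt_one 2 (by
      rw [Real.norm_eq_abs, abs_of_pos hρ0]; exact hρ1)
  have h2 := ((summable_nat_add_iff 2).2 h1).mul_left (C * 2 ^ q * (ρ ^ 2)⁻¹)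
  refine h2.congr fun n => ?_
  have e1 : ((1 / 2 : ℝ) ^ n) ^ r = ((2 : ℝ) ^ (-r)) ^ n := by
    rw [one_div_pow, one_div, Real.inv_rpow (by positivity), ← Real.rpow_natCast 2 n,
      ← Real.rpow_mul (by norm_num), ← Real.rpow_natCast, ← Real.rpow_mul (by norm_num),
      ← Real.rpow_neg (by norm_num)]
    congr 1
    ring
  have e2 : ((2 : ℝ) ^ (n + 1)) ^ q = 2 ^ q * ((2 : ℝ) ^ q) ^ n := by
    rw [pow_succ, mul_comm, Real.mul_rpow (by norm_num) (by positivity), ← Real.rpow_natCast 2 n,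
      ← Real.rpow_mul (by norm_num), ← Real.rpow_natCast (2 ^ q) n, ← Real.rpow_mul (by norm_num)]
    congr 2
    ring
  have e3 : ρ ^ (n + 2) = ρ ^ 2 * (((2 : ℝ) ^ (-r)) ^ n * ((2 : ℝ) ^ q) ^ n) := by
    rw [pow_add, mul_comm, ← mul_pow, ← Real.rpow_add (by norm_num), hρ]
    congr 3
    ring
  rw [e1, e2, e3]
  push_cast
  field_simp
  ring

variable {Ω : Type*} [MeasurableSpace Ω] (P : Measure Ω) (A : (Fin d → ℤ) → Set Ω)

/-- **Random regions.** -/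
theorem regions {S : Set H} {φ : EuclideanSpace ℝ (Fin d) → H} {p L γ : ℝ} (hS : Surf S φ p L γ)
    (a c : ℝ) (ha : 0 < a) (ha1 : a ≤ 1) (hc : 1 ≤ c)
    (hA : ∀ T : Finset (Fin d → ℤ), P (⋂ j ∈ T, A j) ≤ ∏ j ∈ T, P (A j))
    (hp : ∀ j, P (A j) ≤ ENNReal.ofReal (c * (1 + ‖j‖) ^ (-a))) :
    ∀ᵐ ω ∂P, ∀ r : ℝ, p - a * (p - 2) < r → ∃ C : ℝ≥0, ∀ f ∈ S,
      ∫⁻ x in ⋃ j ∈ {j | ω ∈ A j}, uq j, ‖inner ℂ (φ x) f‖ₑ ^ r ≤ C := by
  classical
  have hL := hS.L1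
  set q : ℝ := p - a * (p - 2) with hq
  have hq2 : 2 ≤ q := by
    have := hS.p2
    have : a * (p - 2) ≤ 1 * (p - 2) := mul_le_mul_of_nonneg_right ha1 (by linarith)
    rw [hq]; linarith
  obtain ⟨D, hD1, hD⟩ := bad_prob P A hS a c ha ha1 hc hA hp
  obtain ⟨κ, hκ⟩ := sep_bound hS
  obtain ⟨K, u₀, hK⟩ := crowd_prob P A a c ha ha1 hc hA hp κ
  rw [← hq] at hD
  set u : ℕ → ℕ → ℕ := fun k l => ⌈D * (k + l + 1) * ((2 : ℝ) ^ l) ^ q⌉₊ with hu
  set E : ℕ → Set Ω := fun l => ⋃ k, (Bad A S φ k l (u k l) ∪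
    {ω | K * (l + 1) ≤ k ∧ ω ∈ Crowd A k (2 ^ (κ * (l + 1))) u₀}) with hE
  have hPE : ∀ l, P (E l) ≤ 4 * (2⁻¹ : ℝ≥0∞) ^ l := by
    intro l
    have h1 : ∀ k, P (Bad A S φ k l (u k l) ∪
        {ω | K * (l + 1) ≤ k ∧ ω ∈ Crowd A k (2 ^ (κ * (l + 1))) u₀}) ≤
        2 * ((2⁻¹ : ℝ≥0∞) ^ l * (2⁻¹ : ℝ≥0∞) ^ k) := by
      intro k
      refine (measure_union_le _ _).trans ?_
      rw [two_mul, ← pow_add, add_comm l k, ← half_pow]
      refine add_le_add ((hD k l).trans (ENNReal.ofReal_le_ofReal ?_)) ?_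
      · have h2 : Real.exp (-1) ≤ 1 / 2 := by
          rw [Real.exp_neg, one_div]
          refine inv_anti₀ (by norm_num) ?_
          have := Real.add_one_le_exp (1 : ℝ)
          linarith
        calc Real.exp (-((k : ℝ) + l + 1)) ≤ Real.exp (((k + l : ℕ) : ℝ) * (-1)) := by
              refine Real.exp_le_exp.2 ?_
              push_cast
              linarith
          _ = Real.exp (-1) ^ (k + l) := by rw [Real.exp_nat_mul]
          _ ≤ (1 / 2) ^ (k + l) := pow_le_pow_left₀ (Real.exp_pos _).le h2 _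
      · by_cases h : K * (l + 1) ≤ k
        · refine le_trans (measure_mono ?_) (hK k l h)
          exact fun ω hω => hω.2
        · refine le_trans (measure_mono (t := ∅) ?_) (by simp)
          exact fun ω hω => h hω.1
    calc P (E l) ≤ ∑' k, P (Bad A S φ k l (u k l) ∪
          {ω | K * (l + 1) ≤ k ∧ ω ∈ Crowd A k (2 ^ (κ * (l + 1))) u₀}) := measure_iUnion_le _
      _ ≤ ∑' k : ℕ, 2 * ((2⁻¹ : ℝ≥0∞) ^ l * (2⁻¹ : ℝ≥0∞) ^ k) := ENNReal.tsum_le_tsum h1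
      _ = 4 * (2⁻¹ : ℝ≥0∞) ^ l := by
          rw [ENNReal.tsum_mul_left, ENNReal.tsum_mul_left, ENNReal.tsum_geometric,
            ENNReal.one_sub_inv_two, inv_inv]
          ring
  have hsum : (∑' l, P (E l)) ≠ ∞ := by
    refine ne_top_of_le_ne_top ?_ (ENNReal.tsum_le_tsum hPE)
    rw [ENNReal.tsum_mul_left, ENNReal.tsum_geometric, ENNReal.one_sub_inv_two, inv_inv]
    exact ENNReal.mul_ne_top (by norm_num) (by norm_num)
  filter_upwards [ae_eventually_notMem hsum] with ω hω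
  obtain ⟨l₀, hl₀⟩ := eventually_atTop.1 hω
  -- the count
  set C₁ : ℝ := K * ((D + 1) * (K + 1)) + 2 * L ^ 2 * u₀ with hC₁
  have hC₁0 : 0 ≤ C₁ := by positivity
  set Bd : ℕ → ℝ := fun l => C₁ * ((l : ℝ) + 1) ^ 2 * ((2 : ℝ) ^ l) ^ q with hBd
  have hcount : ∀ l, l₀ ≤ l → ∀ f ∈ S, ∀ T : Finset (Fin d → ℤ),
      (∀ j ∈ T, ω ∈ A j ∧ hit φ ((1 / 2) ^ l) f j) → (T.card : ℝ) ≤ Bd l := by
    intro l hl f hf T hT
    have h1 := hl₀ l hl
    rw [hE, mem_iUnion] at h1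
    push Not at h1
    have h2 := det_count A hS.sub κ K u₀ l (fun k => u k l) (hκ l) ω
      (fun k hk => h1 k (Or.inl hk)) (fun k hk hk2 => h1 k (Or.inr ⟨hk, hk2⟩)) f hf T hT
    refine h2.trans ?_
    have hl0 : (0 : ℝ) ≤ l := Nat.cast_nonneg l
    have hK0 : (0 : ℝ) ≤ K := Nat.cast_nonneg K
    have h2l : (1 : ℝ) ≤ 2 ^ l := one_le_pow₀ (by norm_num)
    have hB1 : (1 : ℝ) ≤ ((2 : ℝ) ^ l) ^ q := Real.one_le_rpow h2l (by linarith)
    have hB4 : (4 : ℝ) ^ l ≤ ((2 : ℝ) ^ l) ^ q := by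
      have h1 : (4 : ℝ) ^ l = ((2 : ℝ) ^ l) ^ (2 : ℝ) := by
        rw [Real.rpow_two, ← pow_mul, mul_comm l 2, pow_mul]
        norm_num
      rw [h1]
      exact Real.rpow_le_rpow_of_exponent_le h2l hq2
    set B : ℝ := ((2 : ℝ) ^ l) ^ q with hB
    have h3 : ∀ k ∈ Finset.range (K * (l + 1)), (u k l : ℝ) ≤ (D + 1) * (K + 1) * (l + 1) * B := by
      intro k hk
      rw [Finset.mem_range] at hk
      have h4 : (k : ℝ) ≤ K * (l + 1) := by exact_mod_cast hk.le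
      have h5 : (u k l : ℝ) ≤ D * (k + l + 1) * B + 1 := by
        simp only [hu]
        exact (Nat.ceil_lt_add_one (by positivity)).le
      have h6 : D * (k + l + 1) * B ≤ D * ((K + 1) * (l + 1)) * B := by
        refine mul_le_mul_of_nonneg_right (mul_le_mul_of_nonneg_left ?_ (by linarith)) (by linarith)
        linarith
      have h7 : (1 : ℝ) ≤ (K + 1) * (l + 1) * B := by
        have a1 : (1 : ℝ) ≤ K + 1 := by linarith
        have a2 : (1 : ℝ) ≤ l + 1 := by linarith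
        have a3 : (1 : ℝ) ≤ (K + 1) * (l + 1) := one_le_mul_of_one_le_of_one_le a1 a2
        exact one_le_mul_of_one_le_of_one_le a3 hB1
      nlinarith
    have h8 : (∑ k ∈ Finset.range (K * (l + 1)), (u k l : ℝ)) ≤
        K * (l + 1) * ((D + 1) * (K + 1) * (l + 1) * B) := by
      refine (Finset.sum_le_sum h3).trans (le_of_eq ?_)
      rw [Finset.sum_const, Finset.card_range, nsmul_eq_mul]
      push_cast
      ring
    have h9 : 2 * L ^ 2 * 4 ^ l * u₀ ≤ 2 * L ^ 2 * u₀ * ((l : ℝ) + 1) ^ 2 * B := by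
      have a1 : (1 : ℝ) ≤ ((l : ℝ) + 1) ^ 2 := by nlinarith
      have a2 : (4 : ℝ) ^ l ≤ ((l : ℝ) + 1) ^ 2 * B := by nlinarith
      calc 2 * L ^ 2 * 4 ^ l * u₀ = 2 * L ^ 2 * u₀ * 4 ^ l := by ring
        _ ≤ 2 * L ^ 2 * u₀ * (((l : ℝ) + 1) ^ 2 * B) :=
            mul_le_mul_of_nonneg_left a2 (by positivity)
        _ = _ := by ring
    calc (∑ k ∈ Finset.range (K * (l + 1)), (u k l : ℝ)) + 2 * L ^ 2 * 4 ^ l * u₀
        ≤ K * (l + 1) * ((D + 1) * (K + 1) * (l + 1) * B) +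
          2 * L ^ 2 * u₀ * ((l : ℝ) + 1) ^ 2 * B := add_le_add h8 h9
      _ = Bd l := by simp only [hBd, hC₁]; ring
  intro r hr
  have hr0 : 0 < r := by linarith
  -- the constant
  set Z : ℝ≥0∞ := ENNReal.ofReal (L ^ r * Bd l₀) +
    ∑' i : ℕ, ENNReal.ofReal (((1 / 2 : ℝ) ^ (i + l₀)) ^ r * Bd (i + l₀ + 1)) with hZd
  have hZt : Z ≠ ∞ := by
    rw [hZd]
    refine ENNReal.add_ne_top.2 ⟨ENNReal.ofReal_ne_top, ?_⟩
    refine Summable.tsum_ofReal_ne_top ?_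
    have h1 := (summable_nat_add_iff l₀).2 (summ q r C₁ hr)
    refine h1.congr fun i => ?_
    simp only [hBd]
    push_cast
    rfl
  refine ⟨Z.toNNReal, ?_⟩
  intro f hf
  rw [ENNReal.coe_toNNReal hZt]
  change ∫⁻ x in ⋃ j ∈ {j | ω ∈ A j}, uq j, ‖inner ℂ (φ x) f‖ₑ ^ r ≤ Z
  set U : ℕ → Set (Fin d → ℤ) := fun l => {j | ω ∈ A j ∧ hit φ ((1 / 2) ^ l) f j} with hU
  have hUf : ∀ l, l₀ ≤ l → (U l).Finite := by
    intro l hl
    by_contra hcon
    obtain ⟨N, hN⟩ := exists_nat_gt (Bd l)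
    obtain ⟨T, hT1, hT2⟩ := Set.Infinite.exists_subset_card_eq hcon N
    have := hcount l hl f hf T (fun j hj => hT1 (Finset.mem_coe.2 hj))
    rw [hT2] at this
    linarith
  set W : ℕ → Set (EuclideanSpace ℝ (Fin d)) := fun l => ⋃ j ∈ U l, uq j with hW
  have hWm : ∀ l, MeasurableSet (W l) := fun l =>
    MeasurableSet.biUnion (Set.to_countable _) fun j _ => uq_meas j
  have hWv : ∀ l, l₀ ≤ l → volume (W l) ≤ ENNReal.ofReal (Bd l) := by
    intro l hl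
    have h1 : W l = ⋃ j ∈ (hUf l hl).toFinset, uq j := by
      simp only [hW]
      ext x
      simp
    rw [h1]
    refine (measure_biUnion_finset_le _ _).trans ?_
    simp_rw [uq_vol]
    rw [Finset.sum_const, nsmul_eq_mul, mul_one, ← ENNReal.ofReal_natCast]
    refine ENNReal.ofReal_le_ofReal (hcount l hl f hf (hUf l hl).toFinset fun j hj => ?_)
    exact (Set.Finite.mem_toFinset (hUf l hl)).1 hj
  have hΩm : MeasurableSet (⋃ j ∈ {j | ω ∈ A j}, uq j) :=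
    MeasurableSet.biUnion (Set.to_countable _) fun j _ => uq_meas j
  have hpt : ∀ x, (⋃ j ∈ {j | ω ∈ A j}, uq j).indicator
      (fun x => ‖inner ℂ (φ x) f‖ₑ ^ r) x ≤
      (W l₀).indicator (fun _ => ENNReal.ofReal (L ^ r)) x +
        ∑' i : ℕ, (W (i + l₀ + 1)).indicator
          (fun _ => ENNReal.ofReal (((1 / 2 : ℝ) ^ (i + l₀)) ^ r)) x := by
    intro x
    by_cases hx : x ∈ ⋃ j ∈ {j | ω ∈ A j}, uq j
    swap
    · rw [indicator_of_notMem hx]; exact zero_le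
    rw [indicator_of_mem hx]
    rw [mem_iUnion₂] at hx
    obtain ⟨j, hj, hxj⟩ := hx
    set t : ℝ := ‖inner ℂ (φ x) f‖ with ht
    have ht0 : 0 ≤ t := norm_nonneg _
    have hte : ‖inner ℂ (φ x) f‖ₑ ^ r = ENNReal.ofReal (t ^ r) := by
      rw [← ofReal_norm, ENNReal.ofReal_rpow_of_nonneg ht0 hr0.le]
    rw [hte]
    have htL : t ≤ L := by
      have h1 := norm_inner_le_norm (𝕜 := ℂ) (φ x) f
      have h2 := hS.bd x
      calc t ≤ ‖φ x‖ * ‖f‖ := h1
        _ ≤ L * 1 := mul_le_mul h2 (hS.sub f hf) (norm_nonneg _) (by linarith)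
        _ = L := mul_one L
    rcases ht0.eq_or_lt with h0 | h0
    · rw [← h0, Real.zero_rpow hr0.ne', ENNReal.ofReal_zero]
      exact zero_le
    rcases le_or_gt ((1 / 2 : ℝ) ^ l₀) t with h1 | h1
    · have h2 : x ∈ W l₀ := by
        simp only [hW]
        rw [mem_iUnion₂]
        exact ⟨j, ⟨hj, x, hxj, h1⟩, hxj⟩
      rw [indicator_of_mem h2]
      refine le_add_right (ENNReal.ofReal_le_ofReal ?_)
      exact Real.rpow_le_rpow ht0 htL hr0.le
    · have ht1 : t ≤ 1 := h1.le.trans (pow_le_one₀ (by norm_num) (by norm_num))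
      obtain ⟨n, hn1, hn2⟩ := exists_nat_pow_near_of_lt_one h0 ht1 (y := (1 / 2 : ℝ))
        (by norm_num) (by norm_num)
      have hn : l₀ ≤ n := by
        by_contra hcon
        push Not at hcon
        have h3 : (1 / 2 : ℝ) ^ l₀ ≤ (1 / 2) ^ (n + 1) :=
          pow_le_pow_of_le_one (by norm_num) (by norm_num) (by omega)
        linarith
      obtain ⟨i, rfl⟩ : ∃ i, n = i + l₀ := ⟨n - l₀, by omega⟩
      have h2 : x ∈ W (i + l₀ + 1) := by
        simp only [hW]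
        rw [mem_iUnion₂]
        exact ⟨j, ⟨hj, x, hxj, hn1.le⟩, hxj⟩
      refine le_add_left (le_trans ?_ (ENNReal.le_tsum i))
      rw [indicator_of_mem h2]
      refine ENNReal.ofReal_le_ofReal ?_
      exact Real.rpow_le_rpow ht0 hn2 hr0.le
  rw [← lintegral_indicator hΩm]
  refine (lintegral_mono hpt).trans ?_
  rw [lintegral_add_left (measurable_const.indicator (hWm l₀)),
    lintegral_tsum (fun i => (measurable_const.indicator (hWm _)).aemeasurable)]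
  simp_rw [lintegral_indicator_const (hWm _)]
  rw [hZd]
  refine add_le_add ?_ (ENNReal.tsum_le_tsum fun i => ?_)
  · rw [ENNReal.ofReal_mul (by positivity)]
    exact mul_le_mul' le_rfl (hWv l₀ le_rfl)
  · rw [ENNReal.ofReal_mul (by positivity)]
    exact mul_le_mul' le_rfl (hWv _ (by omega))

/-- **Random regions**, for the unit ball -/
theorem regions_ball {φ : EuclideanSpace ℝ (Fin d) → H} {p L γ : ℝ}
    (hS : Surf (Metric.closedBall 0 1) φ p L γ)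
    (a c : ℝ) (ha : 0 < a) (ha1 : a ≤ 1) (hc : 1 ≤ c)
    (hA : ∀ T : Finset (Fin d → ℤ), P (⋂ j ∈ T, A j) ≤ ∏ j ∈ T, P (A j))
    (hp : ∀ j, P (A j) ≤ ENNReal.ofReal (c * (1 + ‖j‖) ^ (-a))) :
    ∀ᵐ ω ∂P, ∀ r : ℝ, p - a * (p - 2) < r → ∃ C : ℝ≥0, ∀ f : H,
      ∫⁻ x in ⋃ j ∈ {j | ω ∈ A j}, uq j, ‖inner ℂ (φ x) f‖ₑ ^ r ≤ C * ‖f‖ₑ ^ r := by
  filter_upwards [regions P A hS a c ha ha1 hc hA hp] with ω hω
  intro r hr
  have hr0 : 0 < r := by
    have h1 := hS.p2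
    have : a * (p - 2) ≤ 1 * (p - 2) := mul_le_mul_of_nonneg_right ha1 (by linarith)
    linarith
  obtain ⟨C, hC⟩ := hω r hr
  refine ⟨C, fun f => ?_⟩
  by_cases hf : f = 0
  · rw [hf]
    simp only [inner_zero_right, enorm_zero]
    rw [ENNReal.zero_rpow_of_pos hr0, lintegral_zero, mul_zero]
  have hfn : ‖f‖ ≠ 0 := norm_ne_zero_iff.2 hf
  set g : H := ((‖f‖⁻¹ : ℝ) : ℂ) • f with hg
  have hgn : ‖g‖ ≤ 1 := by
    rw [hg, norm_smul, Complex.norm_real, norm_inv, norm_norm, inv_mul_cancel₀ hfn]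
  have hfg : f = ((‖f‖ : ℝ) : ℂ) • g := by
    rw [hg, smul_smul, ← Complex.ofReal_mul, mul_inv_cancel₀ hfn, Complex.ofReal_one, one_smul]
  have h1 := hC g (mem_closedBall_zero_iff.2 hgn)
  have h2 : ∀ x, ‖inner ℂ (φ x) f‖ₑ ^ r = ‖f‖ₑ ^ r * ‖inner ℂ (φ x) g‖ₑ ^ r := by
    intro x
    rw [← ENNReal.mul_rpow_of_nonneg _ _ hr0.le]
    congr 1
    conv_lhs => rw [hfg]
    rw [inner_smul_right, enorm_mul]
    congr 1
    rw [← ofReal_norm, Complex.norm_real, norm_norm, ofReal_norm]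
  simp_rw [h2]
  rw [lintegral_const_mul' _ _ (ENNReal.rpow_ne_top_of_nonneg hr0.le enorm_ne_top),
    mul_comm (C : ℝ≥0∞)]
  exact mul_le_mul' le_rfl h1

end Pool.Agent.N248.RR
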