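import Mathlib
import Pool.Agent.N248.RR.E
set_option autoImplicit false

/-! The counting estimates from local energy estimates and decay (the restricted weak type
Stein-Tomas estimate, for points in distinct unit cubes). -/

namespace Pool.Agent.N248.RR

open MeasureTheory Set
open scoped ENNReal

variable {d : ℕ} {H : Type*} [NormedAddCommGroup H] [InnerProductSpace ℂ H]

/-- duality: from the estimate for the functionals to sums of vectors -/
theorem dual_norm {ι : Type*} (F : Finset ι) (v : ι → H) (s : ι → ℂ) (hs : ∀ i ∈ F, ‖s i‖ ≤ 1)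
    (M : ℝ) (hM : 0 ≤ M) (h : ∀ f : H, ∑ i ∈ F, ‖inner ℂ (v i) f‖ ^ 2 ≤ M * ‖f‖ ^ 2) :
    ‖∑ i ∈ F, s i • v i‖ ^ 2 ≤ M * F.card := by
  set w : H := ∑ i ∈ F, s i • v i with hw
  have h1 : ‖w‖ ^ 2 ≤ ∑ i ∈ F, ‖inner ℂ (v i) w‖ := by
    have h2 : ‖w‖ ^ 2 = ‖inner ℂ w w‖ := by
      rw [inner_self_eq_norm_sq_to_K]; simp
    rw [h2]
    conv_lhs => rw [show inner ℂ w w = inner ℂ (∑ i ∈ F, s i • v i) w by rw [← hw]]
    rw [sum_inner]
    refine (norm_sum_le _ _).trans (Finset.sum_le_sum fun i hi => ?_)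
    rw [inner_smul_left, norm_mul, RCLike.norm_conj]
    exact mul_le_of_le_one_left (norm_nonneg _) (hs i hi)
  have h3 : (∑ i ∈ F, ‖inner ℂ (v i) w‖) ^ 2 ≤ F.card * ∑ i ∈ F, ‖inner ℂ (v i) w‖ ^ 2 :=
    sq_sum_le_card_mul_sum_sq
  have h4 : (‖w‖ ^ 2) ^ 2 ≤ M * F.card * ‖w‖ ^ 2 := by
    calc (‖w‖ ^ 2) ^ 2 ≤ (∑ i ∈ F, ‖inner ℂ (v i) w‖) ^ 2 :=
          pow_le_pow_left₀ (by positivity) h1 2
      _ ≤ F.card * ∑ i ∈ F, ‖inner ℂ (v i) w‖ ^ 2 := h3
      _ ≤ F.card * (M * ‖w‖ ^ 2) := mul_le_mul_of_nonneg_left (h w) (Nat.cast_nonneg _)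
      _ = _ := by ring
  rcases (sq_nonneg ‖w‖).eq_or_lt with h0 | h0
  · rw [← h0]; positivity
  · have : ‖w‖ ^ 2 * ‖w‖ ^ 2 ≤ M * F.card * ‖w‖ ^ 2 := by rw [← sq]; exact h4
    exact le_of_mul_le_mul_right this h0

/-- the energy hypothesis: the coordinates in the blocks are those in the range of `e` -/
def Energy {m : ℕ} (e : Fin m → Fin d) (φ : EuclideanSpace ℝ (Fin d) → H) (L : ℝ) : Prop :=
  ∀ (f : H) (τ : ℕ), 1 ≤ τ → ∀ (J : Finset (Fin d → ℤ)) (s : Fin m → ℤ),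
    (∀ j ∈ J, ∀ t, s t ≤ j (e t) ∧ j (e t) < s t + τ) →
    ∀ x : (Fin d → ℤ) → EuclideanSpace ℝ (Fin d), (∀ j ∈ J, x j ∈ uq j) →
    ∑ j ∈ J, ‖inner ℂ (φ (x j)) f‖ ^ 2 ≤ L * τ * ‖f‖ ^ 2

theorem block_count {m : ℕ} (e : Fin m → Fin d) (φ : EuclideanSpace ℝ (Fin d) → H) (L g : ℝ)
    (hL : 1 ≤ L) (hg : 0 < g) (hE : Energy e φ L)
    (hdec : ∀ x y (t : Fin m), 1 ≤ |x (e t) - y (e t)| →
      ‖inner ℂ (φ x) (φ y)‖ ≤ L * |x (e t) - y (e t)| ^ (-g))
    (f : H) (hf : ‖f‖ ≤ 1) (lam : ℝ) (hl0 : 0 < lam) (hl1 : lam ≤ 1)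
    (J : Finset (Fin d → ℤ)) (hJ : ∀ j ∈ J, hit φ lam f j) :
    (J.card : ℝ) ≤ (4 * 3 ^ m * L * (2 * L) ^ (1 / g)) * lam ^ (-(2 + 2 / g)) := by
  classical
  choose! x hx1 hx2 using hJ
  set N : ℝ := (J.card : ℝ) with hN
  have hN0 : 0 ≤ N := Nat.cast_nonneg _
  -- the scale
  set X : ℝ := (2 * L * (lam ^ 2)⁻¹) ^ (1 / g) with hX
  have hl2 : lam ^ 2 ≤ 1 := pow_le_one₀ hl0.le hl1
  have hinv : 1 ≤ (lam ^ 2)⁻¹ := (one_le_inv₀ (by positivity)).2 hl2
  have hXb : 1 ≤ 2 * L * (lam ^ 2)⁻¹ := by nlinarith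
  have hX1 : 1 ≤ X := Real.one_le_rpow hXb (by positivity)
  set τ : ℕ := ⌈X⌉₊ with hτ
  have hτX : X ≤ τ := Nat.le_ceil X
  have hτ2 : (τ : ℝ) ≤ 2 * X := by
    have := (Nat.ceil_lt_add_one (by linarith : 0 ≤ X)).le
    linarith
  have hτ1 : 1 ≤ τ := by
    have : (1 : ℝ) ≤ τ := hX1.trans hτX
    exact_mod_cast this
  have hτR : (1 : ℝ) ≤ τ := by exact_mod_cast hτ1
  have hτZ : (0 : ℤ) < τ := by exact_mod_cast hτ1
  set ε : ℝ := L * (τ : ℝ) ^ (-g) with hε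
  have hε0 : 0 ≤ ε := by positivity
  have hεl : ε ≤ lam ^ 2 / 2 := by
    have h1 : (τ : ℝ) ^ (-g) ≤ X ^ (-g) := Real.rpow_le_rpow_of_nonpos (by linarith) hτX (by linarith)
    have h2 : X ^ (-g) = (2 * L * (lam ^ 2)⁻¹)⁻¹ := by
      rw [hX, ← Real.rpow_mul (by positivity), show 1 / g * -g = -1 by field_simp,
        Real.rpow_neg_one]
    rw [h2] at h1
    calc ε ≤ L * (2 * L * (lam ^ 2)⁻¹)⁻¹ := mul_le_mul_of_nonneg_left h1 (by linarith)
      _ = lam ^ 2 / 2 := by field_simp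
  -- the vectors
  set a : (Fin d → ℤ) → ℂ := fun j => inner ℂ (φ (x j)) f with ha
  set s : (Fin d → ℤ) → ℂ := fun j => a j / ((‖a j‖ : ℝ) : ℂ) with hs
  have hs1 : ∀ j, ‖s j‖ ≤ 1 := by
    intro j
    simp only [hs]
    rw [norm_div, Complex.norm_real, norm_norm]
    exact div_self_le_one _
  have hsa : ∀ j, (starRingEnd ℂ) (s j) * a j = ((‖a j‖ : ℝ) : ℂ) := by
    intro j
    simp only [hs]
    rw [map_div₀, Complex.conj_ofReal, div_mul_eq_mul_div, Complex.conj_mul']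
    rcases eq_or_ne ‖a j‖ 0 with h | h
    · rw [h]; simp
    · have : ((‖a j‖ : ℝ) : ℂ) ≠ 0 := by exact_mod_cast h
      field_simp
  set w : H := ∑ j ∈ J, s j • φ (x j) with hw
  have hwf : N * lam ≤ ‖w‖ := by
    have h1 : inner ℂ w f = ((∑ j ∈ J, ‖a j‖ : ℝ) : ℂ) := by
      rw [hw, sum_inner]
      push_cast
      refine Finset.sum_congr rfl fun j _ => ?_
      rw [inner_smul_left]
      exact hsa j
    have h2 : N * lam ≤ ∑ j ∈ J, ‖a j‖ := by
      rw [hN, ← nsmul_eq_mul, ← Finset.sum_const]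
      exact Finset.sum_le_sum fun j hj => hx2 j hj
    have h3 := norm_inner_le_norm (𝕜 := ℂ) w f
    rw [h1, Complex.norm_real, Real.norm_eq_abs,
      abs_of_nonneg (Finset.sum_nonneg fun j _ => norm_nonneg _)] at h3
    have h4 : ‖w‖ * ‖f‖ ≤ ‖w‖ * 1 := mul_le_mul_of_nonneg_left hf (norm_nonneg _)
    linarith
  -- the blocks
  set B : (Fin d → ℤ) → (Fin m → ℤ) := fun j t => j (e t) / τ with hB
  set K : Finset (Fin m → ℤ) := J.image B with hK
  set wb : (Fin m → ℤ) → H := fun b => ∑ j ∈ J with B j = b, s j • φ (x j) with hwb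
  set Nb : (Fin m → ℤ) → ℝ := fun b => ((J.filter fun j => B j = b).card : ℝ) with hNb
  have hNb0 : ∀ b, 0 ≤ Nb b := fun b => Nat.cast_nonneg _
  have hmap : ∀ j ∈ J, B j ∈ K := fun j hj => Finset.mem_image_of_mem B hj
  have hwsum : w = ∑ b ∈ K, wb b := by
    rw [hw]
    exact (Finset.sum_fiberwise_of_maps_to hmap _).symm
  have hNsum : ∑ b ∈ K, Nb b = N := by
    rw [hN, Finset.card_eq_sum_card_fiberwise hmap]
    push_cast
    rfl
  have hblock : ∀ b, ‖wb b‖ ^ 2 ≤ L * τ * Nb b := by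
    intro b
    refine dual_norm (J.filter fun j => B j = b) (fun j => φ (x j)) s (fun j _ => hs1 j) (L * τ)
      (by positivity) fun g' => ?_
    refine hE g' τ hτ1 _ (fun t => b t * τ) ?_ x (fun j hj => hx1 j (Finset.mem_filter.1 hj).1)
    intro j hj t
    have h1 : j (e t) / (τ : ℤ) = b t := congrFun (Finset.mem_filter.1 hj).2 t
    have h2 := Int.ediv_mul_le (j (e t)) hτZ.ne'
    have h3 := Int.lt_ediv_add_one_mul_self (j (e t)) hτZ
    rw [h1] at h2 h3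
    refine ⟨h2, ?_⟩
    linarith
  -- near and far
  set near : (Fin m → ℤ) → (Fin m → ℤ) → Prop := fun b b' => ∀ t, |b t - b' t| ≤ 1 with hnear
  have hfar : ∀ b b', ¬ near b b' → ‖inner ℂ (wb b) (wb b')‖ ≤ ε * (Nb b * Nb b') := by
    intro b b' hbb
    simp only [hnear] at hbb
    push Not at hbb
    obtain ⟨t, ht⟩ := hbb
    have h1 : ∀ i ∈ J.filter (fun j => B j = b), ∀ j ∈ J.filter (fun j => B j = b'),
        ‖inner ℂ (s i • φ (x i)) (s j • φ (x j))‖ ≤ ε := by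
      intro i hi j hj
      rw [Finset.mem_filter] at hi hj
      rw [inner_smul_left, inner_smul_right, norm_mul, norm_mul, RCLike.norm_conj]
      have hb1 : i (e t) / (τ : ℤ) = b t := congrFun hi.2 t
      have hb2 : j (e t) / (τ : ℤ) = b' t := congrFun hj.2 t
      have a1 := Int.ediv_mul_le (i (e t)) hτZ.ne'
      have a2 := Int.lt_ediv_add_one_mul_self (i (e t)) hτZ
      have a3 := Int.ediv_mul_le (j (e t)) hτZ.ne'
      have a4 := Int.lt_ediv_add_one_mul_self (j (e t)) hτZ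
      rw [hb1] at a1 a2
      rw [hb2] at a3 a4
      have c1 := hx1 i hi.1 (e t)
      have c2 := hx1 j hj.1 (e t)
      have hdist : (τ : ℝ) ≤ |x i (e t) - x j (e t)| := by
        have r1 : ((b t : ℝ)) * τ ≤ i (e t) := by exact_mod_cast a1
        have r2 : (i (e t) : ℝ) + 1 ≤ (b t + 1) * τ := by exact_mod_cast a2
        have r3 : ((b' t : ℝ)) * τ ≤ j (e t) := by exact_mod_cast a3
        have r4 : (j (e t) : ℝ) + 1 ≤ (b' t + 1) * τ := by exact_mod_cast a4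
        rcases lt_abs.1 ht with h | h
        · have h' : (b' t : ℝ) + 2 ≤ b t := by
            have : b' t + 2 ≤ b t := by linarith
            exact_mod_cast this
          refine le_trans ?_ (le_abs_self _)
          nlinarith
        · have h' : (b t : ℝ) + 2 ≤ b' t := by
            have : b t + 2 ≤ b' t := by linarith
            exact_mod_cast this
          refine le_trans ?_ (neg_le_abs _)
          nlinarith
      have h2 := hdec (x i) (x j) t (hτR.trans hdist)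
      have h3 : |x i (e t) - x j (e t)| ^ (-g) ≤ (τ : ℝ) ^ (-g) :=
        Real.rpow_le_rpow_of_nonpos (by linarith) hdist (by linarith)
      have h4 : ‖inner ℂ (φ (x i)) (φ (x j))‖ ≤ ε :=
        h2.trans (mul_le_mul_of_nonneg_left h3 (by linarith))
      have h5 : ‖s j‖ * ‖inner ℂ (φ (x i)) (φ (x j))‖ ≤ ε :=
        (mul_le_of_le_one_left (norm_nonneg _) (hs1 j)).trans h4
      exact (mul_le_of_le_one_left (by positivity) (hs1 i)).trans h5
    simp only [hwb]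
    rw [sum_inner]
    refine (norm_sum_le _ _).trans ?_
    calc ∑ i ∈ J with B i = b, ‖inner ℂ (s i • φ (x i)) (∑ j ∈ J with B j = b', s j • φ (x j))‖
        ≤ ∑ i ∈ J with B i = b, ∑ j ∈ J with B j = b', ε := by
          refine Finset.sum_le_sum fun i hi => ?_
          rw [inner_sum]
          exact (norm_sum_le _ _).trans (Finset.sum_le_sum fun j hj => h1 i hi j hj)
      _ = ε * (Nb b * Nb b') := by
          simp only [Finset.sum_const, nsmul_eq_mul, hNb]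
          ring
  have hpair : ∀ b b', ‖inner ℂ (wb b) (wb b')‖ ≤
      (if near b b' then (‖wb b‖ ^ 2 + ‖wb b'‖ ^ 2) / 2 else 0) + ε * (Nb b * Nb b') := by
    intro b b'
    by_cases h : near b b'
    · rw [if_pos h]
      have h1 := norm_inner_le_norm (𝕜 := ℂ) (wb b) (wb b')
      have h2 : ‖wb b‖ * ‖wb b'‖ ≤ (‖wb b‖ ^ 2 + ‖wb b'‖ ^ 2) / 2 := by
        have := sq_nonneg (‖wb b‖ - ‖wb b'‖)
        nlinarith
      have h3 : 0 ≤ ε * (Nb b * Nb b') := mul_nonneg hε0 (mul_nonneg (hNb0 b) (hNb0 b'))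
      linarith
    · rw [if_neg h, zero_add]
      exact hfar b b' h
  -- the number of near blocks
  have hnum : ∀ b, ((K.filter fun b' => near b b').card : ℝ) ≤ 3 ^ m := by
    intro b
    have h1 : (K.filter fun b' => near b b') ⊆
        (Fintype.piFinset fun t => Finset.Icc (b t - (1 : ℕ)) (b t + (1 : ℕ)) :
          Finset (Fin m → ℤ)) := by
      intro b' hb'
      rw [Fintype.mem_piFinset]
      intro t
      have := abs_le.1 ((Finset.mem_filter.1 hb').2 t)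
      rw [Finset.mem_Icc]
      push_cast
      constructor <;> linarith [this.1, this.2]
    have h2 := Finset.card_le_card h1
    rw [ball_card] at h2
    exact_mod_cast h2
  have hnear_symm : ∀ b b', near b b' ↔ near b' b := by
    intro b b'
    simp only [hnear]
    constructor <;> intro h t <;> rw [abs_sub_comm] <;> exact h t
  have hww : ‖w‖ ^ 2 ≤ 3 ^ m * (L * τ) * N + ε * N ^ 2 := by
    have h1 : ‖w‖ ^ 2 = ‖inner ℂ w w‖ := by
      rw [inner_self_eq_norm_sq_to_K]; simp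
    have h2 : ‖inner ℂ w w‖ ≤ ∑ b ∈ K, ∑ b' ∈ K, ‖inner ℂ (wb b) (wb b')‖ := by
      rw [hwsum, sum_inner]
      refine (norm_sum_le _ _).trans (Finset.sum_le_sum fun b _ => ?_)
      rw [inner_sum]
      exact norm_sum_le _ _
    have h3 : ∑ b ∈ K, ∑ b' ∈ K, ‖inner ℂ (wb b) (wb b')‖ ≤
        ∑ b ∈ K, ∑ b' ∈ K, ((if near b b' then (‖wb b‖ ^ 2 + ‖wb b'‖ ^ 2) / 2 else 0) +
          ε * (Nb b * Nb b')) :=
      Finset.sum_le_sum fun b _ => Finset.sum_le_sum fun b' _ => hpair b b'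
    have h4 : ∑ b ∈ K, ∑ b' ∈ K, ε * (Nb b * Nb b') = ε * N ^ 2 := by
      rw [sq, ← hNsum, Finset.sum_mul_sum, Finset.mul_sum]
      refine Finset.sum_congr rfl fun b _ => ?_
      rw [Finset.mul_sum]
    have h5 : ∑ b ∈ K, ∑ b' ∈ K, (if near b b' then ‖wb b‖ ^ 2 else 0) ≤
        3 ^ m * (L * τ) * N := by
      have h6 : ∀ b ∈ K, ∑ b' ∈ K, (if near b b' then ‖wb b‖ ^ 2 else 0) ≤
          3 ^ m * (L * τ * Nb b) := by
        intro b _
        rw [← Finset.sum_filter, Finset.sum_const, nsmul_eq_mul]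
        exact mul_le_mul (hnum b) (hblock b) (by positivity) (by positivity)
      refine (Finset.sum_le_sum h6).trans (le_of_eq ?_)
      rw [← Finset.mul_sum, ← Finset.mul_sum, hNsum]
      ring
    have h7 : ∑ b ∈ K, ∑ b' ∈ K, (if near b b' then ‖wb b'‖ ^ 2 else 0) ≤
        3 ^ m * (L * τ) * N := by
      rw [Finset.sum_comm]
      refine le_trans (le_of_eq ?_) h5
      refine Finset.sum_congr rfl fun b _ => Finset.sum_congr rfl fun b' _ => ?_
      simp only [hnear_symm b' b]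
    have h8 : ∑ b ∈ K, ∑ b' ∈ K, (if near b b' then (‖wb b‖ ^ 2 + ‖wb b'‖ ^ 2) / 2 else 0) ≤
        3 ^ m * (L * τ) * N := by
      have h9 : ∀ b b', (if near b b' then (‖wb b‖ ^ 2 + ‖wb b'‖ ^ 2) / 2 else 0) =
          ((if near b b' then ‖wb b‖ ^ 2 else 0) + (if near b b' then ‖wb b'‖ ^ 2 else 0)) / 2 := by
        intro b b'
        split_ifs <;> ring
      simp_rw [h9, ← Finset.sum_div, Finset.sum_add_distrib]
      linarith
    rw [h1]
    refine h2.trans (h3.trans ?_)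
    simp_rw [Finset.sum_add_distrib]
    rw [h4]
    linarith
  -- conclusion
  have hfin : N ^ 2 * lam ^ 2 ≤ 3 ^ m * (L * τ) * N + lam ^ 2 / 2 * N ^ 2 := by
    have h1 : (N * lam) ^ 2 ≤ ‖w‖ ^ 2 := pow_le_pow_left₀ (by positivity) hwf 2
    have h2 : ε * N ^ 2 ≤ lam ^ 2 / 2 * N ^ 2 := mul_le_mul_of_nonneg_right hεl (by positivity)
    calc N ^ 2 * lam ^ 2 = (N * lam) ^ 2 := by ring
      _ ≤ _ := h1.trans (hww.trans (by linarith))
  have hN2 : N ≤ 2 * (3 ^ m * (L * τ)) * (lam ^ 2)⁻¹ := by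
    rcases hN0.eq_or_lt with h0 | h0
    · rw [← h0]; positivity
    · have h1 : N * (N * lam ^ 2) ≤ N * (2 * (3 ^ m * (L * τ))) := by nlinarith
      have h2 := le_of_mul_le_mul_left h1 h0
      rw [← div_eq_mul_inv, le_div_iff₀ (by positivity)]
      exact h2
  have hexp : lam ^ (-(2 + 2 / g)) = (lam ^ 2)⁻¹ * ((lam ^ 2)⁻¹) ^ (1 / g) := by
    have h1 : (lam ^ 2)⁻¹ = lam ^ (-2 : ℝ) := by
      rw [Real.rpow_neg hl0.le, Real.rpow_two]
    rw [h1, ← Real.rpow_mul hl0.le, ← Real.rpow_add hl0]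
    congr 1
    ring
  rw [hexp]
  calc N ≤ 2 * (3 ^ m * (L * τ)) * (lam ^ 2)⁻¹ := hN2
    _ ≤ 2 * (3 ^ m * (L * (2 * X))) * (lam ^ 2)⁻¹ := by gcongr
    _ = _ := by
        rw [hX, Real.mul_rpow (by positivity) (by positivity)]
        ring

/-- the hypotheses on the surface and a class of functions, from energy and decay -/
theorem surf_gen {m : ℕ} (e : Fin m → Fin d) (φ : EuclideanSpace ℝ (Fin d) → H) (S : Set H)
    (p L γ : ℝ) (hp : 2 ≤ p) (hL : 1 ≤ L) (hγ : 0 < γ) (hbd : ∀ x, ‖φ x‖ ≤ L)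
    (hlip : ∀ x y, ‖φ x - φ y‖ ≤ L * ‖x - y‖) (hE : Energy e φ L)
    (hdec2 : ∀ x y, x ≠ y → ‖inner ℂ (φ x) (φ y)‖ ≤ L * ‖x - y‖ ^ (-γ))
    (hsub : ∀ f ∈ S, ‖f‖ ≤ 1)
    (hc1 : ∀ f ∈ S, ∀ lam : ℝ, 0 < lam → lam ≤ 1 → ∀ J : Finset (Fin d → ℤ),
      (∀ j ∈ J, hit φ lam f j) → (J.card : ℝ) ≤ L * lam ^ (-p)) :
    Surf S φ p (4 * L) γ := by
  classical
  refine ⟨by linarith, hp, hγ, fun x => (hbd x).trans (by linarith), fun x y => ?_, hsub, ?_, ?_,
    fun x y hxy => ?_⟩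
  · exact (hlip x y).trans (mul_le_mul_of_nonneg_right (by linarith) (norm_nonneg _))
  · intro f hf lam h0 h1 J hJ
    refine (hc1 f hf lam h0 h1 J hJ).trans ?_
    refine mul_le_mul_of_nonneg_right ?_ (by positivity)
    linarith
  · intro f hf lam h0 h1 k J hJ
    have hJ1 : ∀ j ∈ J, hit φ lam f j := fun j hj => (hJ j hj).1
    choose! x hx1 hx2 using hJ1
    have h2 := hE f (2 ^ (k + 2)) Nat.one_le_two_pow J (fun _ => -2 ^ (k + 1)) (by
      intro j hj t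
      have h3 := (hJ j hj).2
      have h4 := abs_coord j (e t)
      have h5 := abs_le.1 (h4.trans (by linarith : ‖j‖ ≤ 2 ^ (k + 1) - 1))
      have h6 : (-(2 : ℤ) ^ (k + 1)) ≤ j (e t) := by
        have : (-(2 : ℝ) ^ (k + 1)) ≤ j (e t) := by linarith [h5.1]
        exact_mod_cast this
      have h7 : j (e t) < (2 : ℤ) ^ (k + 1) := by
        have : (j (e t) : ℝ) < (2 : ℝ) ^ (k + 1) := by linarith [h5.2]
        exact_mod_cast this
      refine ⟨h6, ?_⟩
      push_cast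
      have h8 : (2 : ℤ) ^ (k + 2) = 2 * 2 ^ (k + 1) := by ring
      rw [h8]
      linarith) x hx1
    have h3 : (J.card : ℝ) * lam ^ 2 ≤ ∑ j ∈ J, ‖inner ℂ (φ (x j)) f‖ ^ 2 := by
      rw [← nsmul_eq_mul, ← Finset.sum_const]
      exact Finset.sum_le_sum fun j hj => pow_le_pow_left₀ h0.le (hx2 j hj) 2
    have h4 : ‖f‖ ^ 2 ≤ 1 := pow_le_one₀ (norm_nonneg _) hf
    have h5 : (J.card : ℝ) * lam ^ 2 ≤ 4 * L * 2 ^ k := by
      refine h3.trans (h2.trans ?_)
      push_cast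
      have h6 : (2 : ℝ) ^ (k + 2) = 4 * 2 ^ k := by ring
      rw [h6]
      calc L * (4 * 2 ^ k) * ‖f‖ ^ 2 ≤ L * (4 * 2 ^ k) * 1 :=
            mul_le_mul_of_nonneg_left h4 (by positivity)
        _ = _ := by ring
    rw [Real.rpow_neg h0.le, Real.rpow_two, ← div_eq_mul_inv, le_div_iff₀ (by positivity)]
    exact h5
  · exact (hdec2 x y hxy).trans (mul_le_mul_of_nonneg_right (by linarith) (by positivity))

/-- **The hypotheses on the surface from energy and decay** -/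
theorem surf_mk {m : ℕ} (e : Fin m → Fin d) (φ : EuclideanSpace ℝ (Fin d) → H) (L g γ : ℝ)
    (hL : 1 ≤ L) (hg : 0 < g) (hγ : 0 < γ) (hbd : ∀ x, ‖φ x‖ ≤ L)
    (hlip : ∀ x y, ‖φ x - φ y‖ ≤ L * ‖x - y‖) (hE : Energy e φ L)
    (hdec : ∀ x y (t : Fin m), 1 ≤ |x (e t) - y (e t)| →
      ‖inner ℂ (φ x) (φ y)‖ ≤ L * |x (e t) - y (e t)| ^ (-g))
    (hdec2 : ∀ x y, x ≠ y → ‖inner ℂ (φ x) (φ y)‖ ≤ L * ‖x - y‖ ^ (-γ)) :
    ∃ L', Surf (Metric.closedBall 0 1) φ (2 + 2 / g) L' γ := by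
  set C : ℝ := 4 * 3 ^ m * L * (2 * L) ^ (1 / g) with hC
  have hC0 : 0 ≤ C := by positivity
  refine ⟨4 * (C + L), surf_gen e φ (Metric.closedBall 0 1) (2 + 2 / g) (C + L) γ (by
      have : 0 < 2 / g := by positivity
      linarith) (by linarith) hγ (fun x => (hbd x).trans (by linarith)) (fun x y => ?_) ?_
      (fun x y hxy => ?_) (fun f hf => mem_closedBall_zero_iff.1 hf) ?_⟩
  · exact (hlip x y).trans (mul_le_mul_of_nonneg_right (by linarith) (norm_nonneg _))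
  · intro f τ hτ J s hJ x hx
    refine (hE f τ hτ J s hJ x hx).trans ?_
    refine mul_le_mul_of_nonneg_right ?_ (by positivity)
    exact mul_le_mul_of_nonneg_right (by linarith) (Nat.cast_nonneg _)
  · exact (hdec2 x y hxy).trans (mul_le_mul_of_nonneg_right (by linarith) (by positivity))
  · intro f hf lam h0 h1 J hJ
    refine (block_count e φ L g hL hg hE hdec f (mem_closedBall_zero_iff.1 hf) lam h0 h1 J
      hJ).trans ?_
    refine mul_le_mul_of_nonneg_right ?_ (by positivity)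
    linarith

end Pool.Agent.N248.RR
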