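import Mathlib
import Pool.Agent.N248.RR.F
import Pool.Agent.N248.RR.G
set_option autoImplicit false

/-! The Fourier extension operator of a finite measure on a bounded piece of a surface, as a family
of vectors of `L²`: local energy estimates give estimates for points in distinct unit cubes. -/

namespace Pool.Agent.N248.RR

open MeasureTheory Set
open scoped ENNReal NNReal RealInnerProductSpace ComplexConjugate

theorem cs_lint {α : Type*} [MeasurableSpace α] (μ : Measure α) (g : α → ℝ≥0∞)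
    (hg : AEMeasurable g μ) : (∫⁻ x, g x ∂μ) ^ 2 ≤ μ univ * ∫⁻ x, g x ^ 2 ∂μ := by
  have h := ENNReal.lintegral_mul_le_Lp_mul_Lq μ Real.HolderConjugate.two_two
    (f := fun _ => 1) (g := g) aemeasurable_const hg
  have e1 : ∫⁻ x, ((fun _ : α => (1 : ℝ≥0∞)) * g) x ∂μ = ∫⁻ x, g x ∂μ := by
    refine lintegral_congr fun x => ?_
    rw [Pi.mul_apply, one_mul]
  have e2 : ∫⁻ _ : α, (1 : ℝ≥0∞) ^ (2 : ℝ) ∂μ = μ univ := by
    simp
  have e3 : ∫⁻ x, g x ^ (2 : ℝ) ∂μ = ∫⁻ x, g x ^ 2 ∂μ := by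
    refine lintegral_congr fun x => ?_
    rw [ENNReal.rpow_two]
  rw [e1, e2, e3] at h
  calc (∫⁻ x, g x ∂μ) ^ 2 ≤ (μ univ ^ (1 / 2 : ℝ) * (∫⁻ x, g x ^ 2 ∂μ) ^ (1 / 2 : ℝ)) ^ 2 :=
        pow_le_pow_left' h 2
    _ = _ := by
        rw [mul_pow, ← ENNReal.rpow_natCast, ← ENNReal.rpow_mul, ← ENNReal.rpow_natCast,
          ← ENNReal.rpow_mul]
        norm_num

theorem holder_const {α : Type*} [MeasurableSpace α] (ν : Measure α) (p : ℝ) (hp : 1 < p)
    (g : α → ℝ≥0∞) (hg : AEMeasurable g ν) :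
    (∫⁻ x, g x ∂ν) ^ p ≤ (ν univ ^ (1 / Real.conjExponent p)) ^ p * ∫⁻ x, g x ^ p ∂ν := by
  have hp0 : 0 < p := by linarith
  have h := ENNReal.lintegral_mul_le_Lp_mul_Lq ν (Real.HolderConjugate.conjExponent hp)
    (f := g) (g := fun _ => 1) hg aemeasurable_const
  have e1 : ∫⁻ x, (g * (fun _ : α => (1 : ℝ≥0∞))) x ∂ν = ∫⁻ x, g x ∂ν := by
    refine lintegral_congr fun x => ?_
    rw [Pi.mul_apply, mul_one]
  have e2 : ∫⁻ _ : α, (1 : ℝ≥0∞) ^ Real.conjExponent p ∂ν = ν univ := by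
    simp
  rw [e1, e2] at h
  calc (∫⁻ x, g x ∂ν) ^ p ≤ ((∫⁻ x, g x ^ p ∂ν) ^ (1 / p) *
        ν univ ^ (1 / Real.conjExponent p)) ^ p := ENNReal.rpow_le_rpow h hp0.le
    _ = _ := by
        rw [ENNReal.mul_rpow_of_nonneg _ _ hp0.le, ← ENNReal.rpow_mul (∫⁻ x, g x ^ p ∂ν),
          one_div_mul_cancel hp0.ne', ENNReal.rpow_one, mul_comm]

/-- the character -/
noncomputable def ex (θ : ℝ) : ℂ := Complex.exp (θ * Complex.I)

theorem ex_norm (θ : ℝ) : ‖ex θ‖ = 1 := Complex.norm_exp_ofReal_mul_I θ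

theorem ex_cont : Continuous ex := by unfold ex; fun_prop

theorem ex_add (a b : ℝ) : ex (a + b) = ex a * ex b := by
  unfold ex
  rw [← Complex.exp_add]
  congr 1
  push_cast
  ring

theorem ex_conj (a : ℝ) : conj (ex a) = ex (-a) := by
  unfold ex
  rw [← Complex.exp_conj]
  congr 1
  simp

theorem ex_sub_one (a : ℝ) : ‖ex a - 1‖ ≤ |a| := by
  unfold ex
  rw [mul_comm]
  have := Real.norm_exp_I_mul_ofReal_sub_one_le (x := a)
  simpa using this

variable {d : ℕ} {Y : Type*} [MeasurableSpace Y] (μ : Measure Y) [IsFiniteMeasure μ]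
  (Φ : Y → EuclideanSpace ℝ (Fin d))

/-- the character of the frequency `x` on the surface -/
noncomputable def ck (x : EuclideanSpace ℝ (Fin d)) (y : Y) : ℂ := conj (ex ⟪Φ y, x⟫)

omit [MeasurableSpace Y] in
theorem ck_norm (x : EuclideanSpace ℝ (Fin d)) (y : Y) : ‖ck Φ x y‖ = 1 := by
  unfold ck; rw [Complex.norm_conj, ex_norm]

variable (hΦ : Measurable Φ)
include hΦ

theorem ck_meas (x : EuclideanSpace ℝ (Fin d)) : Measurable (ck Φ x) :=
  Complex.continuous_conj.measurable.comp (ex_cont.measurable.comp (hΦ.inner measurable_const))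

theorem ck_mem (x : EuclideanSpace ℝ (Fin d)) : MemLp (ck Φ x) 2 μ :=
  MemLp.of_bound (ck_meas Φ hΦ x).aestronglyMeasurable 1
    (Filter.Eventually.of_forall fun y => (ck_norm Φ x y).le)

/-- the vectors -/
noncomputable def ps (x : EuclideanSpace ℝ (Fin d)) : Lp ℂ 2 μ := (ck_mem μ Φ hΦ x).toLp (ck Φ x)

theorem ps_inner (x : EuclideanSpace ℝ (Fin d)) (f : Lp ℂ 2 μ) :
    inner ℂ (ps μ Φ hΦ x) f = ∫ y, ex ⟪Φ y, x⟫ * f y ∂μ := by
  rw [L2.inner_def]
  refine integral_congr_ae ?_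
  filter_upwards [(ck_mem μ Φ hΦ x).coeFn_toLp] with y hy
  unfold ps
  rw [hy, RCLike.inner_apply]
  unfold ck
  rw [Complex.conj_conj, mul_comm]

theorem ps_inner_ps (x z : EuclideanSpace ℝ (Fin d)) :
    inner ℂ (ps μ Φ hΦ x) (ps μ Φ hΦ z) = ∫ y, ex ⟪Φ y, x - z⟫ ∂μ := by
  rw [ps_inner]
  refine integral_congr_ae ?_
  filter_upwards [(ck_mem μ Φ hΦ z).coeFn_toLp] with y hy
  unfold ps
  rw [hy]
  unfold ck
  rw [ex_conj, ← ex_add, inner_sub_right, sub_eq_add_neg]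

theorem ps_norm (x : EuclideanSpace ℝ (Fin d)) : ‖ps μ Φ hΦ x‖ ^ 2 = μ.real univ := by
  have h : ‖ps μ Φ hΦ x‖ ^ 2 = ‖inner ℂ (ps μ Φ hΦ x) (ps μ Φ hΦ x)‖ := by
    rw [inner_self_eq_norm_sq_to_K]; simp
  rw [h, ps_inner_ps]
  have : ∀ y, ex ⟪Φ y, x - x⟫ = 1 := by
    intro y
    rw [sub_self, inner_zero_right]
    unfold ex
    simp
  simp_rw [this]
  rw [integral_const]
  simp [Measure.real]

theorem ps_sub (R : ℝ) (hR0 : 0 ≤ R) (hR : ∀ᵐ y ∂μ, ‖Φ y‖ ≤ R)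
    (x z : EuclideanSpace ℝ (Fin d)) :
    ‖ps μ Φ hΦ x - ps μ Φ hΦ z‖ ≤ (R * ‖ps μ Φ hΦ 0‖) * ‖x - z‖ := by
  have h := Lp.norm_le_mul_norm_of_ae_le_mul (c := R * ‖x - z‖) (f := ps μ Φ hΦ x - ps μ Φ hΦ z)
    (g := ps μ Φ hΦ 0) (by
      filter_upwards [(ck_mem μ Φ hΦ x).coeFn_toLp, (ck_mem μ Φ hΦ z).coeFn_toLp,
        (ck_mem μ Φ hΦ 0).coeFn_toLp, Lp.coeFn_sub (ps μ Φ hΦ x) (ps μ Φ hΦ z), hR] with y h1 h2 h3
        h4 h5
      rw [h4, Pi.sub_apply]
      unfold ps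
      rw [h1, h2, h3, ck_norm, mul_one]
      have e : ck Φ x y - ck Φ z y = ck Φ z y * conj (ex ⟪Φ y, x - z⟫ - 1) := by
        unfold ck
        have : ex ⟪Φ y, x⟫ = ex ⟪Φ y, z⟫ * ex ⟪Φ y, x - z⟫ := by
          rw [← ex_add, ← inner_add_right]
          congr 2
          abel
        rw [this, map_mul, map_sub, map_one]
        ring
      rw [e, norm_mul, ck_norm, one_mul, Complex.norm_conj]
      refine (ex_sub_one _).trans ((abs_real_inner_le_norm _ _).trans ?_)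
      exact mul_le_mul_of_nonneg_right h5 (norm_nonneg _))
  refine h.trans (le_of_eq ?_)
  ring

/-- **The reproducing formula.** -/
theorem reproduce (R : ℝ) (hR0 : 0 ≤ R) (hR : ∀ᵐ y ∂μ, ‖Φ y‖ ≤ R) (ε : ℝ) (hε : 0 < ε)
    (hεR : R * ε ≤ 1) (f : Lp ℂ 2 μ) :
    ∃ f' : Lp ℂ 2 μ, (∀ᵐ y ∂μ, ‖f' y‖ ≤
        (2 / (volume.real (Metric.closedBall (0 : EuclideanSpace ℝ (Fin d)) ε))) * ‖f y‖) ∧
      ∀ x, inner ℂ (ps μ Φ hΦ x) f = ∫ z in Metric.closedBall (0 : EuclideanSpace ℝ (Fin d)) ε,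
        inner ℂ (ps μ Φ hΦ (x + z)) f' := by
  set D : Set (EuclideanSpace ℝ (Fin d)) := Metric.closedBall 0 ε with hD
  have hDt : volume D ≠ ∞ := measure_closedBall_lt_top.ne
  have hDm : MeasurableSet D := Metric.isClosed_closedBall.measurableSet
  have hv : 0 < volume.real D := by
    rw [Measure.real]
    exact ENNReal.toReal_pos (Metric.measure_closedBall_pos volume 0 hε).ne' hDt
  set v : ℝ := volume.real D with hvd
  have hfinD : IsFiniteMeasure (volume.restrict D) :=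
    ⟨by rw [Measure.restrict_apply_univ]; exact hDt.lt_top⟩
  set M : Y → ℂ := fun y => ∫ z in D, ex ⟪Φ y, z⟫ with hM
  have hunc : StronglyMeasurable (fun p : Y × EuclideanSpace ℝ (Fin d) => ex ⟪Φ p.1, p.2⟫) :=
    (ex_cont.measurable.comp ((hΦ.comp measurable_fst).inner measurable_snd)).stronglyMeasurable
  have hMm : Measurable M := hunc.integral_prod_right'.measurable
  have hMlow : ∀ y, ‖Φ y‖ ≤ R → v / 2 ≤ ‖M y‖ := by
    intro y hy
    have hint : Integrable (fun z => ex ⟪Φ y, z⟫) (volume.restrict D) := by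
      refine Integrable.of_bound (C := 1) ?_ (Filter.Eventually.of_forall fun z => (ex_norm _).le)
      exact (ex_cont.measurable.comp (measurable_const.inner measurable_id)).aestronglyMeasurable
    have h1 : v / 2 ≤ (M y).re := by
      have h2 : (M y).re = ∫ z in D, (ex ⟪Φ y, z⟫).re := by
        have h3 := integral_re hint
        simpa using h3.symm
      rw [h2]
      have h4 : v / 2 = ∫ _ in D, (1 / 2 : ℝ) := by
        rw [setIntegral_const, smul_eq_mul, hvd]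
        ring
      rw [h4]
      refine setIntegral_mono_on (integrable_const _) hint.re hDm fun z hz => ?_
      have h5 : |⟪Φ y, z⟫| ≤ 1 := by
        rw [hD, mem_closedBall_zero_iff] at hz
        refine (abs_real_inner_le_norm _ _).trans (le_trans ?_ hεR)
        exact mul_le_mul hy hz (norm_nonneg _) hR0
      unfold ex
      rw [Complex.exp_ofReal_mul_I_re]
      have h6 := Real.one_sub_sq_div_two_le_cos (x := ⟪Φ y, z⟫)
      have h7 : ⟪Φ y, z⟫ ^ 2 ≤ 1 := (sq_le_one_iff_abs_le_one _).2 h5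
      linarith
    exact h1.trans (Complex.re_le_norm _)
  set g : Y → ℂ := fun y => (M y)⁻¹ * f y with hg
  have hgm : AEStronglyMeasurable g μ :=
    hMm.inv.aestronglyMeasurable.mul (Lp.aestronglyMeasurable f)
  have hgb : ∀ᵐ y ∂μ, ‖g y‖ ≤ 2 / v * ‖f y‖ := by
    filter_upwards [hR] with y hy
    simp only [hg]
    rw [norm_mul, norm_inv]
    refine mul_le_mul_of_nonneg_right ?_ (norm_nonneg _)
    have h1 := hMlow y hy
    rw [← one_div, div_le_div_iff₀ (by linarith) hv]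
    linarith
  have hgLp : MemLp g 2 μ := (Lp.memLp f).of_le_mul hgm hgb
  refine ⟨hgLp.toLp g, ?_, ?_⟩
  · filter_upwards [hgLp.coeFn_toLp, hgb] with y h1 h2
    rw [h1]
    exact h2
  · intro x
    have hgi : Integrable g μ := hgLp.integrable (by norm_num)
    have h1 : ∀ z, inner ℂ (ps μ Φ hΦ (x + z)) (hgLp.toLp g) =
        ∫ y, ex ⟪Φ y, x + z⟫ * g y ∂μ := by
      intro z
      rw [ps_inner]
      refine integral_congr_ae ?_
      filter_upwards [hgLp.coeFn_toLp] with y hy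
      rw [hy]
    simp_rw [h1]
    rw [integral_integral_swap]
    · rw [ps_inner]
      refine integral_congr_ae ?_
      filter_upwards [hR] with y hy
      have h2 : ∀ z, ex ⟪Φ y, x + z⟫ * g y = (ex ⟪Φ y, x⟫ * g y) * ex ⟪Φ y, z⟫ := by
        intro z
        rw [inner_add_right, ex_add]
        ring
      simp_rw [h2]
      rw [integral_const_mul]
      have h3 : M y ≠ 0 := by
        intro h
        have := hMlow y hy
        rw [h, norm_zero] at this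
        linarith
      have h4 : ∫ z in D, ex ⟪Φ y, z⟫ = M y := rfl
      rw [h4]
      simp only [hg]
      field_simp
    · have h5 : Integrable (fun p : EuclideanSpace ℝ (Fin d) × Y => g p.2)
          ((volume.restrict D).prod μ) := hgi.comp_snd (volume.restrict D)
      refine h5.bdd_mul (c := 1) ?_ (Filter.Eventually.of_forall fun p => (ex_norm _).le)
      exact (ex_cont.measurable.comp ((hΦ.comp measurable_snd).inner
        (measurable_const.add measurable_fst))).aestronglyMeasurable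

theorem ps_meas (f : Lp ℂ 2 μ) : Measurable fun x => inner ℂ (ps μ Φ hΦ x) f := by
  simp_rw [ps_inner]
  have h : StronglyMeasurable (fun p : EuclideanSpace ℝ (Fin d) × Y => ex ⟪Φ p.2, p.1⟫ * f p.2) :=
    ((ex_cont.measurable.comp ((hΦ.comp measurable_snd).inner
      measurable_fst)).stronglyMeasurable).mul
      ((Lp.stronglyMeasurable f).comp_measurable measurable_snd)
  exact h.integral_prod_right'.measurable

omit hΦ in
theorem uq_disj (j k : Fin d → ℤ) (h : j ≠ k) : Disjoint (uq j) (uq k) := by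
  rw [Set.disjoint_left]
  intro x hx hx2
  obtain ⟨i, hi⟩ : ∃ i, j i ≠ k i := by
    by_contra hcon
    push Not at hcon
    exact h (funext hcon)
  have h1 := hx i
  have h2 := hx2 i
  rcases lt_or_gt_of_ne hi with h3 | h3
  · have : (j i : ℝ) + 1 ≤ k i := by exact_mod_cast h3
    linarith [h1.2, h2.1]
  · have : (k i : ℝ) + 1 ≤ j i := by exact_mod_cast h3
    linarith [h1.1, h2.2]

/-- continuous local energy estimate -/
def CEnergy {m : ℕ} (e : Fin m → Fin d) (L₀ : ℝ) : Prop :=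
  ∀ (f : Lp ℂ 2 μ) (B : Set (EuclideanSpace ℝ (Fin d))), MeasurableSet B →
    ∀ (α : Fin m → ℝ) (τ : ℝ), 1 ≤ τ → (∀ x ∈ B, ∀ t, α t ≤ x (e t) ∧ x (e t) ≤ α t + τ) →
    ∫⁻ x in B, ‖inner ℂ (ps μ Φ hΦ x) f‖ₑ ^ 2 ≤ ENNReal.ofReal (L₀ * τ) * ENNReal.ofReal (‖f‖ ^ 2)

theorem energy_of {m : ℕ} (e : Fin m → Fin d) (L₀ : ℝ) (hL₀ : 0 ≤ L₀)
    (hC : CEnergy μ Φ hΦ e L₀) (R : ℝ) (hR0 : 0 ≤ R) (hR : ∀ᵐ y ∂μ, ‖Φ y‖ ≤ R) :
    ∃ L, 0 ≤ L ∧ Energy e (ps μ Φ hΦ) L := by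
  classical
  set ε : ℝ := 1 / (R + 1) with hε
  have hε0 : 0 < ε := by positivity
  have hε1 : ε ≤ 1 := by rw [hε, div_le_one (by linarith)]; linarith
  have hεR : R * ε ≤ 1 := by
    rw [hε, mul_one_div, div_le_one (by linarith)]; linarith
  set D : Set (EuclideanSpace ℝ (Fin d)) := Metric.closedBall 0 ε with hD
  have hDt : volume D ≠ ∞ := measure_closedBall_lt_top.ne
  have hDm : MeasurableSet D := Metric.isClosed_closedBall.measurableSet
  have hv : 0 < volume.real D := by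
    rw [Measure.real]
    exact ENNReal.toReal_pos (Metric.measure_closedBall_pos volume 0 hε0).ne' hDt
  set v : ℝ := volume.real D with hvd
  have hvD : volume D = ENNReal.ofReal v := by rw [hvd, ofReal_measureReal hDt]
  refine ⟨v * 3 ^ d * (3 * L₀) * (2 / v) ^ 2, by positivity, ?_⟩
  intro f τ hτ J s hJ x hx
  obtain ⟨f', hf'0, hf'2⟩ := reproduce μ Φ hΦ R hR0 hR ε hε0 hεR f
  have hf'1 := Lp.norm_le_mul_norm_of_ae_le_mul hf'0
  set F : EuclideanSpace ℝ (Fin d) → ℝ≥0∞ := fun w => ‖inner ℂ (ps μ Φ hΦ w) f'‖ₑ ^ 2 with hF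
  have hFm : Measurable F := (ps_meas μ Φ hΦ f').enorm.pow_const 2
  -- pointwise
  have h1 : ∀ w, ‖inner ℂ (ps μ Φ hΦ w) f‖ₑ ^ 2 ≤ volume D * ∫⁻ z in D, F (w + z) := by
    intro w
    rw [hf'2 w]
    have a1 : ‖∫ z in D, inner ℂ (ps μ Φ hΦ (w + z)) f'‖ₑ ≤
        ∫⁻ z in D, ‖inner ℂ (ps μ Φ hΦ (w + z)) f'‖ₑ := enorm_integral_le_lintegral_enorm _
    refine (pow_le_pow_left' a1 2).trans ?_
    have a2 := cs_lint (volume.restrict D) (fun z => ‖inner ℂ (ps μ Φ hΦ (w + z)) f'‖ₑ)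
      ((ps_meas μ Φ hΦ f').comp (measurable_const_add w)).enorm.aemeasurable
    rw [Measure.restrict_apply_univ] at a2
    exact a2
  set O : Finset (Fin d → ℤ) := Fintype.piFinset fun i =>
    Finset.Icc ((0 : Fin d → ℤ) i - (1 : ℕ)) ((0 : Fin d → ℤ) i + (1 : ℕ)) with hO
  have hOc : O.card = 3 ^ d := by
    rw [hO, ball_card]
  have h2 : ∀ j ∈ J, ∫⁻ z in D, F (x j + z) ≤ ∑ o ∈ O, ∫⁻ w in uq (j + o), F w := by
    intro j hj
    set Qs : Set (EuclideanSpace ℝ (Fin d)) := ⋃ o ∈ O, uq (j + o) with hQs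
    have hQm : MeasurableSet Qs := Finset.measurableSet_biUnion _ fun o _ => uq_meas _
    have hin : ∀ z ∈ D, x j + z ∈ Qs := by
      intro z hz
      rw [hD, mem_closedBall_zero_iff] at hz
      have hzi : ∀ i, |z i| ≤ 1 := by
        intro i
        have := PiLp.norm_apply_le z i
        rw [Real.norm_eq_abs] at this
        linarith
      rw [hQs, mem_iUnion₂]
      refine ⟨fun i => ⌊(x j + z) i⌋ - j i, ?_, ?_⟩
      · rw [hO, Fintype.mem_piFinset]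
        intro i
        have b1 := hx j hj i
        have b2 := abs_le.1 (hzi i)
        have b3 : (x j + z) i = x j i + z i := rfl
        rw [Finset.mem_Icc, Pi.zero_apply]
        constructor
        · have : j i - 1 ≤ ⌊(x j + z) i⌋ := by
            rw [Int.le_floor, b3]
            push_cast
            linarith [b1.1, b2.1]
          push_cast
          linarith
        · have : ⌊(x j + z) i⌋ < j i + 2 := by
            rw [Int.floor_lt, b3]
            push_cast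
            linarith [b1.2, b2.2]
          push_cast
          linarith
      · intro i
        rw [Pi.add_apply]
        push_cast
        have b1 := Int.floor_le ((x j + z) i)
        have b2 := Int.lt_floor_add_one ((x j + z) i)
        constructor <;> linarith
    calc ∫⁻ z in D, F (x j + z) = ∫⁻ z, D.indicator (fun z => F (x j + z)) z :=
          (lintegral_indicator hDm _).symm
      _ ≤ ∫⁻ z, Qs.indicator F (x j + z) := by
          refine lintegral_mono fun z => ?_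
          by_cases hz : z ∈ D
          · rw [indicator_of_mem hz, indicator_of_mem (hin z hz)]
          · rw [indicator_of_notMem hz]; exact zero_le
      _ = ∫⁻ w, Qs.indicator F w := lintegral_add_left_eq_self _ (x j)
      _ = ∫⁻ w in Qs, F w := lintegral_indicator hQm _
      _ ≤ _ := lint_biUnion_le _ _ _ _
  have h3 : ∀ o ∈ O, ∑ j ∈ J, ∫⁻ w in uq (j + o), F w ≤
      ENNReal.ofReal (L₀ * (τ + 2)) * ENNReal.ofReal (‖f'‖ ^ 2) := by
    intro o ho
    rw [← lintegral_biUnion_finset (fun j _ k _ hjk => uq_disj _ _ (fun h => hjk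
      (add_right_cancel h))) (fun j _ => uq_meas _)]
    refine hC f' _ (Finset.measurableSet_biUnion _ fun j _ => uq_meas _) (fun t => s t - 1) (τ + 2)
      (by linarith [(Nat.cast_nonneg τ : (0 : ℝ) ≤ τ)]) ?_
    intro w hw t
    rw [mem_iUnion₂] at hw
    obtain ⟨j, hj, hwj⟩ := hw
    have b1 := hwj (e t)
    have b2 := hJ j hj t
    rw [hO, Fintype.mem_piFinset] at ho
    have b3 := Finset.mem_Icc.1 (ho (e t))
    rw [Pi.zero_apply] at b3
    rw [Pi.add_apply] at b1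
    push_cast at b1 b3
    have b4 : (-1 : ℝ) ≤ o (e t) := by
      have : (-1 : ℤ) ≤ o (e t) := by linarith [b3.1]
      exact_mod_cast this
    have b5 : (o (e t) : ℝ) ≤ 1 := by
      have : o (e t) ≤ 1 := by linarith [b3.2]
      exact_mod_cast this
    have b6 : (s t : ℝ) ≤ j (e t) := by exact_mod_cast b2.1
    have b7 : (j (e t) : ℝ) + 1 ≤ s t + τ := by exact_mod_cast b2.2
    constructor <;> linarith [b1.1, b1.2]
  have h4 : ∑ j ∈ J, ‖inner ℂ (ps μ Φ hΦ (x j)) f‖ₑ ^ 2 ≤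
      ENNReal.ofReal (v * 3 ^ d * (3 * L₀) * (2 / v) ^ 2 * τ * ‖f‖ ^ 2) := by
    calc ∑ j ∈ J, ‖inner ℂ (ps μ Φ hΦ (x j)) f‖ₑ ^ 2
        ≤ ∑ j ∈ J, volume D * ∑ o ∈ O, ∫⁻ w in uq (j + o), F w :=
          Finset.sum_le_sum fun j hj => (h1 _).trans (mul_le_mul' le_rfl (h2 j hj))
      _ = volume D * ∑ o ∈ O, ∑ j ∈ J, ∫⁻ w in uq (j + o), F w := by
          rw [← Finset.mul_sum, Finset.sum_comm]
      _ ≤ volume D * ∑ o ∈ O, ENNReal.ofReal (L₀ * (τ + 2)) * ENNReal.ofReal (‖f'‖ ^ 2) :=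
          mul_le_mul' le_rfl (Finset.sum_le_sum h3)
      _ = ENNReal.ofReal (v * (3 ^ d * (L₀ * (τ + 2) * ‖f'‖ ^ 2))) := by
          rw [Finset.sum_const, hOc, nsmul_eq_mul, hvD, ← ENNReal.ofReal_mul (by positivity),
            show (((3 ^ d : ℕ)) : ℝ≥0∞) = ENNReal.ofReal (3 ^ d) by
              rw [← ENNReal.ofReal_natCast]; push_cast; rfl,
            ← ENNReal.ofReal_mul (by positivity), ← ENNReal.ofReal_mul (by positivity)]
      _ ≤ _ := by
          refine ENNReal.ofReal_le_ofReal ?_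
          have c1 : ‖f'‖ ^ 2 ≤ (2 / v) ^ 2 * ‖f‖ ^ 2 := by
            rw [← mul_pow]
            exact pow_le_pow_left₀ (norm_nonneg _) hf'1 2
          have c2 : (τ : ℝ) + 2 ≤ 3 * τ := by
            have : (1 : ℝ) ≤ τ := by exact_mod_cast hτ
            linarith
          calc v * (3 ^ d * (L₀ * (τ + 2) * ‖f'‖ ^ 2))
              ≤ v * (3 ^ d * (L₀ * (3 * τ) * ((2 / v) ^ 2 * ‖f‖ ^ 2))) := by
                gcongr
            _ = _ := by ring
  have h5 : ENNReal.ofReal (∑ j ∈ J, ‖inner ℂ (ps μ Φ hΦ (x j)) f‖ ^ 2) ≤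
      ENNReal.ofReal (v * 3 ^ d * (3 * L₀) * (2 / v) ^ 2 * τ * ‖f‖ ^ 2) := by
    refine le_trans (le_of_eq ?_) h4
    rw [ENNReal.ofReal_sum_of_nonneg fun j _ => by positivity]
    refine Finset.sum_congr rfl fun j _ => ?_
    rw [ENNReal.ofReal_pow (norm_nonneg _), ofReal_norm]
  exact (ENNReal.ofReal_le_ofReal_iff (by positivity)).1 h5

/-- **Random regions for surfaces** -/
theorem regions_surface {m : ℕ} (e : Fin m → Fin d) (L₀ g γ : ℝ) (hL₀ : 0 ≤ L₀) (hg : 0 < g)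
    (hγ : 0 < γ) (hC : CEnergy μ Φ hΦ e L₀) (R : ℝ) (hR0 : 0 ≤ R) (hR : ∀ᵐ y ∂μ, ‖Φ y‖ ≤ R)
    (hdec : ∀ x (t : Fin m), 1 ≤ |x (e t)| →
      ‖∫ y, ex ⟪Φ y, x⟫ ∂μ‖ ≤ L₀ * |x (e t)| ^ (-g))
    (hdec2 : ∀ x, x ≠ 0 → ‖∫ y, ex ⟪Φ y, x⟫ ∂μ‖ ≤ L₀ * ‖x‖ ^ (-γ))
    {Ω : Type*} [MeasurableSpace Ω] (P : Measure Ω) (A : (Fin d → ℤ) → Set Ω) (a c : ℝ)
    (ha : 0 < a) (ha1 : a ≤ 1) (hc : 1 ≤ c)
    (hA : ∀ T : Finset (Fin d → ℤ), P (⋂ j ∈ T, A j) ≤ ∏ j ∈ T, P (A j))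
    (hp : ∀ j, P (A j) ≤ ENNReal.ofReal (c * (1 + ‖j‖) ^ (-a))) :
    ∀ᵐ ω ∂P, ∀ r : ℝ, (2 + 2 / g) - a * (2 / g) < r → ∃ C : ℝ≥0, ∀ f : Lp ℂ 2 μ,
      ∫⁻ x in ⋃ j ∈ {j | ω ∈ A j}, uq j, ‖inner ℂ (ps μ Φ hΦ x) f‖ₑ ^ r ≤ C * ‖f‖ₑ ^ r := by
  obtain ⟨L, hL0, hE⟩ := energy_of μ Φ hΦ e L₀ hL₀ hC R hR0 hR
  set L₁ : ℝ := 1 + L + L₀ + ‖ps μ Φ hΦ 0‖ + R * ‖ps μ Φ hΦ 0‖ with hL₁
  have hn0 : 0 ≤ ‖ps μ Φ hΦ 0‖ := norm_nonneg _
  have hn1 : 0 ≤ R * ‖ps μ Φ hΦ 0‖ := by positivity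
  have hpn : ∀ x, ‖ps μ Φ hΦ x‖ = ‖ps μ Φ hΦ 0‖ := by
    intro x
    have h1 := ps_norm μ Φ hΦ x
    have h2 := ps_norm μ Φ hΦ 0
    rw [← h2] at h1
    exact (pow_left_inj₀ (norm_nonneg _) (norm_nonneg _) (by norm_num)).1 h1
  obtain ⟨L', hS⟩ := surf_mk e (ps μ Φ hΦ) L₁ g γ (by linarith) hg hγ
    (fun x => by rw [hpn]; linarith)
    (fun x y => (ps_sub μ Φ hΦ R hR0 hR x y).trans
      (mul_le_mul_of_nonneg_right (by linarith) (norm_nonneg _)))
    (by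
      intro f τ hτ J s hJ x hx
      refine (hE f τ hτ J s hJ x hx).trans ?_
      refine mul_le_mul_of_nonneg_right ?_ (by positivity)
      exact mul_le_mul_of_nonneg_right (by linarith) (Nat.cast_nonneg _))
    (fun x y t ht => by
      rw [ps_inner_ps]
      refine (hdec (x - y) t ht).trans ?_
      exact mul_le_mul_of_nonneg_right (by linarith) (by positivity))
    (fun x y hxy => by
      rw [ps_inner_ps]
      refine (hdec2 (x - y) (sub_ne_zero.2 hxy)).trans ?_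
      exact mul_le_mul_of_nonneg_right (by linarith) (by positivity))
  have h := regions_ball P A hS a c ha ha1 hc hA hp
  filter_upwards [h] with ω hω
  intro r hr
  refine hω r ?_
  have : (2 + 2 / g) - a * (2 + 2 / g - 2) = (2 + 2 / g) - a * (2 / g) := by ring
  rw [this]
  exact hr

omit hΦ in
theorem near_cubes (F : EuclideanSpace ℝ (Fin d) → ℝ≥0∞) (ε : ℝ) (hε1 : ε ≤ 1)
    (j : Fin d → ℤ) (x : EuclideanSpace ℝ (Fin d)) (hx : x ∈ uq j) :
    ∫⁻ z in Metric.closedBall (0 : EuclideanSpace ℝ (Fin d)) ε, F (x + z) ≤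
      ∑ o ∈ (Fintype.piFinset fun i => Finset.Icc ((0 : Fin d → ℤ) i - (1 : ℕ))
        ((0 : Fin d → ℤ) i + (1 : ℕ)) : Finset (Fin d → ℤ)), ∫⁻ w in uq (j + o), F w := by
  classical
  set D : Set (EuclideanSpace ℝ (Fin d)) := Metric.closedBall 0 ε with hD
  have hDm : MeasurableSet D := Metric.isClosed_closedBall.measurableSet
  set O : Finset (Fin d → ℤ) := Fintype.piFinset fun i =>
    Finset.Icc ((0 : Fin d → ℤ) i - (1 : ℕ)) ((0 : Fin d → ℤ) i + (1 : ℕ)) with hO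
  set Qs : Set (EuclideanSpace ℝ (Fin d)) := ⋃ o ∈ O, uq (j + o) with hQs
  have hQm : MeasurableSet Qs := Finset.measurableSet_biUnion _ fun o _ => uq_meas _
  have hin : ∀ z ∈ D, x + z ∈ Qs := by
    intro z hz
    rw [hD, mem_closedBall_zero_iff] at hz
    have hzi : ∀ i, |z i| ≤ 1 := by
      intro i
      have := PiLp.norm_apply_le z i
      rw [Real.norm_eq_abs] at this
      linarith
    rw [hQs, mem_iUnion₂]
    refine ⟨fun i => ⌊(x + z) i⌋ - j i, ?_, ?_⟩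
    · rw [hO, Fintype.mem_piFinset]
      intro i
      have b1 := hx i
      have b2 := abs_le.1 (hzi i)
      have b3 : (x + z) i = x i + z i := rfl
      rw [Finset.mem_Icc, Pi.zero_apply]
      constructor
      · have : j i - 1 ≤ ⌊(x + z) i⌋ := by
          rw [Int.le_floor, b3]
          push_cast
          linarith [b1.1, b2.1]
        push_cast
        linarith
      · have : ⌊(x + z) i⌋ < j i + 2 := by
          rw [Int.floor_lt, b3]
          push_cast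
          linarith [b1.2, b2.2]
        push_cast
        linarith
    · intro i
      rw [Pi.add_apply]
      push_cast
      have b1 := Int.floor_le ((x + z) i)
      have b2 := Int.lt_floor_add_one ((x + z) i)
      constructor <;> linarith
  calc ∫⁻ z in D, F (x + z) = ∫⁻ z, D.indicator (fun z => F (x + z)) z :=
        (lintegral_indicator hDm _).symm
    _ ≤ ∫⁻ z, Qs.indicator F (x + z) := by
        refine lintegral_mono fun z => ?_
        by_cases hz : z ∈ D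
        · rw [indicator_of_mem hz, indicator_of_mem (hin z hz)]
        · rw [indicator_of_notMem hz]; exact zero_le
    _ = ∫⁻ w, Qs.indicator F w := lintegral_add_left_eq_self _ x
    _ = ∫⁻ w in Qs, F w := lintegral_indicator hQm _
    _ ≤ _ := lint_biUnion_le _ _ _ _

/-- counting from an estimate in `L^p` -/
theorem count_of (S : Set (Lp ℂ 2 μ))
    (hsolid : ∀ f ∈ S, ∀ f' : Lp ℂ 2 μ, (∀ᵐ y ∂μ, ‖f' y‖ ≤ ‖f y‖) → f' ∈ S)
    (p : ℝ) (hp : 1 < p) (M : ℝ≥0∞) (hMt : M ≠ ∞)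
    (hM : ∀ f ∈ S, ∫⁻ x, ‖inner ℂ (ps μ Φ hΦ x) f‖ₑ ^ p ≤ M)
    (R : ℝ) (hR0 : 0 ≤ R) (hR : ∀ᵐ y ∂μ, ‖Φ y‖ ≤ R) :
    ∃ L : ℝ, 0 ≤ L ∧ ∀ f ∈ S, ∀ lam : ℝ, 0 < lam → ∀ J : Finset (Fin d → ℤ),
      (∀ j ∈ J, hit (ps μ Φ hΦ) lam f j) → (J.card : ℝ) ≤ L * lam ^ (-p) := by
  classical
  have hp0 : 0 < p := by linarith
  set ε : ℝ := 1 / (R + 1) with hε
  have hε0 : 0 < ε := by positivity
  have hε1 : ε ≤ 1 := by rw [hε, div_le_one (by linarith)]; linarith
  have hεR : R * ε ≤ 1 := by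
    rw [hε, mul_one_div, div_le_one (by linarith)]; linarith
  set D : Set (EuclideanSpace ℝ (Fin d)) := Metric.closedBall 0 ε with hD
  have hDt : volume D ≠ ∞ := measure_closedBall_lt_top.ne
  have hv : 0 < volume.real D := by
    rw [Measure.real]
    exact ENNReal.toReal_pos (Metric.measure_closedBall_pos volume 0 hε0).ne' hDt
  set v : ℝ := volume.real D with hvd
  set O : Finset (Fin d → ℤ) := Fintype.piFinset fun i =>
    Finset.Icc ((0 : Fin d → ℤ) i - (1 : ℕ)) ((0 : Fin d → ℤ) i + (1 : ℕ)) with hO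
  set K : ℝ≥0∞ := (volume D ^ (1 / Real.conjExponent p)) ^ p with hK
  have hq0 : 0 < Real.conjExponent p :=
    (Real.HolderConjugate.conjExponent hp).symm.pos
  have hKt : K ≠ ∞ := by
    refine ENNReal.rpow_ne_top_of_nonneg hp0.le ?_
    exact ENNReal.rpow_ne_top_of_nonneg (by positivity) hDt
  set T : ℝ≥0∞ := K * (O.card * (ENNReal.ofReal (2 / v) ^ p * M)) with hT
  have hTt : T ≠ ∞ := by
    refine ENNReal.mul_ne_top hKt (ENNReal.mul_ne_top (ENNReal.natCast_ne_top _)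
      (ENNReal.mul_ne_top ?_ hMt))
    exact ENNReal.rpow_ne_top_of_nonneg hp0.le ENNReal.ofReal_ne_top
  refine ⟨T.toReal, ENNReal.toReal_nonneg, ?_⟩
  intro f hf lam hlam J hJ
  choose! x hx1 hx2 using hJ
  obtain ⟨f', hf'0, hf'2⟩ := reproduce μ Φ hΦ R hR0 hR ε hε0 hεR f
  set F : EuclideanSpace ℝ (Fin d) → ℝ≥0∞ := fun w => ‖inner ℂ (ps μ Φ hΦ w) f'‖ₑ ^ p with hF
  have hFm : Measurable F := (ps_meas μ Φ hΦ f').enorm.pow_const p
  have hFint : ∫⁻ w, F w ≤ ENNReal.ofReal (2 / v) ^ p * M := by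
    set f'' : Lp ℂ 2 μ := ((v / 2 : ℝ) : ℂ) • f' with hf''
    have h1 : f'' ∈ S := by
      refine hsolid f hf f'' ?_
      filter_upwards [hf'0, Lp.coeFn_smul ((v / 2 : ℝ) : ℂ) f'] with y h2 h3
      rw [h3, Pi.smul_apply, norm_smul, Complex.norm_real, Real.norm_eq_abs,
        abs_of_pos (by positivity)]
      calc v / 2 * ‖f' y‖ ≤ v / 2 * (2 / v * ‖f y‖) :=
            mul_le_mul_of_nonneg_left h2 (by positivity)
        _ = ‖f y‖ := by field_simp
    have h4 := hM f'' h1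
    have h5 : ∀ w, F w = ENNReal.ofReal (2 / v) ^ p * ‖inner ℂ (ps μ Φ hΦ w) f''‖ₑ ^ p := by
      intro w
      rw [hf'', inner_smul_right, enorm_mul, ← ENNReal.mul_rpow_of_nonneg _ _ hp0.le, ← mul_assoc]
      have h6 : ENNReal.ofReal (2 / v) * ‖((v / 2 : ℝ) : ℂ)‖ₑ = 1 := by
        rw [← ofReal_norm, Complex.norm_real, Real.norm_eq_abs, abs_of_pos (by positivity),
          ← ENNReal.ofReal_mul (by positivity)]
        rw [show 2 / v * (v / 2) = 1 by field_simp]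
        simp
      rw [h6, one_mul]
    simp_rw [h5]
    rw [lintegral_const_mul' _ _ (ENNReal.rpow_ne_top_of_nonneg hp0.le ENNReal.ofReal_ne_top)]
    exact mul_le_mul' le_rfl h4
  have hpt : ∀ j ∈ J, ENNReal.ofReal lam ^ p ≤ K * ∑ o ∈ O, ∫⁻ w in uq (j + o), F w := by
    intro j hj
    have a1 : ENNReal.ofReal lam ≤ ∫⁻ z in D, ‖inner ℂ (ps μ Φ hΦ (x j + z)) f'‖ₑ := by
      calc ENNReal.ofReal lam ≤ ENNReal.ofReal ‖inner ℂ (ps μ Φ hΦ (x j)) f‖ :=
            ENNReal.ofReal_le_ofReal (hx2 j hj)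
        _ = ‖∫ z in D, inner ℂ (ps μ Φ hΦ (x j + z)) f'‖ₑ := by rw [ofReal_norm, hf'2]
        _ ≤ _ := enorm_integral_le_lintegral_enorm _
    refine (ENNReal.rpow_le_rpow a1 hp0.le).trans ?_
    have a2 := holder_const (volume.restrict D) p hp
      (fun z => ‖inner ℂ (ps μ Φ hΦ (x j + z)) f'‖ₑ)
      ((ps_meas μ Φ hΦ f').comp (measurable_const_add (x j))).enorm.aemeasurable
    rw [Measure.restrict_apply_univ] at a2
    refine a2.trans (mul_le_mul' le_rfl ?_)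
    exact near_cubes F ε hε1 j (x j) (hx1 j hj)
  have hsum : (J.card : ℝ≥0∞) * ENNReal.ofReal lam ^ p ≤ T := by
    calc (J.card : ℝ≥0∞) * ENNReal.ofReal lam ^ p = ∑ j ∈ J, ENNReal.ofReal lam ^ p := by
          rw [Finset.sum_const, nsmul_eq_mul]
      _ ≤ ∑ j ∈ J, K * ∑ o ∈ O, ∫⁻ w in uq (j + o), F w := Finset.sum_le_sum hpt
      _ = K * ∑ o ∈ O, ∑ j ∈ J, ∫⁻ w in uq (j + o), F w := by
          rw [← Finset.mul_sum, Finset.sum_comm]
      _ ≤ K * ∑ o ∈ O, (ENNReal.ofReal (2 / v) ^ p * M) := by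
          refine mul_le_mul' le_rfl (Finset.sum_le_sum fun o _ => ?_)
          rw [← lintegral_biUnion_finset (fun j _ k _ hjk => uq_disj _ _ (fun h => hjk
            (add_right_cancel h))) (fun j _ => uq_meas _)]
          exact (setLIntegral_le_lintegral _ _).trans hFint
      _ = T := by rw [Finset.sum_const, nsmul_eq_mul]
  have hlp : 0 < lam ^ p := Real.rpow_pos_of_pos hlam p
  have h7 : (J.card : ℝ) * lam ^ p ≤ T.toReal := by
    rw [ENNReal.ofReal_rpow_of_pos hlam, ← ENNReal.ofReal_natCast,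
      ← ENNReal.ofReal_mul (Nat.cast_nonneg _)] at hsum
    exact (ENNReal.ofReal_le_iff_le_toReal hTt).1 hsum
  rw [Real.rpow_neg hlam.le, ← div_eq_mul_inv, le_div_iff₀ hlp]
  exact h7

/-- **Transference.** An estimate in `L^p` for a class of functions improves on random regions. -/
theorem regions_class {m : ℕ} (e : Fin m → Fin d) (L₀ γ : ℝ) (hL₀ : 0 ≤ L₀)
    (hγ : 0 < γ) (hC : CEnergy μ Φ hΦ e L₀) (R : ℝ) (hR0 : 0 ≤ R) (hR : ∀ᵐ y ∂μ, ‖Φ y‖ ≤ R)
    (hdec2 : ∀ x, x ≠ 0 → ‖∫ y, ex ⟪Φ y, x⟫ ∂μ‖ ≤ L₀ * ‖x‖ ^ (-γ))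
    (S : Set (Lp ℂ 2 μ)) (hsub : ∀ f ∈ S, ‖f‖ ≤ 1)
    (hsolid : ∀ f ∈ S, ∀ f' : Lp ℂ 2 μ, (∀ᵐ y ∂μ, ‖f' y‖ ≤ ‖f y‖) → f' ∈ S)
    (p : ℝ) (hp2 : 2 ≤ p) (M : ℝ≥0∞) (hMt : M ≠ ∞)
    (hM : ∀ f ∈ S, ∫⁻ x, ‖inner ℂ (ps μ Φ hΦ x) f‖ₑ ^ p ≤ M)
    {Ω : Type*} [MeasurableSpace Ω] (P : Measure Ω) (A : (Fin d → ℤ) → Set Ω) (a c : ℝ)
    (ha : 0 < a) (ha1 : a ≤ 1) (hc : 1 ≤ c)
    (hA : ∀ T : Finset (Fin d → ℤ), P (⋂ j ∈ T, A j) ≤ ∏ j ∈ T, P (A j))
    (hp : ∀ j, P (A j) ≤ ENNReal.ofReal (c * (1 + ‖j‖) ^ (-a))) :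
    ∀ᵐ ω ∂P, ∀ r : ℝ, p - a * (p - 2) < r → ∃ C : ℝ≥0, ∀ f ∈ S,
      ∫⁻ x in ⋃ j ∈ {j | ω ∈ A j}, uq j, ‖inner ℂ (ps μ Φ hΦ x) f‖ₑ ^ r ≤ C := by
  obtain ⟨L, hL0, hE⟩ := energy_of μ Φ hΦ e L₀ hL₀ hC R hR0 hR
  obtain ⟨L2, hL20, hcount⟩ := count_of μ Φ hΦ S hsolid p (by linarith) M hMt hM R hR0 hR
  set L₁ : ℝ := 1 + L + L₀ + L2 + ‖ps μ Φ hΦ 0‖ + R * ‖ps μ Φ hΦ 0‖ with hL₁
  have hn0 : 0 ≤ ‖ps μ Φ hΦ 0‖ := norm_nonneg _
  have hn1 : 0 ≤ R * ‖ps μ Φ hΦ 0‖ := by positivity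
  have hpn : ∀ x, ‖ps μ Φ hΦ x‖ = ‖ps μ Φ hΦ 0‖ := by
    intro x
    have h1 := ps_norm μ Φ hΦ x
    have h2 := ps_norm μ Φ hΦ 0
    rw [← h2] at h1
    exact (pow_left_inj₀ (norm_nonneg _) (norm_nonneg _) (by norm_num)).1 h1
  have hS := surf_gen e (ps μ Φ hΦ) S p L₁ γ hp2 (by linarith) hγ
    (fun x => by rw [hpn]; linarith)
    (fun x y => (ps_sub μ Φ hΦ R hR0 hR x y).trans
      (mul_le_mul_of_nonneg_right (by linarith) (norm_nonneg _)))
    (by
      intro f τ hτ J s hJ x hx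
      refine (hE f τ hτ J s hJ x hx).trans ?_
      refine mul_le_mul_of_nonneg_right ?_ (by positivity)
      exact mul_le_mul_of_nonneg_right (by linarith) (Nat.cast_nonneg _))
    (fun x y hxy => by
      rw [ps_inner_ps]
      refine (hdec2 (x - y) (sub_ne_zero.2 hxy)).trans ?_
      exact mul_le_mul_of_nonneg_right (by linarith) (by positivity))
    hsub (fun f hf lam h0 _ J hJ => (hcount f hf lam h0 J hJ).trans
      (mul_le_mul_of_nonneg_right (by linarith) (by positivity)))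
  exact regions P A hS a c ha ha1 hc hA hp

end Pool.Agent.N248.RR
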