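import Mathlib
import Pool.Agent.N248.RR.H
set_option autoImplicit false

/-! Transference for estimates from `L^s` of a piece `U` of the surface. -/

namespace Pool.Agent.N248.RR

open MeasureTheory Set
open scoped ENNReal NNReal RealInnerProductSpace ComplexConjugate

variable {d : ℕ} {Y : Type*} [MeasurableSpace Y] (μ : Measure Y) [IsFiniteMeasure μ]
  (Φ : Y → EuclideanSpace ℝ (Fin d))

/-- functions on the piece `U` -/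
theorem piece_level (hΦ : Measurable Φ) (U : Set Y) (hU : MeasurableSet U) (f : Y → ℂ)
    (hf : MemLp f 2 (μ.restrict U)) :
    ∃ F : Lp ℂ 2 μ, F =ᵐ[μ] U.indicator f ∧ ‖F‖ₑ = eLpNorm f 2 (μ.restrict U) ∧
      ∀ x, inner ℂ (ps μ Φ hΦ x) F = ∫ y in U, ex ⟪Φ y, x⟫ * f y ∂μ := by
  have hF : MemLp (U.indicator f) 2 μ := (memLp_indicator_iff_restrict hU).2 hf
  refine ⟨hF.toLp _, hF.coeFn_toLp, ?_, ?_⟩
  · rw [Lp.enorm_def, eLpNorm_congr_ae hF.coeFn_toLp, eLpNorm_indicator_eq_eLpNorm_restrict hU]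
  · intro x
    rw [ps_inner]
    have h1 : ∫ y, ex ⟪Φ y, x⟫ * (hF.toLp (U.indicator f)) y ∂μ =
        ∫ y, U.indicator (fun y => ex ⟪Φ y, x⟫ * f y) y ∂μ := by
      refine integral_congr_ae ?_
      filter_upwards [hF.coeFn_toLp] with y hy
      rw [hy]
      by_cases h : y ∈ U
      · rw [indicator_of_mem h, indicator_of_mem h]
      · rw [indicator_of_notMem h, indicator_of_notMem h, mul_zero]
    rw [h1, integral_indicator hU]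

/-- **Transference.** -/
theorem regions_norm (hΦ : Measurable Φ) {m : ℕ} (e : Fin m → Fin d) (L₀ γ : ℝ) (hL₀ : 0 ≤ L₀)
    (hγ : 0 < γ) (hC : CEnergy μ Φ hΦ e L₀) (R : ℝ) (hR0 : 0 ≤ R) (hR : ∀ᵐ y ∂μ, ‖Φ y‖ ≤ R)
    (hdec2 : ∀ x, x ≠ 0 → ‖∫ y, ex ⟪Φ y, x⟫ ∂μ‖ ≤ L₀ * ‖x‖ ^ (-γ))
    (U : Set Y) (hU : MeasurableSet U) (s : ℝ≥0∞) (hs : 2 ≤ s) (p : ℝ) (hp2 : 2 ≤ p) (C₀ : ℝ≥0)
    (hext : ∀ f : Y → ℂ, MemLp f s (μ.restrict U) →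
      ∫⁻ x, ‖∫ y in U, ex ⟪Φ y, x⟫ * f y ∂μ‖ₑ ^ p ≤ C₀ * eLpNorm f s (μ.restrict U) ^ p)
    {Ω : Type*} [MeasurableSpace Ω] (P : Measure Ω) (A : (Fin d → ℤ) → Set Ω) (a c : ℝ)
    (ha : 0 < a) (ha1 : a ≤ 1) (hc : 1 ≤ c)
    (hA : ∀ T : Finset (Fin d → ℤ), P (⋂ j ∈ T, A j) ≤ ∏ j ∈ T, P (A j))
    (hp : ∀ j, P (A j) ≤ ENNReal.ofReal (c * (1 + ‖j‖) ^ (-a))) :
    ∀ᵐ ω ∂P, ∀ r : ℝ, p - a * (p - 2) < r → ∃ C : ℝ≥0, ∀ f : Y → ℂ,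
      MemLp f s (μ.restrict U) →
      ∫⁻ x in ⋃ j ∈ {j | ω ∈ A j}, uq j, ‖∫ y in U, ex ⟪Φ y, x⟫ * f y ∂μ‖ₑ ^ r ≤
        C * eLpNorm f s (μ.restrict U) ^ r := by
  have hp0 : 0 < p := by linarith
  set K : ℝ≥0∞ := μ univ ^ (1 / (2 : ℝ≥0∞).toReal - 1 / s.toReal) + 1 with hK
  have hexp : 0 ≤ 1 / (2 : ℝ≥0∞).toReal - 1 / s.toReal := by
    by_cases hst : s = ∞
    · rw [hst]; simp
    · have h1 : (2 : ℝ≥0∞).toReal ≤ s.toReal := ENNReal.toReal_mono hst hs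
      rw [ENNReal.toReal_ofNat] at h1 ⊢
      rw [sub_nonneg]
      exact one_div_le_one_div_of_le (by norm_num) h1
  have hKt : K ≠ ∞ := ENNReal.add_ne_top.2
    ⟨ENNReal.rpow_ne_top_of_nonneg hexp (measure_ne_top _ _), ENNReal.one_ne_top⟩
  have hK1 : 1 ≤ K := le_add_self
  have hK0 : K ≠ 0 := (lt_of_lt_of_le one_pos hK1).ne'
  have hKi0 : K⁻¹ ≠ 0 := ENNReal.inv_ne_zero.2 hKt
  have hKit : K⁻¹ ≠ ∞ := ENNReal.inv_ne_top.2 hK0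
  set S : Set (Lp ℂ 2 μ) := {F | eLpNorm F s μ ≤ K⁻¹ ∧ ∀ᵐ y ∂μ, y ∉ U → F y = 0} with hS
  have hsub : ∀ F ∈ S, ‖F‖ ≤ 1 := by
    intro F hF
    have h1 : eLpNorm F 2 μ ≤ eLpNorm F s μ * μ univ ^ (1 / (2 : ℝ≥0∞).toReal - 1 / s.toReal) :=
      eLpNorm_le_eLpNorm_mul_rpow_measure_univ hs (Lp.aestronglyMeasurable F)
    have h2 : ‖F‖ₑ ≤ 1 := by
      rw [Lp.enorm_def]
      have h3 : μ univ ^ (1 / (2 : ℝ≥0∞).toReal - 1 / s.toReal) ≤ K := le_add_right le_rfl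
      refine h1.trans ((mul_le_mul' hF.1 h3).trans ?_)
      exact (ENNReal.inv_mul_cancel hK0 hKt).le
    rw [← ofReal_norm] at h2
    exact ENNReal.ofReal_le_one.1 h2
  have hsolid : ∀ F ∈ S, ∀ F' : Lp ℂ 2 μ, (∀ᵐ y ∂μ, ‖F' y‖ ≤ ‖F y‖) → F' ∈ S := by
    intro F hF F' hFF
    refine ⟨(eLpNorm_mono_ae hFF).trans hF.1, ?_⟩
    filter_upwards [hFF, hF.2] with y h1 h2 h3
    rw [h2 h3, norm_zero] at h1
    exact norm_le_zero_iff.1 h1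
  have hrep : ∀ (F : Lp ℂ 2 μ), (∀ᵐ y ∂μ, y ∉ U → F y = 0) → ∀ x,
      inner ℂ (ps μ Φ hΦ x) F = ∫ y in U, ex ⟪Φ y, x⟫ * F y ∂μ := by
    intro F hF x
    rw [ps_inner, ← integral_indicator hU]
    refine integral_congr_ae ?_
    filter_upwards [hF] with y hy
    by_cases h : y ∈ U
    · rw [indicator_of_mem h]
    · rw [indicator_of_notMem h, hy h, mul_zero]
  have hM : ∀ F ∈ S, ∫⁻ x, ‖inner ℂ (ps μ Φ hΦ x) F‖ₑ ^ p ≤ C₀ * K⁻¹ ^ p := by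
    intro F hF
    simp_rw [hrep F hF.2]
    have h1 : eLpNorm F s (μ.restrict U) ≤ K⁻¹ := (eLpNorm_restrict_le _ _ _ _).trans hF.1
    refine (hext F ⟨(Lp.aestronglyMeasurable F).restrict, lt_of_le_of_lt h1 hKit.lt_top⟩).trans ?_
    exact mul_le_mul' le_rfl (ENNReal.rpow_le_rpow h1 hp0.le)
  have h := regions_class μ Φ hΦ e L₀ γ hL₀ hγ hC R hR0 hR hdec2 S hsub hsolid p hp2
    (C₀ * K⁻¹ ^ p) (ENNReal.mul_ne_top ENNReal.coe_ne_top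
      (ENNReal.rpow_ne_top_of_nonneg hp0.le hKit)) hM P A a c ha ha1 hc hA hp
  filter_upwards [h] with ω hω
  intro r hr
  have hr0 : 0 < r := by
    have : a * (p - 2) ≤ 1 * (p - 2) := mul_le_mul_of_nonneg_right ha1 (by linarith)
    linarith
  obtain ⟨C, hCC⟩ := hω r hr
  have hKr : K ^ r ≠ ∞ := ENNReal.rpow_ne_top_of_nonneg hr0.le hKt
  refine ⟨C * (K ^ r).toNNReal, fun f hf => ?_⟩
  rw [ENNReal.coe_mul, ENNReal.coe_toNNReal hKr]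
  have hf2 : MemLp f 2 (μ.restrict U) := hf.mono_exponent hs
  obtain ⟨F, hF1, hF2, hF3⟩ := piece_level μ Φ hΦ U hU f hf2
  set N : ℝ≥0∞ := eLpNorm f s (μ.restrict U) with hN
  have hNt : N ≠ ∞ := hf.2.ne
  by_cases hN0 : N = 0
  · have h1 : f =ᵐ[μ.restrict U] 0 := (eLpNorm_eq_zero_iff hf.1 (by
      intro h0; rw [h0] at hs; simp at hs)).1 hN0
    have h2 : ∀ x, ∫ y in U, ex ⟪Φ y, x⟫ * f y ∂μ = 0 := by
      intro x
      rw [integral_congr_ae (g := fun _ => (0 : ℂ)) (by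
        filter_upwards [h1] with y hy
        rw [hy, Pi.zero_apply, mul_zero]), integral_zero]
    simp_rw [h2]
    rw [enorm_zero, ENNReal.zero_rpow_of_pos hr0, lintegral_zero]
    exact zero_le
  set t : ℝ := (K⁻¹ / N).toReal with ht
  have htt : K⁻¹ / N ≠ ∞ := ENNReal.div_ne_top hKit hN0
  have ht0 : 0 < t := ENNReal.toReal_pos (ENNReal.div_ne_zero.2 ⟨hKi0, hNt⟩) htt
  have hte : ‖((t : ℝ) : ℂ)‖ₑ = K⁻¹ / N := by
    rw [← ofReal_norm, Complex.norm_real, Real.norm_eq_abs, abs_of_pos ht0, ht,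
      ENNReal.ofReal_toReal htt]
  set G : Lp ℂ 2 μ := ((t : ℝ) : ℂ) • F with hG
  have hGS : G ∈ S := by
    refine ⟨?_, ?_⟩
    · have h1 : eLpNorm G s μ = eLpNorm (((t : ℝ) : ℂ) • (U.indicator f)) s μ := by
        refine eLpNorm_congr_ae ?_
        filter_upwards [Lp.coeFn_smul ((t : ℝ) : ℂ) F, hF1] with y h2 h3
        rw [h2, Pi.smul_apply, Pi.smul_apply, h3]
      rw [h1, eLpNorm_const_smul, eLpNorm_indicator_eq_eLpNorm_restrict hU, hte]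
      exact (ENNReal.div_mul_cancel hN0 hNt).le
    · filter_upwards [Lp.coeFn_smul ((t : ℝ) : ℂ) F, hF1] with y h2 h3 h4
      rw [h2, Pi.smul_apply, h3, indicator_of_notMem h4, smul_zero]
  have h5 := hCC G hGS
  have h6 : ∀ x, ‖∫ y in U, ex ⟪Φ y, x⟫ * f y ∂μ‖ₑ ^ r =
      (K * N) ^ r * ‖inner ℂ (ps μ Φ hΦ x) G‖ₑ ^ r := by
    intro x
    rw [← hF3 x, hG, inner_smul_right, enorm_mul, ← ENNReal.mul_rpow_of_nonneg _ _ hr0.le,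
      ← mul_assoc, hte]
    have h7 : K * N * (K⁻¹ / N) = 1 := by
      rw [div_eq_mul_inv, mul_mul_mul_comm, ENNReal.mul_inv_cancel hK0 hKt,
        ENNReal.mul_inv_cancel hN0 hNt, one_mul]
    rw [h7, one_mul]
  simp_rw [h6]
  rw [lintegral_const_mul' _ _ (ENNReal.rpow_ne_top_of_nonneg hr0.le
    (ENNReal.mul_ne_top hKt hNt))]
  refine (mul_le_mul' le_rfl h5).trans (le_of_eq ?_)
  rw [ENNReal.mul_rpow_of_nonneg _ _ hr0.le]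
  ring

end Pool.Agent.N248.RR
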