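import Mathlib
import Pool.Agent.N248.RR.H
import Pool.Agent.N248.RM.E
import Pool.Agent.H17Arc.Osc2
set_option autoImplicit false

/-! Random regions for the paraboloid. -/

namespace Pool.Agent.N248.RR

open MeasureTheory Set
open scoped ENNReal NNReal RealInnerProductSpace ComplexConjugate
open Pool.Agent.R412.RT (ee ee_norm ee_cont ee_meas ee_add ee_conj Phi Ex Ex_meas inner_eq)
open Pool.Agent.N248.RM (mQ ch ch_norm ch_meas ch_mem TT TT_inner TT_eq TT_toLp energy_slab Phi_meas)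

/-- the one-dimensional kernel -/
noncomputable def kk (β τ : ℝ) : ℂ := ∫ u in (-1 : ℝ)..1, ex (β * u + τ * u ^ 2)

theorem kk_W (β τ : ℝ) :
    kk β τ = H17Arc.W (fun t => -(β * t + τ * t ^ 2)) 0 (-1) 1 := by
  unfold kk H17Arc.W H17Arc.ker ex
  congr 1
  ext u
  congr 1
  push_cast
  ring

theorem kk_neg (β τ : ℝ) : ‖kk (-β) (-τ)‖ = ‖kk β τ‖ := by
  have h : kk (-β) (-τ) = conj (kk β τ) := by
    unfold kk
    rw [intervalIntegral.integral_of_le (by norm_num), intervalIntegral.integral_of_le (by norm_num),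
      ← integral_conj]
    congr 1
    ext u
    rw [ex_conj]
    congr 1
    ring
  rw [h, Complex.norm_conj]

theorem kk_two (β τ : ℝ) : ‖kk β τ‖ ≤ 2 := by
  unfold kk
  have h := intervalIntegral.norm_integral_le_of_norm_le_const (a := (-1 : ℝ)) (b := 1)
    (f := fun u => ex (β * u + τ * u ^ 2)) (C := 1) (fun u _ => (ex_norm _).le)
  refine h.trans ?_
  norm_num

theorem kk_second_pos (β τ : ℝ) (hτ : 0 < τ) : ‖kk β τ‖ ≤ 5 * τ ^ (-(1 / 2) : ℝ) := by
  have hφ : ∀ t, HasDerivAt (fun t : ℝ => β * t + τ * t ^ 2) (β + 2 * τ * t) t := by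
    intro t
    have h1 := ((hasDerivAt_id t).const_mul β).add ((hasDerivAt_pow 2 t).const_mul τ)
    refine h1.congr_deriv ?_
    push_cast
    ring
  have hv : ∀ t, HasDerivAt (fun t : ℝ => β + 2 * τ * t) (2 * τ) t := by
    intro t
    have h1 := ((hasDerivAt_id t).const_mul (2 * τ)).const_add β
    refine h1.congr_deriv ?_
    ring
  set t0 : ℝ := -β / (2 * τ) with ht0
  set ρ : ℝ := τ ^ (-(1 / 2) : ℝ) with hρ
  have hρ0 : 0 < ρ := by positivity
  have h := H17Arc.norm_W_le_second hφ hv continuous_const (a := min (-1) t0) (b := max 1 t0)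
    (u := 0) (x := -1) (y := 1) (c := 2 * τ) (ρ := ρ) (t0 := t0) (by norm_num)
    ⟨min_le_left _ _, le_max_of_le_left (by norm_num)⟩
    ⟨(min_le_left _ _).trans (by norm_num), le_max_left _ _⟩
    ⟨min_le_right _ _, le_max_right _ _⟩ (by rw [ht0]; field_simp; ring) le_rfl (by positivity)
    hρ0 (fun t _ => le_rfl)
  rw [kk_W, H17Arc.norm_W_neg (by norm_num)]
  refine h.trans (le_of_eq ?_)
  have h1 : τ * ρ * ρ = 1 := by
    rw [hρ, mul_assoc, ← Real.rpow_add hτ]
    norm_num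
    rw [Real.rpow_neg_one]
    exact mul_inv_cancel₀ hτ.ne'
  have h2 : 6 / (2 * τ * ρ) = 3 * ρ := by
    rw [div_eq_iff (by positivity)]
    linear_combination -6 * h1
  rw [h2]
  ring

theorem kk_second (β τ : ℝ) (hτ : τ ≠ 0) : ‖kk β τ‖ ≤ 5 * |τ| ^ (-(1 / 2) : ℝ) := by
  rcases lt_or_gt_of_ne hτ with h | h
  · rw [← kk_neg, abs_of_neg h]
    exact kk_second_pos _ _ (by linarith)
  · rw [abs_of_pos h]
    exact kk_second_pos _ _ h

theorem kk_first_nonneg (β τ : ℝ) (hτ : 0 ≤ τ) (hβ : 0 < |β|) (h4 : 4 * τ ≤ |β|) :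
    ‖kk β τ‖ ≤ 6 / |β| := by
  have hφ : ∀ t, HasDerivAt (fun t : ℝ => β * t + τ * t ^ 2) (β + 2 * τ * t) t := by
    intro t
    have h1 := ((hasDerivAt_id t).const_mul β).add ((hasDerivAt_pow 2 t).const_mul τ)
    refine h1.congr_deriv ?_
    push_cast
    ring
  have hv : ∀ t, HasDerivAt (fun t : ℝ => β + 2 * τ * t) (2 * τ) t := by
    intro t
    have h1 := ((hasDerivAt_id t).const_mul (2 * τ)).const_add β
    refine h1.congr_deriv ?_
    ring
  have h := H17Arc.norm_W_le_first hφ hv continuous_const (u := 0) (x := -1) (y := 1)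
    (m := |β| / 2) (by norm_num) le_rfl (by positivity) (fun t _ => by positivity) (by
      rcases lt_abs.1 hβ with h0 | h0
      · left
        intro t ht
        rw [abs_of_pos h0] at h4 ⊢
        nlinarith [ht.1, ht.2]
      · right
        intro t ht
        rw [abs_of_neg (by linarith)] at h4 ⊢
        nlinarith [ht.1, ht.2])
  rw [kk_W, H17Arc.norm_W_neg (by norm_num)]
  refine h.trans (le_of_eq ?_)
  field_simp
  norm_num

theorem kk_first (β τ : ℝ) (hβ : 0 < |β|) (h4 : 4 * |τ| ≤ |β|) : ‖kk β τ‖ ≤ 6 / |β| := by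
  rcases le_total 0 τ with h | h
  · exact kk_first_nonneg β τ h hβ (by rwa [abs_of_nonneg h] at h4)
  · rw [← kk_neg, ← abs_neg β]
    refine kk_first_nonneg _ _ (by linarith) (by rwa [abs_neg]) ?_
    rw [abs_neg]
    rwa [abs_of_nonpos h] at h4

/-- the one-dimensional kernel decays in all directions -/
theorem kk_decay (β τ M : ℝ) (hM : 0 < M) (h : M ≤ max |β| |τ|) :
    ‖kk β τ‖ ≤ 10 * M ^ (-(1 / 2) : ℝ) := by
  have hM2 : 0 < M ^ (-(1 / 2) : ℝ) := by positivity
  have hanti : ∀ X, M / 4 ≤ X → X ^ (-(1 / 2) : ℝ) ≤ 2 * M ^ (-(1 / 2) : ℝ) := by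
    intro X hX
    calc X ^ (-(1 / 2) : ℝ) ≤ (M / 4) ^ (-(1 / 2) : ℝ) :=
          Real.rpow_le_rpow_of_nonpos (by positivity) hX (by norm_num)
      _ = 2 * M ^ (-(1 / 2) : ℝ) := by
          rw [Real.div_rpow hM.le (by norm_num)]
          have : (4 : ℝ) ^ (-(1 / 2) : ℝ) = 1 / 2 := by
            rw [Real.rpow_neg (by norm_num), show (4 : ℝ) = 2 ^ (2 : ℝ) by norm_num,
              ← Real.rpow_mul (by norm_num)]
            norm_num
          rw [this]
          ring
  rcases le_or_gt (M / 4) |τ| with h1 | h1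
  · have hτ : τ ≠ 0 := by
      intro h0
      rw [h0, abs_zero] at h1
      linarith
    have := kk_second β τ hτ
    have h2 := hanti |τ| h1
    linarith
  · have hβM : M ≤ |β| := by
      rcases le_max_iff.1 h with h2 | h2
      · exact h2
      · linarith
    have h3 := kk_first β τ (by linarith) (by linarith)
    have h4 := kk_two β τ
    have h5 : ‖kk β τ‖ ≤ 6 / M := h3.trans (div_le_div_of_nonneg_left (by norm_num) hM hβM)
    have h6 : ‖kk β τ‖ ^ 2 ≤ (10 * M ^ (-(1 / 2) : ℝ)) ^ 2 := by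
      have e1 : (10 * M ^ (-(1 / 2) : ℝ)) ^ 2 = 100 / M := by
        rw [mul_pow, ← Real.rpow_natCast (M ^ (-(1 / 2) : ℝ)) 2, ← Real.rpow_mul hM.le]
        norm_num
        rw [Real.rpow_neg_one]
        ring
      rw [e1]
      have h7 : ‖kk β τ‖ ^ 2 ≤ 2 * (6 / M) := by
        have h0 := norm_nonneg (kk β τ)
        nlinarith
      refine h7.trans ?_
      rw [mul_div_assoc']
      exact div_le_div_of_nonneg_right (by norm_num) hM.le
    exact (pow_le_pow_iff_left₀ (norm_nonneg _) (by positivity) (by norm_num)).1 h6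

variable {n : ℕ}

/-- the cube `[-1,1]^n` -/
def cub (n : ℕ) : Set (EuclideanSpace ℝ (Fin n)) := {ξ | ∀ j, |ξ j| ≤ 1}

theorem cub_meas (n : ℕ) : MeasurableSet (cub n) := by
  have : cub n = ⋂ j, {ξ : EuclideanSpace ℝ (Fin n) | |ξ j| ≤ 1} := by
    ext ξ; simp [cub]
  rw [this]
  exact MeasurableSet.iInter fun j => measurableSet_le (by fun_prop) measurable_const

theorem cub_norm (ξ : EuclideanSpace ℝ (Fin n)) (hξ : ξ ∈ cub n) : ‖ξ‖ ≤ Real.sqrt n := by
  rw [EuclideanSpace.norm_eq]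
  refine Real.sqrt_le_sqrt ?_
  have : ∑ i : Fin n, ‖ξ i‖ ^ 2 ≤ ∑ i : Fin n, (1 : ℝ) := by
    refine Finset.sum_le_sum fun i _ => ?_
    rw [Real.norm_eq_abs]
    have h := hξ i
    have h0 := abs_nonneg (ξ i)
    nlinarith
  rw [Finset.sum_const, Finset.card_univ, Fintype.card_fin, nsmul_eq_mul, mul_one] at this
  exact this

theorem cub_vol (n : ℕ) : volume (cub n) ≠ ∞ := by
  have hsub : cub n ⊆ Metric.closedBall (0 : EuclideanSpace ℝ (Fin n)) (Real.sqrt n) := by
    intro ξ hξ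
    rw [mem_closedBall_zero_iff]
    exact cub_norm ξ hξ
  exact ((measure_mono hsub).trans_lt measure_closedBall_lt_top).ne

theorem Phi_inner (ξ : EuclideanSpace ℝ (Fin n)) (x : EuclideanSpace ℝ (Fin (n + 1))) :
    ⟪Phi ξ, x⟫ = ∑ j, (x j.castSucc * ξ j + x (Fin.last n) * ξ j ^ 2) := by
  rw [inner_eq, Fin.sum_univ_castSucc]
  simp only [Phi, Fin.snoc_castSucc, Fin.snoc_last]
  rw [Finset.sum_add_distrib, ← Finset.mul_sum]
  congr 1
  · exact Finset.sum_congr rfl fun j _ => mul_comm _ _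
  · exact mul_comm _ _

theorem ex_sum {ι : Type*} (s : Finset ι) (f : ι → ℝ) : ex (∑ i ∈ s, f i) = ∏ i ∈ s, ex (f i) := by
  classical
  induction s using Finset.induction_on with
  | empty => simp [ex]
  | insert i s hi ih => rw [Finset.sum_insert hi, Finset.prod_insert hi, ex_add, ih]

/-- the kernel is a product -/
theorem kernel_prod (s : ℝ) (x : EuclideanSpace ℝ (Fin (n + 1))) :
    ∫ ξ in cub n, ex ⟪s • Phi ξ, x⟫ = ∏ j : Fin n, kk (s * x j.castSucc) (s * x (Fin.last n)) := by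
  rw [← integral_indicator (cub_meas n)]
  have h1 : ∀ ξ : EuclideanSpace ℝ (Fin n), (cub n).indicator (fun ξ => ex ⟪s • Phi ξ, x⟫) ξ =
      ∏ j : Fin n, (Icc (-1 : ℝ) 1).indicator
        (fun u => ex (s * x j.castSucc * u + s * x (Fin.last n) * u ^ 2)) (ξ j) := by
    intro ξ
    by_cases hξ : ξ ∈ cub n
    · rw [indicator_of_mem hξ]
      have h2 : ∀ j, (Icc (-1 : ℝ) 1).indicator
          (fun u => ex (s * x j.castSucc * u + s * x (Fin.last n) * u ^ 2)) (ξ j) =
          ex (s * x j.castSucc * ξ j + s * x (Fin.last n) * ξ j ^ 2) := by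
        intro j
        rw [indicator_of_mem (show ξ j ∈ Icc (-1 : ℝ) 1 from abs_le.1 (hξ j))]
      simp_rw [h2]
      rw [← ex_sum, inner_smul_left, Phi_inner]
      simp only [conj_trivial]
      rw [Finset.mul_sum]
      congr 1
      exact Finset.sum_congr rfl fun j _ => by ring
    · rw [indicator_of_notMem hξ]
      have h2 : ∃ j, ¬ |ξ j| ≤ 1 := by
        by_contra hcon
        push Not at hcon
        exact hξ hcon
      obtain ⟨j, hj⟩ := h2
      refine (Finset.prod_eq_zero (Finset.mem_univ j) ?_).symm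
      rw [indicator_of_notMem (show ξ j ∉ Icc (-1 : ℝ) 1 from fun h => hj (abs_le.2 h))]
  simp_rw [h1]
  have h3 := (PiLp.volume_preserving_ofLp (Fin n)).integral_comp
    (MeasurableEquiv.toLp 2 (Fin n → ℝ)).symm.measurableEmbedding
    (fun y : Fin n → ℝ => ∏ j : Fin n, (Icc (-1 : ℝ) 1).indicator
      (fun u => ex (s * x j.castSucc * u + s * x (Fin.last n) * u ^ 2)) (y j))
  rw [show (∫ ξ : EuclideanSpace ℝ (Fin n), ∏ j : Fin n, (Icc (-1 : ℝ) 1).indicator
        (fun u => ex (s * x j.castSucc * u + s * x (Fin.last n) * u ^ 2)) (ξ j)) = _ from h3]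
  rw [integral_fintype_prod_volume_eq_prod (fun j u => (Icc (-1 : ℝ) 1).indicator
      (fun u => ex (s * x (Fin.castSucc j) * u + s * x (Fin.last n) * u ^ 2)) u)]
  refine Finset.prod_congr rfl fun j _ => ?_
  rw [integral_indicator measurableSet_Icc, integral_Icc_eq_integral_Ioc]
  unfold kk
  rw [intervalIntegral.integral_of_le (by norm_num)]

theorem kernel_time (s : ℝ) (hs : s ≠ 0) (x : EuclideanSpace ℝ (Fin (n + 1)))
    (hx : 1 ≤ |x (Fin.last n)|) :
    ‖∫ ξ in cub n, ex ⟪s • Phi ξ, x⟫‖ ≤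
      (5 * |s| ^ (-(1 / 2) : ℝ)) ^ n * |x (Fin.last n)| ^ (-((n : ℝ) / 2)) := by
  rw [kernel_prod, norm_prod]
  have h0 : x (Fin.last n) ≠ 0 := by
    intro h
    rw [h, abs_zero] at hx
    linarith
  calc ∏ j : Fin n, ‖kk (s * x j.castSucc) (s * x (Fin.last n))‖
      ≤ ∏ _j : Fin n, (5 * |s * x (Fin.last n)| ^ (-(1 / 2) : ℝ)) :=
        Finset.prod_le_prod (fun j _ => norm_nonneg _) fun j _ =>
          kk_second _ _ (mul_ne_zero hs h0)
    _ = (5 * |s| ^ (-(1 / 2) : ℝ)) ^ n * |x (Fin.last n)| ^ (-((n : ℝ) / 2)) := by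
        rw [Finset.prod_const, Finset.card_univ, Fintype.card_fin, abs_mul,
          Real.mul_rpow (abs_nonneg _) (abs_nonneg _), ← mul_assoc, mul_pow]
        congr 1
        rw [← Real.rpow_natCast, ← Real.rpow_mul (abs_nonneg _)]
        congr 1
        ring

theorem kernel_all (hn : 1 ≤ n) (s : ℝ) (hs : s ≠ 0) (x : EuclideanSpace ℝ (Fin (n + 1)))
    (hx : x ≠ 0) :
    ‖∫ ξ in cub n, ex ⟪s • Phi ξ, x⟫‖ ≤
      2 ^ n * (10 * (|s| / (n + 1)) ^ (-(1 / 2) : ℝ)) * ‖x‖ ^ (-(1 / 2) : ℝ) := by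
  rw [kernel_prod, norm_prod]
  have hs0 : 0 < |s| := abs_pos.2 hs
  have hx0 : 0 < ‖x‖ := norm_pos_iff.2 hx
  -- a large coordinate
  obtain ⟨i, hi⟩ : ∃ i, ‖x‖ / (n + 1) ≤ |x i| := by
    by_contra hcon
    push Not at hcon
    have h1 : ‖x‖ ^ 2 < ‖x‖ ^ 2 := by
      calc ‖x‖ ^ 2 = ∑ i, ‖x i‖ ^ 2 := EuclideanSpace.norm_sq_eq x
        _ < ∑ _i : Fin (n + 1), (‖x‖ / (n + 1)) ^ 2 := by
            refine Finset.sum_lt_sum_of_nonempty Finset.univ_nonempty fun i _ => ?_
            rw [Real.norm_eq_abs]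
            exact pow_lt_pow_left₀ (hcon i) (abs_nonneg _) (by norm_num)
        _ = (n + 1) * (‖x‖ / (n + 1)) ^ 2 := by
            rw [Finset.sum_const, Finset.card_univ, Fintype.card_fin, nsmul_eq_mul]
            push_cast
            ring
        _ = ‖x‖ ^ 2 / (n + 1) := by field_simp
        _ ≤ ‖x‖ ^ 2 := by
            refine div_le_self (by positivity) ?_
            have : (0 : ℝ) ≤ n := Nat.cast_nonneg n
            linarith
    exact lt_irrefl _ h1
  -- the good factor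
  obtain ⟨j, hj⟩ : ∃ j : Fin n, ‖x‖ / (n + 1) ≤ max |x j.castSucc| |x (Fin.last n)| := by
    rcases Fin.eq_castSucc_or_eq_last i with ⟨j, rfl⟩ | rfl
    · exact ⟨j, hi.trans (le_max_left _ _)⟩
    · exact ⟨⟨0, hn⟩, hi.trans (le_max_right _ _)⟩
  have h2 : ‖kk (s * x j.castSucc) (s * x (Fin.last n))‖ ≤
      10 * (|s| * (‖x‖ / (n + 1))) ^ (-(1 / 2) : ℝ) := by
    refine kk_decay _ _ _ (by positivity) ?_
    rw [abs_mul, abs_mul, ← mul_max_of_nonneg _ _ hs0.le]
    exact mul_le_mul_of_nonneg_left hj hs0.le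
  rw [← Finset.mul_prod_erase Finset.univ _ (Finset.mem_univ j)]
  have h3 : ∏ k ∈ Finset.univ.erase j, ‖kk (s * x (Fin.castSucc k)) (s * x (Fin.last n))‖ ≤
      2 ^ n := by
    calc ∏ k ∈ Finset.univ.erase j, ‖kk (s * x (Fin.castSucc k)) (s * x (Fin.last n))‖
        ≤ ∏ _k ∈ Finset.univ.erase j, (2 : ℝ) :=
          Finset.prod_le_prod (fun k _ => norm_nonneg _) fun k _ => kk_two _ _
      _ = 2 ^ (n - 1) := by
          rw [Finset.prod_const, Finset.card_erase_of_mem (Finset.mem_univ j), Finset.card_univ,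
            Fintype.card_fin]
      _ ≤ 2 ^ n := pow_le_pow_right₀ (by norm_num) (by omega)
  calc ‖kk (s * x j.castSucc) (s * x (Fin.last n))‖ *
        ∏ k ∈ Finset.univ.erase j, ‖kk (s * x (Fin.castSucc k)) (s * x (Fin.last n))‖
      ≤ (10 * (|s| * (‖x‖ / (n + 1))) ^ (-(1 / 2) : ℝ)) * 2 ^ n :=
        mul_le_mul h2 h3 (Finset.prod_nonneg fun k _ => norm_nonneg _) (by positivity)
    _ = _ := by
        rw [show |s| * (‖x‖ / (n + 1)) = (|s| / (n + 1)) * ‖x‖ by ring,
          Real.mul_rpow (by positivity) hx0.le]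
        ring

end Pool.Agent.N248.RR
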