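import Mathlib
import Pool.Agent.N248.RR.P
set_option autoImplicit false

/-! Random regions for the paraboloid: the theorem. -/

namespace Pool.Agent.N248.RR

open MeasureTheory Set
open scoped ENNReal NNReal RealInnerProductSpace ComplexConjugate
open Pool.Agent.R412.RT (ee ee_norm ee_cont ee_meas ee_add ee_conj Phi Ex Ex_meas inner_eq)
open Pool.Agent.N248.RM (mQ ch ch_norm ch_meas ch_mem TT TT_inner TT_eq TT_toLp TT_meas energy_slab
  Phi_meas)

variable {n : ℕ}

/-- the scaled paraboloid -/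
noncomputable def sPhi (s : ℝ) (ξ : EuclideanSpace ℝ (Fin n)) : EuclideanSpace ℝ (Fin (n + 1)) :=
  s • Phi ξ

theorem sPhi_meas (s : ℝ) : Measurable (sPhi (n := n) s) := Phi_meas.const_smul s

instance cub_fin (n : ℕ) : IsFiniteMeasure (volume.restrict (cub n)) :=
  ⟨by rw [Measure.restrict_apply_univ]; exact (cub_vol n).lt_top⟩

theorem ps_TT (s : ℝ) (x : EuclideanSpace ℝ (Fin (n + 1)))
    (f : Lp ℂ 2 (volume.restrict (cub n))) :
    inner ℂ (ps (volume.restrict (cub n)) (sPhi s) (sPhi_meas s) x) f =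
      TT (cub n) (cub_vol n) ((s / (2 * Real.pi)) • x) f := by
  rw [ps_inner, TT_eq (cub n) (cub_vol n) (cub_meas n)]
  unfold Ex
  rw [← integral_indicator (cub_meas n)]
  refine integral_congr_ae (Filter.Eventually.of_forall fun ξ => ?_)
  simp only
  by_cases hξ : ξ ∈ cub n
  · rw [indicator_of_mem hξ, indicator_of_mem hξ]
    congr 1
    unfold ex ee sPhi
    congr 1
    rw [inner_smul_left, inner_smul_right]
    simp only [conj_trivial]
    have hpi : (Real.pi : ℂ) ≠ 0 := by exact_mod_cast Real.pi_ne_zero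
    push_cast
    field_simp
  · rw [indicator_of_notMem hξ, indicator_of_notMem hξ, mul_zero]

theorem para_energy (s : ℝ) (hs : s ≠ 0) :
    CEnergy (volume.restrict (cub n)) (sPhi s) (sPhi_meas s) (fun _ : Fin 1 => Fin.last n)
      (|(s / (2 * Real.pi))| ^ n)⁻¹ := by
  intro f B hB α τ hτ hBα
  set r : ℝ := s / (2 * Real.pi) with hr
  have hr0 : r ≠ 0 := div_ne_zero hs (by positivity)
  have hra : 0 < |r| := abs_pos.2 hr0
  simp_rw [ps_TT]
  set G : EuclideanSpace ℝ (Fin (n + 1)) → ℝ≥0∞ := fun y => ‖TT (cub n) (cub_vol n) y f‖ₑ ^ 2 with hG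
  have hGm : Measurable G := (TT_meas (cub n) (cub_vol n) (cub_meas n) f).enorm.pow_const 2
  set B' : Set (EuclideanSpace ℝ (Fin (n + 1))) := {y | r⁻¹ • y ∈ B} with hB'
  have hB'm : MeasurableSet B' := (measurable_const_smul r⁻¹) hB
  have h1 : ∫⁻ x in B, G (r • x) = ∫⁻ x, B'.indicator G (r • x) := by
    rw [← lintegral_indicator hB]
    refine lintegral_congr fun x => ?_
    by_cases hx : x ∈ B
    · rw [indicator_of_mem hx, indicator_of_mem]
      show r⁻¹ • (r • x) ∈ B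
      rwa [smul_smul, inv_mul_cancel₀ hr0, one_smul]
    · rw [indicator_of_notMem hx, indicator_of_notMem]
      intro h
      apply hx
      have h' : r⁻¹ • (r • x) ∈ B := h
      rwa [smul_smul, inv_mul_cancel₀ hr0, one_smul] at h'
  have h2 : ∫⁻ x, B'.indicator G (r • x) =
      ENNReal.ofReal (|r| ^ (n + 1))⁻¹ * ∫⁻ y in B', G y := by
    have h3 := Measure.map_addHaar_smul (volume : Measure (EuclideanSpace ℝ (Fin (n + 1)))) hr0
    have h4 : ∫⁻ x, B'.indicator G (r • x) =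
        ∫⁻ y, B'.indicator G y ∂(Measure.map (r • ·)
          (volume : Measure (EuclideanSpace ℝ (Fin (n + 1))))) :=
      (lintegral_map (hGm.indicator hB'm) (measurable_const_smul r)).symm
    rw [h4, h3, lintegral_smul_measure, lintegral_indicator hB'm, finrank_euclideanSpace,
      Fintype.card_fin, abs_inv, abs_pow]
    rfl
  rw [show (∫⁻ x in B, ‖TT (cub n) (cub_vol n) (r • x) f‖ₑ ^ 2) = ∫⁻ x in B, G (r • x) from rfl,
    h1, h2]
  have h5 := energy_slab (cub n) (cub_vol n) (cub_meas n) f B' hB'm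
    (min (r * α 0) (r * (α 0 + τ))) (max (r * α 0) (r * (α 0 + τ))) (by
      intro y hy
      have h6 := hBα _ hy 0
      have h7 : (r⁻¹ • y) (Fin.last n) = r⁻¹ * y (Fin.last n) := rfl
      rw [h7] at h6
      have h8 : y (Fin.last n) = r * (r⁻¹ * y (Fin.last n)) := by
        rw [← mul_assoc, mul_inv_cancel₀ hr0, one_mul]
      rw [h8]
      rcases lt_or_gt_of_ne hr0 with hneg | hpos
      · constructor
        · exact (min_le_right _ _).trans (mul_le_mul_of_nonpos_left h6.2 hneg.le)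
        · exact le_trans (mul_le_mul_of_nonpos_left h6.1 hneg.le) (le_max_left _ _)
      · constructor
        · exact (min_le_left _ _).trans (mul_le_mul_of_nonneg_left h6.1 hpos.le)
        · exact le_trans (mul_le_mul_of_nonneg_left h6.2 hpos.le) (le_max_right _ _))
  have h9 : max (r * α 0) (r * (α 0 + τ)) - min (r * α 0) (r * (α 0 + τ)) = |r| * τ := by
    rw [max_sub_min_eq_abs, mul_add, add_sub_cancel_left, abs_mul, abs_of_nonneg (by linarith : 0 ≤ τ)]
  rw [h9] at h5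
  refine (mul_le_mul' le_rfl h5).trans (le_of_eq ?_)
  rw [← mul_assoc, ← ENNReal.ofReal_mul (by positivity)]
  congr 2
  rw [pow_succ]
  field_simp

theorem sPhi_bound (s : ℝ) : ∃ R : ℝ, 0 ≤ R ∧
    ∀ᵐ ξ ∂(volume.restrict (cub n)), ‖sPhi s ξ‖ ≤ R := by
  refine ⟨|s| * (n + 1), by positivity, ?_⟩
  rw [ae_restrict_iff' (cub_meas n)]
  refine Filter.Eventually.of_forall fun ξ hξ => ?_
  unfold sPhi
  rw [norm_smul, Real.norm_eq_abs]
  refine mul_le_mul_of_nonneg_left ?_ (abs_nonneg s)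
  have h1 : ‖Phi ξ‖ ^ 2 ≤ ((n : ℝ) + 1) ^ 2 := by
    rw [EuclideanSpace.norm_sq_eq, Fin.sum_univ_castSucc]
    simp only [Phi, Fin.snoc_castSucc, Fin.snoc_last, Real.norm_eq_abs, sq_abs]
    have h2 : ∑ i : Fin n, ξ i ^ 2 ≤ n := by
      calc ∑ i : Fin n, ξ i ^ 2 ≤ ∑ _i : Fin n, (1 : ℝ) := Finset.sum_le_sum fun i _ =>
            (sq_le_one_iff_abs_le_one _).2 (hξ i)
        _ = n := by simp
    have h3 : 0 ≤ ∑ i : Fin n, ξ i ^ 2 := Finset.sum_nonneg fun i _ => sq_nonneg _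
    nlinarith
  exact (pow_le_pow_iff_left₀ (norm_nonneg _) (by positivity) (by norm_num)).1 h1

/-- **Random regions for the paraboloid** -/
theorem para (hn : 1 ≤ n) (s : ℝ) (hs : s ≠ 0)
    {Ω : Type*} [MeasurableSpace Ω] (P : Measure Ω) (A : (Fin (n + 1) → ℤ) → Set Ω) (a c : ℝ)
    (ha : 0 < a) (ha1 : a ≤ 1) (hc : 1 ≤ c)
    (hA : ∀ T : Finset (Fin (n + 1) → ℤ), P (⋂ j ∈ T, A j) ≤ ∏ j ∈ T, P (A j))
    (hp : ∀ j, P (A j) ≤ ENNReal.ofReal (c * (1 + ‖j‖) ^ (-a))) :
    ∀ᵐ ω ∂P, ∀ r : ℝ, (2 + 4 / n) - a * (4 / n) < r → ∃ C : ℝ≥0,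
      ∀ f : Lp ℂ 2 (volume.restrict (cub n)),
      ∫⁻ x in ⋃ j ∈ {j | ω ∈ A j}, uq j,
        ‖inner ℂ (ps (volume.restrict (cub n)) (sPhi s) (sPhi_meas s) x) f‖ₑ ^ r ≤
        C * ‖f‖ₑ ^ r := by
  obtain ⟨R, hR0, hR⟩ := sPhi_bound (n := n) s
  have hs0 : 0 < |s| := abs_pos.2 hs
  have hn0 : (0 : ℝ) < n := by exact_mod_cast hn
  set L₀ : ℝ := (|(s / (2 * Real.pi))| ^ n)⁻¹ + (5 * |s| ^ (-(1 / 2) : ℝ)) ^ n +
    2 ^ n * (10 * (|s| / (n + 1)) ^ (-(1 / 2) : ℝ)) with hL₀
  have e1 : 0 ≤ (|(s / (2 * Real.pi))| ^ n)⁻¹ := by positivity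
  have e2 : 0 ≤ (5 * |s| ^ (-(1 / 2) : ℝ)) ^ n := by positivity
  have e3 : 0 ≤ 2 ^ n * (10 * (|s| / (n + 1)) ^ (-(1 / 2) : ℝ)) := by positivity
  have h := regions_surface (volume.restrict (cub n)) (sPhi s) (sPhi_meas s)
    (fun _ : Fin 1 => Fin.last n) L₀ ((n : ℝ) / 2) (1 / 2) (by linarith) (by positivity)
    (by norm_num) (by
      intro f B hB α τ hτ hBα
      refine (para_energy s hs f B hB α τ hτ hBα).trans ?_
      refine mul_le_mul' (ENNReal.ofReal_le_ofReal ?_) le_rfl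
      exact mul_le_mul_of_nonneg_right (by linarith) (by linarith))
    R hR0 hR (by
      intro x t hx
      refine (kernel_time s hs x hx).trans ?_
      exact mul_le_mul_of_nonneg_right (by linarith) (by positivity))
    (by
      intro x hx
      refine (kernel_all hn s hs x hx).trans ?_
      exact mul_le_mul_of_nonneg_right (by linarith) (by positivity))
    P A a c ha ha1 hc hA hp
  filter_upwards [h] with ω hω
  intro r hr
  refine hω r ?_
  have : (2 : ℝ) / ((n : ℝ) / 2) = 4 / n := by field_simp; norm_num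
  rw [this]
  exact hr

/-- functions on subsets of the cube -/
theorem fn_level (s : ℝ) (U : Set (EuclideanSpace ℝ (Fin n))) (hU : MeasurableSet U)
    (hUc : U ⊆ cub n) (f : EuclideanSpace ℝ (Fin n) → ℂ) (hf : MemLp f 2 (volume.restrict U)) :
    ∃ F : Lp ℂ 2 (volume.restrict (cub n)), ‖F‖ₑ = eLpNorm f 2 (volume.restrict U) ∧
      ∀ x, inner ℂ (ps (volume.restrict (cub n)) (sPhi s) (sPhi_meas s) x) F =
        ∫ ξ in U, ex (s * ⟪Phi ξ, x⟫) * f ξ := by
  have hrr : (volume.restrict (cub n)).restrict U = volume.restrict U := by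
    rw [Measure.restrict_restrict hU, inter_eq_left.2 hUc]
  have hF : MemLp (U.indicator f) 2 (volume.restrict (cub n)) := by
    rw [memLp_indicator_iff_restrict hU, hrr]
    exact hf
  refine ⟨hF.toLp _, ?_, ?_⟩
  · rw [Lp.enorm_def, eLpNorm_congr_ae hF.coeFn_toLp, eLpNorm_indicator_eq_eLpNorm_restrict hU, hrr]
  · intro x
    rw [ps_inner]
    have h1 : ∫ y, ex ⟪sPhi s y, x⟫ * (hF.toLp (U.indicator f)) y ∂(volume.restrict (cub n)) =
        ∫ y, U.indicator (fun y => ex (s * ⟪Phi y, x⟫) * f y) y ∂(volume.restrict (cub n)) := by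
      refine integral_congr_ae ?_
      filter_upwards [hF.coeFn_toLp] with y hy
      rw [hy]
      by_cases h : y ∈ U
      · rw [indicator_of_mem h, indicator_of_mem h]
        unfold sPhi
        rw [inner_smul_left]
        simp
      · rw [indicator_of_notMem h, indicator_of_notMem h, mul_zero]
    rw [h1, integral_indicator hU, hrr]

end Pool.Agent.N248.RR
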