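import Mathlib
import Pool.Agent.N248.RR.P2
set_option autoImplicit false

/-! Random regions for the paraboloid: sharpness. -/

namespace Pool.Agent.N248.RR

open MeasureTheory Set ProbabilityTheory Filter
open scoped ENNReal NNReal RealInnerProductSpace ComplexConjugate
open Pool.Agent.R412.RT (Phi inner_eq)

/-- no cancellation if the phase is almost constant -/
theorem phase_low {α : Type*} [MeasurableSpace α] (μ : Measure α) [IsFiniteMeasure μ]
    (θ : α → ℝ) (hθ : Measurable θ) (θ₀ : ℝ) (h : ∀ᵐ x ∂μ, |θ x - θ₀| ≤ 1) :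
    μ.real univ / 2 ≤ ‖∫ x, ex (θ x) ∂μ‖ := by
  have h1 : ‖∫ x, ex (θ x) ∂μ‖ = ‖∫ x, ex (θ x - θ₀) ∂μ‖ := by
    have : ∀ x, ex (θ x - θ₀) = ex (-θ₀) * ex (θ x) := by
      intro x
      rw [← ex_add]
      congr 1
      ring
    simp_rw [this]
    rw [integral_const_mul, norm_mul, ex_norm, one_mul]
  rw [h1]
  have hint : Integrable (fun x => ex (θ x - θ₀)) μ := by
    refine Integrable.of_bound (C := 1) ?_ (Filter.Eventually.of_forall fun z => (ex_norm _).le)
    exact (ex_cont.measurable.comp (hθ.sub_const _)).aestronglyMeasurable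
  have h2 : (∫ x, ex (θ x - θ₀) ∂μ).re = ∫ x, (ex (θ x - θ₀)).re ∂μ := by
    have h3 := integral_re hint
    simpa using h3.symm
  refine le_trans ?_ (Complex.re_le_norm _)
  rw [h2]
  have h4 : μ.real univ / 2 = ∫ _ : α, (1 / 2 : ℝ) ∂μ := by
    rw [integral_const, smul_eq_mul]
    ring
  rw [h4]
  refine integral_mono_ae (integrable_const _) hint.re ?_
  filter_upwards [h] with x hx
  unfold ex
  rw [Complex.exp_ofReal_mul_I_re]
  have h6 := Real.one_sub_sq_div_two_le_cos (x := θ x - θ₀)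
  have h7 : (θ x - θ₀) ^ 2 ≤ 1 := (sq_le_one_iff_abs_le_one _).2 hx
  linarith

/-- many random elements -/
theorem many {α Ω : Type*} [MeasurableSpace Ω] (P : Measure Ω) [IsProbabilityMeasure P]
    (A : α → Set Ω) (hAm : ∀ j, MeasurableSet (A j)) (hind : iIndepSet A P) (J : Finset α)
    (p : ℝ) (hp : 0 < p) (hJ : J.Nonempty) (hpA : ∀ j ∈ J, p ≤ P.real (A j)) :
    P {ω | ∑ j ∈ J, (A j).indicator (fun _ => (1 : ℝ)) ω < (J.card * p) / 2} ≤
      ENNReal.ofReal (4 / (J.card * p)) := by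
  classical
  set X : α → Ω → ℝ := fun j => (A j).indicator fun _ => (1 : ℝ) with hX
  have hXm : ∀ j, MemLp (X j) 2 P := fun j =>
    MemLp.of_bound (measurable_const.indicator (hAm j)).aestronglyMeasurable 1
      (Filter.Eventually.of_forall fun ω => by
        simp only [hX]
        by_cases h : ω ∈ A j
        · rw [indicator_of_mem h]; simp
        · rw [indicator_of_notMem h]; simp)
  have hXi : iIndepFun X P := hind.iIndepFun_indicator
  set m : ℝ := J.card * p with hm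
  have hc0 : (0 : ℝ) < J.card := by exact_mod_cast hJ.card_pos
  have hm0 : 0 < m := by positivity
  have hEX : ∀ j, ∫ ω, X j ω ∂P = P.real (A j) := by
    intro j
    simp only [hX]
    rw [integral_indicator (hAm j)]
    simp
  set S : Ω → ℝ := ∑ j ∈ J, X j with hS
  have hES : ∫ ω, S ω ∂P = ∑ j ∈ J, P.real (A j) := by
    simp only [hS, Finset.sum_apply]
    rw [integral_finsetSum _ fun j _ => (hXm j).integrable (by norm_num)]
    exact Finset.sum_congr rfl fun j _ => hEX j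
  set M : ℝ := ∑ j ∈ J, P.real (A j) with hM
  have hmM : m ≤ M := by
    rw [hm, hM, ← nsmul_eq_mul, ← Finset.sum_const]
    exact Finset.sum_le_sum hpA
  have hM0 : 0 < M := lt_of_lt_of_le hm0 hmM
  have hvar : variance S P ≤ M := by
    rw [hS, IndepFun.variance_sum (fun j _ => hXm j) (fun i _ j _ hij => hXi.indepFun hij)]
    rw [hM]
    refine Finset.sum_le_sum fun j _ => ?_
    refine (variance_le_expectation_sq (hXm j).aestronglyMeasurable).trans (le_of_eq ?_)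
    rw [← hEX j]
    congr 1
    ext ω
    simp only [hX, Pi.pow_apply]
    by_cases h : ω ∈ A j
    · rw [indicator_of_mem h]; simp
    · rw [indicator_of_notMem h]; simp
  have hSm : MemLp S 2 P := by
    have := memLp_finsetSum' J (fun j _ => hXm j)
    exact this
  have hcheb := meas_ge_le_variance_div_sq hSm (c := M / 2) (by positivity)
  have hsub : {ω | ∑ j ∈ J, (A j).indicator (fun _ => (1 : ℝ)) ω < m / 2} ⊆
      {ω | M / 2 ≤ |S ω - ∫ ω, S ω ∂P|} := by
    intro ω hω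
    have h1 : S ω < m / 2 := by
      simp only [hS, Finset.sum_apply]
      exact hω
    show M / 2 ≤ |S ω - ∫ ω, S ω ∂P|
    rw [hES, abs_sub_comm]
    refine le_trans ?_ (le_abs_self _)
    linarith
  refine (measure_mono hsub).trans (hcheb.trans (ENNReal.ofReal_le_ofReal ?_))
  rw [div_le_div_iff₀ (by positivity) hm0]
  have h2 : variance S P * m ≤ M * M := mul_le_mul hvar hmM hm0.le hM0.le
  nlinarith

variable {n : ℕ}

/-- the caps -/
def cap (ξ₀ : EuclideanSpace ℝ (Fin n)) (δ : ℝ) : Set (EuclideanSpace ℝ (Fin n)) :=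
  {ξ | ∀ i, |ξ i - ξ₀ i| ≤ δ}

theorem cap_meas (ξ₀ : EuclideanSpace ℝ (Fin n)) (δ : ℝ) : MeasurableSet (cap ξ₀ δ) := by
  have : cap ξ₀ δ = ⋂ i, {ξ : EuclideanSpace ℝ (Fin n) | |ξ i - ξ₀ i| ≤ δ} := by
    ext ξ; simp [cap]
  rw [this]
  exact MeasurableSet.iInter fun i => measurableSet_le (by fun_prop) measurable_const

theorem cap_vol (ξ₀ : EuclideanSpace ℝ (Fin n)) (δ : ℝ) (hδ : 0 ≤ δ) :
    volume (cap ξ₀ δ) = ENNReal.ofReal ((2 * δ) ^ n) := by
  have h := (PiLp.volume_preserving_ofLp (Fin n)).measure_preimage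
    (s := Set.univ.pi fun i => Icc (ξ₀ i - δ) (ξ₀ i + δ))
    (MeasurableSet.univ_pi fun i => measurableSet_Icc).nullMeasurableSet
  have h2 : WithLp.ofLp ⁻¹' (Set.univ.pi fun i => Icc (ξ₀ i - δ) (ξ₀ i + δ)) = cap ξ₀ δ := by
    ext x
    simp only [cap, mem_preimage, Set.mem_pi, mem_univ, true_implies, mem_Icc, mem_ofPred_eq]
    refine forall_congr' fun i => ?_
    rw [abs_le]
    constructor
    · rintro ⟨h1, h2⟩; constructor <;> linarith
    · rintro ⟨h1, h2⟩; constructor <;> linarith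
  rw [h2] at h
  rw [h, volume_pi_pi]
  simp only [Real.volume_Icc]
  have : ∀ i : Fin n, ENNReal.ofReal (ξ₀ i + δ - (ξ₀ i - δ)) = ENNReal.ofReal (2 * δ) := by
    intro i
    congr 1
    ring
  simp_rw [this]
  rw [Finset.prod_const, Finset.card_univ, Fintype.card_fin, ENNReal.ofReal_pow (by positivity)]

/-- the phase on a tube -/
theorem phase_tube (s : ℝ) (ξ₀ ξ : EuclideanSpace ℝ (Fin n)) (x : EuclideanSpace ℝ (Fin (n + 1)))
    (δ D : ℝ) (k : ℕ) (hδ : 0 ≤ δ) (hδ1 : δ ≤ 1) (hsm : |s| * (n * δ * (D + 1)) ≤ 1)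
    (hξ : ξ ∈ cap ξ₀ (δ / 2 ^ k))
    (hx : ∀ i : Fin n, |x i.castSucc + 2 * ξ₀ i * x (Fin.last n)| ≤ D * 2 ^ k)
    (ht : |x (Fin.last n)| ≤ 4 ^ k) :
    |s * ⟪Phi ξ, x⟫ - s * ⟪Phi ξ₀, x⟫| ≤ 1 := by
  have h2k : (0 : ℝ) < 2 ^ k := by positivity
  rw [← mul_sub, abs_mul]
  refine le_trans (mul_le_mul_of_nonneg_left ?_ (abs_nonneg s)) hsm
  rw [Phi_inner, Phi_inner, ← Finset.sum_sub_distrib]
  refine (Finset.abs_sum_le_sum_abs _ _).trans ?_
  have h1 : ∀ i ∈ (Finset.univ : Finset (Fin n)), |x i.castSucc * ξ i + x (Fin.last n) * ξ i ^ 2 -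
      (x i.castSucc * ξ₀ i + x (Fin.last n) * ξ₀ i ^ 2)| ≤ δ * (D + 1) := by
    intro i _
    set η : ℝ := ξ i - ξ₀ i with hη
    have h2 : x i.castSucc * ξ i + x (Fin.last n) * ξ i ^ 2 -
        (x i.castSucc * ξ₀ i + x (Fin.last n) * ξ₀ i ^ 2) =
        η * (x i.castSucc + 2 * ξ₀ i * x (Fin.last n)) + η ^ 2 * x (Fin.last n) := by
      rw [hη]; ring
    rw [h2]
    have h3 : |η| ≤ δ / 2 ^ k := hξ i
    have h4 : |η * (x i.castSucc + 2 * ξ₀ i * x (Fin.last n))| ≤ δ * D := by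
      rw [abs_mul]
      calc |η| * |x i.castSucc + 2 * ξ₀ i * x (Fin.last n)| ≤ (δ / 2 ^ k) * (D * 2 ^ k) :=
            mul_le_mul h3 (hx i) (abs_nonneg _) (by positivity)
        _ = δ * D := by field_simp
    have h5 : |η ^ 2 * x (Fin.last n)| ≤ δ * 1 := by
      rw [abs_mul, abs_pow]
      calc |η| ^ 2 * |x (Fin.last n)| ≤ (δ / 2 ^ k) ^ 2 * 4 ^ k :=
            mul_le_mul (pow_le_pow_left₀ (abs_nonneg _) h3 2) ht (abs_nonneg _) (by positivity)
        _ = δ * δ := by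
            have : (4 : ℝ) ^ k = (2 ^ k) ^ 2 := by
              rw [← pow_mul, mul_comm k 2, pow_mul]; norm_num
            rw [this]
            field_simp
        _ ≤ δ * 1 := mul_le_mul_of_nonneg_left hδ1 hδ
    refine (abs_add_le _ _).trans ?_
    linarith
  refine (Finset.sum_le_sum h1).trans (le_of_eq ?_)
  rw [Finset.sum_const, Finset.card_univ, Fintype.card_fin, nsmul_eq_mul]
  ring

/-- the indices of the cubes in a tube -/
noncomputable def tb (ξ₀ : EuclideanSpace ℝ (Fin n)) (k : ℕ) : Finset (Fin (n + 1) → ℤ) :=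
  ((Fintype.piFinset fun _ : Fin n => Finset.Ico (0 : ℤ) (2 ^ k)) ×ˢ
    (Finset.Ico (0 : ℤ) (4 ^ k))).image fun p =>
      Fin.snoc (fun i => ⌊-(2 * ξ₀ i * p.2)⌋ + p.1 i) p.2

theorem tb_card (ξ₀ : EuclideanSpace ℝ (Fin n)) (k : ℕ) :
    (tb ξ₀ k).card = (2 ^ k) ^ n * 4 ^ k := by
  unfold tb
  rw [Finset.card_image_of_injOn, Finset.card_product, Fintype.card_piFinset]
  · simp only [Int.card_Ico, Finset.prod_const, Finset.card_univ, Fintype.card_fin]
    have e1 : ((2 : ℤ) ^ k - 0).toNat = 2 ^ k := by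
      rw [sub_zero]
      exact_mod_cast Int.toNat_natCast (2 ^ k)
    have e2 : ((4 : ℤ) ^ k - 0).toNat = 4 ^ k := by
      rw [sub_zero]
      exact_mod_cast Int.toNat_natCast (4 ^ k)
    rw [e1, e2]
  · intro p _ q _ hpq
    have h1 : p.2 = q.2 := by
      have := congrFun hpq (Fin.last n)
      simpa using this
    refine Prod.ext (funext fun i => ?_) h1
    have := congrFun hpq i.castSucc
    simp only [Fin.snoc_castSucc] at this
    rw [h1] at this
    linarith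

theorem tb_prop (ξ₀ : EuclideanSpace ℝ (Fin n)) (B : ℝ) (hB : ∀ i, |ξ₀ i| ≤ B) (hB0 : 0 ≤ B)
    (k : ℕ) (j : Fin (n + 1) → ℤ) (hj : j ∈ tb ξ₀ k) :
    1 + ‖j‖ ≤ (3 + 2 * B) * 4 ^ k ∧ ∀ x ∈ uq j,
      (∀ i : Fin n, |x i.castSucc + 2 * ξ₀ i * x (Fin.last n)| ≤ (3 + 2 * B) * 2 ^ k) ∧
      |x (Fin.last n)| ≤ 4 ^ k := by
  unfold tb at hj
  rw [Finset.mem_image] at hj
  obtain ⟨⟨l, τ⟩, hp, rfl⟩ := hj
  rw [Finset.mem_product, Fintype.mem_piFinset] at hp
  obtain ⟨hl, hτ⟩ := hp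
  simp only at hl hτ
  rw [Finset.mem_Ico] at hτ
  have h2k : (1 : ℝ) ≤ 2 ^ k := one_le_pow₀ (by norm_num)
  have h24 : (2 : ℝ) ^ k ≤ 4 ^ k := pow_le_pow_left₀ (by norm_num) (by norm_num) k
  have hτ0 : (0 : ℝ) ≤ τ := by exact_mod_cast hτ.1
  have hτ1 : (τ : ℝ) + 1 ≤ 4 ^ k := by exact_mod_cast hτ.2
  have hl0 : ∀ i, (0 : ℝ) ≤ l i := fun i => by exact_mod_cast (Finset.mem_Ico.1 (hl i)).1
  have hl1 : ∀ i, (l i : ℝ) + 1 ≤ 2 ^ k := fun i => by exact_mod_cast (Finset.mem_Ico.1 (hl i)).2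
  constructor
  · have : ‖(Fin.snoc (fun i => ⌊-(2 * ξ₀ i * (τ : ℝ))⌋ + l i) τ : Fin (n + 1) → ℤ)‖ ≤
        (3 + 2 * B) * 4 ^ k - 1 := by
      have h4 : (1 : ℝ) ≤ 4 ^ k := one_le_pow₀ (by norm_num)
      rw [pi_norm_le_iff_of_nonneg (by nlinarith)]
      intro i
      rw [Int.norm_eq_abs]
      rcases Fin.eq_castSucc_or_eq_last i with ⟨t, rfl⟩ | rfl
      · simp only [Fin.snoc_castSucc]
        push_cast
        have a1 := Int.floor_le (-(2 * ξ₀ t * (τ : ℝ)))
        have a2 := Int.lt_floor_add_one (-(2 * ξ₀ t * (τ : ℝ)))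
        have a3 := abs_le.1 (hB t)
        have a4 := hl0 t
        have a5 := hl1 t
        have a6 : -(2 * B * 4 ^ k) ≤ -(2 * ξ₀ t * (τ : ℝ)) := by nlinarith
        have a7 : -(2 * ξ₀ t * (τ : ℝ)) ≤ 2 * B * 4 ^ k := by nlinarith
        rw [abs_le]
        constructor <;> nlinarith
      · simp only [Fin.snoc_last]
        rw [abs_of_nonneg hτ0]
        nlinarith
    linarith
  · intro x hx
    have ht := hx (Fin.last n)
    simp only [Fin.snoc_last] at ht
    refine ⟨fun i => ?_, ?_⟩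
    · have hi := hx i.castSucc
      simp only [Fin.snoc_castSucc] at hi
      push_cast at hi
      have a1 := Int.floor_le (-(2 * ξ₀ i * (τ : ℝ)))
      have a2 := Int.lt_floor_add_one (-(2 * ξ₀ i * (τ : ℝ)))
      have a3 := abs_le.1 (hB i)
      have a4 := hl0 i
      have a5 := hl1 i
      have a6 : |2 * ξ₀ i * (x (Fin.last n) - τ)| ≤ 2 * B := by
        rw [abs_mul, abs_mul, abs_of_pos (by norm_num : (0 : ℝ) < 2)]
        have b1 : |x (Fin.last n) - τ| ≤ 1 := by rw [abs_le]; constructor <;> linarith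
        have b2 : |ξ₀ i| * |x (Fin.last n) - τ| ≤ B * 1 :=
          mul_le_mul (hB i) b1 (abs_nonneg _) hB0
        nlinarith
      have a7 := abs_le.1 a6
      have a8 : x i.castSucc + 2 * ξ₀ i * x (Fin.last n) =
          (x i.castSucc - (-(2 * ξ₀ i * (τ : ℝ)))) + 2 * ξ₀ i * (x (Fin.last n) - τ) := by ring
      rw [a8, abs_le]
      constructor <;> nlinarith
    · rw [abs_le]
      constructor <;> linarith

end Pool.Agent.N248.RR
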