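import Mathlib
import Pool.Agent.N248.RR.L
set_option autoImplicit false

/-! Random regions for the paraboloid: sharpness, the theorem. -/

namespace Pool.Agent.N248.RR

open MeasureTheory Set ProbabilityTheory Filter
open scoped ENNReal NNReal RealInnerProductSpace ComplexConjugate
open Pool.Agent.R412.RT (Phi inner_eq)

variable {n : ℕ}

theorem Phi_meas' : Measurable (Phi (n := n)) := Pool.Agent.N248.RM.Phi_meas

/-- the extension of the indicator function of a cap is large on the tube -/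
theorem cap_low (s : ℝ) (U : Set (EuclideanSpace ℝ (Fin n)))
    (ξ₀ : EuclideanSpace ℝ (Fin n)) (δ D : ℝ) (k : ℕ) (hδ : 0 ≤ δ) (hδ1 : δ ≤ 1)
    (hsm : |s| * (n * δ * (D + 1)) ≤ 1) (hcU : cap ξ₀ (δ / 2 ^ k) ⊆ U)
    (x : EuclideanSpace ℝ (Fin (n + 1)))
    (hx : ∀ i : Fin n, |x i.castSucc + 2 * ξ₀ i * x (Fin.last n)| ≤ D * 2 ^ k)
    (ht : |x (Fin.last n)| ≤ 4 ^ k) :
    (2 * (δ / 2 ^ k)) ^ n / 2 ≤
      ‖∫ ξ in U, ex (s * ⟪Phi ξ, x⟫) * (cap ξ₀ (δ / 2 ^ k)).indicator (fun _ => (1 : ℂ)) ξ‖ := by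
  set K := cap ξ₀ (δ / 2 ^ k) with hK
  have hKm : MeasurableSet K := cap_meas _ _
  have hd0 : 0 ≤ δ / 2 ^ k := by positivity
  have hKv : volume K = ENNReal.ofReal ((2 * (δ / 2 ^ k)) ^ n) := cap_vol ξ₀ _ hd0
  have hfin : IsFiniteMeasure (volume.restrict K) :=
    ⟨by rw [Measure.restrict_apply_univ, hKv]; exact ENNReal.ofReal_lt_top⟩
  have h1 : ∫ ξ in U, ex (s * ⟪Phi ξ, x⟫) * K.indicator (fun _ => (1 : ℂ)) ξ =
      ∫ ξ in K, ex (s * ⟪Phi ξ, x⟫) := by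
    have h2 : ∀ ξ, ex (s * ⟪Phi ξ, x⟫) * K.indicator (fun _ => (1 : ℂ)) ξ =
        K.indicator (fun ξ => ex (s * ⟪Phi ξ, x⟫)) ξ := by
      intro ξ
      by_cases h : ξ ∈ K
      · rw [indicator_of_mem h, indicator_of_mem h, mul_one]
      · rw [indicator_of_notMem h, indicator_of_notMem h, mul_zero]
    simp_rw [h2]
    rw [setIntegral_indicator hKm, inter_eq_right.2 hcU]
  rw [h1]
  have h3 := phase_low (volume.restrict K) (fun ξ => s * ⟪Phi ξ, x⟫)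
    ((Phi_meas'.inner measurable_const).const_mul s) (s * ⟪Phi ξ₀, x⟫) (by
      rw [ae_restrict_iff' hKm]
      exact Filter.Eventually.of_forall fun ξ hξ =>
        phase_tube s ξ₀ ξ x δ D k hδ hδ1 hsm hξ hx ht)
  refine le_trans (le_of_eq ?_) h3
  rw [Measure.real, Measure.restrict_apply_univ, hKv, ENNReal.toReal_ofReal (by positivity)]

/-- **Sharpness.** -/
theorem sharp (hn : 1 ≤ n) (s : ℝ) (U : Set (EuclideanSpace ℝ (Fin n)))
    (hU : MeasurableSet U) (ξ₀ : EuclideanSpace ℝ (Fin n)) (δ₀ : ℝ) (hδ₀ : 0 < δ₀)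
    (hcU : cap ξ₀ δ₀ ⊆ U)
    {Ω : Type*} [MeasurableSpace Ω] (P : Measure Ω) [IsProbabilityMeasure P]
    (A : (Fin (n + 1) → ℤ) → Set Ω) (hAm : ∀ j, MeasurableSet (A j)) (hind : iIndepSet A P)
    (a c : ℝ) (ha : 0 < a) (ha1 : a ≤ 1) (hc : 0 < c)
    (hp : ∀ j, ENNReal.ofReal (c * (1 + ‖j‖) ^ (-a)) ≤ P (A j)) :
    ∀ᵐ ω ∂P, ∀ r : ℝ, 0 < r → r < (2 + 4 / n) - a * (4 / n) → ∀ C : ℝ≥0,
      ∃ f : EuclideanSpace ℝ (Fin n) → ℂ, MemLp f 2 (volume.restrict U) ∧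
      C * eLpNorm f 2 (volume.restrict U) ^ r <
        ∫⁻ x in ⋃ j ∈ {j | ω ∈ A j}, uq j, ‖∫ ξ in U, ex (s * ⟪Phi ξ, x⟫) * f ξ‖ₑ ^ r := by
  classical
  set B : ℝ := ‖ξ₀‖ with hB
  have hB0 : 0 ≤ B := norm_nonneg _
  have hBi : ∀ i, |ξ₀ i| ≤ B := fun i => by
    have := PiLp.norm_apply_le ξ₀ i
    rwa [Real.norm_eq_abs] at this
  set D : ℝ := 3 + 2 * B with hD
  have hD3 : 3 ≤ D := by rw [hD]; linarith
  have hn0 : (0 : ℝ) < n := by exact_mod_cast hn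
  have hn1 : (1 : ℝ) ≤ n := by exact_mod_cast hn
  obtain ⟨δ, hδ, hδ1, hδδ, hsm⟩ : ∃ δ : ℝ, 0 < δ ∧ δ ≤ 1 ∧ δ ≤ δ₀ ∧
      |s| * (n * δ * (D + 1)) ≤ 1 := by
    have hpos : 0 < |s| * (n * (D + 1)) + 1 := by positivity
    refine ⟨min (min 1 δ₀) (1 / (|s| * (n * (D + 1)) + 1)), by positivity,
      (min_le_left _ _).trans (min_le_left _ _), (min_le_left _ _).trans (min_le_right _ _), ?_⟩
    set m : ℝ := min (min 1 δ₀) (1 / (|s| * (n * (D + 1)) + 1)) with hm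
    have h1 : m ≤ 1 / (|s| * (n * (D + 1)) + 1) := min_le_right _ _
    have h2 : m * (|s| * (n * (D + 1)) + 1) ≤ 1 := by
      rwa [le_div_iff₀ hpos] at h1
    have h3 : 0 < m := by positivity
    nlinarith
  have hcap : ∀ k : ℕ, cap ξ₀ (δ / 2 ^ k) ⊆ U := by
    intro k ξ hξ
    exact hcU (fun i => (hξ i).trans
      (le_trans (div_le_self hδ.le (one_le_pow₀ (by norm_num))) hδδ))
  -- the probabilities
  set p : ℕ → ℝ := fun k => c * (D * 4 ^ k) ^ (-a) with hpd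
  have hp0 : ∀ k, 0 < p k := fun k => by positivity
  set m : ℕ → ℝ := fun k => ((tb ξ₀ k).card : ℝ) * p k with hm
  set β : ℝ := (n : ℝ) + 2 - 2 * a with hβ
  have hβ1 : 1 ≤ β := by rw [hβ]; linarith
  have hmk : ∀ k, m k = c * D ^ (-a) * ((2 : ℝ) ^ k) ^ β := by
    intro k
    simp only [hm, hpd]
    rw [tb_card]
    push_cast
    have e1 : ((2 : ℝ) ^ k) ^ n = ((2 : ℝ) ^ k) ^ (n : ℝ) := by rw [Real.rpow_natCast]
    have e2 : (4 : ℝ) ^ k = ((2 : ℝ) ^ k) ^ (2 : ℝ) := by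
      rw [Real.rpow_two, ← pow_mul, mul_comm k 2, pow_mul]; norm_num
    have h2k : (0 : ℝ) < 2 ^ k := by positivity
    rw [e1, e2, Real.mul_rpow (by linarith) (by positivity), ← Real.rpow_mul h2k.le]
    have e3 : ((2 : ℝ) ^ k) ^ β = ((2 : ℝ) ^ k) ^ (n : ℝ) * ((2 : ℝ) ^ k) ^ (2 : ℝ) *
        ((2 : ℝ) ^ k) ^ (2 * -a) := by
      rw [← Real.rpow_add h2k, ← Real.rpow_add h2k, hβ]
      congr 1
      ring
    rw [e3]
    ring
  set c₁ : ℝ := c * D ^ (-a) with hc₁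
  have hc₁0 : 0 < c₁ := by positivity
  have hm0 : ∀ k, 0 < m k := fun k => by rw [hmk]; positivity
  set F : ℕ → Set Ω := fun k =>
    {ω | ∑ j ∈ tb ξ₀ k, (A j).indicator (fun _ => (1 : ℝ)) ω < m k / 2} with hF
  have hFP : ∀ k, P (F k) ≤ ENNReal.ofReal (4 / c₁) * (2⁻¹ : ℝ≥0∞) ^ k := by
    intro k
    have hne : (tb ξ₀ k).Nonempty := by
      rw [← Finset.card_pos, tb_card]
      positivity
    have h1 := many P A hAm hind (tb ξ₀ k) (p k) (hp0 k) hne (by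
      intro j hj
      have h2 := (tb_prop ξ₀ B hBi hB0 k j hj).1
      have h3 := hp j
      rw [Measure.real, ← ENNReal.ofReal_le_iff_le_toReal (measure_ne_top _ _)]
      refine le_trans (ENNReal.ofReal_le_ofReal ?_) h3
      simp only [hpd]
      refine mul_le_mul_of_nonneg_left ?_ hc.le
      exact Real.rpow_le_rpow_of_nonpos (by linarith [norm_nonneg j]) h2 (by linarith))
    refine h1.trans ?_
    rw [← half_pow, ← ENNReal.ofReal_mul (by positivity)]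
    refine ENNReal.ofReal_le_ofReal ?_
    have h4 : m k = ((tb ξ₀ k).card : ℝ) * p k := rfl
    rw [← h4, hmk k, one_div_pow, div_mul_div_comm, mul_one]
    refine div_le_div_of_nonneg_left (by norm_num) (by positivity) ?_
    refine mul_le_mul_of_nonneg_left ?_ hc₁0.le
    have h2k : (1 : ℝ) ≤ 2 ^ k := one_le_pow₀ (by norm_num)
    calc (2 : ℝ) ^ k = ((2 : ℝ) ^ k) ^ (1 : ℝ) := (Real.rpow_one _).symm
      _ ≤ _ := Real.rpow_le_rpow_of_exponent_le h2k hβ1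
  have hsum : (∑' k, P (F k)) ≠ ∞ := by
    refine ne_top_of_le_ne_top ?_ (ENNReal.tsum_le_tsum hFP)
    rw [ENNReal.tsum_mul_left, ENNReal.tsum_geometric, ENNReal.one_sub_inv_two, inv_inv]
    exact ENNReal.mul_ne_top ENNReal.ofReal_ne_top (by norm_num)
  filter_upwards [ae_eventually_notMem hsum] with ω hω
  obtain ⟨k₀, hk₀⟩ := eventually_atTop.1 hω
  intro r hr0 hr C
  set κ : ℝ := β - n * r / 2 with hκ
  have hκ0 : 0 < κ := by
    have h1 : n * r < n * ((2 + 4 / n) - a * (4 / n)) := mul_lt_mul_of_pos_left hr hn0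
    have h2 : n * ((2 + 4 / n) - a * (4 / n)) = 2 * n + 4 - 4 * a := by field_simp
    rw [hκ, hβ]
    linarith
  -- choose k
  set c₂ : ℝ := c₁ / 2 * (1 / 2) ^ r * ((2 * δ) ^ n) ^ (r / 2) with hc₂
  have hc₂0 : 0 < c₂ := by positivity
  have htend : Tendsto (fun k : ℕ => c₂ * ((2 : ℝ) ^ κ) ^ k) atTop atTop :=
    (tendsto_pow_atTop_atTop_of_one_lt (Real.one_lt_rpow (by norm_num) hκ0)).const_mul_atTop hc₂0
  obtain ⟨k, hk1, hk2⟩ := ((htend.eventually_gt_atTop (C : ℝ)).and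
    (eventually_ge_atTop k₀)).exists
  have hωk : ω ∉ F k := hk₀ k hk2
  simp only [hF, mem_ofPred_eq, not_lt] at hωk
  set K := cap ξ₀ (δ / 2 ^ k) with hK
  have hKm : MeasurableSet K := cap_meas _ _
  have h2k : (0 : ℝ) < 2 ^ k := by positivity
  have hd0 : 0 < δ / 2 ^ k := by positivity
  set v : ℝ := (2 * (δ / 2 ^ k)) ^ n with hv
  have hv0 : 0 < v := by positivity
  have hKv : volume K = ENNReal.ofReal v := cap_vol ξ₀ _ hd0.le
  have hKU : (volume.restrict U) K = ENNReal.ofReal v := by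
    rw [Measure.restrict_apply hKm, inter_eq_left.2 (hcap k), hKv]
  refine ⟨K.indicator fun _ => (1 : ℂ), memLp_indicator_const 2 hKm 1 (Or.inr (by
    rw [hKU]; exact ENNReal.ofReal_ne_top)), ?_⟩
  rw [eLpNorm_indicator_const hKm (by norm_num) (by norm_num), hKU]
  simp only [enorm_one, one_mul, ENNReal.toReal_ofNat]
  rw [← ENNReal.rpow_mul, ENNReal.ofReal_rpow_of_pos hv0]
  -- the lower bound of the integral
  set J : Finset (Fin (n + 1) → ℤ) := (tb ξ₀ k).filter fun j => ω ∈ A j with hJ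
  have hJc : (J.card : ℝ) = ∑ j ∈ tb ξ₀ k, (A j).indicator (fun _ => (1 : ℝ)) ω := by
    rw [hJ, Finset.card_filter]
    push_cast
    refine Finset.sum_congr rfl fun j _ => ?_
    by_cases h : ω ∈ A j
    · rw [indicator_of_mem h, if_pos h]
    · rw [indicator_of_notMem h, if_neg h]
  have hlow : ENNReal.ofReal ((J.card : ℝ) * (v / 2) ^ r) ≤
      ∫⁻ x in ⋃ j ∈ {j | ω ∈ A j}, uq j,
        ‖∫ ξ in U, ex (s * ⟪Phi ξ, x⟫) * K.indicator (fun _ => (1 : ℂ)) ξ‖ₑ ^ r := by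
    have h1 : (⋃ j ∈ J, uq j) ⊆ ⋃ j ∈ {j | ω ∈ A j}, uq j := by
      intro x hx
      rw [mem_iUnion₂] at hx ⊢
      obtain ⟨j, hj, hxj⟩ := hx
      exact ⟨j, (Finset.mem_filter.1 hj).2, hxj⟩
    refine le_trans ?_ (lintegral_mono_set h1)
    rw [lintegral_biUnion_finset (fun j _ k _ hjk => uq_disj _ _ hjk) (fun j _ => uq_meas _)]
    rw [ENNReal.ofReal_mul (Nat.cast_nonneg _), ENNReal.ofReal_natCast, ← nsmul_eq_mul,
      ← Finset.sum_const]
    refine Finset.sum_le_sum fun j hj => ?_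
    have h2 := tb_prop ξ₀ B hBi hB0 k j (Finset.mem_filter.1 hj).1
    calc ENNReal.ofReal ((v / 2) ^ r) = ∫⁻ _ in uq j, ENNReal.ofReal ((v / 2) ^ r) := by
          rw [setLIntegral_const, uq_vol, mul_one]
      _ ≤ _ := by
          refine setLIntegral_mono' (uq_meas j) fun x hx => ?_
          have h3 := cap_low s U ξ₀ δ D k hδ.le hδ1 hsm (hcap k) x (h2.2 x hx).1 (h2.2 x hx).2
          rw [← ENNReal.ofReal_rpow_of_nonneg (by positivity) hr0.le]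
          refine ENNReal.rpow_le_rpow ?_ hr0.le
          rw [← ofReal_norm]
          exact ENNReal.ofReal_le_ofReal h3
  refine lt_of_lt_of_le ?_ hlow
  rw [← ENNReal.ofReal_coe_nnreal, ← ENNReal.ofReal_mul (NNReal.coe_nonneg C)]
  rw [ENNReal.ofReal_lt_ofReal_iff_of_nonneg (by positivity)]
  have hvr : v ^ r = v ^ (r / 2) * v ^ (r / 2) := by
    rw [← Real.rpow_add hv0]
    congr 1
    ring
  have hvk : v = (2 * δ) ^ n * ((2 : ℝ) ^ k) ^ (-(n : ℝ)) := by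
    rw [hv, Real.rpow_neg h2k.le, Real.rpow_natCast, ← div_eq_mul_inv, ← div_pow]
    congr 1
    ring
  have hvk2 : v ^ (r / 2) = ((2 * δ) ^ n) ^ (r / 2) * ((2 : ℝ) ^ k) ^ (-(n * r / 2)) := by
    rw [hvk, Real.mul_rpow (by positivity) (by positivity), ← Real.rpow_mul h2k.le]
    congr 2
    ring
  have h5 : c₂ * ((2 : ℝ) ^ κ) ^ k ≤ (J.card : ℝ) * ((1 / 2) ^ r * v ^ (r / 2)) := by
    have h6 : ((2 : ℝ) ^ κ) ^ k = ((2 : ℝ) ^ k) ^ β * ((2 : ℝ) ^ k) ^ (-(n * r / 2)) := by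
      rw [← Real.rpow_add h2k, ← Real.rpow_natCast, ← Real.rpow_mul (by norm_num),
        ← Real.rpow_natCast 2 k, ← Real.rpow_mul (by norm_num), hκ]
      congr 1
      ring
    have h7 : m k / 2 ≤ J.card := by rw [hJc]; exact hωk
    calc c₂ * ((2 : ℝ) ^ κ) ^ k = (m k / 2) * ((1 / 2) ^ r * v ^ (r / 2)) := by
          rw [h6, hmk, hvk2, hc₂]
          ring
      _ ≤ _ := mul_le_mul_of_nonneg_right h7 (by positivity)
  have h8 : (v / 2) ^ r = (1 / 2) ^ r * v ^ (r / 2) * v ^ (r / 2) := by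
    rw [div_eq_mul_one_div, Real.mul_rpow hv0.le (by norm_num), hvr]
    ring
  rw [h8, show (1 / 2 * r : ℝ) = r / 2 by ring]
  calc (C : ℝ) * v ^ (r / 2) < (c₂ * ((2 : ℝ) ^ κ) ^ k) * v ^ (r / 2) :=
        mul_lt_mul_of_pos_right hk1 (by positivity)
    _ ≤ ((J.card : ℝ) * ((1 / 2) ^ r * v ^ (r / 2))) * v ^ (r / 2) :=
        mul_le_mul_of_nonneg_right h5 (by positivity)
    _ = _ := by ring

end Pool.Agent.N248.RR
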