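import Mathlib
import Pool.Agent.N248.RR.L
set_option autoImplicit false

/-! A lower bound for the energy of the Fourier transform of a measure on a surface, and the
divergence of its `L^q` norm on random regions. -/

namespace Pool.Agent.N248.RR

open MeasureTheory Set ProbabilityTheory Filter
open scoped ENNReal NNReal RealInnerProductSpace ComplexConjugate

section energy

variable {d : ℕ} {Y : Type*} [MeasurableSpace Y] (μ : Measure Y) [IsFiniteMeasure μ]
  (Φ : Y → EuclideanSpace ℝ (Fin d))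

/-- the Fourier transform of the measure on the surface -/
noncomputable def ft (x : EuclideanSpace ℝ (Fin d)) : ℂ := ∫ y, ex ⟪Φ y, x⟫ ∂μ

theorem ex_inner_meas {α : Type*} [MeasurableSpace α] {u v : α → EuclideanSpace ℝ (Fin d)}
    (hu : Measurable u) (hv : Measurable v) : Measurable fun z => ex ⟪u z, v z⟫ :=
  ex_cont.measurable.comp (hu.inner hv)

theorem ft_meas (hΦ : Measurable Φ) : Measurable (ft μ Φ) := by
  have h : StronglyMeasurable (fun p : EuclideanSpace ℝ (Fin d) × Y => ex ⟪Φ p.2, p.1⟫) :=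
    (ex_inner_meas (hΦ.comp measurable_snd) measurable_fst).stronglyMeasurable
  exact h.integral_prod_right'.measurable

/-- the two ways to compute the energy -/
theorem two_energies (hΦ : Measurable Φ) (ν : Measure (EuclideanSpace ℝ (Fin d)))
    [IsFiniteMeasure ν] :
    ∫ p, ‖ft μ Φ (p.1 - p.2)‖ ^ 2 ∂(ν.prod ν) =
      ∫ q, ‖∫ x, ex ⟪Φ q.1 - Φ q.2, x⟫ ∂ν‖ ^ 2 ∂(μ.prod μ) := by
  have hc : ∀ z : ℂ, (((‖z‖ ^ 2 : ℝ)) : ℂ) = z * conj z := fun z => by
    rw [Complex.mul_conj']; push_cast; rfl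
  have h1 : ((∫ p, ‖ft μ Φ (p.1 - p.2)‖ ^ 2 ∂(ν.prod ν) : ℝ) : ℂ) =
      ∫ p, ∫ q, ex ⟪Φ q.1 - Φ q.2, p.1 - p.2⟫ ∂(μ.prod μ) ∂(ν.prod ν) := by
    rw [← integral_complex_ofReal]
    refine integral_congr_ae (Filter.Eventually.of_forall fun p => ?_)
    simp only
    rw [hc]
    have e1 : conj (ft μ Φ (p.1 - p.2)) = ∫ y, conj (ex ⟪Φ y, p.1 - p.2⟫) ∂μ :=
      integral_conj.symm
    rw [e1]
    unfold ft
    rw [← integral_prod_mul]
    refine integral_congr_ae (Filter.Eventually.of_forall fun q => ?_)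
    simp only
    rw [ex_conj, ← ex_add, inner_sub_left, ← sub_eq_add_neg]
  have h2 : ((∫ q, ‖∫ x, ex ⟪Φ q.1 - Φ q.2, x⟫ ∂ν‖ ^ 2 ∂(μ.prod μ) : ℝ) : ℂ) =
      ∫ q, ∫ p, ex ⟪Φ q.1 - Φ q.2, p.1 - p.2⟫ ∂(ν.prod ν) ∂(μ.prod μ) := by
    rw [← integral_complex_ofReal]
    refine integral_congr_ae (Filter.Eventually.of_forall fun q => ?_)
    simp only
    rw [hc]
    have e1 : conj (∫ x, ex ⟪Φ q.1 - Φ q.2, x⟫ ∂ν) =
        ∫ x, conj (ex ⟪Φ q.1 - Φ q.2, x⟫) ∂ν := integral_conj.symm
    rw [e1, ← integral_prod_mul]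
    refine integral_congr_ae (Filter.Eventually.of_forall fun p => ?_)
    simp only
    rw [ex_conj, ← ex_add, inner_sub_right, ← sub_eq_add_neg]
  have h3 : ∫ p, ∫ q, ex ⟪Φ q.1 - Φ q.2, p.1 - p.2⟫ ∂(μ.prod μ) ∂(ν.prod ν) =
      ∫ q, ∫ p, ex ⟪Φ q.1 - Φ q.2, p.1 - p.2⟫ ∂(ν.prod ν) ∂(μ.prod μ) := by
    refine integral_integral_swap ?_
    refine Integrable.of_bound (C := 1) ?_ (Filter.Eventually.of_forall fun z => (ex_norm _).le)
    refine (ex_inner_meas ?_ ?_).aestronglyMeasurable
    · exact (hΦ.comp (measurable_fst.comp measurable_snd)).sub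
        (hΦ.comp (measurable_snd.comp measurable_snd))
    · exact (measurable_fst.comp measurable_fst).sub (measurable_snd.comp measurable_fst)
  have h4 : ((∫ p, ‖ft μ Φ (p.1 - p.2)‖ ^ 2 ∂(ν.prod ν) : ℝ) : ℂ) =
      ((∫ q, ‖∫ x, ex ⟪Φ q.1 - Φ q.2, x⟫ ∂ν‖ ^ 2 ∂(μ.prod μ) : ℝ) : ℂ) := by
    rw [h1, h2, h3]
  exact_mod_cast h4

theorem ft_bound (x : EuclideanSpace ℝ (Fin d)) : ‖ft μ Φ x‖ ≤ μ.real univ := by
  unfold ft
  refine (norm_integral_le_of_norm_le_const (C := 1)
    (Filter.Eventually.of_forall fun y => (ex_norm _).le)).trans ?_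
  rw [one_mul]

/-- **The lower bound of the energy.** -/
theorem energy_lower (hΦ : Measurable Φ) (R : ℝ) (hR : 0 < R) :
    (volume.real (Metric.closedBall (0 : EuclideanSpace ℝ (Fin d)) R)) / 4 *
        (μ.prod μ).real {q | ‖Φ q.1 - Φ q.2‖ * R ≤ 1} ≤
      ∫ x in Metric.closedBall (0 : EuclideanSpace ℝ (Fin d)) (2 * R), ‖ft μ Φ x‖ ^ 2 := by
  set Q : Set (EuclideanSpace ℝ (Fin d)) := Metric.closedBall 0 R with hQ
  set B : Set (EuclideanSpace ℝ (Fin d)) := Metric.closedBall 0 (2 * R) with hB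
  have hQm : MeasurableSet Q := Metric.isClosed_closedBall.measurableSet
  have hBm : MeasurableSet B := Metric.isClosed_closedBall.measurableSet
  have hQt : volume Q ≠ ∞ := measure_closedBall_lt_top.ne
  have hBt : volume B ≠ ∞ := measure_closedBall_lt_top.ne
  have hQf : IsFiniteMeasure (volume.restrict Q) :=
    ⟨by rw [Measure.restrict_apply_univ]; exact hQt.lt_top⟩
  have hBf : IsFiniteMeasure (volume.restrict B) :=
    ⟨by rw [Measure.restrict_apply_univ]; exact hBt.lt_top⟩
  set v : ℝ := volume.real Q with hv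
  have hv0 : 0 < v := by
    rw [hv, Measure.real]
    exact ENNReal.toReal_pos (Metric.measure_closedBall_pos volume 0 hR).ne' hQt
  have hkm := ft_meas μ Φ hΦ
  have hkb := ft_bound μ Φ
  set S : Set (Y × Y) := {q | ‖Φ q.1 - Φ q.2‖ * R ≤ 1} with hS
  have hSm : MeasurableSet S := by
    refine measurableSet_le ?_ measurable_const
    exact (((hΦ.comp measurable_fst).sub (hΦ.comp measurable_snd)).norm).mul_const R
  have hm0 : 0 ≤ μ.real univ := measureReal_nonneg
  -- the left hand side
  have h1 : ∫ p, ‖ft μ Φ (p.1 - p.2)‖ ^ 2 ∂((volume.restrict Q).prod (volume.restrict Q)) ≤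
      v * ∫ x in B, ‖ft μ Φ x‖ ^ 2 := by
    have hint : Integrable (fun p : EuclideanSpace ℝ (Fin d) × EuclideanSpace ℝ (Fin d) =>
        ‖ft μ Φ (p.1 - p.2)‖ ^ 2) ((volume.restrict Q).prod (volume.restrict Q)) := by
      refine Integrable.of_bound (C := (μ.real univ) ^ 2) ?_ (Filter.Eventually.of_forall
        fun p => ?_)
      · exact ((hkm.comp (measurable_fst.sub measurable_snd)).norm.pow_const 2).aestronglyMeasurable
      · rw [norm_pow, norm_norm]
        exact pow_le_pow_left₀ (norm_nonneg _) (hkb _) 2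
    rw [integral_prod _ hint]
    have h2 : ∀ x ∈ Q, ∫ z in Q, ‖ft μ Φ (x - z)‖ ^ 2 ≤ ∫ w in B, ‖ft μ Φ w‖ ^ 2 := by
      intro x hx
      have h3 : ∫ z in Q, ‖ft μ Φ (x - z)‖ ^ 2 =
          ∫ z, Q.indicator (fun z => ‖ft μ Φ (x - z)‖ ^ 2) z := (integral_indicator hQm).symm
      have h4 : ∫ w in B, ‖ft μ Φ w‖ ^ 2 =
          ∫ z, B.indicator (fun w => ‖ft μ Φ w‖ ^ 2) (x - z) := by
        rw [integral_sub_left_eq_self (fun w => B.indicator (fun w => ‖ft μ Φ w‖ ^ 2) w) volume x,
          integral_indicator hBm]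
      rw [h3, h4]
      refine integral_mono_of_nonneg (Filter.Eventually.of_forall fun z => ?_) ?_
        (Filter.Eventually.of_forall fun z => ?_)
      · exact indicator_nonneg (fun _ _ => by positivity) _
      · have h5 : Integrable (B.indicator fun w => ‖ft μ Φ w‖ ^ 2) := by
          rw [integrable_indicator_iff hBm]
          refine Integrable.of_bound (C := (μ.real univ) ^ 2) ?_ (Filter.Eventually.of_forall
            fun p => ?_)
          · exact (hkm.norm.pow_const 2).aestronglyMeasurable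
          · rw [norm_pow, norm_norm]
            exact pow_le_pow_left₀ (norm_nonneg _) (hkb _) 2
        exact h5.comp_sub_left x
      · by_cases hz : z ∈ Q
        · rw [indicator_of_mem hz]
          have h6 : x - z ∈ B := by
            rw [hB, mem_closedBall_zero_iff]
            rw [hQ, mem_closedBall_zero_iff] at hx hz
            exact (norm_sub_le _ _).trans (by linarith)
          exact (indicator_of_mem h6 (fun w => ‖ft μ Φ w‖ ^ 2)).ge
        · rw [indicator_of_notMem hz]
          exact indicator_nonneg (fun _ _ => by positivity) _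
    have h7 : v * ∫ x in B, ‖ft μ Φ x‖ ^ 2 = ∫ _ in Q, (∫ w in B, ‖ft μ Φ w‖ ^ 2) := by
      rw [setIntegral_const, smul_eq_mul]
    rw [h7]
    exact setIntegral_mono_on hint.integral_prod_left (integrable_const _) hQm h2
  rw [two_energies μ Φ hΦ] at h1
  -- the right hand side
  have h8 : (v / 2) ^ 2 * (μ.prod μ).real S ≤
      ∫ q, ‖∫ x in Q, ex ⟪Φ q.1 - Φ q.2, x⟫‖ ^ 2 ∂(μ.prod μ) := by
    have h9 : (v / 2) ^ 2 * (μ.prod μ).real S = ∫ q, S.indicator (fun _ => (v / 2) ^ 2) q
        ∂(μ.prod μ) := by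
      rw [integral_indicator hSm, setIntegral_const, smul_eq_mul, mul_comm]
    rw [h9]
    refine integral_mono_of_nonneg (Filter.Eventually.of_forall fun q => ?_) ?_
      (Filter.Eventually.of_forall fun q => ?_)
    · exact indicator_nonneg (fun _ _ => by positivity) _
    · refine Integrable.of_bound (C := v ^ 2) ?_ (Filter.Eventually.of_forall fun q => ?_)
      · have h : StronglyMeasurable (fun p : (Y × Y) × EuclideanSpace ℝ (Fin d) =>
            ex ⟪Φ p.1.1 - Φ p.1.2, p.2⟫) := by
          refine (ex_inner_meas ?_ measurable_snd).stronglyMeasurable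
          exact (hΦ.comp (measurable_fst.comp measurable_fst)).sub
            (hΦ.comp (measurable_snd.comp measurable_fst))
        exact (h.integral_prod_right'.norm.measurable.pow_const 2).aestronglyMeasurable
      · rw [norm_pow, norm_norm]
        refine pow_le_pow_left₀ (norm_nonneg _) ?_ 2
        refine (norm_integral_le_of_norm_le_const (C := 1)
          (Filter.Eventually.of_forall fun y => (ex_norm _).le)).trans ?_
        rw [one_mul, Measure.real, Measure.restrict_apply_univ, hv, Measure.real]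
    · by_cases hq : q ∈ S
      · rw [indicator_of_mem hq]
        refine pow_le_pow_left₀ (by positivity) ?_ 2
        have h10 := phase_low (volume.restrict Q) (fun x => ⟪Φ q.1 - Φ q.2, x⟫)
          (measurable_const.inner measurable_id) 0 (by
            rw [ae_restrict_iff' hQm]
            refine Filter.Eventually.of_forall fun x hx => ?_
            rw [sub_zero]
            refine (abs_real_inner_le_norm _ _).trans ?_
            rw [hQ, mem_closedBall_zero_iff] at hx
            exact (mul_le_mul_of_nonneg_left hx (norm_nonneg _)).trans hq)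
        refine le_trans (le_of_eq ?_) h10
        rw [Measure.real, Measure.restrict_apply_univ, hv, Measure.real]
      · rw [indicator_of_notMem hq]
        positivity
  have h11 : v * (v / 4 * (μ.prod μ).real S) ≤ v * ∫ x in B, ‖ft μ Φ x‖ ^ 2 := by
    calc v * (v / 4 * (μ.prod μ).real S) = (v / 2) ^ 2 * (μ.prod μ).real S := by ring
      _ ≤ _ := h8.trans h1
  exact le_of_mul_le_mul_left h11 hv0

end energy

end Pool.Agent.N248.RR
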