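import Mathlib
import Pool.Agent.N248.RR.N1
set_option autoImplicit false

/-! The Fourier transform of a measure on a curved surface is spread out; divergence on random
regions. -/

namespace Pool.Agent.N248.RR

open MeasureTheory Set ProbabilityTheory Filter
open scoped ENNReal NNReal RealInnerProductSpace ComplexConjugate

variable {d : ℕ} {Y : Type*} [MeasurableSpace Y] (μ : Measure Y) [IsFiniteMeasure μ]
  (Φ : Y → EuclideanSpace ℝ (Fin d))

/-- the slab energy estimate for one function -/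
def SlabEnergy {m : ℕ} (e : Fin m → Fin d) (L₀ : ℝ) : Prop :=
  ∀ (B : Set (EuclideanSpace ℝ (Fin d))), MeasurableSet B →
    ∀ (α : Fin m → ℝ) (τ : ℝ), 1 ≤ τ → (∀ x ∈ B, ∀ t, α t ≤ x (e t) ∧ x (e t) ≤ α t + τ) →
    ∫⁻ x in B, ‖ft μ Φ x‖ₑ ^ 2 ≤ ENNReal.ofReal (L₀ * τ)

theorem spread (hΦ : Measurable Φ) {m : ℕ} (e : Fin m → Fin d)
    (L₀ c₀ : ℝ) (hL₀ : 1 ≤ L₀) (hc₀ : 0 < c₀) (hE : SlabEnergy μ Φ e L₀)
    (hdec : ∀ x (t : Fin m), 1 ≤ |x (e t)| →
      ‖ft μ Φ x‖ ≤ L₀ * |x (e t)| ^ (-(((d : ℝ) - 1) / 2)))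
    (hd1 : (1 : ℝ) ≤ d)
    (hnear : ∀ R : ℝ, 1 ≤ R →
      c₀ * R ^ (-((d : ℝ) - 1)) ≤ (μ.prod μ).real {q | ‖Φ q.1 - Φ q.2‖ * R ≤ 1}) :
    ∃ η lam c₃ R₀ : ℝ, 0 < η ∧ 0 < lam ∧ 0 < c₃ ∧ 1 ≤ R₀ ∧ ∀ R : ℝ, R₀ ≤ R →
      ∃ J : Finset (Fin d → ℤ), (∀ j ∈ J, 1 + ‖j‖ ≤ 5 * R) ∧ c₃ * R ^ (d : ℝ) ≤ J.card ∧
      ∀ j ∈ J, ENNReal.ofReal η ≤
        volume ({x | lam * R ^ (-(((d : ℝ) - 1) / 2)) ≤ ‖ft μ Φ x‖} ∩ uq j) := by
  classical
  have hkm := ft_meas μ Φ hΦ
  set G : ℝ := ((d : ℝ) - 1) / 2 with hG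
  have hG0 : 0 ≤ G := by rw [hG]; linarith
  set v₁ : ℝ := volume.real (Metric.ball (0 : EuclideanSpace ℝ (Fin d)) 1) with hv₁
  have hv₁0 : 0 < v₁ := by
    rw [hv₁, Measure.real]
    exact ENNReal.toReal_pos (Metric.measure_ball_pos volume 0 one_pos).ne'
      measure_ball_lt_top.ne
  have hball : ∀ r : ℝ, 0 ≤ r → volume.real (Metric.closedBall (0 : EuclideanSpace ℝ (Fin d)) r) =
      v₁ * r ^ (d : ℝ) := by
    intro r hr
    rw [Measure.addHaar_real_closedBall volume 0 hr, finrank_euclideanSpace, Fintype.card_fin,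
      Real.rpow_natCast, hv₁, mul_comm]
  set ε₀ : ℝ := v₁ * c₀ / 16 with hε₀
  have hε₀0 : 0 < ε₀ := by positivity
  set θ : ℝ := ε₀ / (2 * L₀) with hθ
  have hθ0 : 0 < θ := by positivity
  set lam : ℝ := Real.sqrt (ε₀ / (v₁ * 2 ^ (d : ℝ))) with hlam
  have hlam0 : 0 < lam := Real.sqrt_pos.2 (by positivity)
  have hlam2 : lam ^ 2 = ε₀ / (v₁ * 2 ^ (d : ℝ)) := Real.sq_sqrt (by positivity)
  set c₂ : ℝ := 2 * ε₀ / (L₀ * θ ^ (-G)) ^ 2 with hc₂
  have hθG : 0 < θ ^ (-G) := by positivity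
  have hc₂0 : 0 < c₂ := by positivity
  set η : ℝ := c₂ / (2 * 9 ^ (d : ℝ)) with hη
  have hη0 : 0 < η := by positivity
  refine ⟨η, lam, c₂ / 2, max 1 (1 / θ), hη0, hlam0, by positivity, le_max_left _ _, ?_⟩
  intro R hRR
  have hR1 : 1 ≤ R := (le_max_left _ _).trans hRR
  have hR0 : 0 < R := by linarith
  have hθR : 1 ≤ θ * R := by
    have h1 : 1 / θ ≤ R := (le_max_right _ _).trans hRR
    rwa [div_le_iff₀ hθ0, mul_comm] at h1
  set B : Set (EuclideanSpace ℝ (Fin d)) := Metric.closedBall 0 (2 * R) with hB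
  have hBm : MeasurableSet B := Metric.isClosed_closedBall.measurableSet
  have hBt : volume B ≠ ∞ := measure_closedBall_lt_top.ne
  have hBf : IsFiniteMeasure (volume.restrict B) :=
    ⟨by rw [Measure.restrict_apply_univ]; exact hBt.lt_top⟩
  -- the lower bound
  have hlow : ENNReal.ofReal (4 * ε₀ * R) ≤ ∫⁻ x in B, ‖ft μ Φ x‖ₑ ^ 2 := by
    have h1 := energy_lower μ Φ hΦ R hR0
    have h2 : ENNReal.ofReal (∫ x in B, ‖ft μ Φ x‖ ^ 2) = ∫⁻ x in B, ‖ft μ Φ x‖ₑ ^ 2 := by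
      rw [ofReal_integral_eq_lintegral_ofReal]
      · refine lintegral_congr fun x => ?_
        rw [ENNReal.ofReal_pow (norm_nonneg _), ofReal_norm]
      · refine Integrable.of_bound (C := (μ.real univ) ^ 2) ?_ (Filter.Eventually.of_forall
          fun p => ?_)
        · exact (hkm.norm.pow_const 2).aestronglyMeasurable
        · rw [norm_pow, norm_norm]
          exact pow_le_pow_left₀ (norm_nonneg _) (ft_bound μ Φ _) 2
      · exact Filter.Eventually.of_forall fun x => by positivity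
    rw [← h2]
    refine ENNReal.ofReal_le_ofReal (le_trans ?_ h1)
    rw [hball R hR0.le]
    have h3 : v₁ * R ^ (d : ℝ) / 4 * (c₀ * R ^ (-((d : ℝ) - 1))) = 4 * ε₀ * R := by
      have h4 : R ^ (d : ℝ) * R ^ (-((d : ℝ) - 1)) = R := by
        rw [← Real.rpow_add hR0]
        simp
      calc v₁ * R ^ (d : ℝ) / 4 * (c₀ * R ^ (-((d : ℝ) - 1))) =
            v₁ * c₀ / 4 * (R ^ (d : ℝ) * R ^ (-((d : ℝ) - 1))) := by ring
        _ = 4 * ε₀ * R := by rw [h4, hε₀]; ring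
    rw [← h3]
    exact mul_le_mul_of_nonneg_left (hnear R hR1) (by positivity)
  -- the three parts
  set B1 : Set (EuclideanSpace ℝ (Fin d)) := {x | ∀ t, |x (e t)| ≤ θ * R} with hB1
  have hB1m : MeasurableSet B1 := by
    have : B1 = ⋂ t, {x : EuclideanSpace ℝ (Fin d) | |x (e t)| ≤ θ * R} := by
      ext x; simp [hB1]
    rw [this]
    exact MeasurableSet.iInter fun t => measurableSet_le (by fun_prop) measurable_const
  set B2 : Set (EuclideanSpace ℝ (Fin d)) := {x | ‖ft μ Φ x‖ < lam * R ^ (-G)} with hB2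
  have hB2m : MeasurableSet B2 := measurableSet_lt hkm.norm measurable_const
  set B3 : Set (EuclideanSpace ℝ (Fin d)) := (B \ B1) \ B2 with hB3
  have hB3m : MeasurableSet B3 := (hBm.diff hB1m).diff hB2m
  have hB3B : B3 ⊆ B := fun x hx => hx.1.1
  have hB3t : volume B3 ≠ ∞ := ((measure_mono hB3B).trans_lt hBt.lt_top).ne
  have hcov : B ⊆ (B1 ∪ (B ∩ B2)) ∪ B3 := by
    intro x hx
    by_cases h1 : x ∈ B1
    · exact Or.inl (Or.inl h1)
    · by_cases h2 : x ∈ B2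
      · exact Or.inl (Or.inr ⟨hx, h2⟩)
      · exact Or.inr ⟨⟨hx, h1⟩, h2⟩
  have hp1 : ∫⁻ x in B1, ‖ft μ Φ x‖ₑ ^ 2 ≤ ENNReal.ofReal (ε₀ * R) := by
    refine (hE B1 hB1m (fun _ => -(θ * R)) (2 * (θ * R)) (by linarith) ?_).trans ?_
    · intro x hx t
      have := abs_le.1 (hx t)
      constructor <;> linarith [this.1, this.2]
    · refine ENNReal.ofReal_le_ofReal (le_of_eq ?_)
      rw [hθ]
      field_simp
  have hp2 : ∫⁻ x in B ∩ B2, ‖ft μ Φ x‖ₑ ^ 2 ≤ ENNReal.ofReal (ε₀ * R) := by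
    calc ∫⁻ x in B ∩ B2, ‖ft μ Φ x‖ₑ ^ 2
        ≤ ∫⁻ _ in B ∩ B2, ENNReal.ofReal ((lam * R ^ (-G)) ^ 2) := by
          refine setLIntegral_mono' (hBm.inter hB2m) fun x hx => ?_
          rw [← ofReal_norm, ← ENNReal.ofReal_pow (norm_nonneg _)]
          exact ENNReal.ofReal_le_ofReal (pow_le_pow_left₀ (norm_nonneg _) (le_of_lt hx.2) 2)
      _ ≤ ENNReal.ofReal ((lam * R ^ (-G)) ^ 2) * volume B := by
          rw [setLIntegral_const]
          exact mul_le_mul' le_rfl (measure_mono inter_subset_left)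
      _ = ENNReal.ofReal (ε₀ * R) := by
          rw [← ofReal_measureReal hBt, hball (2 * R) (by positivity),
            ← ENNReal.ofReal_mul (by positivity)]
          congr 1
          have h4 : R ^ (d : ℝ) * (R ^ (-G)) ^ 2 = R := by
            rw [← Real.rpow_natCast (R ^ (-G)) 2, ← Real.rpow_mul hR0.le, ← Real.rpow_add hR0]
            have : (d : ℝ) + -G * ((2 : ℕ) : ℝ) = 1 := by rw [hG]; push_cast; ring
            rw [this, Real.rpow_one]
          rw [mul_pow, hlam2, Real.mul_rpow (by norm_num) hR0.le]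
          have h2d : (0 : ℝ) < 2 ^ (d : ℝ) := by positivity
          calc ε₀ / (v₁ * 2 ^ (d : ℝ)) * (R ^ (-G)) ^ 2 * (v₁ * (2 ^ (d : ℝ) * R ^ (d : ℝ)))
              = ε₀ * (R ^ (d : ℝ) * (R ^ (-G)) ^ 2) := by field_simp
            _ = ε₀ * R := by rw [h4]
  have hp3 : ∫⁻ x in B3, ‖ft μ Φ x‖ₑ ^ 2 ≤
      ENNReal.ofReal ((L₀ * θ ^ (-G)) ^ 2 * (R ^ (-G)) ^ 2 * volume.real B3) := by
    calc ∫⁻ x in B3, ‖ft μ Φ x‖ₑ ^ 2
        ≤ ∫⁻ _ in B3, ENNReal.ofReal ((L₀ * θ ^ (-G)) ^ 2 * (R ^ (-G)) ^ 2) := by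
          refine setLIntegral_mono' hB3m fun x hx => ?_
          rw [← ofReal_norm, ← ENNReal.ofReal_pow (norm_nonneg _), ← mul_pow]
          refine ENNReal.ofReal_le_ofReal (pow_le_pow_left₀ (norm_nonneg _) ?_ 2)
          have h1 : ¬ ∀ t, |x (e t)| ≤ θ * R := hx.1.2
          push Not at h1
          obtain ⟨t, ht⟩ := h1
          refine (hdec x t (hθR.trans ht.le)).trans ?_
          rw [mul_assoc, ← Real.mul_rpow hθ0.le hR0.le]
          refine mul_le_mul_of_nonneg_left ?_ (by linarith)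
          exact Real.rpow_le_rpow_of_nonpos (by positivity) ht.le (by linarith)
      _ = _ := by
          rw [setLIntegral_const, ← ofReal_measureReal hB3t, ← ENNReal.ofReal_mul (by positivity)]
  have hV : c₂ * R ^ (d : ℝ) ≤ volume.real B3 := by
    have h1 : ENNReal.ofReal (4 * ε₀ * R) ≤ ENNReal.ofReal (ε₀ * R + ε₀ * R +
        (L₀ * θ ^ (-G)) ^ 2 * (R ^ (-G)) ^ 2 * volume.real B3) := by
      rw [ENNReal.ofReal_add (by positivity) (by positivity),
        ENNReal.ofReal_add (by positivity) (by positivity)]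
      refine hlow.trans ((lintegral_mono_set hcov).trans ?_)
      refine (lintegral_union_le _ _ _).trans (add_le_add ?_ hp3)
      exact (lintegral_union_le _ _ _).trans (add_le_add hp1 hp2)
    rw [ENNReal.ofReal_le_ofReal_iff (by positivity)] at h1
    have h2 : 2 * ε₀ * R ≤ (L₀ * θ ^ (-G)) ^ 2 * (R ^ (-G)) ^ 2 * volume.real B3 := by linarith
    have h4 : R * R ^ (2 * G) = R ^ (d : ℝ) := by
      nth_rewrite 1 [← Real.rpow_one R]
      rw [← Real.rpow_add hR0]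
      congr 1
      rw [hG]
      ring
    have h5 : (R ^ (-G)) ^ 2 * R ^ (2 * G) = 1 := by
      rw [← Real.rpow_natCast (R ^ (-G)) 2, ← Real.rpow_mul hR0.le, ← Real.rpow_add hR0]
      have : -G * ((2 : ℕ) : ℝ) + 2 * G = 0 := by push_cast; ring
      rw [this, Real.rpow_zero]
    have h6 : 0 < R ^ (2 * G) := by positivity
    have h7 : 2 * ε₀ * R * R ^ (2 * G) ≤ (L₀ * θ ^ (-G)) ^ 2 * volume.real B3 := by
      calc 2 * ε₀ * R * R ^ (2 * G)
          ≤ ((L₀ * θ ^ (-G)) ^ 2 * (R ^ (-G)) ^ 2 * volume.real B3) * R ^ (2 * G) :=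
            mul_le_mul_of_nonneg_right h2 h6.le
        _ = (L₀ * θ ^ (-G)) ^ 2 * volume.real B3 * ((R ^ (-G)) ^ 2 * R ^ (2 * G)) := by ring
        _ = _ := by rw [h5, mul_one]
    rw [mul_assoc, h4] at h7
    rw [hc₂, div_mul_eq_mul_div, div_le_iff₀ (by positivity)]
    linarith
  -- the cubes
  set N : ℕ := ⌈2 * R⌉₊ + 1 with hN
  have hN1 : 2 * R + 1 ≤ N := by
    rw [hN]
    push_cast
    linarith [Nat.le_ceil (2 * R)]
  have hN2 : (N : ℝ) ≤ 4 * R := by
    have := (Nat.ceil_lt_add_one (by positivity : 0 ≤ 2 * R)).le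
    rw [hN]
    push_cast
    linarith
  set J₀ : Finset (Fin d → ℤ) := Fintype.piFinset fun i =>
    Finset.Icc ((0 : Fin d → ℤ) i - (N : ℕ)) ((0 : Fin d → ℤ) i + (N : ℕ)) with hJ₀
  have hJ₀c : (J₀.card : ℝ) ≤ 9 ^ (d : ℝ) * R ^ (d : ℝ) := by
    rw [hJ₀, ball_card, ← Real.mul_rpow (by norm_num) hR0.le, Real.rpow_natCast]
    push_cast
    exact pow_le_pow_left₀ (by positivity) (by linarith) d
  set J : Finset (Fin d → ℤ) := J₀.filter fun j => ENNReal.ofReal η ≤ volume (B3 ∩ uq j) with hJ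
  have hcov2 : B3 ⊆ ⋃ j ∈ J₀, (B3 ∩ uq j) := by
    intro x hx
    rw [mem_iUnion₂]
    have hx2 : ‖x‖ ≤ 2 * R := by
      have := hB3B hx
      rwa [hB, mem_closedBall_zero_iff] at this
    refine ⟨fun i => ⌊x i⌋, ?_, hx, fun i => ⟨Int.floor_le _, Int.lt_floor_add_one _⟩⟩
    rw [hJ₀, Fintype.mem_piFinset]
    intro i
    have h1 : |x i| ≤ 2 * R := by
      have := PiLp.norm_apply_le x i
      rw [Real.norm_eq_abs] at this
      linarith
    have h2 := abs_le.1 h1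
    rw [Finset.mem_Icc, Pi.zero_apply]
    constructor
    · rw [Int.le_floor]
      push_cast
      linarith [h2.1]
    · have : (⌊x i⌋ : ℝ) ≤ N := (Int.floor_le _).trans (by linarith [h2.2])
      have h3 : ⌊x i⌋ ≤ (N : ℤ) := by exact_mod_cast this
      linarith
  refine ⟨J, ?_, ?_, ?_⟩
  · intro j hj
    have h1 := (Finset.mem_filter.1 hj).1
    rw [hJ₀, Fintype.mem_piFinset] at h1
    have h2 : ‖j‖ ≤ N := by
      rw [pi_norm_le_iff_of_nonneg (Nat.cast_nonneg N)]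
      intro i
      have h3 := Finset.mem_Icc.1 (h1 i)
      rw [Pi.zero_apply, zero_sub, zero_add] at h3
      rw [Int.norm_eq_abs, abs_le]
      constructor
      · exact_mod_cast h3.1
      · exact_mod_cast h3.2
    linarith
  · have h1 : volume.real B3 ≤ J.card + η * J₀.card := by
      have h2 : volume B3 ≤ (J.card : ℝ≥0∞) + ENNReal.ofReal η * J₀.card := by
        calc volume B3 ≤ ∑ j ∈ J₀, volume (B3 ∩ uq j) :=
              (measure_mono hcov2).trans (measure_biUnion_finset_le _ _)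
          _ ≤ ∑ j ∈ J₀, ((if ENNReal.ofReal η ≤ volume (B3 ∩ uq j) then 1 else 0) +
                ENNReal.ofReal η) := by
              refine Finset.sum_le_sum fun j _ => ?_
              split_ifs with h
              · refine le_add_right ((measure_mono inter_subset_right).trans ?_)
                rw [uq_vol]
              · rw [zero_add]
                exact (not_le.1 h).le
          _ = _ := by
              rw [Finset.sum_add_distrib, ← Finset.sum_filter, Finset.sum_const, Finset.sum_const,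
                nsmul_eq_mul, nsmul_eq_mul, mul_one, mul_comm (ENNReal.ofReal η)]
      rw [Measure.real]
      refine ENNReal.toReal_le_of_le_ofReal (by positivity) (h2.trans (le_of_eq ?_))
      rw [ENNReal.ofReal_add (by positivity) (by positivity), ENNReal.ofReal_natCast,
        ENNReal.ofReal_mul hη0.le, ENNReal.ofReal_natCast]
    have h3 : η * J₀.card ≤ c₂ / 2 * R ^ (d : ℝ) := by
      calc η * J₀.card ≤ η * (9 ^ (d : ℝ) * R ^ (d : ℝ)) :=
            mul_le_mul_of_nonneg_left hJ₀c hη0.le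
        _ = _ := by
            rw [hη]
            field_simp
    linarith
  · intro j hj
    refine (Finset.mem_filter.1 hj).2.trans (measure_mono fun x hx => ⟨?_, hx.2⟩)
    have h1 : ¬ ‖ft μ Φ x‖ < lam * R ^ (-G) := hx.1.2
    exact not_lt.1 h1

/-- **Divergence on random regions.** -/
theorem diverge (hΦ : Measurable Φ) {m : ℕ} (e : Fin m → Fin d)
    (L₀ c₀ : ℝ) (hL₀ : 1 ≤ L₀) (hc₀ : 0 < c₀) (hE : SlabEnergy μ Φ e L₀)
    (hdec : ∀ x (t : Fin m), 1 ≤ |x (e t)| →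
      ‖ft μ Φ x‖ ≤ L₀ * |x (e t)| ^ (-(((d : ℝ) - 1) / 2)))
    (hd2 : (2 : ℝ) ≤ d)
    (hnear : ∀ R : ℝ, 1 ≤ R →
      c₀ * R ^ (-((d : ℝ) - 1)) ≤ (μ.prod μ).real {q | ‖Φ q.1 - Φ q.2‖ * R ≤ 1})
    {Ω : Type*} [MeasurableSpace Ω] (P : Measure Ω) [IsProbabilityMeasure P]
    (A : (Fin d → ℤ) → Set Ω) (hAm : ∀ j, MeasurableSet (A j)) (hind : iIndepSet A P)
    (a c : ℝ) (ha : 0 < a) (ha1 : a ≤ 1) (hc : 0 < c)
    (hp : ∀ j, ENNReal.ofReal (c * (1 + ‖j‖) ^ (-a)) ≤ P (A j)) :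
    ∀ᵐ ω ∂P, ∀ q : ℝ, 0 < q → ((d : ℝ) - 1) / 2 * q < d - a →
      ∫⁻ x in ⋃ j ∈ {j | ω ∈ A j}, uq j, ‖ft μ Φ x‖ₑ ^ q = ∞ := by
  classical
  obtain ⟨η, lam, c₃, R₀, hη, hlam, hc₃, hR₀, hJ⟩ := spread μ Φ hΦ e L₀ c₀ hL₀ hc₀ hE hdec
    (by linarith) hnear
  set G : ℝ := ((d : ℝ) - 1) / 2 with hG
  obtain ⟨κ, hκ⟩ : ∃ κ : ℕ, R₀ ≤ 2 ^ κ := by
    obtain ⟨κ, hκ⟩ := exists_nat_gt R₀
    have h1 : κ < 2 ^ κ := Nat.lt_two_pow_self
    have h2 : (κ : ℝ) < 2 ^ κ := by exact_mod_cast h1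
    exact ⟨κ, by linarith⟩
  have hRk : ∀ k : ℕ, R₀ ≤ 2 ^ (k + κ) := fun k => by
    have h1 : (1 : ℝ) ≤ 2 ^ k := one_le_pow₀ (by norm_num)
    rw [pow_add]
    nlinarith
  choose J hJ1 hJ2 hJ3 using fun k : ℕ => hJ (2 ^ (k + κ)) (hRk k)
  set R : ℕ → ℝ := fun k => 2 ^ (k + κ) with hR
  have hR0 : ∀ k, 0 < R k := fun k => by positivity
  have hR1 : ∀ k, 1 ≤ R k := fun k => one_le_pow₀ (by norm_num)
  have hkR : ∀ k, (2 : ℝ) ^ k ≤ R k := fun k =>
    pow_le_pow_right₀ (by norm_num) (Nat.le_add_right _ _)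
  set p : ℕ → ℝ := fun k => c * (5 * R k) ^ (-a) with hpd
  have hp0 : ∀ k, 0 < p k := fun k => by
    have := hR0 k
    positivity
  set c₄ : ℝ := c₃ * (c * 5 ^ (-a)) with hc₄
  have hc₄0 : 0 < c₄ := by positivity
  have hm : ∀ k, c₄ * R k ^ ((d : ℝ) - a) ≤ (J k).card * p k := by
    intro k
    have h1 := hJ2 k
    calc c₄ * R k ^ ((d : ℝ) - a) = (c₃ * R k ^ (d : ℝ)) * p k := by
          simp only [hpd]
          rw [Real.mul_rpow (by norm_num) (hR0 k).le, sub_eq_add_neg, Real.rpow_add (hR0 k), hc₄]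
          ring
      _ ≤ _ := mul_le_mul_of_nonneg_right h1 (hp0 k).le
  have hm1 : ∀ k, c₄ * 2 ^ k ≤ (J k).card * p k := by
    intro k
    refine le_trans (mul_le_mul_of_nonneg_left ?_ hc₄0.le) (hm k)
    calc (2 : ℝ) ^ k ≤ R k := hkR k
      _ = R k ^ (1 : ℝ) := (Real.rpow_one _).symm
      _ ≤ _ := Real.rpow_le_rpow_of_exponent_le (hR1 k) (by linarith)
  set F : ℕ → Set Ω := fun k =>
    {ω | ∑ j ∈ J k, (A j).indicator (fun _ => (1 : ℝ)) ω < ((J k).card * p k) / 2} with hF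
  have hFP : ∀ k, P (F k) ≤ ENNReal.ofReal (4 / c₄) * (2⁻¹ : ℝ≥0∞) ^ k := by
    intro k
    have h2k : (0 : ℝ) < 2 ^ k := by positivity
    have hcard : (0 : ℝ) < (J k).card := by
      have h1 := hJ2 k
      have h2 : 0 < c₃ * ((2 : ℝ) ^ (k + κ)) ^ (d : ℝ) := by positivity
      linarith
    have hne : (J k).Nonempty := Finset.card_pos.1 (by exact_mod_cast hcard)
    have h1 := many P A hAm hind (J k) (p k) (hp0 k) hne (by
      intro j hj
      have h2 := hJ1 k j hj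
      have h3 := hp j
      rw [Measure.real, ← ENNReal.ofReal_le_iff_le_toReal (measure_ne_top _ _)]
      refine le_trans (ENNReal.ofReal_le_ofReal ?_) h3
      simp only [hpd]
      refine mul_le_mul_of_nonneg_left ?_ hc.le
      exact Real.rpow_le_rpow_of_nonpos (by linarith [norm_nonneg j]) h2 (by linarith))
    refine h1.trans ?_
    rw [← half_pow, ← ENNReal.ofReal_mul (by positivity)]
    refine ENNReal.ofReal_le_ofReal ?_
    rw [one_div_pow, div_mul_div_comm, mul_one]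
    exact div_le_div_of_nonneg_left (by norm_num) (by positivity) (hm1 k)
  have hsum : (∑' k, P (F k)) ≠ ∞ := by
    refine ne_top_of_le_ne_top ?_ (ENNReal.tsum_le_tsum hFP)
    rw [ENNReal.tsum_mul_left, ENNReal.tsum_geometric, ENNReal.one_sub_inv_two, inv_inv]
    exact ENNReal.mul_ne_top ENNReal.ofReal_ne_top (by norm_num)
  filter_upwards [ae_eventually_notMem hsum] with ω hω
  obtain ⟨k₀, hk₀⟩ := eventually_atTop.1 hω
  intro q hq0 hq
  set β : ℝ := d - a - G * q with hβ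
  have hβ0 : 0 < β := by rw [hβ]; linarith
  have hkm := ft_meas μ Φ hΦ
  -- the lower bound for every large k
  have hlow : ∀ k, k₀ ≤ k → ENNReal.ofReal (c₄ / 2 * (η * lam ^ q) * ((2 : ℝ) ^ β) ^ k) ≤
      ∫⁻ x in ⋃ j ∈ {j | ω ∈ A j}, uq j, ‖ft μ Φ x‖ₑ ^ q := by
    intro k hk
    have hωk : ω ∉ F k := hk₀ k hk
    simp only [hF, mem_ofPred_eq, not_lt] at hωk
    set K : Finset (Fin d → ℤ) := (J k).filter fun j => ω ∈ A j with hK
    have hKc : (K.card : ℝ) = ∑ j ∈ J k, (A j).indicator (fun _ => (1 : ℝ)) ω := by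
      rw [hK, Finset.card_filter]
      push_cast
      refine Finset.sum_congr rfl fun j _ => ?_
      by_cases h : ω ∈ A j
      · rw [indicator_of_mem h, if_pos h]
      · rw [indicator_of_notMem h, if_neg h]
    have hsub : (⋃ j ∈ K, uq j) ⊆ ⋃ j ∈ {j | ω ∈ A j}, uq j := by
      intro x hx
      rw [mem_iUnion₂] at hx ⊢
      obtain ⟨j, hj, hxj⟩ := hx
      exact ⟨j, (Finset.mem_filter.1 hj).2, hxj⟩
    set lk : ℝ := lam * R k ^ (-G) with hlk
    have hlk0 : 0 < lk := by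
      have := hR0 k
      positivity
    have h5 : ENNReal.ofReal ((K.card : ℝ) * (η * lk ^ q)) ≤
        ∫⁻ x in ⋃ j ∈ {j | ω ∈ A j}, uq j, ‖ft μ Φ x‖ₑ ^ q := by
      refine le_trans ?_ (lintegral_mono_set hsub)
      rw [lintegral_biUnion_finset (fun j _ k _ hjk => uq_disj _ _ hjk) (fun j _ => uq_meas _)]
      rw [ENNReal.ofReal_mul (Nat.cast_nonneg _), ENNReal.ofReal_natCast, ← nsmul_eq_mul,
        ← Finset.sum_const]
      refine Finset.sum_le_sum fun j hj => ?_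
      have h6 := hJ3 k j (Finset.mem_filter.1 hj).1
      set W : Set (EuclideanSpace ℝ (Fin d)) := {x | lk ≤ ‖ft μ Φ x‖} with hW
      have hWm : MeasurableSet W := measurableSet_le measurable_const hkm.norm
      calc ENNReal.ofReal (η * lk ^ q) = ENNReal.ofReal (lk ^ q) * ENNReal.ofReal η := by
            rw [mul_comm, ENNReal.ofReal_mul (by positivity)]
        _ ≤ ENNReal.ofReal (lk ^ q) * volume (W ∩ uq j) := mul_le_mul' le_rfl h6
        _ = ∫⁻ _ in W ∩ uq j, ENNReal.ofReal (lk ^ q) := by rw [setLIntegral_const]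
        _ ≤ ∫⁻ x in W ∩ uq j, ‖ft μ Φ x‖ₑ ^ q := by
            refine setLIntegral_mono' (hWm.inter (uq_meas j)) fun x hx => ?_
            rw [← ofReal_norm, ENNReal.ofReal_rpow_of_nonneg (norm_nonneg _) hq0.le]
            exact ENNReal.ofReal_le_ofReal (Real.rpow_le_rpow hlk0.le hx.1 hq0.le)
        _ ≤ _ := lintegral_mono_set inter_subset_right
    refine le_trans (ENNReal.ofReal_le_ofReal ?_) h5
    have h7 : c₄ * R k ^ ((d : ℝ) - a) / 2 ≤ K.card := by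
      rw [hKc]
      have := hm k
      linarith
    have h8 : lk ^ q = lam ^ q * R k ^ (-(G * q)) := by
      rw [hlk, Real.mul_rpow hlam.le (by have := hR0 k; positivity), ← Real.rpow_mul (hR0 k).le]
      congr 2
      ring
    have h9 : ((2 : ℝ) ^ β) ^ k ≤ R k ^ β := by
      rw [← Real.rpow_natCast (2 ^ β) k, ← Real.rpow_mul (by norm_num), mul_comm,
        Real.rpow_mul (by norm_num), Real.rpow_natCast]
      exact Real.rpow_le_rpow (by positivity) (hkR k) hβ0.le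
    have h10 : R k ^ β = R k ^ ((d : ℝ) - a) * R k ^ (-(G * q)) := by
      rw [← Real.rpow_add (hR0 k), hβ]
      congr 1
    calc c₄ / 2 * (η * lam ^ q) * ((2 : ℝ) ^ β) ^ k ≤ c₄ / 2 * (η * lam ^ q) * R k ^ β :=
          mul_le_mul_of_nonneg_left h9 (by positivity)
      _ = (c₄ * R k ^ ((d : ℝ) - a) / 2) * (η * lk ^ q) := by rw [h10, h8]; ring
      _ ≤ _ := mul_le_mul_of_nonneg_right h7 (by positivity)
  have htend : Tendsto (fun k : ℕ => c₄ / 2 * (η * lam ^ q) * ((2 : ℝ) ^ β) ^ k) atTop atTop :=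
    (tendsto_pow_atTop_atTop_of_one_lt (Real.one_lt_rpow (by norm_num) hβ0)).const_mul_atTop
      (by positivity)
  by_contra hcon
  obtain ⟨k, hk1, hk2⟩ := ((htend.eventually_gt_atTop
    (∫⁻ x in ⋃ j ∈ {j | ω ∈ A j}, uq j, ‖ft μ Φ x‖ₑ ^ q).toReal).and
    (eventually_ge_atTop k₀)).exists
  have h1 := hlow k hk2
  have hcon' : (∫⁻ x in ⋃ j ∈ {j | ω ∈ A j}, uq j, ‖ft μ Φ x‖ₑ ^ q) ≠ ∞ := hcon
  rw [ENNReal.ofReal_le_iff_le_toReal hcon'] at h1
  linarith

end Pool.Agent.N248.RR
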