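import Mathlib
import Pool.Agent.N248.RR.H2
import Pool.Agent.N248.RR.P2
set_option autoImplicit false

/-! Random regions for the paraboloid: transference. -/

namespace Pool.Agent.N248.RR

open MeasureTheory Set
open scoped ENNReal NNReal RealInnerProductSpace ComplexConjugate
open Pool.Agent.R412.RT (Phi)

variable {n : ℕ}

theorem ex_sPhi (s : ℝ) (ξ : EuclideanSpace ℝ (Fin n)) (x : EuclideanSpace ℝ (Fin (n + 1))) :
    ex ⟪sPhi s ξ, x⟫ = ex (s * ⟪Phi ξ, x⟫) := by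
  unfold sPhi
  rw [inner_smul_left]
  simp

theorem para_class (hn : 1 ≤ n) (s₀ : ℝ) (hs₀ : s₀ ≠ 0)
    (U : Set (EuclideanSpace ℝ (Fin n))) (hU : MeasurableSet U) (hUc : U ⊆ cub n)
    (s : ℝ≥0∞) (hs : 2 ≤ s) (p : ℝ) (hp2 : 2 ≤ p) (C₀ : ℝ≥0)
    (hext : ∀ f : EuclideanSpace ℝ (Fin n) → ℂ, MemLp f s (volume.restrict U) →
      ∫⁻ x, ‖∫ ξ in U, ex (s₀ * ⟪Phi ξ, x⟫) * f ξ‖ₑ ^ p ≤
        C₀ * eLpNorm f s (volume.restrict U) ^ p)
    {Ω : Type*} [MeasurableSpace Ω] (P : Measure Ω) (A : (Fin (n + 1) → ℤ) → Set Ω) (a c : ℝ)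
    (ha : 0 < a) (ha1 : a ≤ 1) (hc : 1 ≤ c)
    (hA : ∀ T : Finset (Fin (n + 1) → ℤ), P (⋂ j ∈ T, A j) ≤ ∏ j ∈ T, P (A j))
    (hp : ∀ j, P (A j) ≤ ENNReal.ofReal (c * (1 + ‖j‖) ^ (-a))) :
    ∀ᵐ ω ∂P, ∀ r : ℝ, p - a * (p - 2) < r → ∃ C : ℝ≥0,
      ∀ f : EuclideanSpace ℝ (Fin n) → ℂ, MemLp f s (volume.restrict U) →
      ∫⁻ x in ⋃ j ∈ {j | ω ∈ A j}, uq j, ‖∫ ξ in U, ex (s₀ * ⟪Phi ξ, x⟫) * f ξ‖ₑ ^ r ≤
        C * eLpNorm f s (volume.restrict U) ^ r := by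
  obtain ⟨R, hR0, hR⟩ := sPhi_bound (n := n) s₀
  have hs0 : 0 < |s₀| := abs_pos.2 hs₀
  have hrr : (volume.restrict (cub n)).restrict U = volume.restrict U := by
    rw [Measure.restrict_restrict hU, inter_eq_left.2 hUc]
  set L₀ : ℝ := (|(s₀ / (2 * Real.pi))| ^ n)⁻¹ +
    2 ^ n * (10 * (|s₀| / (n + 1)) ^ (-(1 / 2) : ℝ)) with hL₀
  have e1 : 0 ≤ (|(s₀ / (2 * Real.pi))| ^ n)⁻¹ := by positivity
  have e3 : 0 ≤ 2 ^ n * (10 * (|s₀| / (n + 1)) ^ (-(1 / 2) : ℝ)) := by positivity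
  have h := regions_norm (volume.restrict (cub n)) (sPhi s₀) (sPhi_meas s₀)
    (fun _ : Fin 1 => Fin.last n) L₀ (1 / 2) (by linarith)
    (by norm_num) (by
      intro f B hB α τ hτ hBα
      refine (para_energy s₀ hs₀ f B hB α τ hτ hBα).trans ?_
      refine mul_le_mul' (ENNReal.ofReal_le_ofReal ?_) le_rfl
      exact mul_le_mul_of_nonneg_right (by linarith) (by linarith))
    R hR0 hR
    (by
      intro x hx
      refine (kernel_all hn s₀ hs₀ x hx).trans ?_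
      exact mul_le_mul_of_nonneg_right (by linarith) (by positivity))
    U hU s hs p hp2 C₀ (by
      rw [hrr]
      simp_rw [ex_sPhi]
      exact hext)
    P A a c ha ha1 hc hA hp
  rw [hrr] at h
  simp_rw [ex_sPhi] at h
  exact h

end Pool.Agent.N248.RR
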