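import Mathlib
import Pool.Agent.N248.RR.N2
import Pool.Agent.N248.RR.P3
set_option autoImplicit false

/-! Divergence on random regions for the paraboloid. -/

namespace Pool.Agent.N248.RR

open MeasureTheory Set ProbabilityTheory
open scoped ENNReal NNReal RealInnerProductSpace ComplexConjugate
open Pool.Agent.R412.RT (Phi inner_eq)
open Pool.Agent.N248.RM (Phi_meas)

/-- the one-dimensional kernel of an interval -/
noncomputable def kg (α β b τ : ℝ) : ℂ := ∫ u in α..β, ex (b * u + τ * u ^ 2)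

theorem kg_W (α β b τ : ℝ) :
    kg α β b τ = H17Arc.W (fun t => -(b * t + τ * t ^ 2)) 0 α β := by
  unfold kg H17Arc.W H17Arc.ker ex
  congr 1
  ext u
  congr 1
  push_cast
  ring

theorem kg_neg (α β b τ : ℝ) (hαβ : α ≤ β) : ‖kg α β (-b) (-τ)‖ = ‖kg α β b τ‖ := by
  have h : kg α β (-b) (-τ) = conj (kg α β b τ) := by
    unfold kg
    rw [intervalIntegral.integral_of_le hαβ, intervalIntegral.integral_of_le hαβ,
      ← integral_conj]
    congr 1
    ext u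
    rw [ex_conj]
    congr 1
    ring
  rw [h, Complex.norm_conj]

theorem kg_second_pos (α β b τ : ℝ) (hαβ : α ≤ β) (hτ : 0 < τ) :
    ‖kg α β b τ‖ ≤ 5 * τ ^ (-(1 / 2) : ℝ) := by
  have hφ : ∀ t, HasDerivAt (fun t : ℝ => b * t + τ * t ^ 2) (b + 2 * τ * t) t := by
    intro t
    have h1 := ((hasDerivAt_id t).const_mul b).add ((hasDerivAt_pow 2 t).const_mul τ)
    refine h1.congr_deriv ?_
    push_cast
    ring
  have hv : ∀ t, HasDerivAt (fun t : ℝ => b + 2 * τ * t) (2 * τ) t := by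
    intro t
    have h1 := ((hasDerivAt_id t).const_mul (2 * τ)).const_add b
    refine h1.congr_deriv ?_
    ring
  set t0 : ℝ := -b / (2 * τ) with ht0
  set ρ : ℝ := τ ^ (-(1 / 2) : ℝ) with hρ
  have hρ0 : 0 < ρ := by positivity
  have h := H17Arc.norm_W_le_second hφ hv continuous_const (a := min α t0) (b := max β t0)
    (u := 0) (x := α) (y := β) (c := 2 * τ) (ρ := ρ) (t0 := t0) hαβ
    ⟨min_le_left _ _, le_max_of_le_left hαβ⟩
    ⟨(min_le_left _ _).trans hαβ, le_max_left _ _⟩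
    ⟨min_le_right _ _, le_max_right _ _⟩ (by rw [ht0]; field_simp; ring) le_rfl (by positivity)
    hρ0 (fun t _ => le_rfl)
  rw [kg_W, H17Arc.norm_W_neg hαβ]
  refine h.trans (le_of_eq ?_)
  have h1 : τ * ρ * ρ = 1 := by
    rw [hρ, mul_assoc, ← Real.rpow_add hτ]
    norm_num
    rw [Real.rpow_neg_one]
    exact mul_inv_cancel₀ hτ.ne'
  have h2 : 6 / (2 * τ * ρ) = 3 * ρ := by
    rw [div_eq_iff (by positivity)]
    linear_combination -6 * h1
  rw [h2]
  ring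

theorem kg_second (α β b τ : ℝ) (hαβ : α ≤ β) (hτ : τ ≠ 0) :
    ‖kg α β b τ‖ ≤ 5 * |τ| ^ (-(1 / 2) : ℝ) := by
  rcases lt_or_gt_of_ne hτ with h | h
  · rw [← kg_neg α β b τ hαβ, abs_of_neg h]
    exact kg_second_pos _ _ _ _ hαβ (by linarith)
  · rw [abs_of_pos h]
    exact kg_second_pos _ _ _ _ hαβ h

variable {n : ℕ}

/-- the kernel of a cap is a product -/
theorem cap_prod (s : ℝ) (ξ₀ : EuclideanSpace ℝ (Fin n)) (δ : ℝ) (hδ : 0 ≤ δ)
    (x : EuclideanSpace ℝ (Fin (n + 1))) :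
    ∫ ξ in cap ξ₀ δ, ex ⟪sPhi s ξ, x⟫ =
      ∏ j : Fin n, kg (ξ₀ j - δ) (ξ₀ j + δ) (s * x j.castSucc) (s * x (Fin.last n)) := by
  rw [← integral_indicator (cap_meas ξ₀ δ)]
  have hiff : ∀ (u v : ℝ), |u - v| ≤ δ ↔ u ∈ Icc (v - δ) (v + δ) := by
    intro u v
    rw [abs_le, mem_Icc]
    constructor
    · rintro ⟨h1, h2⟩; constructor <;> linarith
    · rintro ⟨h1, h2⟩; constructor <;> linarith
  have h1 : ∀ ξ : EuclideanSpace ℝ (Fin n),
      (cap ξ₀ δ).indicator (fun ξ => ex ⟪sPhi s ξ, x⟫) ξ =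
      ∏ j : Fin n, (Icc (ξ₀ j - δ) (ξ₀ j + δ)).indicator
        (fun u => ex (s * x j.castSucc * u + s * x (Fin.last n) * u ^ 2)) (ξ j) := by
    intro ξ
    by_cases hξ : ξ ∈ cap ξ₀ δ
    · rw [indicator_of_mem hξ]
      have h2 : ∀ j, (Icc (ξ₀ j - δ) (ξ₀ j + δ)).indicator
          (fun u => ex (s * x j.castSucc * u + s * x (Fin.last n) * u ^ 2)) (ξ j) =
          ex (s * x j.castSucc * ξ j + s * x (Fin.last n) * ξ j ^ 2) := by
        intro j
        rw [indicator_of_mem ((hiff _ _).1 (hξ j))]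
      simp_rw [h2]
      rw [← ex_sum]
      unfold sPhi
      rw [inner_smul_left, Phi_inner]
      simp only [conj_trivial]
      rw [Finset.mul_sum]
      congr 1
      exact Finset.sum_congr rfl fun j _ => by ring
    · rw [indicator_of_notMem hξ]
      have h2 : ∃ j, ¬ |ξ j - ξ₀ j| ≤ δ := by
        by_contra hcon
        push Not at hcon
        exact hξ hcon
      obtain ⟨j, hj⟩ := h2
      refine (Finset.prod_eq_zero (Finset.mem_univ j) ?_).symm
      rw [indicator_of_notMem (fun h => hj ((hiff _ _).2 h))]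
  simp_rw [h1]
  have h3 := (PiLp.volume_preserving_ofLp (Fin n)).integral_comp
    (MeasurableEquiv.toLp 2 (Fin n → ℝ)).symm.measurableEmbedding
    (fun y : Fin n → ℝ => ∏ j : Fin n, (Icc (ξ₀ j - δ) (ξ₀ j + δ)).indicator
      (fun u => ex (s * x j.castSucc * u + s * x (Fin.last n) * u ^ 2)) (y j))
  rw [show (∫ ξ : EuclideanSpace ℝ (Fin n), ∏ j : Fin n,
        (Icc (ξ₀ j - δ) (ξ₀ j + δ)).indicator
        (fun u => ex (s * x j.castSucc * u + s * x (Fin.last n) * u ^ 2)) (ξ j)) = _ from h3]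
  rw [integral_fintype_prod_volume_eq_prod (fun j u => (Icc (ξ₀ j - δ) (ξ₀ j + δ)).indicator
      (fun u => ex (s * x (Fin.castSucc j) * u + s * x (Fin.last n) * u ^ 2)) u)]
  refine Finset.prod_congr rfl fun j _ => ?_
  rw [integral_indicator measurableSet_Icc, integral_Icc_eq_integral_Ioc]
  unfold kg
  rw [intervalIntegral.integral_of_le (by linarith)]

theorem cap_decay (s : ℝ) (hs : s ≠ 0) (ξ₀ : EuclideanSpace ℝ (Fin n)) (δ : ℝ) (hδ : 0 ≤ δ)
    (x : EuclideanSpace ℝ (Fin (n + 1))) (hx : 1 ≤ |x (Fin.last n)|) :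
    ‖∫ ξ in cap ξ₀ δ, ex ⟪sPhi s ξ, x⟫‖ ≤
      (5 * |s| ^ (-(1 / 2) : ℝ)) ^ n * |x (Fin.last n)| ^ (-((n : ℝ) / 2)) := by
  rw [cap_prod s ξ₀ δ hδ x, norm_prod]
  have h0 : x (Fin.last n) ≠ 0 := by
    intro h
    rw [h, abs_zero] at hx
    linarith
  calc ∏ j : Fin n, ‖kg (ξ₀ j - δ) (ξ₀ j + δ) (s * x j.castSucc) (s * x (Fin.last n))‖
      ≤ ∏ _j : Fin n, (5 * |s * x (Fin.last n)| ^ (-(1 / 2) : ℝ)) :=
        Finset.prod_le_prod (fun j _ => norm_nonneg _) fun j _ =>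
          kg_second _ _ _ _ (by linarith) (mul_ne_zero hs h0)
    _ = (5 * |s| ^ (-(1 / 2) : ℝ)) ^ n * |x (Fin.last n)| ^ (-((n : ℝ) / 2)) := by
        rw [Finset.prod_const, Finset.card_univ, Fintype.card_fin, abs_mul,
          Real.mul_rpow (abs_nonneg _) (abs_nonneg _), ← mul_assoc, mul_pow]
        congr 1
        rw [← Real.rpow_natCast, ← Real.rpow_mul (abs_nonneg _)]
        congr 1
        ring

/-- the scaled paraboloid is Lipschitz on the cube -/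
theorem sPhi_lip (s : ℝ) (ξ η : EuclideanSpace ℝ (Fin n)) (hξ : ξ ∈ cub n) (hη : η ∈ cub n)
    (ρ : ℝ) (hρ0 : 0 ≤ ρ) (hρ : ∀ i, |ξ i - η i| ≤ ρ) :
    ‖sPhi s ξ - sPhi s η‖ ≤ |s| * (2 * (n + 1) ^ 2) * ρ := by
  have hcoord : ∀ i : Fin (n + 1), |(Phi ξ - Phi η) i| ≤ 2 * (n + 1) * ρ := by
    intro i
    refine Fin.lastCases ?_ (fun j => ?_) i
    · have h1 : (Phi ξ - Phi η) (Fin.last n) = ∑ i : Fin n, (ξ i ^ 2 - η i ^ 2) := by
        rw [Finset.sum_sub_distrib]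
        simp only [Phi, PiLp.sub_apply, Fin.snoc_last]
      rw [h1]
      refine (Finset.abs_sum_le_sum_abs _ _).trans ?_
      calc ∑ i : Fin n, |ξ i ^ 2 - η i ^ 2| ≤ ∑ _i : Fin n, 2 * ρ := by
            refine Finset.sum_le_sum fun i _ => ?_
            have h2 : ξ i ^ 2 - η i ^ 2 = (ξ i + η i) * (ξ i - η i) := by ring
            rw [h2, abs_mul]
            have h3 : |ξ i + η i| ≤ 2 := by
              refine (abs_add_le _ _).trans ?_
              linarith [hξ i, hη i]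
            exact mul_le_mul h3 (hρ i) (abs_nonneg _) (by norm_num)
        _ = n * (2 * ρ) := by
            rw [Finset.sum_const, Finset.card_univ, Fintype.card_fin, nsmul_eq_mul]
        _ ≤ _ := by nlinarith
    · have h1 : (Phi ξ - Phi η) j.castSucc = ξ j - η j := by
        simp only [Phi, PiLp.sub_apply, Fin.snoc_castSucc]
      rw [h1]
      have h4 : (0 : ℝ) ≤ n := Nat.cast_nonneg n
      have h2 := hρ j
      nlinarith
  have h1 : ‖Phi ξ - Phi η‖ ≤ 2 * ((n : ℝ) + 1) ^ 2 * ρ := by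
    have h2 : ‖Phi ξ - Phi η‖ ^ 2 ≤ (2 * ((n : ℝ) + 1) ^ 2 * ρ) ^ 2 := by
      rw [EuclideanSpace.norm_sq_eq]
      have h4 : (0 : ℝ) ≤ n := Nat.cast_nonneg n
      calc ∑ i : Fin (n + 1), ‖(Phi ξ - Phi η) i‖ ^ 2
          ≤ ∑ _i : Fin (n + 1), (2 * ((n : ℝ) + 1) * ρ) ^ 2 := by
            refine Finset.sum_le_sum fun i _ => ?_
            rw [Real.norm_eq_abs]
            exact pow_le_pow_left₀ (abs_nonneg _) (hcoord i) 2
        _ = ((n : ℝ) + 1) * (2 * ((n : ℝ) + 1) * ρ) ^ 2 := by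
            rw [Finset.sum_const, Finset.card_univ, Fintype.card_fin, nsmul_eq_mul]
            push_cast
            ring
        _ ≤ ((n : ℝ) + 1) ^ 2 * (2 * ((n : ℝ) + 1) * ρ) ^ 2 := by
            refine mul_le_mul_of_nonneg_right ?_ (by positivity)
            nlinarith
        _ = _ := by ring
    exact (pow_le_pow_iff_left₀ (norm_nonneg _) (by positivity) (by norm_num)).1 h2
  unfold sPhi
  rw [← smul_sub, norm_smul, Real.norm_eq_abs, mul_assoc]
  exact mul_le_mul_of_nonneg_left h1 (abs_nonneg s)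

theorem cap_near (s : ℝ) (ξ₀ : EuclideanSpace ℝ (Fin n)) (δ : ℝ) (hδ : 0 < δ)
    (hc : cap ξ₀ δ ⊆ cub n) (R : ℝ) (hR : 1 ≤ R) :
    (δ * (2 * min (δ / 2) (1 / (|s| * (2 * (n + 1) ^ 2) + 1)))) ^ n * R ^ (-(n : ℝ)) ≤
      ((volume.restrict (cap ξ₀ δ)).prod (volume.restrict (cap ξ₀ δ))).real
        {q | ‖sPhi s q.1 - sPhi s q.2‖ * R ≤ 1} := by
  have hR0 : 0 < R := by linarith
  set K := cap ξ₀ δ with hK
  have hKm : MeasurableSet K := cap_meas ξ₀ δ
  have hKv : volume K ≠ ∞ := by rw [hK, cap_vol ξ₀ δ hδ.le]; exact ENNReal.ofReal_ne_top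
  have hfin : IsFiniteMeasure (volume.restrict K) :=
    ⟨by rw [Measure.restrict_apply_univ]; exact hKv.lt_top⟩
  set M : ℝ := min (δ / 2) (1 / (|s| * (2 * (n + 1) ^ 2) + 1)) with hM
  have hM0 : 0 < M := by positivity
  set ρ : ℝ := M / R with hρ
  have hρ0 : 0 < ρ := by positivity
  have hρδ : ρ ≤ δ / 2 := (div_le_self hM0.le hR).trans (min_le_left _ _)
  set S : Set (EuclideanSpace ℝ (Fin n) × EuclideanSpace ℝ (Fin n)) :=
    {q | ‖sPhi s q.1 - sPhi s q.2‖ * R ≤ 1} with hS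
  set T : Set (EuclideanSpace ℝ (Fin n) × EuclideanSpace ℝ (Fin n)) :=
    {q | q.1 ∈ cap ξ₀ (δ / 2) ∧ ∀ i, |q.2 i - q.1 i| ≤ ρ} with hT
  have hTm : MeasurableSet T := by
    have : T = (Prod.fst ⁻¹' cap ξ₀ (δ / 2)) ∩
        ⋂ i, {q : EuclideanSpace ℝ (Fin n) × EuclideanSpace ℝ (Fin n) | |q.2 i - q.1 i| ≤ ρ} := by
      ext q; simp [hT]
    rw [this]
    refine ((cap_meas _ _).preimage measurable_fst).inter (MeasurableSet.iInter fun i => ?_)
    exact measurableSet_le (by fun_prop) measurable_const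
  have hcap2 : cap ξ₀ (δ / 2) ⊆ K := fun ξ hξ i => (hξ i).trans (by linarith)
  have hTK : ∀ q ∈ T, q.1 ∈ K ∧ q.2 ∈ K := by
    intro q hq
    refine ⟨hcap2 hq.1, fun i => ?_⟩
    have h1 := hq.1 i
    have h2 := hq.2 i
    have h3 : q.2 i - ξ₀ i = (q.2 i - q.1 i) + (q.1 i - ξ₀ i) := by ring
    rw [h3]
    refine (abs_add_le _ _).trans ?_
    linarith
  have hTS : T ⊆ S := by
    intro q hq
    have h1 := hTK q hq
    have h2 := sPhi_lip s q.1 q.2 (hc h1.1) (hc h1.2) ρ hρ0.le (fun i => by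
      rw [abs_sub_comm]; exact hq.2 i)
    show ‖sPhi s q.1 - sPhi s q.2‖ * R ≤ 1
    have h3 : |s| * (2 * (n + 1) ^ 2) * M ≤ 1 := by
      have h4 : M ≤ 1 / (|s| * (2 * ((n : ℝ) + 1) ^ 2) + 1) := min_le_right _ _
      rw [le_div_iff₀ (by positivity)] at h4
      nlinarith
    calc ‖sPhi s q.1 - sPhi s q.2‖ * R ≤ (|s| * (2 * (n + 1) ^ 2) * ρ) * R :=
          mul_le_mul_of_nonneg_right h2 hR0.le
      _ = |s| * (2 * (n + 1) ^ 2) * M := by
          rw [hρ]
          field_simp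
      _ ≤ 1 := h3
  have hTv : ((volume.restrict K).prod (volume.restrict K)) T =
      ENNReal.ofReal (δ ^ n * (2 * ρ) ^ n) := by
    have hTKs : T ⊆ K ×ˢ K := fun q hq => ⟨(hTK q hq).1, (hTK q hq).2⟩
    rw [Measure.prod_restrict, Measure.restrict_apply hTm, inter_eq_left.2 hTKs,
      Measure.prod_apply hTm]
    have h1 : ∀ ξ, volume (Prod.mk ξ ⁻¹' T) =
        (cap ξ₀ (δ / 2)).indicator (fun _ => ENNReal.ofReal ((2 * ρ) ^ n)) ξ := by
      intro ξ
      by_cases h : ξ ∈ cap ξ₀ (δ / 2)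
      · rw [indicator_of_mem h]
        have h2 : Prod.mk ξ ⁻¹' T = cap ξ ρ := by
          ext η
          simp only [hT, mem_preimage, mem_ofPred_eq]
          exact ⟨fun h3 => h3.2, fun h3 => ⟨h, h3⟩⟩
        rw [h2, cap_vol ξ ρ hρ0.le]
      · rw [indicator_of_notMem h]
        have h2 : Prod.mk ξ ⁻¹' T = ∅ := by
          ext η
          simp only [hT, mem_preimage, mem_ofPred_eq, mem_empty_iff_false, iff_false]
          exact fun h3 => h h3.1
        rw [h2, measure_empty]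
    simp_rw [h1]
    rw [lintegral_indicator_const (cap_meas _ _), cap_vol ξ₀ (δ / 2) (by positivity),
      ← ENNReal.ofReal_mul (by positivity)]
    congr 1
    rw [show 2 * (δ / 2) = δ by ring]
    ring
  rw [Measure.real]
  refine (ENNReal.ofReal_le_iff_le_toReal (measure_ne_top _ _)).1 ?_
  refine le_trans (le_of_eq ?_) (measure_mono hTS)
  rw [hTv]
  congr 1
  rw [hρ, Real.rpow_neg hR0.le, Real.rpow_natCast, mul_pow, mul_pow, mul_pow, div_pow]
  field_simp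

/-- **Divergence on random regions for the paraboloid.** -/
theorem para_diverge (hn : 1 ≤ n) (s : ℝ) (hs : s ≠ 0) (ξ₀ : EuclideanSpace ℝ (Fin n)) (δ : ℝ)
    (hδ : 0 < δ) (hcc : cap ξ₀ δ ⊆ cub n)
    {Ω : Type*} [MeasurableSpace Ω] (P : Measure Ω) [IsProbabilityMeasure P]
    (A : (Fin (n + 1) → ℤ) → Set Ω) (hAm : ∀ j, MeasurableSet (A j)) (hind : iIndepSet A P)
    (a c : ℝ) (ha : 0 < a) (ha1 : a ≤ 1) (hc : 0 < c)
    (hp : ∀ j, ENNReal.ofReal (c * (1 + ‖j‖) ^ (-a)) ≤ P (A j)) :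
    ∀ᵐ ω ∂P, ∀ q : ℝ, 0 < q → (n : ℝ) / 2 * q < n + 1 - a →
      ∫⁻ x in ⋃ j ∈ {j | ω ∈ A j}, uq j,
        ‖∫ ξ in cap ξ₀ δ, ex (s * ⟪Phi ξ, x⟫)‖ₑ ^ q = ∞ := by
  set K := cap ξ₀ δ with hK
  have hKm : MeasurableSet K := cap_meas ξ₀ δ
  have hKv : volume K ≠ ∞ := by rw [hK, cap_vol ξ₀ δ hδ.le]; exact ENNReal.ofReal_ne_top
  have hfin : IsFiniteMeasure (volume.restrict K) :=
    ⟨by rw [Measure.restrict_apply_univ]; exact hKv.lt_top⟩
  have hdn : (((n + 1 : ℕ) : ℝ)) - 1 = n := by push_cast; ring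
  have hft : ∀ x, ft (volume.restrict K) (sPhi s) x = ∫ ξ in K, ex (s * ⟪Phi ξ, x⟫) := by
    intro x
    unfold ft
    simp_rw [ex_sPhi]
  obtain ⟨F, hF1, hF2, hF3⟩ := piece_level (volume.restrict (cub n)) (sPhi s) (sPhi_meas s) K hKm
    (fun _ => (1 : ℂ)) (memLp_const 1)
  have hrr : (volume.restrict (cub n)).restrict K = volume.restrict K := by
    rw [Measure.restrict_restrict hKm, inter_eq_left.2 hcc]
  simp_rw [hrr, mul_one] at hF3
  set L₀ : ℝ := 1 + (|(s / (2 * Real.pi))| ^ n)⁻¹ * ‖F‖ ^ 2 + (5 * |s| ^ (-(1 / 2) : ℝ)) ^ n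
    with hL₀
  have e1 : 0 ≤ (|(s / (2 * Real.pi))| ^ n)⁻¹ * ‖F‖ ^ 2 := by positivity
  have e2 : 0 ≤ (5 * |s| ^ (-(1 / 2) : ℝ)) ^ n := by positivity
  have h := diverge (volume.restrict K) (sPhi s) (sPhi_meas s) (fun _ : Fin 1 => Fin.last n) L₀
    ((δ * (2 * min (δ / 2) (1 / (|s| * (2 * (n + 1) ^ 2) + 1)))) ^ n) (by linarith)
    (by positivity) (by
      intro B hB α τ hτ hBα
      have h1 := para_energy s hs F B hB α τ hτ hBα
      simp_rw [hF3] at h1
      unfold ft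
      refine h1.trans ?_
      rw [← ENNReal.ofReal_mul (by positivity)]
      refine ENNReal.ofReal_le_ofReal ?_
      calc (|(s / (2 * Real.pi))| ^ n)⁻¹ * τ * ‖F‖ ^ 2
          = ((|(s / (2 * Real.pi))| ^ n)⁻¹ * ‖F‖ ^ 2) * τ := by ring
        _ ≤ L₀ * τ := mul_le_mul_of_nonneg_right (by linarith) (by linarith))
    (by
      intro x t hx
      rw [hdn]
      refine (cap_decay s hs ξ₀ δ hδ.le x hx).trans ?_
      exact mul_le_mul_of_nonneg_right (by linarith) (by positivity))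
    (by
      have : (1 : ℝ) ≤ n := by exact_mod_cast hn
      push_cast
      linarith)
    (by
      intro R hR
      rw [hdn]
      exact cap_near s ξ₀ δ hδ hcc R hR)
    P A hAm hind a c ha ha1 hc hp
  filter_upwards [h] with ω hω
  intro q hq0 hq
  have h1 := hω q hq0 (by
    rw [hdn]
    push_cast
    exact hq)
  simp_rw [hft] at h1
  exact h1

end Pool.Agent.N248.RR
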