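import Mathlib
import Pool.Agent.N248.RR.N3
import Pool.Agent.N248.RR.L2
set_option autoImplicit false

/-! Random regions for the extension operator of the paraboloid in `ℝ³`: the pieces of the theorem
in the normalisation `e^{-i Φ(x)·ξ}`. -/

namespace Pool.Agent.N248.RR

open MeasureTheory Set ProbabilityTheory Complex
open scoped ENNReal NNReal RealInnerProductSpace

variable {n : ℕ}

/-- `L^s → L^q(W)` boundedness of the extension operator -/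
def Bdd (s₀ : ℝ) (U : Set (EuclideanSpace ℝ (Fin n))) (s : ℝ≥0∞) (q : ℝ)
    (W : Set (EuclideanSpace ℝ (Fin (n + 1)))) : Prop :=
  ∃ C : ℝ≥0, ∀ f : EuclideanSpace ℝ (Fin n) → ℂ, MemLp f s (volume.restrict U) →
    ∫⁻ x in W, ‖∫ ξ in U, ex (s₀ * ⟪Pool.Agent.R412.RT.Phi ξ, x⟫) * f ξ‖ₑ ^ q ≤
      C * eLpNorm f s (volume.restrict U) ^ q

/-- the random cubes -/
structure RC {d : ℕ} {Ω : Type*} [MeasurableSpace Ω] (P : Measure Ω) (A : (Fin d → ℤ) → Set Ω)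
    (a : ℝ) : Prop where
  meas : ∀ j, MeasurableSet (A j)
  indep : iIndepSet A P
  low : ∃ c : ℝ, 0 < c ∧ ∀ j, ENNReal.ofReal (c * (1 + ‖j‖) ^ (-a)) ≤ P (A j)
  up : ∃ c : ℝ, ∀ j, P (A j) ≤ ENNReal.ofReal (c * (1 + ‖j‖) ^ (-a))

theorem RC.up1 {d : ℕ} {Ω : Type*} [MeasurableSpace Ω] {P : Measure Ω}
    {A : (Fin d → ℤ) → Set Ω} {a : ℝ} (h : RC P A a) :
    ∃ c : ℝ, 1 ≤ c ∧ ∀ j, P (A j) ≤ ENNReal.ofReal (c * (1 + ‖j‖) ^ (-a)) := by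
  obtain ⟨c, hc⟩ := h.up
  refine ⟨max c 1, le_max_right _ _, fun j => (hc j).trans (ENNReal.ofReal_le_ofReal ?_)⟩
  refine mul_le_mul_of_nonneg_right (le_max_left _ _) ?_
  have := norm_nonneg j
  positivity

theorem RC.prod {d : ℕ} {Ω : Type*} [MeasurableSpace Ω] {P : Measure Ω}
    {A : (Fin d → ℤ) → Set Ω} {a : ℝ} (h : RC P A a) (T : Finset (Fin d → ℤ)) :
    P (⋂ j ∈ T, A j) ≤ ∏ j ∈ T, P (A j) := (h.indep.meas_biInter T).le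

/-- the case of `L²` -/
theorem bdd_two (hn : 1 ≤ n) (s₀ : ℝ) (hs₀ : s₀ ≠ 0)
    (U : Set (EuclideanSpace ℝ (Fin n))) (hU : MeasurableSet U) (hUc : U ⊆ cub n)
    {Ω : Type*} [MeasurableSpace Ω] (P : Measure Ω) (A : (Fin (n + 1) → ℤ) → Set Ω) (a : ℝ)
    (ha : 0 < a) (ha1 : a ≤ 1) (hA : RC P A a) :
    ∀ᵐ ω ∂P, ∀ s : ℝ≥0∞, 2 ≤ s → ∀ q : ℝ, (2 + 4 / n) - a * (4 / n) < q →
      Bdd s₀ U s q (⋃ j ∈ {j | ω ∈ A j}, uq j) := by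
  obtain ⟨c, hc1, hc⟩ := hA.up1
  have hUv : volume U ≠ ∞ := ((measure_mono hUc).trans_lt (cub_vol n).lt_top).ne
  have hfin : IsFiniteMeasure (volume.restrict U) :=
    ⟨by rw [Measure.restrict_apply_univ]; exact hUv.lt_top⟩
  have hn0 : (0 : ℝ) < n := by exact_mod_cast hn
  filter_upwards [para hn s₀ hs₀ P A a c ha ha1 hc1 hA.prod hc] with ω hω
  intro s hs q hq
  have hq0 : 0 < q := by
    have h1 : 0 < 4 / (n : ℝ) := by positivity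
    nlinarith
  obtain ⟨C, hC⟩ := hω q hq
  set K : ℝ≥0∞ := (volume.restrict U) univ ^ (1 / (2 : ℝ≥0∞).toReal - 1 / s.toReal) with hK
  have hexp : 0 ≤ 1 / (2 : ℝ≥0∞).toReal - 1 / s.toReal := by
    by_cases hst : s = ∞
    · rw [hst]; simp
    · have h1 : (2 : ℝ≥0∞).toReal ≤ s.toReal := ENNReal.toReal_mono hst hs
      rw [ENNReal.toReal_ofNat] at h1 ⊢
      rw [sub_nonneg]
      exact one_div_le_one_div_of_le (by norm_num) h1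
  have hKt : K ≠ ∞ := ENNReal.rpow_ne_top_of_nonneg hexp (measure_ne_top _ _)
  have hKq : K ^ q ≠ ∞ := ENNReal.rpow_ne_top_of_nonneg hq0.le hKt
  refine ⟨C * (K ^ q).toNNReal, fun f hf => ?_⟩
  rw [ENNReal.coe_mul, ENNReal.coe_toNNReal hKq]
  obtain ⟨F, hF1, hF2⟩ := fn_level s₀ U hU hUc f (hf.mono_exponent hs)
  have h1 := hC F
  simp_rw [hF2] at h1
  refine h1.trans ?_
  rw [mul_assoc, ← ENNReal.mul_rpow_of_nonneg _ _ hq0.le, hF1, mul_comm K]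
  refine mul_le_mul' le_rfl (ENNReal.rpow_le_rpow ?_ hq0.le)
  exact eLpNorm_le_eLpNorm_mul_rpow_measure_univ hs hf.1

/-- transference -/
theorem bdd_class (hn : 1 ≤ n) (s₀ : ℝ) (hs₀ : s₀ ≠ 0)
    (U : Set (EuclideanSpace ℝ (Fin n))) (hU : MeasurableSet U) (hUc : U ⊆ cub n)
    {Ω : Type*} [MeasurableSpace Ω] (P : Measure Ω) (A : (Fin (n + 1) → ℤ) → Set Ω) (a : ℝ)
    (ha : 0 < a) (ha1 : a ≤ 1) (hA : RC P A a) (s : ℝ≥0∞) (hs : 2 ≤ s) (p : ℝ) (hp : 2 ≤ p)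
    (hext : ∀ p', p < p' → Bdd s₀ U s p' univ) :
    ∀ᵐ ω ∂P, ∀ q : ℝ, p - a * (p - 2) < q → Bdd s₀ U s q (⋃ j ∈ {j | ω ∈ A j}, uq j) := by
  obtain ⟨c, hc1, hc⟩ := hA.up1
  have hk : ∀ k : ℕ, ∀ᵐ ω ∂P, ∀ q : ℝ, (p + 1 / (k + 1)) - a * ((p + 1 / (k + 1)) - 2) < q →
      Bdd s₀ U s q (⋃ j ∈ {j | ω ∈ A j}, uq j) := by
    intro k
    have hk0 : (0 : ℝ) < 1 / ((k : ℝ) + 1) := by positivity
    obtain ⟨C₀, hC₀⟩ := hext (p + 1 / (k + 1)) (by linarith)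
    simp_rw [setLIntegral_univ] at hC₀
    exact para_class hn s₀ hs₀ U hU hUc s hs (p + 1 / (k + 1)) (by linarith) C₀ hC₀ P A a c ha ha1
      hc1 hA.prod hc
  filter_upwards [ae_all_iff.2 hk] with ω hω
  intro q hq
  obtain ⟨k, hk⟩ := exists_nat_one_div_lt (show 0 < q - (p - a * (p - 2)) by linarith)
  refine hω k q ?_
  have hk0 : (0 : ℝ) < 1 / ((k : ℝ) + 1) := by positivity
  nlinarith

/-- the range for `L²` is sharp -/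
theorem not_bdd_two (hn : 1 ≤ n) (s₀ : ℝ)
    (U : Set (EuclideanSpace ℝ (Fin n))) (hU : MeasurableSet U)
    (ξ₀ : EuclideanSpace ℝ (Fin n)) (δ : ℝ) (hδ : 0 < δ) (hcU : cap ξ₀ δ ⊆ U)
    {Ω : Type*} [MeasurableSpace Ω] (P : Measure Ω) [IsProbabilityMeasure P]
    (A : (Fin (n + 1) → ℤ) → Set Ω) (a : ℝ)
    (ha : 0 < a) (ha1 : a ≤ 1) (hA : RC P A a) :
    ∀ᵐ ω ∂P, ∀ q : ℝ, 0 < q → q < (2 + 4 / n) - a * (4 / n) →
      ¬ Bdd s₀ U 2 q (⋃ j ∈ {j | ω ∈ A j}, uq j) := by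
  obtain ⟨c, hc0, hc⟩ := hA.low
  filter_upwards [sharp hn s₀ U hU ξ₀ δ hδ hcU P A hA.meas hA.indep a c ha ha1 hc0 hc] with ω hω
  intro q hq0 hq ⟨C, hC⟩
  obtain ⟨f, hf1, hf2⟩ := hω q hq0 hq C
  exact absurd (hC f hf1) (not_le.2 hf2)

/-- a necessary condition for `L^∞` -/
theorem not_bdd_top (hn : 1 ≤ n) (s₀ : ℝ) (hs₀ : s₀ ≠ 0)
    (U : Set (EuclideanSpace ℝ (Fin n))) (hUc : U ⊆ cub n)
    (ξ₀ : EuclideanSpace ℝ (Fin n)) (δ : ℝ) (hδ : 0 < δ) (hcU : cap ξ₀ δ ⊆ U)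
    {Ω : Type*} [MeasurableSpace Ω] (P : Measure Ω) [IsProbabilityMeasure P]
    (A : (Fin (n + 1) → ℤ) → Set Ω) (a : ℝ)
    (ha : 0 < a) (ha1 : a ≤ 1) (hA : RC P A a) :
    ∀ᵐ ω ∂P, ∀ (s : ℝ≥0∞) (q : ℝ), 0 < q → (n : ℝ) / 2 * q < n + 1 - a →
      ¬ Bdd s₀ U s q (⋃ j ∈ {j | ω ∈ A j}, uq j) := by
  obtain ⟨c, hc0, hc⟩ := hA.low
  have hUv : volume U ≠ ∞ := ((measure_mono hUc).trans_lt (cub_vol n).lt_top).ne
  have hfin : IsFiniteMeasure (volume.restrict U) :=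
    ⟨by rw [Measure.restrict_apply_univ]; exact hUv.lt_top⟩
  filter_upwards [para_diverge hn s₀ hs₀ ξ₀ δ hδ (hcU.trans hUc) P A hA.meas hA.indep a c ha ha1
    hc0 hc] with ω hω
  intro s q hq0 hq ⟨C, hC⟩
  have h1 := hω q hq0 hq
  have hf : MemLp ((cap ξ₀ δ).indicator fun _ => (1 : ℂ)) s (volume.restrict U) :=
    (memLp_const 1).indicator (cap_meas ξ₀ δ)
  have h2 := hC _ hf
  have h3 : ∀ x, ∫ ξ in U, ex (s₀ * ⟪Pool.Agent.R412.RT.Phi ξ, x⟫) *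
      (cap ξ₀ δ).indicator (fun _ => (1 : ℂ)) ξ =
      ∫ ξ in cap ξ₀ δ, ex (s₀ * ⟪Pool.Agent.R412.RT.Phi ξ, x⟫) := by
    intro x
    have h4 : ∀ ξ, ex (s₀ * ⟪Pool.Agent.R412.RT.Phi ξ, x⟫) *
        (cap ξ₀ δ).indicator (fun _ => (1 : ℂ)) ξ =
        (cap ξ₀ δ).indicator (fun ξ => ex (s₀ * ⟪Pool.Agent.R412.RT.Phi ξ, x⟫)) ξ := by
      intro ξ
      by_cases h : ξ ∈ cap ξ₀ δ
      · rw [indicator_of_mem h, indicator_of_mem h, mul_one]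
      · rw [indicator_of_notMem h, indicator_of_notMem h, mul_zero]
    simp_rw [h4]
    rw [setIntegral_indicator (cap_meas ξ₀ δ), inter_eq_right.2 hcU]
  simp_rw [h3] at h2
  rw [h1, top_le_iff] at h2
  exact ENNReal.mul_ne_top ENNReal.coe_ne_top (ENNReal.rpow_ne_top_of_nonneg hq0.le hf.2.ne) h2

end Pool.Agent.N248.RR
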