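import Mathlib
import Pool.Agent.N248.RR.H2
import Pool.Agent.N248.RR.N2
import Pool.Agent.H789R2.FR.L2
import Pool.Agent.H789R2.FR.Smooth
import Pool.Agent.H789R2.FR.Caps
set_option autoImplicit false

/-! Random regions for the sphere: energy and decay. -/

namespace Pool.Agent.N248.RR

open MeasureTheory Set Filter
open scoped ENNReal NNReal RealInnerProductSpace ComplexConjugate
open Pool.Agent.H789R2.FR (sg T sg_finite sg_ae L2_bound decay cap_lower)

variable {n : ℕ}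

instance sg_fin (n : ℕ) : IsFiniteMeasure (sg n) := sg_finite n

/-- the scaled sphere -/
noncomputable def sS (s : ℝ) (w : EuclideanSpace ℝ (Fin n)) : EuclideanSpace ℝ (Fin n) := s • w

theorem sS_meas (s : ℝ) : Measurable (sS (n := n) s) := measurable_const_smul s

theorem T_sS (s : ℝ) (g : EuclideanSpace ℝ (Fin n) → ℂ) (x : EuclideanSpace ℝ (Fin n)) :
    T g ((-s) • x) = ∫ w, ex ⟪sS s w, x⟫ * g w ∂(sg n) := by
  unfold T ex sS
  refine integral_congr_ae (Filter.Eventually.of_forall fun w => ?_)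
  simp only
  congr 3
  rw [inner_smul_left, inner_smul_left, real_inner_comm]
  simp

theorem bdd_energy (hn : 2 ≤ n) (s : ℝ) (hs : s ≠ 0) : ∃ L₀ : ℝ, 0 ≤ L₀ ∧
    ∀ g : EuclideanSpace ℝ (Fin n) → ℂ, Measurable g → (∃ M : ℝ, ∀ x, ‖g x‖ ≤ M) →
    ∀ (B : Set (EuclideanSpace ℝ (Fin n))), MeasurableSet B → ∀ (α : Fin n → ℝ) (τ : ℝ), 1 ≤ τ →
    (∀ x ∈ B, ∀ t, α t ≤ x t ∧ x t ≤ α t + τ) →
    ∫⁻ x in B, ‖∫ w, ex ⟪sS s w, x⟫ * g w ∂(sg n)‖ₑ ^ 2 ≤
      ENNReal.ofReal (L₀ * τ) * ∫⁻ w, ‖g w‖ₑ ^ 2 ∂(sg n) := by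
  obtain ⟨C, hC0, hC⟩ := L2_bound n hn
  have hs0 : 0 < |s| := abs_pos.2 hs
  have hn0 : (0 : ℝ) < n := by
    have : 0 < n := by omega
    exact_mod_cast this
  refine ⟨Real.exp 1 * (|s| ^ n)⁻¹ * (C * (|s| * Real.sqrt n)), by positivity, ?_⟩
  intro g hg ⟨M, hM⟩ B hB α τ hτ hBα
  have hM0 : 0 ≤ M := (norm_nonneg _).trans (hM 0)
  have hτ0 : 0 < τ := by linarith
  simp_rw [← T_sS]
  set u : EuclideanSpace ℝ (Fin n) := WithLp.toLp 2 α with hu
  set l : ℝ := |s| * Real.sqrt n * τ with hl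
  have hl0 : 0 < l := by
    have := Real.sqrt_pos.2 hn0
    positivity
  set v : EuclideanSpace ℝ (Fin n) := (-s) • u with hv
  set F : EuclideanSpace ℝ (Fin n) → ℝ := fun y => Real.exp (-‖y - v‖ ^ 2 / l ^ 2) * ‖T g y‖ ^ 2
    with hF
  have hTm : Measurable (T g) := (Pool.Agent.H789R2.FR.L2.measurable_T g hg).measurable
  have hTb : ∀ y, ‖T g y‖ ≤ M * (sg n).real univ :=
    fun y => Pool.Agent.H789R2.FR.L2.norm_T_le g M hM y
  have hFi : Integrable F := by
    have h1 := (Pool.Agent.H789R2.FR.L2.integrable_W (n := n) hl0).comp_sub_right v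
    refine Integrable.mono' (h1.const_mul ((M * (sg n).real univ) ^ 2)) ?_
      (Filter.Eventually.of_forall fun y => ?_)
    · refine Measurable.aestronglyMeasurable ?_
      exact (by fun_prop : Measurable fun y : EuclideanSpace ℝ (Fin n) =>
        Real.exp (-‖y - v‖ ^ 2 / l ^ 2)).mul (hTm.norm.pow_const 2)
    · simp only [hF]
      rw [Real.norm_eq_abs, abs_of_nonneg (by positivity), mul_comm]
      unfold Pool.Agent.H789R2.FR.L2.W
      exact mul_le_mul_of_nonneg_right (pow_le_pow_left₀ (norm_nonneg _) (hTb y) 2) (by positivity)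
  have hgi : Integrable (fun w => ‖g w‖ ^ 2) (sg n) :=
    Integrable.of_bound (C := M ^ 2) (hg.norm.pow_const 2).aestronglyMeasurable
      (Filter.Eventually.of_forall fun w => by
        rw [norm_pow, norm_norm]
        exact pow_le_pow_left₀ (norm_nonneg _) (hM w) 2)
  have h1 : ∫⁻ x in B, ‖T g ((-s) • x)‖ₑ ^ 2 ≤
      ∫⁻ x, ENNReal.ofReal (Real.exp 1 * F ((-s) • x)) := by
    refine le_trans ?_ (setLIntegral_le_lintegral B _)
    refine setLIntegral_mono' hB fun x hx => ?_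
    rw [← ofReal_norm, ← ENNReal.ofReal_pow (norm_nonneg _)]
    refine ENNReal.ofReal_le_ofReal ?_
    have h2 : ‖(-s) • x - v‖ ^ 2 ≤ l ^ 2 := by
      rw [hv, ← smul_sub, norm_smul, norm_neg, Real.norm_eq_abs, mul_pow, hl, mul_assoc, mul_pow]
      refine mul_le_mul_of_nonneg_left ?_ (by positivity)
      rw [EuclideanSpace.norm_sq_eq, mul_pow, Real.sq_sqrt hn0.le]
      calc ∑ i : Fin n, ‖(x - u) i‖ ^ 2 ≤ ∑ _i : Fin n, τ ^ 2 := by
            refine Finset.sum_le_sum fun i _ => ?_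
            have h3 := hBα x hx i
            have h4 : (x - u) i = x i - α i := rfl
            rw [h4, Real.norm_eq_abs, abs_of_nonneg (by linarith [h3.1])]
            exact pow_le_pow_left₀ (by linarith [h3.1]) (by linarith [h3.2]) 2
        _ = n * τ ^ 2 := by
            rw [Finset.sum_const, Finset.card_univ, Fintype.card_fin, nsmul_eq_mul]
    have h5 : Real.exp (-1) ≤ Real.exp (-‖(-s) • x - v‖ ^ 2 / l ^ 2) := by
      refine Real.exp_le_exp.2 ?_
      rw [neg_div, neg_le_neg_iff, div_le_one (by positivity)]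
      exact h2
    have h6 : Real.exp 1 * Real.exp (-1) = 1 := by rw [← Real.exp_add]; norm_num
    simp only [hF]
    calc ‖T g ((-s) • x)‖ ^ 2 = Real.exp 1 * (Real.exp (-1) * ‖T g ((-s) • x)‖ ^ 2) := by
          rw [← mul_assoc, h6, one_mul]
      _ ≤ _ := mul_le_mul_of_nonneg_left (mul_le_mul_of_nonneg_right h5 (by positivity))
          (Real.exp_pos 1).le
  refine h1.trans ?_
  have hFs : Integrable fun x => Real.exp 1 * F ((-s) • x) :=
    (hFi.comp_smul (neg_ne_zero.2 hs)).const_mul _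
  rw [← ofReal_integral_eq_lintegral_ofReal hFs (Filter.Eventually.of_forall fun x => by
    simp only [hF]; positivity)]
  rw [integral_const_mul, Measure.integral_comp_smul volume F (-s), finrank_euclideanSpace,
    Fintype.card_fin, smul_eq_mul]
  have h7 := hC g hg ⟨M, hM⟩ l hl0 v
  have h8 : ∫⁻ w, ‖g w‖ₑ ^ 2 ∂(sg n) = ENNReal.ofReal (∫ w, ‖g w‖ ^ 2 ∂(sg n)) := by
    rw [ofReal_integral_eq_lintegral_ofReal hgi (Filter.Eventually.of_forall fun w => by
      positivity)]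
    refine lintegral_congr fun w => ?_
    rw [ENNReal.ofReal_pow (norm_nonneg _), ofReal_norm]
  rw [h8, ← ENNReal.ofReal_mul (by positivity)]
  refine ENNReal.ofReal_le_ofReal ?_
  have h9 : |((-s) ^ n)⁻¹| = (|s| ^ n)⁻¹ := by rw [abs_inv, abs_pow, abs_neg]
  rw [h9]
  have h10 : 0 ≤ ∫ w, ‖g w‖ ^ 2 ∂(sg n) := integral_nonneg fun w => by positivity
  calc Real.exp 1 * ((|s| ^ n)⁻¹ * ∫ y, F y)
      ≤ Real.exp 1 * ((|s| ^ n)⁻¹ * (C * l * ∫ w, ‖g w‖ ^ 2 ∂(sg n))) := by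
        refine mul_le_mul_of_nonneg_left ?_ (Real.exp_pos 1).le
        exact mul_le_mul_of_nonneg_left h7 (by positivity)
    _ = _ := by rw [hl]; ring

theorem sph_energy (hn : 2 ≤ n) (s : ℝ) (hs : s ≠ 0) : ∃ L₀ : ℝ, 0 ≤ L₀ ∧
    CEnergy (sg n) (sS s) (sS_meas s) (id : Fin n → Fin n) L₀ := by
  obtain ⟨L₀, hL₀, hE⟩ := bdd_energy hn s hs
  refine ⟨L₀, hL₀, ?_⟩
  intro f B hB α τ hτ hBα
  simp_rw [ps_inner]
  have hfm : Measurable (f : EuclideanSpace ℝ (Fin n) → ℂ) := (Lp.stronglyMeasurable f).measurable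
  have hfi : Integrable (f : EuclideanSpace ℝ (Fin n) → ℂ) (sg n) :=
    (Lp.memLp f).integrable (by norm_num)
  -- truncations
  set g : ℕ → EuclideanSpace ℝ (Fin n) → ℂ := fun k => {w | ‖f w‖ ≤ k}.indicator f with hg
  have hSm : ∀ k : ℕ, MeasurableSet {w | ‖f w‖ ≤ k} := fun k =>
    measurableSet_le hfm.norm measurable_const
  have hgm : ∀ k, Measurable (g k) := fun k => hfm.indicator (hSm k)
  have hgb : ∀ k, ∀ w, ‖g k w‖ ≤ k := by
    intro k w
    simp only [hg]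
    by_cases h : w ∈ {w | ‖f w‖ ≤ k}
    · rw [indicator_of_mem h]; exact h
    · rw [indicator_of_notMem h, norm_zero]; exact Nat.cast_nonneg k
  have hgf : ∀ k, ∀ w, ‖g k w‖ ≤ ‖f w‖ := by
    intro k w
    simp only [hg]
    by_cases h : w ∈ {w | ‖f w‖ ≤ k}
    · rw [indicator_of_mem h]
    · rw [indicator_of_notMem h, norm_zero]; exact norm_nonneg _
  have hlim : ∀ x, Tendsto (fun k => ∫ w, ex ⟪sS s w, x⟫ * g k w ∂(sg n)) atTop
      (nhds (∫ w, ex ⟪sS s w, x⟫ * f w ∂(sg n))) := by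
    intro x
    refine tendsto_integral_of_dominated_convergence (fun w => ‖f w‖) (fun k => ?_) hfi.norm
      (fun k => Filter.Eventually.of_forall fun w => ?_) (Filter.Eventually.of_forall fun w => ?_)
    · exact ((ex_cont.measurable.comp ((sS_meas s).inner measurable_const)).mul
        (hgm k)).aestronglyMeasurable
    · rw [norm_mul, ex_norm, one_mul]
      exact hgf k w
    · refine tendsto_const_nhds.congr' ?_
      obtain ⟨k₀, hk₀⟩ := exists_nat_ge ‖f w‖
      filter_upwards [eventually_ge_atTop k₀] with k hk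
      have h : w ∈ {w | ‖f w‖ ≤ k} := hk₀.trans (by exact_mod_cast hk)
      simp only [hg]
      rw [indicator_of_mem h]
  have hnorm : ENNReal.ofReal (‖f‖ ^ 2) = ∫⁻ w, ‖f w‖ₑ ^ 2 ∂(sg n) := by
    have h1 : ‖f‖ₑ = eLpNorm f 2 (sg n) := Lp.enorm_def f
    rw [ENNReal.ofReal_pow (norm_nonneg _), ofReal_norm, h1,
      eLpNorm_eq_lintegral_rpow_enorm_toReal (by norm_num) (by norm_num), ENNReal.toReal_ofNat,
      ← ENNReal.rpow_natCast, ← ENNReal.rpow_mul]
    norm_num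
  have hmeas : ∀ k, Measurable fun x => ‖∫ w, ex ⟪sS s w, x⟫ * g k w ∂(sg n)‖ₑ ^ 2 := by
    intro k
    have h : StronglyMeasurable (fun p : EuclideanSpace ℝ (Fin n) × EuclideanSpace ℝ (Fin n) =>
        ex ⟪sS s p.2, p.1⟫ * g k p.2) :=
      ((ex_cont.measurable.comp (((sS_meas s).comp measurable_snd).inner measurable_fst)).mul
        ((hgm k).comp measurable_snd)).stronglyMeasurable
    exact h.integral_prod_right'.measurable.enorm.pow_const 2
  calc ∫⁻ x in B, ‖∫ w, ex ⟪sS s w, x⟫ * f w ∂(sg n)‖ₑ ^ 2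
      = ∫⁻ x in B, liminf (fun k => ‖∫ w, ex ⟪sS s w, x⟫ * g k w ∂(sg n)‖ₑ ^ 2) atTop := by
        refine lintegral_congr fun x => ?_
        exact (Tendsto.liminf_eq (((ENNReal.continuous_pow 2).tendsto _).comp
          ((continuous_enorm.tendsto _).comp (hlim x)))).symm
    _ ≤ liminf (fun k => ∫⁻ x in B, ‖∫ w, ex ⟪sS s w, x⟫ * g k w ∂(sg n)‖ₑ ^ 2) atTop :=
        lintegral_liminf_le hmeas
    _ ≤ liminf (fun _ : ℕ => ENNReal.ofReal (L₀ * τ) * ENNReal.ofReal (‖f‖ ^ 2)) atTop := by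
        refine liminf_le_liminf (Filter.Eventually.of_forall fun k => ?_)
        refine (hE (g k) (hgm k) ⟨k, hgb k⟩ B hB α τ hτ hBα).trans (mul_le_mul' le_rfl ?_)
        rw [hnorm]
        refine lintegral_mono fun w => ?_
        refine pow_le_pow_left' ?_ 2
        rw [← ofReal_norm, ← ofReal_norm]
        exact ENNReal.ofReal_le_ofReal (hgf k w)
    _ = _ := by simp

theorem sph_decay (hn : 2 ≤ n) (s : ℝ) (hs : s ≠ 0) : ∃ L₀ : ℝ, 0 ≤ L₀ ∧
    ∀ x : EuclideanSpace ℝ (Fin n), x ≠ 0 →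
      ‖∫ w, ex ⟪sS s w, x⟫ ∂(sg n)‖ ≤ L₀ * ‖x‖ ^ (-(((n : ℝ) - 1) / 2)) := by
  obtain ⟨C, hC0, hC⟩ := decay n hn
  have hs0 : 0 < |s| := abs_pos.2 hs
  refine ⟨C * |s| ^ (-(((n : ℝ) - 1) / 2)), by positivity, fun x hx => ?_⟩
  have h1 := hC ((-s) • x) (smul_ne_zero (neg_ne_zero.2 hs) hx)
  rw [T_sS] at h1
  simp_rw [mul_one] at h1
  refine h1.trans (le_of_eq ?_)
  rw [norm_smul, norm_neg, Real.norm_eq_abs, Real.mul_rpow (abs_nonneg _) (norm_nonneg _)]
  rw [show -((n : ℝ) - 1) / 2 = -(((n : ℝ) - 1) / 2) by ring]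
  ring

theorem sph_near (hn : 2 ≤ n) (s : ℝ) (hs : s ≠ 0) : ∃ c₀ : ℝ, 0 < c₀ ∧ ∀ R : ℝ, 1 ≤ R →
    c₀ * R ^ (-((n : ℝ) - 1)) ≤
      ((sg n).prod (sg n)).real {q | ‖sS s q.1 - sS s q.2‖ * R ≤ 1} := by
  obtain ⟨c, hc0, hc⟩ := cap_lower n hn
  have hs0 : 0 < |s| := abs_pos.2 hs
  set κ₀ : ℝ := min 1 (1 / |s|) with hκ₀
  have hκ₀0 : 0 < κ₀ := by positivity
  obtain ⟨e, he⟩ := Pool.Agent.H789R2.FR.exists_unit n hn
  set σ₀ : ℝ := (sg n).real univ with hσ₀
  have hσ₀0 : 0 < σ₀ := by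
    have h1 := hc 1 one_pos le_rfl e he
    have h2 : (sg n).real {w | ‖e - w‖ < 1} ≤ σ₀ := measureReal_mono (subset_univ _)
    have h3 : 0 < c * 1 ^ (n - 1) := by positivity
    linarith
  refine ⟨σ₀ * (c * κ₀ ^ (n - 1)), by positivity, ?_⟩
  intro R hR
  have hR0 : 0 < R := by linarith
  set κ : ℝ := κ₀ / R with hκ
  have hκ0 : 0 < κ := by positivity
  have hκ1 : κ ≤ 1 := (div_le_self hκ₀0.le hR).trans (min_le_left _ _)
  have hκs : |s| * κ * R ≤ 1 := by
    have h1 : κ₀ ≤ 1 / |s| := min_le_right _ _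
    rw [le_div_iff₀ hs0] at h1
    rw [hκ]
    field_simp
    linarith
  set S : Set (EuclideanSpace ℝ (Fin n) × EuclideanSpace ℝ (Fin n)) :=
    {q | ‖sS s q.1 - sS s q.2‖ * R ≤ 1} with hS
  have hSm : MeasurableSet S := by
    refine measurableSet_le ?_ measurable_const
    exact ((((sS_meas s).comp measurable_fst).sub ((sS_meas s).comp measurable_snd)).norm).mul_const R
  have h1 : ENNReal.ofReal (σ₀ * (c * κ ^ (n - 1))) ≤ ((sg n).prod (sg n)) S := by
    rw [Measure.prod_apply hSm]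
    calc ENNReal.ofReal (σ₀ * (c * κ ^ (n - 1)))
        = ∫⁻ _ : EuclideanSpace ℝ (Fin n), ENNReal.ofReal (c * κ ^ (n - 1)) ∂(sg n) := by
          rw [lintegral_const, mul_comm σ₀, ENNReal.ofReal_mul (by positivity), hσ₀,
            ofReal_measureReal]
      _ ≤ _ := by
          refine lintegral_mono_ae ?_
          filter_upwards [sg_ae n] with w hw
          have h2 := hc κ hκ0 hκ1 w hw
          have h3 : {w' | ‖w - w'‖ < κ} ⊆ Prod.mk w ⁻¹' S := by
            intro w' hw'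
            show ‖sS s w - sS s w'‖ * R ≤ 1
            unfold sS
            rw [← smul_sub, norm_smul, Real.norm_eq_abs]
            have h4 : ‖w - w'‖ < κ := hw'
            calc |s| * ‖w - w'‖ * R ≤ |s| * κ * R := by
                  refine mul_le_mul_of_nonneg_right ?_ hR0.le
                  exact mul_le_mul_of_nonneg_left h4.le (abs_nonneg s)
              _ ≤ 1 := hκs
          refine le_trans ?_ (measure_mono h3)
          rw [← ofReal_measureReal (measure_ne_top _ _)]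
          exact ENNReal.ofReal_le_ofReal h2
  rw [Measure.real]
  refine (ENNReal.ofReal_le_iff_le_toReal (measure_ne_top _ _)).1 (le_trans (le_of_eq ?_) h1)
  congr 1
  have h5 : R ^ (-((n : ℝ) - 1)) = (R ^ (n - 1))⁻¹ := by
    rw [Real.rpow_neg hR0.le, ← Real.rpow_natCast, Nat.cast_sub (by omega)]
    push_cast
    rfl
  rw [h5, hκ, div_pow]
  ring

end Pool.Agent.N248.RR
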