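import Mathlib
import Pool.Agent.N248.RR.S1
set_option autoImplicit false

/-! Random regions for the sphere: sharpness. -/

namespace Pool.Agent.N248.RR

open MeasureTheory Set ProbabilityTheory Filter
open scoped ENNReal NNReal RealInnerProductSpace ComplexConjugate

section gen

variable {d : ℕ} {Y : Type*} [MeasurableSpace Y] (μ : Measure Y) [IsFiniteMeasure μ]
  (Φ : Y → EuclideanSpace ℝ (Fin d))

/-- sharpness for `L²` from caps and dual tubes -/
theorem sharp_gen (K : ℕ → Set Y) (hKm : ∀ k, MeasurableSet (K k))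
    (J : ℕ → Finset (Fin d → ℤ)) (c₀ D : ℝ) (hc₀ : 0 < c₀) (hD : 1 ≤ D) (hd1 : (1 : ℝ) ≤ d)
    (hK : ∀ k, c₀ * ((2 : ℝ) ^ k) ^ (-((d : ℝ) - 1)) ≤ μ.real (K k))
    (hJc : ∀ k, c₀ * ((2 : ℝ) ^ k) ^ ((d : ℝ) + 1) ≤ (J k).card)
    (hJn : ∀ k, ∀ j ∈ J k, 1 + ‖j‖ ≤ D * 4 ^ k)
    (hJx : ∀ k, ∀ j ∈ J k, ∀ x ∈ uq j,
      μ.real (K k) / 2 ≤ ‖∫ y in K k, ex ⟪Φ y, x⟫ ∂μ‖)
    {Ω : Type*} [MeasurableSpace Ω] (P : Measure Ω) [IsProbabilityMeasure P]
    (A : (Fin d → ℤ) → Set Ω) (hAm : ∀ j, MeasurableSet (A j)) (hind : iIndepSet A P)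
    (a c : ℝ) (ha : 0 < a) (ha1 : a ≤ 1) (hc : 0 < c)
    (hp : ∀ j, ENNReal.ofReal (c * (1 + ‖j‖) ^ (-a)) ≤ P (A j)) :
    ∀ᵐ ω ∂P, ∀ q : ℝ, 0 < q → ((d : ℝ) - 1) * q / 2 < d + 1 - 2 * a → ∀ C : ℝ≥0,
      ∃ f : Y → ℂ, MemLp f 2 μ ∧ C * eLpNorm f 2 μ ^ q <
        ∫⁻ x in ⋃ j ∈ {j | ω ∈ A j}, uq j, ‖∫ y, ex ⟪Φ y, x⟫ * f y ∂μ‖ₑ ^ q := by
  classical
  set p : ℕ → ℝ := fun k => c * (D * 4 ^ k) ^ (-a) with hpd
  have hp0 : ∀ k, 0 < p k := fun k => by positivity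
  set β : ℝ := (d : ℝ) + 1 - 2 * a with hβ
  have hβ0 : 0 ≤ β := by rw [hβ]; linarith
  set c₁ : ℝ := c₀ * (c * D ^ (-a)) with hc₁
  have hc₁0 : 0 < c₁ := by positivity
  have hm : ∀ k, c₁ * ((2 : ℝ) ^ k) ^ β ≤ (J k).card * p k := by
    intro k
    have h2k : (0 : ℝ) < 2 ^ k := by positivity
    have e2 : (4 : ℝ) ^ k = ((2 : ℝ) ^ k) ^ (2 : ℝ) := by
      rw [Real.rpow_two, ← pow_mul, mul_comm k 2, pow_mul]; norm_num
    calc c₁ * ((2 : ℝ) ^ k) ^ β = (c₀ * ((2 : ℝ) ^ k) ^ ((d : ℝ) + 1)) * p k := by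
          simp only [hpd]
          rw [Real.mul_rpow (by linarith) (by positivity), e2, ← Real.rpow_mul h2k.le, hβ,
            sub_eq_add_neg, Real.rpow_add h2k, hc₁]
          rw [show (2 : ℝ) * -a = -(2 * a) by ring]
          ring
      _ ≤ _ := mul_le_mul_of_nonneg_right (hJc k) (hp0 k).le
  -- we need a positive exponent for the Borel-Cantelli lemma
  have hβ1 : 0 < β ∨ β = 0 := hβ0.lt_or_eq.imp id Eq.symm
  rcases hβ1 with hβ1 | hβ1
  swap
  · refine Filter.Eventually.of_forall fun ω q hq0 hq => ?_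
    exfalso
    have : 0 ≤ ((d : ℝ) - 1) * q / 2 := by
      have : 0 ≤ (d : ℝ) - 1 := by linarith
      positivity
    linarith
  set ρ : ℝ := (2 : ℝ) ^ (-β) with hρ
  have hρ0 : 0 < ρ := by positivity
  have hρ1 : ρ < 1 := Real.rpow_lt_one_of_one_lt_of_neg (by norm_num) (by linarith)
  set F : ℕ → Set Ω := fun k =>
    {ω | ∑ j ∈ J k, (A j).indicator (fun _ => (1 : ℝ)) ω < ((J k).card * p k) / 2} with hF
  have hFP : ∀ k, P (F k) ≤ ENNReal.ofReal (4 / c₁ * ρ ^ k) := by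
    intro k
    have h2k : (0 : ℝ) < 2 ^ k := by positivity
    have hcard : (0 : ℝ) < (J k).card := by
      have h1 := hJc k
      have h2 : 0 < c₀ * ((2 : ℝ) ^ k) ^ ((d : ℝ) + 1) := by positivity
      linarith
    have hne : (J k).Nonempty := Finset.card_pos.1 (by exact_mod_cast hcard)
    have h1 := many P A hAm hind (J k) (p k) (hp0 k) hne (by
      intro j hj
      have h2 := hJn k j hj
      have h3 := hp j
      rw [Measure.real, ← ENNReal.ofReal_le_iff_le_toReal (measure_ne_top _ _)]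
      refine le_trans (ENNReal.ofReal_le_ofReal ?_) h3
      simp only [hpd]
      refine mul_le_mul_of_nonneg_left ?_ hc.le
      exact Real.rpow_le_rpow_of_nonpos (by linarith [norm_nonneg j]) h2 (by linarith))
    refine h1.trans (ENNReal.ofReal_le_ofReal ?_)
    have h4 : ρ ^ k = (((2 : ℝ) ^ k) ^ β)⁻¹ := by
      rw [hρ, ← Real.rpow_natCast, ← Real.rpow_mul (by norm_num), ← Real.rpow_natCast 2 k,
        ← Real.rpow_mul (by norm_num), ← Real.rpow_neg (by norm_num)]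
      congr 1
      ring
    rw [h4, ← div_eq_mul_inv, div_div]
    exact div_le_div_of_nonneg_left (by norm_num) (by positivity) (hm k)
  have hsum : (∑' k, P (F k)) ≠ ∞ := by
    refine ne_top_of_le_ne_top ?_ (ENNReal.tsum_le_tsum hFP)
    exact ((summable_geometric_of_lt_one hρ0.le hρ1).mul_left _).tsum_ofReal_ne_top
  filter_upwards [ae_eventually_notMem hsum] with ω hω
  obtain ⟨k₀, hk₀⟩ := eventually_atTop.1 hω
  intro r hr0 hr C
  set κ : ℝ := β - ((d : ℝ) - 1) * r / 2 with hκ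
  have hκ0 : 0 < κ := by rw [hκ]; linarith
  set c₂ : ℝ := c₁ / 2 * (1 / 2) ^ r * c₀ ^ (r / 2) with hc₂
  have hc₂0 : 0 < c₂ := by positivity
  have htend : Tendsto (fun k : ℕ => c₂ * ((2 : ℝ) ^ κ) ^ k) atTop atTop :=
    (tendsto_pow_atTop_atTop_of_one_lt (Real.one_lt_rpow (by norm_num) hκ0)).const_mul_atTop hc₂0
  obtain ⟨k, hk1, hk2⟩ := ((htend.eventually_gt_atTop (C : ℝ)).and
    (eventually_ge_atTop k₀)).exists
  have hωk : ω ∉ F k := hk₀ k hk2
  simp only [hF, mem_ofPred_eq, not_lt] at hωk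
  have h2k : (0 : ℝ) < 2 ^ k := by positivity
  set v : ℝ := μ.real (K k) with hv
  have hvl : c₀ * ((2 : ℝ) ^ k) ^ (-((d : ℝ) - 1)) ≤ v := hK k
  have hv0 : 0 < v := lt_of_lt_of_le (by positivity) hvl
  have hKv : μ (K k) = ENNReal.ofReal v := by rw [hv, ofReal_measureReal (measure_ne_top _ _)]
  have hint : ∀ x, ∫ y, ex ⟪Φ y, x⟫ * (K k).indicator (fun _ => (1 : ℂ)) y ∂μ =
      ∫ y in K k, ex ⟪Φ y, x⟫ ∂μ := by
    intro x
    rw [← integral_indicator (hKm k)]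
    refine integral_congr_ae (Filter.Eventually.of_forall fun y => ?_)
    simp only
    by_cases h : y ∈ K k
    · rw [indicator_of_mem h, indicator_of_mem h, mul_one]
    · rw [indicator_of_notMem h, indicator_of_notMem h, mul_zero]
  refine ⟨(K k).indicator fun _ => (1 : ℂ), memLp_indicator_const 2 (hKm k) 1
    (Or.inr (measure_ne_top _ _)), ?_⟩
  simp_rw [hint]
  rw [eLpNorm_indicator_const (hKm k) (by norm_num) (by norm_num), hKv]
  simp only [enorm_one, one_mul, ENNReal.toReal_ofNat]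
  rw [← ENNReal.rpow_mul, ENNReal.ofReal_rpow_of_pos hv0]
  set Jk : Finset (Fin d → ℤ) := (J k).filter fun j => ω ∈ A j with hJk
  have hJkc : (Jk.card : ℝ) = ∑ j ∈ J k, (A j).indicator (fun _ => (1 : ℝ)) ω := by
    rw [hJk, Finset.card_filter]
    push_cast
    refine Finset.sum_congr rfl fun j _ => ?_
    by_cases h : ω ∈ A j
    · rw [indicator_of_mem h, if_pos h]
    · rw [indicator_of_notMem h, if_neg h]
  have hlow : ENNReal.ofReal ((Jk.card : ℝ) * (v / 2) ^ r) ≤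
      ∫⁻ x in ⋃ j ∈ {j | ω ∈ A j}, uq j, ‖∫ y in K k, ex ⟪Φ y, x⟫ ∂μ‖ₑ ^ r := by
    have h1 : (⋃ j ∈ Jk, uq j) ⊆ ⋃ j ∈ {j | ω ∈ A j}, uq j := by
      intro x hx
      rw [mem_iUnion₂] at hx ⊢
      obtain ⟨j, hj, hxj⟩ := hx
      exact ⟨j, (Finset.mem_filter.1 hj).2, hxj⟩
    refine le_trans ?_ (lintegral_mono_set h1)
    rw [lintegral_biUnion_finset (fun j _ k _ hjk => uq_disj _ _ hjk) (fun j _ => uq_meas _)]
    rw [ENNReal.ofReal_mul (Nat.cast_nonneg _), ENNReal.ofReal_natCast, ← nsmul_eq_mul,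
      ← Finset.sum_const]
    refine Finset.sum_le_sum fun j hj => ?_
    calc ENNReal.ofReal ((v / 2) ^ r) = ∫⁻ _ in uq j, ENNReal.ofReal ((v / 2) ^ r) := by
          rw [setLIntegral_const, uq_vol, mul_one]
      _ ≤ _ := by
          refine setLIntegral_mono' (uq_meas j) fun x hx => ?_
          have h3 := hJx k j (Finset.mem_filter.1 hj).1 x hx
          rw [← ENNReal.ofReal_rpow_of_nonneg (by positivity) hr0.le]
          refine ENNReal.rpow_le_rpow ?_ hr0.le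
          rw [← ofReal_norm]
          exact ENNReal.ofReal_le_ofReal h3
  refine lt_of_lt_of_le ?_ hlow
  rw [← ENNReal.ofReal_coe_nnreal, ← ENNReal.ofReal_mul (NNReal.coe_nonneg C)]
  rw [ENNReal.ofReal_lt_ofReal_iff_of_nonneg (by positivity)]
  have hvr : v ^ r = v ^ (r / 2) * v ^ (r / 2) := by
    rw [← Real.rpow_add hv0]
    congr 1
    ring
  have hvk2 : c₀ ^ (r / 2) * ((2 : ℝ) ^ k) ^ (-(((d : ℝ) - 1) * r / 2)) ≤ v ^ (r / 2) := by
    calc c₀ ^ (r / 2) * ((2 : ℝ) ^ k) ^ (-(((d : ℝ) - 1) * r / 2)) =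
          (c₀ * ((2 : ℝ) ^ k) ^ (-((d : ℝ) - 1))) ^ (r / 2) := by
          rw [Real.mul_rpow hc₀.le (by positivity), ← Real.rpow_mul h2k.le]
          congr 2
          ring
      _ ≤ _ := Real.rpow_le_rpow (by positivity) hvl (by positivity)
  have h5 : c₂ * ((2 : ℝ) ^ κ) ^ k ≤ (Jk.card : ℝ) * ((1 / 2) ^ r * v ^ (r / 2)) := by
    have h6 : ((2 : ℝ) ^ κ) ^ k = ((2 : ℝ) ^ k) ^ β *
        ((2 : ℝ) ^ k) ^ (-(((d : ℝ) - 1) * r / 2)) := by
      rw [← Real.rpow_add h2k, ← Real.rpow_natCast, ← Real.rpow_mul (by norm_num),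
        ← Real.rpow_natCast 2 k, ← Real.rpow_mul (by norm_num), hκ]
      congr 1
      ring
    have h7 : c₁ * ((2 : ℝ) ^ k) ^ β / 2 ≤ Jk.card := by
      rw [hJkc]
      have := hm k
      linarith
    calc c₂ * ((2 : ℝ) ^ κ) ^ k = (c₁ * ((2 : ℝ) ^ k) ^ β / 2) * ((1 / 2) ^ r *
          (c₀ ^ (r / 2) * ((2 : ℝ) ^ k) ^ (-(((d : ℝ) - 1) * r / 2)))) := by
          rw [h6, hc₂]
          ring
      _ ≤ _ := by
          refine mul_le_mul h7 ?_ (by positivity) (Nat.cast_nonneg _)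
          exact mul_le_mul_of_nonneg_left hvk2 (by positivity)
  have h8 : (v / 2) ^ r = (1 / 2) ^ r * v ^ (r / 2) * v ^ (r / 2) := by
    rw [div_eq_mul_one_div, Real.mul_rpow hv0.le (by norm_num), hvr]
    ring
  rw [h8, show (1 / 2 * r : ℝ) = r / 2 by ring]
  calc (C : ℝ) * v ^ (r / 2) < (c₂ * ((2 : ℝ) ^ κ) ^ k) * v ^ (r / 2) :=
        mul_lt_mul_of_pos_right hk1 (by positivity)
    _ ≤ ((Jk.card : ℝ) * ((1 / 2) ^ r * v ^ (r / 2))) * v ^ (r / 2) :=
        mul_le_mul_of_nonneg_right h5 (by positivity)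
    _ = _ := by ring

end gen

open Pool.Agent.H789R2.FR (sg T sg_finite sg_ae L2_bound decay cap_lower)

variable {n : ℕ}

/-- the cubes in the dual tube -/
noncomputable def sJ (i₀ : Fin n) (k : ℕ) : Finset (Fin n → ℤ) :=
  Fintype.piFinset fun i => if i = i₀ then Finset.Ico (0 : ℤ) (4 ^ k) else Finset.Ico (0 : ℤ) (2 ^ k)

theorem sJ_card (i₀ : Fin n) (k : ℕ) :
    ((sJ i₀ k).card : ℝ) = ((2 : ℝ) ^ k) ^ ((n : ℝ) + 1) := by
  unfold sJ
  rw [Fintype.card_piFinset]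
  have h1 : ∀ i : Fin n, (if i = i₀ then Finset.Ico (0 : ℤ) (4 ^ k)
      else Finset.Ico (0 : ℤ) (2 ^ k)).card = 2 ^ k * if i = i₀ then 2 ^ k else 1 := by
    intro i
    have e1 : ((2 : ℤ) ^ k - 0).toNat = 2 ^ k := by
      rw [sub_zero]
      exact_mod_cast Int.toNat_natCast (2 ^ k)
    have e2 : ((4 : ℤ) ^ k - 0).toNat = 4 ^ k := by
      rw [sub_zero]
      exact_mod_cast Int.toNat_natCast (4 ^ k)
    split_ifs with h
    · rw [Int.card_Ico, e2, ← mul_pow]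
      norm_num
    · rw [Int.card_Ico, e1, mul_one]
  simp_rw [h1]
  rw [Finset.prod_mul_distrib, Finset.prod_const, Finset.card_univ, Fintype.card_fin,
    Finset.prod_ite_eq' Finset.univ i₀ (fun _ => 2 ^ k), if_pos (Finset.mem_univ _)]
  push_cast
  have h2k : (0 : ℝ) < 2 ^ k := by positivity
  rw [Real.rpow_add h2k, Real.rpow_natCast, Real.rpow_one]

theorem sJ_prop (i₀ : Fin n) (k : ℕ) (j : Fin n → ℤ) (hj : j ∈ sJ i₀ k) :
    1 + ‖j‖ ≤ 2 * 4 ^ k ∧ ∀ x ∈ uq j, |x i₀| ≤ 4 ^ k ∧ ∀ i, i ≠ i₀ → |x i| ≤ 2 ^ k := by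
  unfold sJ at hj
  rw [Fintype.mem_piFinset] at hj
  have h24 : (2 : ℝ) ^ k ≤ 4 ^ k := pow_le_pow_left₀ (by norm_num) (by norm_num) k
  have h4 : (1 : ℝ) ≤ 4 ^ k := one_le_pow₀ (by norm_num)
  have hj0 : (0 : ℝ) ≤ j i₀ ∧ (j i₀ : ℝ) + 1 ≤ 4 ^ k := by
    have h1 := hj i₀
    rw [if_pos rfl, Finset.mem_Ico] at h1
    exact ⟨by exact_mod_cast h1.1, by exact_mod_cast h1.2⟩
  have hji : ∀ i, i ≠ i₀ → (0 : ℝ) ≤ j i ∧ (j i : ℝ) + 1 ≤ 2 ^ k := by
    intro i hi
    have h1 := hj i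
    rw [if_neg hi, Finset.mem_Ico] at h1
    exact ⟨by exact_mod_cast h1.1, by exact_mod_cast h1.2⟩
  constructor
  · have : ‖j‖ ≤ 4 ^ k := by
      rw [pi_norm_le_iff_of_nonneg (by positivity)]
      intro i
      rw [Int.norm_eq_abs]
      by_cases hi : i = i₀
      · rw [hi, abs_of_nonneg hj0.1]
        linarith [hj0.2]
      · rw [abs_of_nonneg (hji i hi).1]
        linarith [(hji i hi).2]
    linarith
  · intro x hx
    refine ⟨?_, fun i hi => ?_⟩
    · have h1 := hx i₀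
      rw [abs_of_nonneg (by linarith [h1.1, hj0.1])]
      linarith [h1.2, hj0.2]
    · have h1 := hx i
      have h2 := hji i hi
      rw [abs_of_nonneg (by linarith [h1.1, h2.1])]
      linarith [h1.2, h2.2]

/-- sharpness for `L²` of the sphere -/
theorem sph_sharp (hn : 2 ≤ n) (s : ℝ)
    {Ω : Type*} [MeasurableSpace Ω] (P : Measure Ω) [IsProbabilityMeasure P]
    (A : (Fin n → ℤ) → Set Ω) (hAm : ∀ j, MeasurableSet (A j)) (hind : iIndepSet A P)
    (a c : ℝ) (ha : 0 < a) (ha1 : a ≤ 1) (hc : 0 < c)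
    (hp : ∀ j, ENNReal.ofReal (c * (1 + ‖j‖) ^ (-a)) ≤ P (A j)) :
    ∀ᵐ ω ∂P, ∀ q : ℝ, 0 < q → ((n : ℝ) - 1) * q / 2 < n + 1 - 2 * a → ∀ C : ℝ≥0,
      ∃ f : EuclideanSpace ℝ (Fin n) → ℂ, MemLp f 2 (sg n) ∧ C * eLpNorm f 2 (sg n) ^ q <
        ∫⁻ x in ⋃ j ∈ {j | ω ∈ A j}, uq j, ‖∫ w, ex ⟪sS s w, x⟫ * f w ∂(sg n)‖ₑ ^ q := by
  classical
  have hnR : (2 : ℝ) ≤ n := by exact_mod_cast hn
  set i₀ : Fin n := ⟨0, by omega⟩ with hi₀
  set e : EuclideanSpace ℝ (Fin n) := EuclideanSpace.single i₀ (1 : ℝ) with he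
  have hen : ‖e‖ = 1 := by rw [he]; simp
  have hei : ∀ i, i ≠ i₀ → e i = 0 := by
    intro i hi
    rw [he, PiLp.single_apply, if_neg hi]
  obtain ⟨c', hc'0, hc'⟩ := cap_lower n hn
  set δ : ℝ := 1 / ((|s| + 1) * (n + 1)) with hδ
  have hδ0 : 0 < δ := by positivity
  have hδ1 : δ ≤ 1 := by
    rw [hδ, div_le_one (by positivity)]
    have := abs_nonneg s
    nlinarith
  have hδs : |s| * (δ * n + δ) ≤ 1 := by
    have h1 : |s| * (δ * n + δ) = |s| / (|s| + 1) := by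
      rw [hδ]
      field_simp
    rw [h1, div_le_one (by positivity)]
    linarith
  set K : ℕ → Set (EuclideanSpace ℝ (Fin n)) := fun k => {w | ‖e - w‖ < δ / 2 ^ k} with hK
  have hKm : ∀ k, MeasurableSet (K k) := fun k => Pool.Agent.H789R2.FR.cap_meas _ _
  refine sharp_gen (sg n) (sS s) K hKm (sJ i₀) (min (c' * δ ^ (n - 1)) 1) 2 (by positivity)
    (by norm_num) (by linarith) (fun k => ?_) (fun k => ?_) (fun k j hj => (sJ_prop i₀ k j hj).1)
    (fun k j hj x hx => ?_) P A hAm hind a c ha ha1 hc hp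
  · have h2k : (0 : ℝ) < 2 ^ k := by positivity
    have h1 := hc' (δ / 2 ^ k) (by positivity)
      ((div_le_self hδ0.le (one_le_pow₀ (by norm_num))).trans hδ1) e hen
    refine le_trans ?_ h1
    have h2 : ((2 : ℝ) ^ k) ^ (-((n : ℝ) - 1)) = (((2 : ℝ) ^ k) ^ (n - 1))⁻¹ := by
      rw [Real.rpow_neg h2k.le]
      congr 1
      rw [← Real.rpow_natCast (2 ^ k) (n - 1), Nat.cast_sub (by omega : 1 ≤ n), Nat.cast_one]
    rw [h2, div_pow δ]
    calc min (c' * δ ^ (n - 1)) 1 * (((2 : ℝ) ^ k) ^ (n - 1))⁻¹ ≤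
          (c' * δ ^ (n - 1)) * (((2 : ℝ) ^ k) ^ (n - 1))⁻¹ :=
          mul_le_mul_of_nonneg_right (min_le_left _ _) (by positivity)
      _ = _ := by ring
  · rw [sJ_card i₀ k]
    exact mul_le_of_le_one_left (by positivity) (min_le_right _ _)
  · have hx2 := (sJ_prop i₀ k j hj).2 x hx
    have h1 := phase_low ((sg n).restrict (K k)) (fun w => ⟪sS s w, x⟫)
      ((sS_meas s).inner measurable_const) ⟪sS s e, x⟫ (by
        rw [ae_restrict_iff' (hKm k)]
        filter_upwards [sg_ae n] with w hw hwK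
        have hwK' : ‖e - w‖ < δ / 2 ^ k := hwK
        have h2k : (0 : ℝ) < 2 ^ k := by positivity
        have h2 : ⟪sS s w, x⟫ - ⟪sS s e, x⟫ = s * ∑ i, (w - e) i * x i := by
          unfold sS
          rw [← inner_sub_left, ← smul_sub, inner_smul_left]
          simp only [conj_trivial]
          congr 1
          rw [PiLp.inner_apply]
          refine Finset.sum_congr rfl fun i _ => ?_
          rw [RCLike.inner_apply, conj_trivial, mul_comm]
        rw [h2, abs_mul]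
        refine le_trans (mul_le_mul_of_nonneg_left ?_ (abs_nonneg s)) hδs
        have h3 : ‖w - e‖ ≤ δ / 2 ^ k := by rw [norm_sub_rev]; exact hwK'.le
        have h4 : (w - e) i₀ = -(‖w - e‖ ^ 2 / 2) := by
          have h5 : ‖w - e‖ ^ 2 = 2 - 2 * w i₀ := by
            rw [@norm_sub_sq_real, hw, hen]
            have h6 : ⟪w, e⟫ = w i₀ := by
              rw [he, EuclideanSpace.inner_single_right]
              simp
            rw [h6]
            ring
          have h7 : (w - e) i₀ = w i₀ - 1 := by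
            rw [PiLp.sub_apply, he, PiLp.single_apply, if_pos rfl]
          rw [h7, h5]
          ring
        have h8 : ∀ i ∈ (Finset.univ : Finset (Fin n)), |(w - e) i * x i| ≤
            δ + if i = i₀ then δ else 0 := by
          intro i _
          rw [abs_mul]
          by_cases hi : i = i₀
          · rw [if_pos hi, hi, h4, abs_neg, abs_of_nonneg (by positivity)]
            have h9 : ‖w - e‖ ^ 2 ≤ (δ / 2 ^ k) ^ 2 := pow_le_pow_left₀ (norm_nonneg _) h3 2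
            have h10 : (δ / 2 ^ k) ^ 2 * 4 ^ k = δ ^ 2 := by
              have : (4 : ℝ) ^ k = (2 ^ k) ^ 2 := by
                rw [← pow_mul, mul_comm k 2, pow_mul]; norm_num
              rw [this]
              field_simp
            calc ‖w - e‖ ^ 2 / 2 * |x i₀| ≤ (δ / 2 ^ k) ^ 2 / 2 * 4 ^ k :=
                  mul_le_mul (by linarith) hx2.1 (abs_nonneg _) (by positivity)
              _ = δ ^ 2 / 2 := by rw [div_mul_eq_mul_div, h10]
              _ ≤ δ + δ := by nlinarith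
          · rw [if_neg hi, add_zero]
            have h11 : |(w - e) i| ≤ δ / 2 ^ k := (PiLp.norm_apply_le (w - e) i).trans h3
            calc |(w - e) i| * |x i| ≤ (δ / 2 ^ k) * 2 ^ k :=
                  mul_le_mul h11 (hx2.2 i hi) (abs_nonneg _) (by positivity)
              _ = δ := by field_simp
        refine (Finset.abs_sum_le_sum_abs _ _).trans ((Finset.sum_le_sum h8).trans (le_of_eq ?_))
        rw [Finset.sum_add_distrib, Finset.sum_const, Finset.card_univ, Fintype.card_fin,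
          nsmul_eq_mul, Finset.sum_ite_eq' Finset.univ i₀ (fun _ => δ),
          if_pos (Finset.mem_univ _)]
        ring)
    refine le_trans (le_of_eq ?_) h1
    rw [Measure.real, Measure.real, Measure.restrict_apply_univ]

end Pool.Agent.N248.RR
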