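import Mathlib
import Pool.Agent.N248.RR.S2
import Pool.Agent.N248.RR.Z
set_option autoImplicit false

/-! Random regions for the sphere: the pieces of the theorem. -/

namespace Pool.Agent.N248.RR

open MeasureTheory Set ProbabilityTheory Filter
open scoped ENNReal NNReal RealInnerProductSpace ComplexConjugate
open Pool.Agent.H789R2.FR (sg T sg_finite sg_ae L2_bound decay cap_lower)

variable {n : ℕ}

/-- the Fourier transform of `f dσ` -/
noncomputable def sF (s₀ : ℝ) (f : EuclideanSpace ℝ (Fin n) → ℂ)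
    (x : EuclideanSpace ℝ (Fin n)) : ℂ := ∫ w, ex ⟪sS s₀ w, x⟫ * f w ∂(sg n)

/-- `L^s(σ) → L^q(W)` boundedness -/
def BddS (s₀ : ℝ) (s : ℝ≥0∞) (q : ℝ) (W : Set (EuclideanSpace ℝ (Fin n))) : Prop :=
  ∃ C : ℝ≥0, ∀ f : EuclideanSpace ℝ (Fin n) → ℂ, MemLp f s (sg n) →
    ∫⁻ x in W, ‖sF s₀ f x‖ₑ ^ q ≤ C * eLpNorm f s (sg n) ^ q

theorem coord_pow (hn : 2 ≤ n) (x : EuclideanSpace ℝ (Fin n)) (t : Fin n) (hx : 1 ≤ |x t|) :
    ‖x‖ ^ (-(((n : ℝ) - 1) / 2)) ≤ |x t| ^ (-(((n : ℝ) - 1) / 2)) := by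
  have hnR : (2 : ℝ) ≤ n := by exact_mod_cast hn
  have h1 : |x t| ≤ ‖x‖ := PiLp.norm_apply_le x t
  exact Real.rpow_le_rpow_of_nonpos (by linarith) h1 (by linarith)

/-- the case of `L²` -/
theorem sph_two (hn : 2 ≤ n) (s₀ : ℝ) (hs₀ : s₀ ≠ 0)
    {Ω : Type*} [MeasurableSpace Ω] (P : Measure Ω) (A : (Fin n → ℤ) → Set Ω) (a : ℝ)
    (ha : 0 < a) (ha1 : a ≤ 1) (hA : RC P A a) :
    ∀ᵐ ω ∂P, ∀ s : ℝ≥0∞, 2 ≤ s → ∀ q : ℝ, (2 + 4 / ((n : ℝ) - 1)) - a * (4 / ((n : ℝ) - 1)) < q →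
      BddS s₀ s q (⋃ j ∈ {j | ω ∈ A j}, uq j) := by
  obtain ⟨c, hc1, hc⟩ := hA.up1
  have hnR : (2 : ℝ) ≤ n := by exact_mod_cast hn
  obtain ⟨L₁, hL₁0, hL₁⟩ := sph_energy hn s₀ hs₀
  obtain ⟨L₂, hL₂0, hL₂⟩ := sph_decay hn s₀ hs₀
  have hR : ∀ᵐ w ∂(sg n), ‖sS s₀ w‖ ≤ |s₀| := by
    filter_upwards [sg_ae n] with w hw
    unfold sS
    rw [norm_smul, hw, mul_one, Real.norm_eq_abs]
  have h := regions_surface (sg n) (sS s₀) (sS_meas s₀) (id : Fin n → Fin n) (L₁ + L₂)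
    (((n : ℝ) - 1) / 2) (((n : ℝ) - 1) / 2) (by linarith) (by linarith) (by linarith)
    (by
      intro f B hB α τ hτ hBα
      refine (hL₁ f B hB α τ hτ hBα).trans (mul_le_mul' (ENNReal.ofReal_le_ofReal ?_) le_rfl)
      exact mul_le_mul_of_nonneg_right (by linarith) (by linarith))
    |s₀| (abs_nonneg _) hR
    (by
      intro x t hx
      have hx0 : x ≠ 0 := by
        intro h0
        rw [h0] at hx
        simp only [id_eq, PiLp.zero_apply, abs_zero] at hx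
        linarith
      refine (hL₂ x hx0).trans ?_
      exact mul_le_mul (by linarith) (coord_pow hn x t hx) (by positivity) (by linarith))
    (by
      intro x hx
      refine (hL₂ x hx).trans ?_
      exact mul_le_mul_of_nonneg_right (by linarith) (by positivity))
    P A a c ha ha1 hc1 hA.prod hc
  filter_upwards [h] with ω hω
  intro s hs q hq
  have hq0 : 0 < q := by
    have h1 : 0 < 4 / ((n : ℝ) - 1) := by
      have : 0 < (n : ℝ) - 1 := by linarith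
      positivity
    nlinarith
  have h2g : 2 / (((n : ℝ) - 1) / 2) = 4 / ((n : ℝ) - 1) := by field_simp; norm_num
  obtain ⟨C, hC⟩ := hω q (by rw [h2g]; exact hq)
  set K : ℝ≥0∞ := (sg n) univ ^ (1 / (2 : ℝ≥0∞).toReal - 1 / s.toReal) with hK
  have hexp : 0 ≤ 1 / (2 : ℝ≥0∞).toReal - 1 / s.toReal := by
    by_cases hst : s = ∞
    · rw [hst]; simp
    · have h1 : (2 : ℝ≥0∞).toReal ≤ s.toReal := ENNReal.toReal_mono hst hs
      rw [ENNReal.toReal_ofNat] at h1 ⊢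
      rw [sub_nonneg]
      exact one_div_le_one_div_of_le (by norm_num) h1
  have hKt : K ≠ ∞ := ENNReal.rpow_ne_top_of_nonneg hexp (measure_ne_top _ _)
  have hKq : K ^ q ≠ ∞ := ENNReal.rpow_ne_top_of_nonneg hq0.le hKt
  refine ⟨C * (K ^ q).toNNReal, fun f hf => ?_⟩
  rw [ENNReal.coe_mul, ENNReal.coe_toNNReal hKq]
  obtain ⟨F, hF0, hF1, hF2⟩ := piece_level (sg n) (sS s₀) (sS_meas s₀) univ MeasurableSet.univ f
    (by rw [Measure.restrict_univ]; exact hf.mono_exponent hs)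
  simp_rw [Measure.restrict_univ] at hF2 hF1
  have h1 := hC F
  simp_rw [hF2] at h1
  unfold sF
  refine h1.trans ?_
  rw [mul_assoc, ← ENNReal.mul_rpow_of_nonneg _ _ hq0.le, hF1, mul_comm K]
  refine mul_le_mul' le_rfl (ENNReal.rpow_le_rpow ?_ hq0.le)
  exact eLpNorm_le_eLpNorm_mul_rpow_measure_univ hs hf.1

/-- transference -/
theorem sph_class (hn : 2 ≤ n) (s₀ : ℝ) (hs₀ : s₀ ≠ 0)
    {Ω : Type*} [MeasurableSpace Ω] (P : Measure Ω) (A : (Fin n → ℤ) → Set Ω) (a : ℝ)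
    (ha : 0 < a) (ha1 : a ≤ 1) (hA : RC P A a) (s : ℝ≥0∞) (hs : 2 ≤ s) (p : ℝ) (hp : 2 ≤ p)
    (hext : ∀ p', p < p' → BddS (n := n) s₀ s p' univ) :
    ∀ᵐ ω ∂P, ∀ q : ℝ, p - a * (p - 2) < q → BddS s₀ s q (⋃ j ∈ {j | ω ∈ A j}, uq j) := by
  obtain ⟨c, hc1, hc⟩ := hA.up1
  have hnR : (2 : ℝ) ≤ n := by exact_mod_cast hn
  obtain ⟨L₁, hL₁0, hL₁⟩ := sph_energy hn s₀ hs₀
  obtain ⟨L₂, hL₂0, hL₂⟩ := sph_decay hn s₀ hs₀
  have hR : ∀ᵐ w ∂(sg n), ‖sS s₀ w‖ ≤ |s₀| := by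
    filter_upwards [sg_ae n] with w hw
    unfold sS
    rw [norm_smul, hw, mul_one, Real.norm_eq_abs]
  have hk : ∀ k : ℕ, ∀ᵐ ω ∂P, ∀ q : ℝ, (p + 1 / (k + 1)) - a * ((p + 1 / (k + 1)) - 2) < q →
      BddS s₀ s q (⋃ j ∈ {j | ω ∈ A j}, uq j) := by
    intro k
    have hk0 : (0 : ℝ) < 1 / ((k : ℝ) + 1) := by positivity
    obtain ⟨C₀, hC₀⟩ := hext (p + 1 / (k + 1)) (by linarith)
    simp_rw [setLIntegral_univ] at hC₀
    have h := regions_norm (sg n) (sS s₀) (sS_meas s₀) (id : Fin n → Fin n) (L₁ + L₂)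
      (((n : ℝ) - 1) / 2) (by linarith) (by linarith)
      (by
        intro f B hB α τ hτ hBα
        refine (hL₁ f B hB α τ hτ hBα).trans (mul_le_mul' (ENNReal.ofReal_le_ofReal ?_) le_rfl)
        exact mul_le_mul_of_nonneg_right (by linarith) (by linarith))
      |s₀| (abs_nonneg _) hR
      (by
        intro x hx
        refine (hL₂ x hx).trans ?_
        exact mul_le_mul_of_nonneg_right (by linarith) (by positivity))
      univ MeasurableSet.univ s hs (p + 1 / (k + 1)) (by linarith) C₀ (by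
        rw [Measure.restrict_univ]
        exact hC₀) P A a c ha ha1 hc1 hA.prod hc
    rw [Measure.restrict_univ] at h
    exact h
  filter_upwards [ae_all_iff.2 hk] with ω hω
  intro q hq
  obtain ⟨k, hk⟩ := exists_nat_one_div_lt (show 0 < q - (p - a * (p - 2)) by linarith)
  refine hω k q ?_
  have hk0 : (0 : ℝ) < 1 / ((k : ℝ) + 1) := by positivity
  nlinarith

/-- the range for `L²` is sharp -/
theorem not_sph_two (hn : 2 ≤ n) (s₀ : ℝ)
    {Ω : Type*} [MeasurableSpace Ω] (P : Measure Ω) [IsProbabilityMeasure P]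
    (A : (Fin n → ℤ) → Set Ω) (a : ℝ) (ha : 0 < a) (ha1 : a ≤ 1) (hA : RC P A a) :
    ∀ᵐ ω ∂P, ∀ q : ℝ, 0 < q → ((n : ℝ) - 1) * q / 2 < n + 1 - 2 * a →
      ¬ BddS s₀ 2 q (⋃ j ∈ {j | ω ∈ A j}, uq j) := by
  obtain ⟨c, hc0, hc⟩ := hA.low
  filter_upwards [sph_sharp hn s₀ P A hA.meas hA.indep a c ha ha1 hc0 hc] with ω hω
  intro q hq0 hq ⟨C, hC⟩
  obtain ⟨f, hf1, hf2⟩ := hω q hq0 hq C
  exact absurd (hC f hf1) (not_le.2 hf2)

/-- the Fourier transform of the surface measure -/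
theorem not_sph_top (hn : 2 ≤ n) (s₀ : ℝ) (hs₀ : s₀ ≠ 0)
    {Ω : Type*} [MeasurableSpace Ω] (P : Measure Ω) [IsProbabilityMeasure P]
    (A : (Fin n → ℤ) → Set Ω) (a : ℝ) (ha : 0 < a) (ha1 : a ≤ 1) (hA : RC P A a) :
    ∀ᵐ ω ∂P, ∀ q : ℝ, 0 < q → ((n : ℝ) - 1) / 2 * q < n - a →
      ∫⁻ x in ⋃ j ∈ {j | ω ∈ A j}, uq j, ‖sF s₀ (fun _ => 1) x‖ₑ ^ q = ∞ := by
  obtain ⟨c, hc0, hc⟩ := hA.low
  have hnR : (2 : ℝ) ≤ n := by exact_mod_cast hn
  obtain ⟨L₁, hL₁0, hL₁⟩ := sph_energy hn s₀ hs₀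
  obtain ⟨L₂, hL₂0, hL₂⟩ := sph_decay hn s₀ hs₀
  obtain ⟨c₀, hc₀0, hc₀⟩ := sph_near hn s₀ hs₀
  set F : Lp ℂ 2 (sg n) := ps (sg n) (sS s₀) (sS_meas s₀) 0 with hF
  have hFx : ∀ x, inner ℂ (ps (sg n) (sS s₀) (sS_meas s₀) x) F = ft (sg n) (sS s₀) x := by
    intro x
    rw [hF, ps_inner_ps]
    unfold ft
    simp_rw [sub_zero]
  have h := diverge (sg n) (sS s₀) (sS_meas s₀) (id : Fin n → Fin n)
    (1 + L₁ * ‖F‖ ^ 2 + L₂) c₀ (by
      have : 0 ≤ L₁ * ‖F‖ ^ 2 := by positivity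
      linarith) hc₀0 (by
      intro B hB α τ hτ hBα
      have h1 := hL₁ F B hB α τ hτ hBα
      simp_rw [hFx] at h1
      refine h1.trans ?_
      rw [← ENNReal.ofReal_mul (by positivity)]
      refine ENNReal.ofReal_le_ofReal ?_
      calc L₁ * τ * ‖F‖ ^ 2 = (L₁ * ‖F‖ ^ 2) * τ := by ring
        _ ≤ _ := mul_le_mul_of_nonneg_right (by linarith) (by linarith))
    (by
      intro x t hx
      have hx0 : x ≠ 0 := by
        intro h0
        rw [h0] at hx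
        simp only [id_eq, PiLp.zero_apply, abs_zero] at hx
        linarith
      have hL : 0 ≤ L₁ * ‖F‖ ^ 2 := by positivity
      refine (hL₂ x hx0).trans ?_
      exact mul_le_mul (by linarith) (coord_pow hn x t hx) (by positivity) (by linarith))
    hnR hc₀ P A hA.meas hA.indep a c ha ha1 hc0 hc
  filter_upwards [h] with ω hω
  intro q hq0 hq
  have h1 := hω q hq0 hq
  unfold ft at h1
  unfold sF
  simp_rw [mul_one]
  exact h1

end Pool.Agent.N248.RR
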