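import Mathlib
import Pool.Agent.N248.RR.S3
set_option autoImplicit false

/-! The closed graph theorem for the Fourier transform of densities on the sphere. -/

namespace Pool.Agent.N248.RR

open MeasureTheory Set Filter
open scoped ENNReal NNReal RealInnerProductSpace ComplexConjugate
open Pool.Agent.H789R2.FR (sg T sg_finite sg_ae)

variable {n : ℕ}

theorem sF_congr (s₀ : ℝ) {f g : EuclideanSpace ℝ (Fin n) → ℂ} (h : f =ᵐ[sg n] g)
    (x : EuclideanSpace ℝ (Fin n)) : sF s₀ f x = sF s₀ g x := by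
  unfold sF
  refine integral_congr_ae ?_
  filter_upwards [h] with w hw
  rw [hw]

theorem sF_int (s₀ : ℝ) {f : EuclideanSpace ℝ (Fin n) → ℂ} (hf : Integrable f (sg n))
    (x : EuclideanSpace ℝ (Fin n)) : Integrable (fun w => ex ⟪sS s₀ w, x⟫ * f w) (sg n) := by
  refine hf.bdd_mul (c := 1) ?_ (Filter.Eventually.of_forall fun w => (ex_norm _).le)
  exact (ex_cont.measurable.comp ((sS_meas s₀).inner measurable_const)).aestronglyMeasurable

theorem sF_sub (s₀ : ℝ) {f g : EuclideanSpace ℝ (Fin n) → ℂ} (hf : Integrable f (sg n))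
    (hg : Integrable g (sg n)) (x : EuclideanSpace ℝ (Fin n)) :
    sF s₀ (f - g) x = sF s₀ f x - sF s₀ g x := by
  unfold sF
  rw [← integral_sub (sF_int s₀ hf x) (sF_int s₀ hg x)]
  refine integral_congr_ae (Filter.Eventually.of_forall fun w => ?_)
  simp only [Pi.sub_apply]
  ring

theorem sF_add (s₀ : ℝ) {f g : EuclideanSpace ℝ (Fin n) → ℂ} (hf : Integrable f (sg n))
    (hg : Integrable g (sg n)) (x : EuclideanSpace ℝ (Fin n)) :
    sF s₀ (f + g) x = sF s₀ f x + sF s₀ g x := by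
  unfold sF
  rw [← integral_add (sF_int s₀ hf x) (sF_int s₀ hg x)]
  refine integral_congr_ae (Filter.Eventually.of_forall fun w => ?_)
  simp only [Pi.add_apply]
  ring

theorem sF_smul (s₀ : ℝ) (c : ℂ) (f : EuclideanSpace ℝ (Fin n) → ℂ)
    (x : EuclideanSpace ℝ (Fin n)) : sF s₀ (c • f) x = c * sF s₀ f x := by
  unfold sF
  rw [← integral_const_mul]
  refine integral_congr_ae (Filter.Eventually.of_forall fun w => ?_)
  simp only [Pi.smul_apply, smul_eq_mul]
  ring

theorem sF_norm (s₀ : ℝ) (f : EuclideanSpace ℝ (Fin n) → ℂ)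
    (x : EuclideanSpace ℝ (Fin n)) : ‖sF s₀ f x‖ₑ ≤ eLpNorm f 1 (sg n) := by
  unfold sF
  rw [eLpNorm_one_eq_lintegral_enorm]
  refine (enorm_integral_le_lintegral_enorm _).trans (le_of_eq ?_)
  refine lintegral_congr fun w => ?_
  rw [enorm_mul]
  have : ‖ex ⟪sS s₀ w, x⟫‖ₑ = 1 := by rw [← ofReal_norm, ex_norm, ENNReal.ofReal_one]
  rw [this, one_mul]

theorem sF_meas (s₀ : ℝ) (f : EuclideanSpace ℝ (Fin n) → ℂ) (hf : Measurable f) :
    Measurable (sF s₀ f) := by
  have h : StronglyMeasurable (fun p : EuclideanSpace ℝ (Fin n) × EuclideanSpace ℝ (Fin n) =>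
      ex ⟪sS s₀ p.2, p.1⟫ * f p.2) :=
    ((ex_cont.measurable.comp (((sS_meas s₀).comp measurable_snd).inner measurable_fst)).mul
      (hf.comp measurable_snd)).stronglyMeasurable
  exact h.integral_prod_right'.measurable

/-- **The closed graph theorem.** -/
theorem closed_graph (s₀ : ℝ) (s : ℝ≥0∞) (hs : 1 ≤ s) (p : ℝ) (hp : 1 ≤ p)
    (h : ∀ f : EuclideanSpace ℝ (Fin n) → ℂ, MemLp f s (sg n) →
      ∫⁻ x, ‖sF s₀ f x‖ₑ ^ p ≠ ∞) : BddS (n := n) s₀ s p univ := by
  have hp0 : 0 < p := by linarith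
  have : Fact (1 ≤ s) := ⟨hs⟩
  have : Fact (1 ≤ ENNReal.ofReal p) := ⟨by
    rw [← ENNReal.ofReal_one]; exact ENNReal.ofReal_le_ofReal hp⟩
  have hpe0 : ENNReal.ofReal p ≠ 0 := (ENNReal.ofReal_pos.2 hp0).ne'
  have hnorm : ∀ u : EuclideanSpace ℝ (Fin n) → ℂ,
      eLpNorm u (ENNReal.ofReal p) volume = (∫⁻ x, ‖u x‖ₑ ^ p) ^ (1 / p) := by
    intro u
    rw [eLpNorm_eq_lintegral_rpow_enorm_toReal hpe0 ENNReal.ofReal_ne_top,
      ENNReal.toReal_ofReal hp0.le]
  have hint : ∀ f : Lp ℂ s (sg n), Integrable f (sg n) := fun f => (Lp.memLp f).integrable hs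
  have hmem : ∀ f : Lp ℂ s (sg n), MemLp (sF s₀ f) (ENNReal.ofReal p) volume := by
    intro f
    refine ⟨(sF_meas s₀ f (Lp.stronglyMeasurable f).measurable).aestronglyMeasurable, ?_⟩
    rw [hnorm]
    exact ENNReal.rpow_lt_top_of_nonneg (by positivity) (h f (Lp.memLp f))
  set g : Lp ℂ s (sg n) →ₗ[ℂ] Lp ℂ (ENNReal.ofReal p)
      (volume : Measure (EuclideanSpace ℝ (Fin n))) :=
    { toFun := fun f => (hmem f).toLp (sF s₀ f)
      map_add' := by
        intro f k
        rw [← MemLp.toLp_add]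
        refine MemLp.toLp_congr _ _ (Filter.Eventually.of_forall fun x => ?_)
        rw [Pi.add_apply, ← sF_add s₀ (hint f) (hint k)]
        exact sF_congr s₀ (Lp.coeFn_add f k) x
      map_smul' := by
        intro c f
        rw [RingHom.id_apply, ← MemLp.toLp_const_smul]
        refine MemLp.toLp_congr _ _ (Filter.Eventually.of_forall fun x => ?_)
        rw [Pi.smul_apply, smul_eq_mul, ← sF_smul s₀ c]
        exact sF_congr s₀ (Lp.coeFn_smul c f) x } with hg
  have hgx : ∀ f : Lp ℂ s (sg n), g f =ᵐ[volume] sF s₀ f := fun f => (hmem f).coeFn_toLp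
  have hclosed : IsClosed (g.graph : Set (Lp ℂ s (sg n) × Lp ℂ (ENNReal.ofReal p)
      (volume : Measure (EuclideanSpace ℝ (Fin n))))) := by
    refine IsSeqClosed.isClosed ?_
    intro z z₀ hz hlim
    have hz' : ∀ k, (z k).2 = g (z k).1 := fun k => by
      have := hz k
      rwa [SetLike.mem_coe, LinearMap.mem_graph_iff] at this
    rw [SetLike.mem_coe, LinearMap.mem_graph_iff]
    have h1 : Tendsto (fun k => (z k).1) atTop (nhds z₀.1) := (Prod.tendsto_iff _ _ |>.1 hlim).1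
    have h2 : Tendsto (fun k => (z k).2) atTop (nhds z₀.2) := (Prod.tendsto_iff _ _ |>.1 hlim).2
    -- pointwise convergence
    have hpt : ∀ x, Tendsto (fun k => sF s₀ (z k).1 x) atTop (nhds (sF s₀ z₀.1 x)) := by
      intro x
      rw [tendsto_iff_norm_sub_tendsto_zero]
      set K : ℝ≥0∞ := (sg n) univ ^ (1 / (1 : ℝ≥0∞).toReal - 1 / s.toReal) with hK
      have hexp : 0 ≤ 1 / (1 : ℝ≥0∞).toReal - 1 / s.toReal := by
        by_cases hst : s = ∞
        · rw [hst]; simp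
        · have h1 : (1 : ℝ≥0∞).toReal ≤ s.toReal := ENNReal.toReal_mono hst hs
          rw [ENNReal.toReal_one] at h1 ⊢
          rw [sub_nonneg]
          exact one_div_le_one_div_of_le (by norm_num) h1
      have hKt : K ≠ ∞ := ENNReal.rpow_ne_top_of_nonneg hexp (measure_ne_top _ _)
      have hle : ∀ k, ‖sF s₀ (z k).1 x - sF s₀ z₀.1 x‖ ≤ ‖(z k).1 - z₀.1‖ * K.toReal := by
        intro k
        have h3 : ‖sF s₀ (z k).1 x - sF s₀ z₀.1 x‖ₑ ≤ ‖(z k).1 - z₀.1‖ₑ * K := by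
          rw [← sF_sub s₀ (hint _) (hint _),
            ← sF_congr s₀ (Lp.coeFn_sub (z k).1 z₀.1) x]
          refine (sF_norm s₀ _ x).trans ?_
          rw [Lp.enorm_def]
          exact eLpNorm_le_eLpNorm_mul_rpow_measure_univ hs (Lp.aestronglyMeasurable _)
        have h4 := (ENNReal.toReal_le_toReal enorm_ne_top
          (ENNReal.mul_ne_top enorm_ne_top hKt)).2 h3
        rwa [ENNReal.toReal_mul, toReal_enorm, toReal_enorm] at h4
      have h5 : Tendsto (fun k => ‖(z k).1 - z₀.1‖ * K.toReal) atTop (nhds 0) := by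
        have := (tendsto_iff_norm_sub_tendsto_zero.1 h1).mul_const K.toReal
        rwa [zero_mul] at this
      exact squeeze_zero (fun k => norm_nonneg _) hle h5
    obtain ⟨ns, hns, hns2⟩ := (tendstoInMeasure_of_tendsto_Lp h2).exists_seq_tendsto_ae
    refine Lp.ext ?_
    have hall : ∀ᵐ x ∂(volume : Measure (EuclideanSpace ℝ (Fin n))), ∀ k,
        ((z k).2 : EuclideanSpace ℝ (Fin n) → ℂ) x = sF s₀ (z k).1 x := by
      rw [ae_all_iff]
      intro k
      rw [hz' k]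
      exact hgx (z k).1
    filter_upwards [hns2, hall, hgx z₀.1] with x hx1 hx2 hx3
    rw [hx3]
    refine tendsto_nhds_unique hx1 ?_
    simp_rw [hx2]
    exact (hpt x).comp hns.tendsto_atTop
  have hcont : Continuous g := g.continuous_of_isClosed_graph hclosed
  set G : Lp ℂ s (sg n) →L[ℂ] Lp ℂ (ENNReal.ofReal p)
    (volume : Measure (EuclideanSpace ℝ (Fin n))) := ⟨g, hcont⟩ with hG
  refine ⟨(‖G‖₊ ^ p : ℝ≥0), fun f hf => ?_⟩
  rw [setLIntegral_univ]
  set F : Lp ℂ s (sg n) := hf.toLp f with hF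
  have h1 : ‖G F‖ₑ ≤ ‖G‖ₑ * ‖F‖ₑ := by
    have := G.le_opENorm F
    exact this
  have h2 : ‖G F‖ₑ = (∫⁻ x, ‖sF s₀ f x‖ₑ ^ p) ^ (1 / p) := by
    rw [Lp.enorm_def, ← hnorm]
    refine eLpNorm_congr_ae ?_
    have h3 : (G F : EuclideanSpace ℝ (Fin n) → ℂ) =ᵐ[volume] sF s₀ F := hgx F
    refine h3.trans (Filter.Eventually.of_forall fun x => ?_)
    exact sF_congr s₀ hf.coeFn_toLp x
  have h3 : ‖F‖ₑ = eLpNorm f s (sg n) := by
    rw [Lp.enorm_def]
    exact eLpNorm_congr_ae hf.coeFn_toLp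
  rw [h2, h3] at h1
  have h4 := ENNReal.rpow_le_rpow h1 hp0.le
  rw [← ENNReal.rpow_mul, one_div_mul_cancel hp0.ne', ENNReal.rpow_one,
    ENNReal.mul_rpow_of_nonneg _ _ hp0.le] at h4
  refine h4.trans (le_of_eq ?_)
  congr 1
  rw [ENNReal.coe_rpow_of_nonneg _ hp0.le]
  rfl

end Pool.Agent.N248.RR
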